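import Pool.Agent.HX.Stmts

/-!
Module ADM (MP_629fb1_pr, helper82): the hole probability gives good exponents.
-/

namespace Pool.Agent.HX

open MeasureTheory ProbabilityTheory Filter Topology Pool.Agent.GH Pool.Agent.HA

universe u

namespace ADM

lemma good_mono (K : Set ℂ) (c c' : ℝ) (h : c ≤ c') (hc : Good K c) : Good K c' := by
  obtain ⟨m, hm, g, hg, hr⟩ := hc
  refine ⟨m, hm, g, hg, ?_⟩
  filter_upwards [hr] with r hr n z hz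
  refine (hr n z hz).trans (Real.exp_le_exp.mpr ?_)
  exact mul_le_mul_of_nonneg_right h (by positivity)

lemma cl_cont (K : Set ℂ) (ρ τ : ℝ) (g : ℂ → ℂ) (hg : g ∈ Cl K ρ τ) :
    ContinuousOn (fun z => Real.log ‖g z‖) K := by
  obtain ⟨h1, h2, _⟩ := hg
  refine ContinuousOn.log (h1.continuous.norm.continuousOn) ?_
  intro z hz
  exact norm_ne_zero_iff.mpr (h2 z hz)

lemma by_shift (K : Set ℂ) (T r : ℝ) (u : ℂ → ℝ) (δ : ℝ) (N : ℕ) (B : ℝ) (hδ : 0 ≤ δ)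
    (h : BY K T r u N B) :
    BY K T r (fun z => u z - δ) N (B * Real.exp (2 * r ^ 2 * δ) ^ N) := by
  intro z b hzb
  have h0 := h z b hzb
  have hc : 0 ≤ cst r N := by
    unfold cst
    refine Finset.prod_nonneg (fun k _ => ?_)
    have : 0 ≤ r ^ (2 * k) := by rw [pow_mul]; positivity
    positivity
  have h1 : ∏ i, wt r (fun z => u z - δ) (b i) (z i) ≤
      (∏ i, wt r u (b i) (z i)) * Real.exp (2 * r ^ 2 * δ) ^ N := by
    have e1 : Real.exp (2 * r ^ 2 * δ) ^ N = ∏ _i : Fin N, Real.exp (2 * r ^ 2 * δ) := by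
      rw [Finset.prod_const, Finset.card_univ, Fintype.card_fin]
    rw [e1, ← Finset.prod_mul_distrib]
    refine Finset.prod_le_prod (fun i _ => ?_) (fun i _ => ?_)
    · unfold wt
      split_ifs <;> positivity
    · unfold wt
      split_ifs with hb
      · rw [← Real.exp_add]
        refine le_of_eq ?_
        congr 1
        ring
      · have h3 : 1 ≤ Real.exp (2 * r ^ 2 * δ) := Real.one_le_exp (by positivity)
        have h4 : 0 ≤ Real.exp (-(r ^ 2 * ‖z i‖ ^ 2)) := (Real.exp_pos _).le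
        nlinarith
  have h2 : 0 ≤ vdm z ^ 2 * cst r N := mul_nonneg (sq_nonneg _) hc
  calc vdm z ^ 2 * cst r N * ∏ i, wt r (fun z => u z - δ) (b i) (z i)
      ≤ vdm z ^ 2 * cst r N * ((∏ i, wt r u (b i) (z i)) * Real.exp (2 * r ^ 2 * δ) ^ N) :=
        mul_le_mul_of_nonneg_left h1 h2
    _ = (vdm z ^ 2 * cst r N * (∏ i, wt r u (b i) (z i))) * Real.exp (2 * r ^ 2 * δ) ^ N := by
        ring
    _ ≤ B * Real.exp (2 * r ^ 2 * δ) ^ N :=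
        mul_le_mul_of_nonneg_right h0 (pow_nonneg (Real.exp_pos _).le _)

lemma by_le (K : Set ℂ) (T r : ℝ) (u : ℂ → ℝ) (N : ℕ) (B B' : ℝ) (h : BY K T r u N B)
    (hB : B ≤ B') : BY K T r u N B' :=
  fun z b hzb => (h z b hzb).trans hB

lemma good_of (K : Set ℂ) (u : ℂ → ℝ) (c : ℝ) (m : ℕ) (h : ℂ → ℂ) (hm : 1 ≤ m)
    (hh : Hol K m h) (hu : ∀ z ∈ K, u z ≤ Real.log ‖h z‖ / m)
    (hB : ∀ᶠ r : ℝ in atTop, ∀ n : ℕ, BF K r u n (Real.exp (c * r ^ 4))) : Good K c := by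
  refine ⟨m, hm, h, hh, ?_⟩
  filter_upwards [hB] with r hr n z hz
  refine le_trans ?_ (hr n z hz)
  refine mul_le_mul_of_nonneg_left ?_ (norm_nonneg _)
  refine Finset.prod_le_prod (fun i _ => ?_) (fun i _ => ?_)
  · exact Real.rpow_nonneg (norm_nonneg _) _
  · have h1 : 0 < ‖h (z i)‖ := norm_pos_iff.mpr (hh.2.1 _ (hz i))
    rw [Real.rpow_def_of_pos h1]
    refine Real.exp_le_exp.mpr ?_
    have h2 := hu _ (hz i)
    have h3 : Real.log ‖h (z i)‖ * -(2 * r ^ 2 / (m : ℝ)) =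
        -(2 * r ^ 2 * (Real.log ‖h (z i)‖ / m)) := by ring
    rw [h3]
    have h4 : 2 * r ^ 2 * u (z i) ≤ 2 * r ^ 2 * (Real.log ‖h (z i)‖ / m) :=
      mul_le_mul_of_nonneg_left h2 (by positivity)
    linarith

end ADM

open ADM in
theorem ADM_thm (hSCA : SCA_Stmt) (hLOW : LOW_Stmt.{u}) (hPRW : PRW_Stmt) : ADM_Stmt.{u} := by
  intro Ω _ P ξ hP K Q hK hQ ε hε
  -- the radius
  obtain ⟨R₀, hR₀, hKR⟩ : ∃ R₀ : ℝ, 1 ≤ R₀ ∧ ∀ z ∈ K, ‖z‖ ≤ R₀ := by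
    obtain ⟨C, hC⟩ := hK.isBounded.exists_norm_le
    exact ⟨max C 1, le_max_right _ _, fun z hz => (hC z hz).trans (le_max_left _ _)⟩
  obtain ⟨Q', hQ', hQQ⟩ : ∃ Q' : ℝ, 0 < Q' ∧ Q ≤ Q' :=
    ⟨max Q 1, lt_of_lt_of_le one_pos (le_max_right _ _), le_max_left _ _⟩
  obtain ⟨ε', hε', hε1, hεε⟩ : ∃ ε' : ℝ, 0 < ε' ∧ ε' ≤ 1 ∧ ε' ≤ ε :=
    ⟨min ε 1, lt_min hε one_pos, min_le_right _ _, min_le_left _ _⟩
  obtain ⟨R, hR, hSC⟩ := hSCA R₀ (Q' + 1) (ε' / 3) hR₀ (by linarith) (by linarith)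
  have hR1 : 1 ≤ R := hR₀.trans hR
  -- the small constant
  obtain ⟨ε₁, hε₁, hε₁h, hε₁s⟩ : ∃ ε₁ : ℝ, 0 < ε₁ ∧ ε₁ ≤ 1 / 2 ∧
      ε₁ + 4 * (4 * ε₁ * (1 + R₀ ^ 2)) * R ^ 2 ≤ ε' / 3 := by
    have h1 : 0 < 1 + 16 * (1 + R₀ ^ 2) * R ^ 2 := by positivity
    refine ⟨ε' / 3 / (1 + 16 * (1 + R₀ ^ 2) * R ^ 2), by positivity, ?_, ?_⟩
    · have h2 : ε' / 3 / (1 + 16 * (1 + R₀ ^ 2) * R ^ 2) ≤ ε' / 3 := by
        apply div_le_self (by positivity)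
        have : 0 ≤ 16 * (1 + R₀ ^ 2) * R ^ 2 := by positivity
        linarith
      linarith
    · have h2 : ε' / 3 / (1 + 16 * (1 + R₀ ^ 2) * R ^ 2) * (1 + 16 * (1 + R₀ ^ 2) * R ^ 2) =
          ε' / 3 := div_mul_cancel₀ _ h1.ne'
      refine le_trans (le_of_eq ?_) h2.le
      ring
  have hbig : ∀ᶠ r : ℝ in atTop, (2 : ℝ) ≤ r := eventually_ge_atTop 2
  have hlow := hLOW P ξ hP K R₀ Q' R ε₁ hK hR₀ hKR hQ' hR hε₁
  filter_upwards [hbig, hQ, hSC, hlow] with r hr hQr hSCr hlowr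
  have hr0 : 0 < r := by linarith
  have hr4 : 0 < r ^ 4 := by positivity
  have hr2 : 4 ≤ r ^ 2 := by nlinarith
  have hQ'r : Real.exp (-(Q' * r ^ 4)) ≤ holeP P ξ K r := by
    refine le_trans (Real.exp_le_exp.mpr ?_) hQr
    have := mul_le_mul_of_nonneg_right hQQ hr4.le
    linarith
  have hpos : 0 < holeP P ξ K r := lt_of_lt_of_le (Real.exp_pos _) hQ'r
  have hle1 : holeP P ξ K r ≤ 1 := by
    have := hP.prob
    unfold holeP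
    exact measureReal_le_one
  obtain ⟨m, t, g, ht, ht1, hg, hBY⟩ := hlowr hQ'r
  obtain ⟨p, hp⟩ : ∃ p, p = -Real.log (holeP P ξ K r) := ⟨_, rfl⟩
  have hp0 : 0 ≤ p := by
    rw [hp]
    have := Real.log_nonpos hpos.le hle1
    linarith
  have hpQ : p ≤ Q' * r ^ 4 := by
    have h1 : -(Q' * r ^ 4) ≤ Real.log (holeP P ξ K r) := by
      rw [← Real.log_exp (-(Q' * r ^ 4))]
      exact Real.log_le_log (Real.exp_pos _) hQ'r
    rw [hp]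
    linarith
  have hinv : 1 / holeP P ξ K r = Real.exp p := by
    rw [hp, Real.exp_neg, Real.exp_log hpos, one_div]
  obtain ⟨ε₂, hε₂⟩ : ∃ ε₂, ε₂ = 4 * ε₁ * (1 + R₀ ^ 2) := ⟨_, rfl⟩
  have hε₂0 : 0 ≤ ε₂ := by rw [hε₂]; positivity
  obtain ⟨us, hus⟩ : ∃ us : ℂ → ℝ, us = fun z => (∑ i, t i * Real.log ‖g i z‖) / r ^ 2 :=
    ⟨_, rfl⟩
  rw [← hus] at hBY
  obtain ⟨v, hv⟩ : ∃ v, v = p / r ^ 4 + ε₁ + 4 * ε₂ * R ^ 2 := ⟨_, rfl⟩
  have hpr : 0 ≤ p / r ^ 4 := div_nonneg hp0 hr4.le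
  have hprQ : p / r ^ 4 ≤ Q' := by
    rw [div_le_iff₀ hr4]
    exact hpQ
  have hεR : 0 ≤ 4 * ε₂ * R ^ 2 := by positivity
  have hsum : ε₁ + 4 * ε₂ * R ^ 2 ≤ ε' / 3 := by
    rw [hε₂]
    exact hε₁s
  have hv0 : 0 ≤ v := by rw [hv]; linarith
  have hv1 : v ≤ Q' + 1 := by rw [hv]; linarith
  -- the bound at the scale r
  have hBYv : BY K (2 * R) r (fun z => us z - ε₂) (⌊R ^ 2 * r ^ 2⌋₊ + 2)
      (Real.exp (v * r ^ 4)) := by
    refine by_le _ _ _ _ _ _ _ (by_shift K (2 * R) r us ε₂ _ _ hε₂0 hBY) ?_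
    have h1 : Real.exp (ε₁ * r ^ 4) / holeP P ξ K r = Real.exp (ε₁ * r ^ 4 + p) := by
      rw [Real.exp_add, ← hinv]
      ring
    rw [h1, ← Real.exp_nat_mul, ← Real.exp_add]
    refine Real.exp_le_exp.mpr ?_
    have h2 : ((⌊R ^ 2 * r ^ 2⌋₊ + 2 : ℕ) : ℝ) ≤ 2 * R ^ 2 * r ^ 2 := by
      have h3 : ((⌊R ^ 2 * r ^ 2⌋₊ : ℕ) : ℝ) ≤ R ^ 2 * r ^ 2 := Nat.floor_le (by positivity)
      have h4 : 2 ≤ R ^ 2 * r ^ 2 := by nlinarith
      push_cast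
      linarith
    have h3 : ((⌊R ^ 2 * r ^ 2⌋₊ + 2 : ℕ) : ℝ) * (2 * r ^ 2 * ε₂) ≤
        (2 * R ^ 2 * r ^ 2) * (2 * r ^ 2 * ε₂) :=
      mul_le_mul_of_nonneg_right h2 (by positivity)
    have h4 : v * r ^ 4 = p + ε₁ * r ^ 4 + 4 * ε₂ * R ^ 2 * r ^ 4 := by
      rw [hv, add_mul, add_mul, div_mul_cancel₀ _ hr4.ne']
    rw [h4]
    have h5 : (2 * R ^ 2 * r ^ 2) * (2 * r ^ 2 * ε₂) = 4 * ε₂ * R ^ 2 * r ^ 4 := by ring
    linarith
  -- boundedness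
  have hcont : ContinuousOn (fun z => us z - ε₂) K := by
    rw [hus]
    refine ContinuousOn.sub (ContinuousOn.div_const ?_ _) continuousOn_const
    refine continuousOn_finsetSum _ (fun i _ => ?_)
    exact continuousOn_const.mul (cl_cont K _ _ (g i) (hg i))
  obtain ⟨Ψ, hΨ⟩ := hK.exists_bound_of_continuousOn hcont
  have hBF := hSCr K (fun z => us z - ε₂) v hKR ⟨Ψ, fun z hz => hΨ z hz⟩ hv0 hv1 hBYv
  obtain ⟨m', h, hm', hh, hbd⟩ := hPRW K R₀ r ε₁ m t g hK hR₀ hKR hr0 hε₁ hε₁h ht ht1 hg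
  refine good_mono K (v + ε' / 3) _ ?_ (good_of K (fun z => us z - ε₂) (v + ε' / 3) m' h hm' hh
    ?_ hBF)
  · rw [← hp, hv]
    linarith
  · intro z hz
    rw [hus, hε₂]
    exact hbd z hz

end Pool.Agent.HX
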