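import Pool.Agent.HX.Stmts

/-!
Andréief's identity.
-/

namespace Pool.Agent.HX

open MeasureTheory Matrix

namespace AND

theorem sum_sign {N : ℕ} (G : Matrix (Fin N) (Fin N) ℂ) :
    ∑ τ : Equiv.Perm (Fin N), ∑ σ : Equiv.Perm (Fin N),
      ((Equiv.Perm.sign σ : ℤ) : ℂ) * ((Equiv.Perm.sign τ : ℤ) : ℂ) * ∏ j, G (σ j) (τ j) =
      (N.factorial : ℂ) * G.det := by
  have h : ∀ τ : Equiv.Perm (Fin N), ∑ σ : Equiv.Perm (Fin N),
      ((Equiv.Perm.sign σ : ℤ) : ℂ) * ((Equiv.Perm.sign τ : ℤ) : ℂ) * ∏ j, G (σ j) (τ j) =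
      G.det := by
    intro τ
    have h1 := Matrix.det_permute' τ G
    rw [Matrix.det_apply'] at h1
    have h2 : ∑ σ : Equiv.Perm (Fin N),
        ((Equiv.Perm.sign σ : ℤ) : ℂ) * ((Equiv.Perm.sign τ : ℤ) : ℂ) * ∏ j, G (σ j) (τ j) =
        ((Equiv.Perm.sign τ : ℤ) : ℂ) * ∑ σ : Equiv.Perm (Fin N),
        ((Equiv.Perm.sign σ : ℤ) : ℂ) * ∏ j, (G.submatrix id τ) (σ j) j := by
      rw [Finset.mul_sum]
      refine Finset.sum_congr rfl fun σ _ => ?_
      simp only [Matrix.submatrix_apply, id]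
      ring
    rw [h2, h1, ← mul_assoc, ← Int.cast_mul]
    have h3 : ((Equiv.Perm.sign τ : ℤ) * (Equiv.Perm.sign τ : ℤ)) = 1 := by
      rw [← Units.val_mul, Int.units_mul_self, Units.val_one]
    rw [h3, Int.cast_one, one_mul]
  rw [Finset.sum_congr rfl fun τ _ => h τ, Finset.sum_const, Finset.card_univ, Fintype.card_perm,
    Fintype.card_fin, nsmul_eq_mul]

theorem det_row {Y : Type} {N : ℕ} (φ : Fin N → Y → ℂ) (x : Fin N → Y) :
    (Matrix.of fun j k : Fin N => φ k (x j)).det =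
      ∑ σ : Equiv.Perm (Fin N), ((Equiv.Perm.sign σ : ℤ) : ℂ) * ∏ j, φ (σ j) (x j) := by
  rw [← Matrix.det_transpose, Matrix.det_apply']
  rfl

theorem expand {Y : Type} {N : ℕ} (φ : Fin N → Y → ℂ) (w : Y → ℝ) (x : Fin N → Y) :
    ((‖(Matrix.of fun j k : Fin N => φ k (x j)).det‖ ^ 2 * ∏ j, w (x j) : ℝ) : ℂ) =
      ∑ τ : Equiv.Perm (Fin N), ∑ σ : Equiv.Perm (Fin N),
        ((Equiv.Perm.sign σ : ℤ) : ℂ) * ((Equiv.Perm.sign τ : ℤ) : ℂ) *
          ∏ j, (φ (σ j) (x j) * (starRingEnd ℂ) (φ (τ j) (x j)) * (w (x j) : ℂ)) := by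
  have h0 : ((‖(Matrix.of fun j k : Fin N => φ k (x j)).det‖ ^ 2 : ℝ) : ℂ) =
      (Matrix.of fun j k : Fin N => φ k (x j)).det *
        (starRingEnd ℂ) (Matrix.of fun j k : Fin N => φ k (x j)).det := by
    rw [Complex.mul_conj, Complex.normSq_eq_norm_sq]
  rw [Complex.ofReal_mul, h0, Complex.ofReal_prod, det_row, map_sum, Finset.sum_mul_sum,
    Finset.sum_comm, Finset.sum_mul]
  refine Finset.sum_congr rfl fun τ _ => ?_
  rw [Finset.sum_mul]
  refine Finset.sum_congr rfl fun σ _ => ?_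
  rw [map_mul, map_prod, Finset.prod_mul_distrib, Finset.prod_mul_distrib, map_intCast]
  ring

end AND

theorem AND_thm : AND_Stmt := by
  intro Y _ μ _ N φ w C hφ hw hC hwC
  have hint : ∀ k l : Fin N, Integrable
      (fun y => φ k y * (starRingEnd ℂ) (φ l y) * (w y : ℂ)) μ := by
    intro k l
    refine Integrable.of_bound (C := C * C * C) ?_ (Filter.Eventually.of_forall fun y => ?_)
    · exact (((hφ k).mul (Complex.continuous_conj.measurable.comp (hφ l))).mul
        (Complex.measurable_ofReal.comp hw)).aestronglyMeasurable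
    · have h1 := hC k y
      have h2 := hC l y
      have h3 := hwC y
      have h0 : 0 ≤ C := h3.1.trans h3.2
      rw [norm_mul, norm_mul, RCLike.norm_conj, Complex.norm_real, Real.norm_eq_abs,
        abs_of_nonneg h3.1]
      exact mul_le_mul (mul_le_mul h1 h2 (norm_nonneg _) h0) h3.2 h3.1 (mul_nonneg h0 h0)
  have hN : (N.factorial : ℂ) ≠ 0 := by exact_mod_cast N.factorial_ne_zero
  rw [Complex.ofReal_mul, ← integral_complex_ofReal]
  simp_rw [AND.expand]
  rw [integral_finsetSum]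
  swap
  · intro τ _
    refine integrable_finsetSum _ fun σ _ => ?_
    refine Integrable.const_mul ?_ _
    exact Integrable.fintype_prod (f := fun j y => φ (σ j) y * (starRingEnd ℂ) (φ (τ j) y) *
      (w y : ℂ)) fun j => hint _ _
  have h1 : ∀ τ : Equiv.Perm (Fin N), ∫ x : Fin N → Y, (∑ σ : Equiv.Perm (Fin N),
        ((Equiv.Perm.sign σ : ℤ) : ℂ) * ((Equiv.Perm.sign τ : ℤ) : ℂ) *
          ∏ j, (φ (σ j) (x j) * (starRingEnd ℂ) (φ (τ j) (x j)) * (w (x j) : ℂ)))
            ∂(Measure.pi fun _ => μ) = ∑ σ : Equiv.Perm (Fin N),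
        ((Equiv.Perm.sign σ : ℤ) : ℂ) * ((Equiv.Perm.sign τ : ℤ) : ℂ) *
          ∏ j, (Matrix.of fun k l : Fin N =>
            ∫ y, φ k y * (starRingEnd ℂ) (φ l y) * (w y : ℂ) ∂μ) (σ j) (τ j) := by
    intro τ
    rw [integral_finsetSum]
    swap
    · intro σ _
      refine Integrable.const_mul ?_ _
      exact Integrable.fintype_prod (f := fun j y => φ (σ j) y * (starRingEnd ℂ) (φ (τ j) y) *
        (w y : ℂ)) fun j => hint _ _
    refine Finset.sum_congr rfl fun σ _ => ?_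
    rw [integral_const_mul]
    congr 1
    exact integral_fintype_prod_eq_prod (fun j y => φ (σ j) y * (starRingEnd ℂ) (φ (τ j) y) *
        (w y : ℂ))
  rw [Finset.sum_congr rfl fun τ _ => h1 τ, AND.sum_sign]
  push_cast
  field_simp

end Pool.Agent.HX
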