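import Pool.Agent.HX.Stmts
import Pool.Agent.HA.CPA

/-!
Module CPD: the capacity of a closed disk is its radius.
-/

set_option autoImplicit false

namespace Pool.Agent.HX

open MeasureTheory ProbabilityTheory Filter Topology Pool.Agent.GH Pool.Agent.HA

namespace CPD

/-- Bound of the product of distances of points of a disk. -/
theorem vdm_le {n : ℕ} {a : ℂ} {b : ℝ} (z : Fin n → ℂ) (hz : ∀ i, z i ∈ Metric.closedBall a b) :
    vdm z ≤ (n.factorial : ℝ) * b ^ (n * (n - 1) / 2) := by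
  have h := Pool.Agent.HA.CPA.vdm_le (fun i => z i - a) (b := b)
    (fun i => by simpa [dist_eq_norm] using hz i)
  have h1 : vdm (fun i => z i - a) = vdm z := by
    unfold vdm
    refine Finset.prod_congr rfl fun i _ => Finset.prod_congr rfl fun j _ => ?_
    congr 1
    ring
  rwa [h1] at h

/-- Upper bound of the diameters. -/
theorem dn_le {a : ℂ} {b : ℝ} (hb : 0 < b) {N : ℕ} (hN : 2 ≤ N) :
    dn (Metric.closedBall a b) N ≤ (N : ℝ) ^ (2 / (1 * (N : ℝ) + -1)) * b := by
  have hN2 : (2 : ℝ) ≤ N := by exact_mod_cast hN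
  have h1 : vmax (Metric.closedBall a b) N ≤ (N : ℝ) ^ N * b ^ (N * (N - 1) / 2) := by
    refine csSup_le (CAPA.ne ⟨a, Metric.mem_closedBall_self hb.le⟩ N) ?_
    rintro _ ⟨z, hz, rfl⟩
    refine (vdm_le z hz).trans ?_
    refine mul_le_mul_of_nonneg_right ?_ (by positivity)
    exact_mod_cast Nat.factorial_le_pow N
  unfold dn
  have h2 : (0 : ℝ) < (N : ℝ) - 1 := by linarith
  have h9 : 0 < (N : ℝ) * ((N : ℝ) - 1) := by positivity
  refine (Real.rpow_le_rpow (CAPA.vmax_nonneg _ _) h1 (CAPA.expo_nonneg N)).trans (le_of_eq ?_)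
  rw [Real.mul_rpow (by positivity) (by positivity)]
  congr 1
  · rw [← Real.rpow_natCast, ← Real.rpow_mul (by positivity)]
    congr 1
    rw [one_mul, ← sub_eq_add_neg]
    field_simp
  · rw [← Real.rpow_natCast, ← Real.rpow_mul hb.le]
    rw [Pool.Agent.HA.CPA.half_mul hN, Real.rpow_one]

end CPD

open CPD in
/-- The capacity of a closed disk is its radius. -/
theorem CPD_thm (hCAPA : Pool.Agent.GH.CAPA_Stmt) : CPD_Stmt := by
  intro a ρ hρ
  have hne : (Metric.closedBall a ρ).Nonempty := ⟨a, Metric.mem_closedBall_self hρ.le⟩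
  have hcpt : IsCompact (Metric.closedBall a ρ) := isCompact_closedBall a ρ
  obtain ⟨ht, -, -, -⟩ := hCAPA.1 _ hcpt hne
  refine le_antisymm ?_ (hCAPA.2.2 _ a ρ hcpt hρ subset_rfl)
  have h3 : Tendsto (fun N : ℕ => (N : ℝ) ^ (2 / (1 * (N : ℝ) + -1)) * ρ) atTop (𝓝 (1 * ρ)) :=
    ((tendsto_rpow_div_mul_add 2 1 (-1) (by norm_num)).comp
      tendsto_natCast_atTop_atTop).mul_const ρ
  rw [one_mul] at h3
  refine le_of_tendsto_of_tendsto ht h3 ?_
  filter_upwards [eventually_ge_atTop 2] with N hN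
  exact dn_le hρ hN

end Pool.Agent.HX
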