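import Pool.Agent.HX.Stmts

/-!
Properties of the determinant `DD` (MP_629fb1_pr): weak continuity, logarithmic concavity in the
measure, logarithmic convexity in the exponent, common zeros.
-/

set_option autoImplicit false

namespace Pool.Agent.HX

open MeasureTheory ProbabilityTheory Filter Topology Pool.Agent.GH Pool.Agent.HA
open scoped ComplexOrder

namespace DDP

section

variable {Y : Type} [TopologicalSpace Y] [CompactSpace Y] [T2Space Y] [MeasurableSpace Y]
  [BorelSpace Y]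

/-- A continuous function on a compact space is bounded. -/
theorem bdd {E : Type} [NormedAddCommGroup E] (f : Y → E) (hf : Continuous f) :
    ∃ C : ℝ, ∀ y, ‖f y‖ ≤ C := by
  obtain ⟨C, hC⟩ := isCompact_univ.exists_bound_of_continuousOn hf.continuousOn
  exact ⟨C, fun y => hC y trivial⟩

/-- Continuous functions are integrable. -/
theorem integ (f : Y → ℂ) (hf : Continuous f) (μ : Measure Y) [IsFiniteMeasure μ] :
    Integrable f μ := by
  obtain ⟨C, hC⟩ := bdd f hf
  exact Integrable.of_bound hf.measurable.aestronglyMeasurable C (Eventually.of_forall hC)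

/-- Integrals of continuous functions are weakly continuous. -/
theorem cont_entry (f : Y → ℂ) (hf : Continuous f) :
    Continuous (fun a : ProbabilityMeasure Y => ∫ y, f y ∂(a : Measure Y)) := by
  have hre : Continuous (fun a : ProbabilityMeasure Y => ∫ y, (f y).re ∂(a : Measure Y)) :=
    ProbabilityMeasure.continuous_integral_continuousMap
      (⟨fun y => (f y).re, Complex.continuous_re.comp hf⟩ : C(Y, ℝ))
  have him : Continuous (fun a : ProbabilityMeasure Y => ∫ y, (f y).im ∂(a : Measure Y)) :=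
    ProbabilityMeasure.continuous_integral_continuousMap
      (⟨fun y => (f y).im, Complex.continuous_im.comp hf⟩ : C(Y, ℝ))
  have h : (fun a : ProbabilityMeasure Y => ∫ y, f y ∂(a : Measure Y)) =
      fun a : ProbabilityMeasure Y => ((∫ y, (f y).re ∂(a : Measure Y) : ℝ) : ℂ) +
        ((∫ y, (f y).im ∂(a : Measure Y) : ℝ) : ℂ) * Complex.I := by
    funext a
    exact (integral_re_add_im (𝕜 := ℂ) (integ f hf (a : Measure Y))).symm
  rw [h]
  exact (Complex.continuous_ofReal.comp hre).add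
    ((Complex.continuous_ofReal.comp him).mul continuous_const)

/-- The functions in the entries are continuous. -/
theorem cont_fun {N : ℕ} {φ : Fin N → Y → ℂ} (hφ : ∀ k, Continuous (φ k)) {ψ : Y → ℝ}
    (hψ : Continuous ψ) (k l : Fin N) :
    Continuous (fun y => φ k y * (starRingEnd ℂ) (φ l y) *
      ((Real.exp (-(ψ y)) : ℝ) : ℂ)) := by
  refine ((hφ k).mul (Complex.continuous_conj.comp (hφ l))).mul
    (Complex.continuous_ofReal.comp (Real.continuous_exp.comp hψ.neg))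

/-- The matrix. -/
noncomputable def GG (μ : Measure Y) {N : ℕ} (φ : Fin N → Y → ℂ) (ψ : Y → ℝ) :
    Matrix (Fin N) (Fin N) ℂ :=
  Matrix.of fun k l : Fin N => ∫ y, φ k y * (starRingEnd ℂ) (φ l y) *
    ((Real.exp (-(ψ y)) : ℝ) : ℂ) ∂μ

theorem cont1 {N : ℕ} {φ : Fin N → Y → ℂ} (hφ : ∀ k, Continuous (φ k)) (ψ : Y → ℝ)
    (hψ : Continuous ψ) : Continuous (fun a : ProbabilityMeasure Y => DD (a : Measure Y) φ ψ) := by
  have h : Continuous (fun a : ProbabilityMeasure Y => GG (a : Measure Y) φ ψ) := by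
    refine continuous_matrix fun k l => ?_
    exact cont_entry _ (cont_fun hφ hψ k l)
  exact continuous_norm.comp h.matrix_det

/-- The matrix is positive semidefinite. -/
theorem psd {N : ℕ} {φ : Fin N → Y → ℂ} (hφ : ∀ k, Continuous (φ k)) (ψ : Y → ℝ)
    (hψ : Continuous ψ) (μ : Measure Y) [IsFiniteMeasure μ] : (GG μ φ ψ).PosSemidef := by
  refine Matrix.PosSemidef.of_dotProduct_mulVec_nonneg ?_ ?_
  · ext k l
    rw [Matrix.conjTranspose_apply, GG, Matrix.of_apply, Matrix.of_apply, Complex.star_def,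
      ← integral_conj]
    congr 1
    funext y
    simp only [map_mul, Complex.conj_conj, Complex.conj_ofReal]
    ring
  · intro x
    have h : star x ⬝ᵥ (GG μ φ ψ).mulVec x =
        ((∫ y, ‖∑ k, (starRingEnd ℂ) (x k) * φ k y‖ ^ 2 * Real.exp (-(ψ y)) ∂μ : ℝ) : ℂ) := by
      have h1 : star x ⬝ᵥ (GG μ φ ψ).mulVec x =
          ∑ k, ∑ l, ∫ y, (starRingEnd ℂ) (x k) * x l * (φ k y * (starRingEnd ℂ) (φ l y) *
            ((Real.exp (-(ψ y)) : ℝ) : ℂ)) ∂μ := by
        simp only [dotProduct, Matrix.mulVec, Finset.mul_sum]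
        refine Finset.sum_congr rfl fun k _ => Finset.sum_congr rfl fun l _ => ?_
        rw [integral_const_mul]
        simp only [GG, Matrix.of_apply, Pi.star_apply, Complex.star_def]
        ring
      rw [h1, ← integral_complex_ofReal]
      rw [Finset.sum_congr rfl fun k _ => (integral_finsetSum _ fun l _ =>
        (integ _ (cont_fun hφ hψ k l) μ).const_mul _).symm]
      rw [← integral_finsetSum _ fun k _ => integrable_finsetSum _ fun l _ =>
        (integ _ (cont_fun hφ hψ k l) μ).const_mul _]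
      congr 1
      funext y
      have h2 : ((‖∑ k, (starRingEnd ℂ) (x k) * φ k y‖ ^ 2 * Real.exp (-(ψ y)) : ℝ) : ℂ) =
          (∑ k, (starRingEnd ℂ) (x k) * φ k y) *
            (starRingEnd ℂ) (∑ k, (starRingEnd ℂ) (x k) * φ k y) *
            ((Real.exp (-(ψ y)) : ℝ) : ℂ) := by
        rw [Complex.mul_conj, Complex.normSq_eq_norm_sq]
        push_cast
        ring
      rw [h2, map_sum, Finset.sum_mul_sum, Finset.sum_mul]
      refine Finset.sum_congr rfl fun k _ => ?_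
      rw [Finset.sum_mul]
      refine Finset.sum_congr rfl fun l _ => ?_
      simp only [map_mul, Complex.conj_conj]
      ring
    rw [h]
    refine Complex.zero_le_real.mpr (integral_nonneg fun y => ?_)
    positivity

theorem conc (hPSD : PSD_Stmt) {N : ℕ} {φ : Fin N → Y → ℂ} (hφ : ∀ k, Continuous (φ k))
    (ψ : Y → ℝ) (a b c : ProbabilityMeasure Y) (t : ℝ) (hψ : Continuous ψ) (h0 : 0 ≤ t)
    (h1 : t ≤ 1) (hc : (c : Measure Y) = ENNReal.ofReal t • (a : Measure Y) +
      ENNReal.ofReal (1 - t) • (b : Measure Y)) :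
    DD (a : Measure Y) φ ψ ^ t * DD (b : Measure Y) φ ψ ^ (1 - t) ≤ DD (c : Measure Y) φ ψ := by
  have hG : GG (c : Measure Y) φ ψ =
      (t : ℂ) • GG (a : Measure Y) φ ψ + ((1 - t : ℝ) : ℂ) • GG (b : Measure Y) φ ψ := by
    ext k l
    have hca := integ _ (cont_fun hφ hψ k l) (a : Measure Y)
    have hcb := integ _ (cont_fun hφ hψ k l) (b : Measure Y)
    rw [GG, Matrix.of_apply, hc, integral_add_measure (hca.smul_measure ENNReal.ofReal_ne_top)
      (hcb.smul_measure ENNReal.ofReal_ne_top), integral_smul_measure, integral_smul_measure,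
      ENNReal.toReal_ofReal h0, ENNReal.toReal_ofReal (by linarith)]
    simp only [GG, Matrix.add_apply, Matrix.smul_apply, Matrix.of_apply, smul_eq_mul,
      Complex.real_smul]
  have := hPSD.2 N (GG (a : Measure Y) φ ψ) (GG (b : Measure Y) φ ψ) t
    (psd hφ ψ hψ (a : Measure Y)) (psd hφ ψ hψ (b : Measure Y)) h0 h1
  rw [← hG] at this
  exact this

/-- The integrand of Andreief's formula. -/
noncomputable def FF {N : ℕ} (φ : Fin N → Y → ℂ) (ψ : Y → ℝ) (x : Fin N → Y) : ℝ :=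
  ‖(Matrix.of fun j k : Fin N => φ k (x j)).det‖ ^ 2 * ∏ j, Real.exp (-(ψ (x j)))

theorem FF_nonneg {N : ℕ} (φ : Fin N → Y → ℂ) (ψ : Y → ℝ) (x : Fin N → Y) : 0 ≤ FF φ ψ x :=
  mul_nonneg (by positivity) (Finset.prod_nonneg fun j _ => (Real.exp_pos _).le)

theorem meas_det {N : ℕ} {φ : Fin N → Y → ℂ} (hφ : ∀ k, Continuous (φ k)) :
    Measurable (fun x : Fin N → Y => (Matrix.of fun j k : Fin N => φ k (x j)).det) := by
  simp only [Matrix.det_apply]
  refine Finset.measurable_sum _ fun σ _ => ?_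
  refine Measurable.const_smul ?_ _
  refine Finset.measurable_prod _ fun i _ => ?_
  exact (hφ _).measurable.comp (measurable_pi_apply _)

theorem FF_meas {N : ℕ} {φ : Fin N → Y → ℂ} (hφ : ∀ k, Continuous (φ k)) {ψ : Y → ℝ}
    (hψ : Continuous ψ) : Measurable (FF φ ψ) := by
  refine ((meas_det hφ).norm.pow_const 2).mul ?_
  refine Finset.measurable_prod _ fun i _ => ?_
  exact (Real.continuous_exp.comp hψ.neg).measurable.comp (measurable_pi_apply _)

theorem FF_int {N : ℕ} {φ : Fin N → Y → ℂ} (hφ : ∀ k, Continuous (φ k)) {ψ : Y → ℝ}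
    (hψ : Continuous ψ) (μ : Measure (Fin N → Y)) [IsFiniteMeasure μ] :
    Integrable (FF φ ψ) μ := by
  obtain ⟨C, hC⟩ := bdd (fun y => fun k => φ k y) (continuous_pi hφ)
  obtain ⟨D, hD⟩ := bdd (fun y => Real.exp (-(ψ y))) (Real.continuous_exp.comp hψ.neg)
  refine Integrable.of_bound (FF_meas hφ hψ).aestronglyMeasurable
    ((N.factorial • C ^ N) ^ 2 * ∏ _j : Fin N, D) (Eventually.of_forall fun x => ?_)
  rw [Real.norm_of_nonneg (FF_nonneg φ ψ x), FF]
  refine mul_le_mul ?_ ?_ (Finset.prod_nonneg fun j _ => (Real.exp_pos _).le) (by positivity)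
  · refine pow_le_pow_left₀ (norm_nonneg _) ?_ 2
    have := Matrix.det_le (A := (Matrix.of fun j k : Fin N => φ k (x j)))
      (abv := IsAbsoluteValue.toAbsoluteValue (norm : ℂ → ℝ)) (x := C) (fun i j => by
        exact (norm_le_pi_norm (fun k => φ k (x i)) j).trans (hC (x i)))
    simpa using this
  · refine Finset.prod_le_prod (fun j _ => (Real.exp_pos _).le) fun j _ => ?_
    exact (le_abs_self _).trans (hD (x j))

theorem formula (hAND : AND_Stmt) {N : ℕ} {φ : Fin N → Y → ℂ} (hφ : ∀ k, Continuous (φ k))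
    {ψ : Y → ℝ} (hψ : Continuous ψ) (μ : Measure Y) [IsFiniteMeasure μ] :
    DD μ φ ψ = (1 / (N.factorial : ℝ)) * ∫ x : Fin N → Y, FF φ ψ x ∂(Measure.pi fun _ => μ) := by
  obtain ⟨C, hC⟩ := bdd (fun y => fun k => φ k y) (continuous_pi hφ)
  obtain ⟨D, hD⟩ := bdd (fun y => Real.exp (-(ψ y))) (Real.continuous_exp.comp hψ.neg)
  have h := hAND Y μ N φ (fun y => Real.exp (-(ψ y))) (max C D) (fun k => (hφ k).measurable)
    (Real.continuous_exp.comp hψ.neg).measurable
    (fun k y => ((norm_le_pi_norm (fun k => φ k y) k).trans (hC y)).trans (le_max_left _ _))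
    (fun y => ⟨(Real.exp_pos _).le, ((le_abs_self _).trans (hD y)).trans (le_max_right _ _)⟩)
  rw [DD, h, Complex.norm_real, Real.norm_of_nonneg]
  · rfl
  · refine mul_nonneg (by positivity) (integral_nonneg fun x => ?_)
    exact FF_nonneg φ ψ x

theorem DD_nonneg {N : ℕ} (φ : Fin N → Y → ℂ) (ψ : Y → ℝ) (μ : Measure Y) : 0 ≤ DD μ φ ψ :=
  norm_nonneg _

theorem ofReal_int {N : ℕ} {φ : Fin N → Y → ℂ} (hφ : ∀ k, Continuous (φ k))
    {ψ : Y → ℝ} (hψ : Continuous ψ) (μ : Measure (Fin N → Y)) [IsFiniteMeasure μ] :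
    ENNReal.ofReal (∫ x, FF φ ψ x ∂μ) = ∫⁻ x, ENNReal.ofReal (FF φ ψ x) ∂μ :=
  ofReal_integral_eq_lintegral_ofReal (FF_int hφ hψ μ) (Eventually.of_forall (FF_nonneg φ ψ))

/-- Hoelder's inequality. -/
theorem hoelder {N : ℕ} {φ : Fin N → Y → ℂ} (hφ : ∀ k, Continuous (φ k)) {m : ℕ}
    {ψ : Fin m → Y → ℝ} {t : Fin m → ℝ} (hψ : ∀ i, Continuous (ψ i)) (ht : ∀ i, 0 ≤ t i)
    (h1 : ∑ i, t i = 1) (μ : Measure (Fin N → Y)) [IsFiniteMeasure μ] :
    ∫ x, FF φ (fun y => ∑ i, t i * ψ i y) x ∂μ ≤ ∏ i, (∫ x, FF φ (ψ i) x ∂μ) ^ t i := by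
  have hc : Continuous (fun y => ∑ i, t i * ψ i y) :=
    continuous_finsetSum _ fun i _ => continuous_const.mul (hψ i)
  have hpt : ∀ x, FF φ (fun y => ∑ i, t i * ψ i y) x = ∏ i, FF φ (ψ i) x ^ t i := by
    intro x
    simp only [FF]
    have e1 : ∀ i, (‖(Matrix.of fun j k : Fin N => φ k (x j)).det‖ ^ 2 *
        ∏ j, Real.exp (-(ψ i (x j)))) ^ t i =
        (‖(Matrix.of fun j k : Fin N => φ k (x j)).det‖ ^ 2) ^ t i *
          ∏ j, Real.exp (-(t i * ψ i (x j))) := by
      intro i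
      rw [Real.mul_rpow (by positivity) (Finset.prod_nonneg fun j _ => (Real.exp_pos _).le),
        ← Real.exp_sum, ← Real.exp_mul, ← Real.exp_sum, Finset.sum_mul]
      congr 2
      refine Finset.sum_congr rfl fun j _ => ?_
      ring
    rw [Finset.prod_congr rfl fun i _ => e1 i, Finset.prod_mul_distrib,
      ← Real.rpow_sum_of_nonneg (by positivity) fun i _ => ht i, h1, Real.rpow_one,
      Finset.prod_comm]
    congr 1
    refine Finset.prod_congr rfl fun j _ => ?_
    rw [← Real.exp_sum, Finset.sum_neg_distrib]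
  have hfin : ∀ i, ∫⁻ x, ENNReal.ofReal (FF φ (ψ i) x) ∂μ =
      ENNReal.ofReal (∫ x, FF φ (ψ i) x ∂μ) := fun i => (ofReal_int hφ (hψ i) μ).symm
  have hI : ∀ i, 0 ≤ ∫ x, FF φ (ψ i) x ∂μ := fun i => integral_nonneg (FF_nonneg φ (ψ i))
  have key := ENNReal.lintegral_prod_norm_pow_le (μ := μ) (Finset.univ : Finset (Fin m))
    (f := fun i x => ENNReal.ofReal (FF φ (ψ i) x))
    (fun i _ => (FF_meas hφ (hψ i)).ennreal_ofReal.aemeasurable) (p := t) h1 (fun i _ => ht i)
  have e2 : ∀ x, ∏ i, ENNReal.ofReal (FF φ (ψ i) x) ^ t i =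
      ENNReal.ofReal (FF φ (fun y => ∑ i, t i * ψ i y) x) := by
    intro x
    rw [hpt x, ENNReal.ofReal_prod_of_nonneg fun i _ => Real.rpow_nonneg (FF_nonneg _ _ _) _]
    refine Finset.prod_congr rfl fun i _ => ?_
    rw [ENNReal.ofReal_rpow_of_nonneg (FF_nonneg _ _ _) (ht i)]
  simp only [e2, hfin] at key
  rw [← ofReal_int hφ hc μ] at key
  have e3 : ∏ i, ENNReal.ofReal (∫ x, FF φ (ψ i) x ∂μ) ^ t i =
      ENNReal.ofReal (∏ i, (∫ x, FF φ (ψ i) x ∂μ) ^ t i) := by
    rw [ENNReal.ofReal_prod_of_nonneg fun i _ => Real.rpow_nonneg (hI i) _]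
    refine Finset.prod_congr rfl fun i _ => ?_
    rw [ENNReal.ofReal_rpow_of_nonneg (hI i) (ht i)]
  rw [e3] at key
  exact (ENNReal.ofReal_le_ofReal_iff
    (Finset.prod_nonneg fun i _ => Real.rpow_nonneg (hI i) _)).mp key

theorem conv (hAND : AND_Stmt) {N : ℕ} {φ : Fin N → Y → ℂ} (hφ : ∀ k, Continuous (φ k)) {m : ℕ}
    (ψ : Fin m → Y → ℝ) (t : Fin m → ℝ) (a : ProbabilityMeasure Y) (hψ : ∀ i, Continuous (ψ i))
    (ht : ∀ i, 0 ≤ t i) (h1 : ∑ i, t i = 1) :
    DD (a : Measure Y) φ (fun y => ∑ i, t i * ψ i y) ≤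
      ∏ i, DD (a : Measure Y) φ (ψ i) ^ t i := by
  have hc : Continuous (fun y => ∑ i, t i * ψ i y) :=
    continuous_finsetSum _ fun i _ => continuous_const.mul (hψ i)
  rw [formula hAND hφ hc]
  have hI : ∀ i, 0 ≤ ∫ x, FF φ (ψ i) x ∂(Measure.pi fun _ : Fin N => (a : Measure Y)) :=
    fun i => integral_nonneg (FF_nonneg φ (ψ i))
  have e : ∏ i, DD (a : Measure Y) φ (ψ i) ^ t i = (1 / (N.factorial : ℝ)) *
      ∏ i, (∫ x, FF φ (ψ i) x ∂(Measure.pi fun _ : Fin N => (a : Measure Y))) ^ t i := by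
    rw [Finset.prod_congr rfl fun i _ => by
      rw [formula hAND hφ (hψ i), Real.mul_rpow (by positivity) (hI i)],
      Finset.prod_mul_distrib, ← Real.rpow_sum_of_nonneg (by positivity) fun i _ => ht i, h1,
      Real.rpow_one]
  rw [e]
  exact mul_le_mul_of_nonneg_left (hoelder hφ hψ ht h1 _) (by positivity)

theorem zeros (hAND : AND_Stmt) {N : ℕ} {φ : Fin N → Y → ℂ} (hφ : ∀ k, Continuous (φ k))
    (ψ ψ' : Y → ℝ) (a : ProbabilityMeasure Y) (hψ : Continuous ψ) (hψ' : Continuous ψ')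
    (h : DD (a : Measure Y) φ ψ = 0) : DD (a : Measure Y) φ ψ' = 0 := by
  rw [formula hAND hφ hψ] at h
  rw [formula hAND hφ hψ']
  have hN : (1 / (N.factorial : ℝ)) ≠ 0 := by positivity
  have h0 := (mul_eq_zero.mp h).resolve_left hN
  have hae := (integral_eq_zero_iff_of_nonneg (FF_nonneg φ ψ) (FF_int hφ hψ _)).mp h0
  have hae' : FF φ ψ' =ᵐ[Measure.pi fun _ : Fin N => (a : Measure Y)] 0 := by
    filter_upwards [hae] with x hx
    have hx' : FF φ ψ x = 0 := hx
    have hpos : (∏ j, Real.exp (-(ψ (x j)))) ≠ 0 :=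
      Finset.prod_ne_zero_iff.mpr fun j _ => (Real.exp_pos _).ne'
    have := (mul_eq_zero.mp hx').resolve_right hpos
    show FF φ ψ' x = 0
    rw [FF, this, zero_mul]
  rw [integral_eq_zero_of_ae hae', mul_zero]

end

end DDP

theorem DDP_thm (hPSD : PSD_Stmt) (hAND : AND_Stmt) : DDP_Stmt := by
  intro Y _ _ _ _ _ N φ hφ
  refine ⟨fun ψ hψ => DDP.cont1 hφ ψ hψ, ?_, ?_, ?_⟩
  · intro ψ a b c t hψ h0 h1 hc
    exact DDP.conc hPSD hφ ψ a b c t hψ h0 h1 hc
  · intro m ψ t a hψ ht h1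
    exact DDP.conv hAND hφ ψ t a hψ ht h1
  · intro ψ ψ' a hψ hψ' h
    exact DDP.zeros hAND hφ ψ ψ' a hψ hψ' h

end Pool.Agent.HX
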