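import Pool.Agent.HX.Stmts

/-!
Dropping the points of the disk (MP_629fb1_pr).
-/

namespace Pool.Agent.HX

open MeasureTheory ProbabilityTheory Filter Topology Pool.Agent.GH Pool.Agent.HA

namespace DRP

theorem claim (hGRM : GRM_Stmt) {K : Set ℂ} {T r : ℝ} {u : ℂ → ℝ} {M : ℕ} {B : ℝ}
    (h : ∀ n : ℕ, n ≤ M → BM K M r u n B) (m : ℕ) : m ≤ M → ∀ (z : Fin m → ℂ) (b : Fin m → Bool),
    Lab K T z b → ‖(Gm M r z).det‖ * ∏ i, wt r u (b i) (z i) ≤ B := by
  induction m with
  | zero =>
    intro hm z b _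
    have h1 := h 0 hm z (fun i => i.elim0)
    rw [Finset.univ_eq_empty, Finset.prod_empty] at h1 ⊢
    exact h1
  | succ m ih =>
    intro hm z b hL
    by_cases hb : ∃ p, b p = false
    · obtain ⟨p, hp⟩ := hb
      have h1 := hGRM.1 M m r z p
      have h2 := ih (by omega) (fun i => z (p.succAbove i)) (fun i => b (p.succAbove i))
        (fun i => hL (p.succAbove i))
      rw [Fin.prod_univ_succAbove _ p]
      have h3 : wt r u (b p) (z p) = Real.exp (-(r ^ 2 * ‖z p‖ ^ 2)) := by
        unfold wt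
        rw [hp, if_neg (by decide)]
      have hpos : 0 ≤ ∏ i : Fin m, wt r u (b (p.succAbove i)) (z (p.succAbove i)) := by
        refine Finset.prod_nonneg fun i _ => ?_
        unfold wt
        split_ifs <;> exact (Real.exp_pos _).le
      rw [h3]
      have h4 : Real.exp (r ^ 2 * ‖z p‖ ^ 2) * Real.exp (-(r ^ 2 * ‖z p‖ ^ 2)) = 1 := by
        rw [← Real.exp_add, add_neg_cancel, Real.exp_zero]
      calc ‖(Gm M r z).det‖ * (Real.exp (-(r ^ 2 * ‖z p‖ ^ 2)) *
            ∏ i : Fin m, wt r u (b (p.succAbove i)) (z (p.succAbove i)))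
          ≤ (‖(Gm M r (fun i : Fin m => z (p.succAbove i))).det‖ *
              Real.exp (r ^ 2 * ‖z p‖ ^ 2)) * (Real.exp (-(r ^ 2 * ‖z p‖ ^ 2)) *
            ∏ i : Fin m, wt r u (b (p.succAbove i)) (z (p.succAbove i))) :=
            mul_le_mul_of_nonneg_right h1 (mul_nonneg (Real.exp_pos _).le hpos)
        _ = ‖(Gm M r (fun i : Fin m => z (p.succAbove i))).det‖ *
              (Real.exp (r ^ 2 * ‖z p‖ ^ 2) * Real.exp (-(r ^ 2 * ‖z p‖ ^ 2))) *
            ∏ i : Fin m, wt r u (b (p.succAbove i)) (z (p.succAbove i)) := by ring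
        _ = ‖(Gm M r (fun i : Fin m => z (p.succAbove i))).det‖ *
            ∏ i : Fin m, wt r u (b (p.succAbove i)) (z (p.succAbove i)) := by rw [h4, mul_one]
        _ ≤ B := h2
    · have hb' : ∀ i, b i = true := by
        intro i
        by_contra h1
        exact hb ⟨i, by simpa using h1⟩
      have h1 := h (m + 1) hm z (fun i => (hL i).1 (hb' i))
      refine le_trans (le_of_eq ?_) h1
      congr 1
      refine Finset.prod_congr rfl fun i _ => ?_
      unfold wt
      rw [hb' i, if_pos rfl]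

end DRP

open DRP in
theorem DRP_thm (hGRM : GRM_Stmt) : DRP_Stmt := by
  intro K T r u M B h z b hL
  rw [← hGRM.2.2.1 M r z]
  exact claim hGRM h M le_rfl z b hL

end Pool.Agent.HX
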