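import Pool.Agent.HX.Stmts

/-!
# FEK: Fekete's monotonicity, abstract form
-/

set_option autoImplicit false

namespace Pool.Agent.HX

open MeasureTheory ProbabilityTheory Filter Topology Pool.Agent.GH Pool.Agent.HA

namespace FEK

variable {E : Type} (d : E → E → ℝ)

/-- The product over the pairs. -/
noncomputable def vv {n : ℕ} (x : Fin n → E) : ℝ := ∏ i, ∏ j ∈ Finset.Ioi i, d (x i) (x j)

/-- The factor of a pair. -/
noncomputable def hh {n : ℕ} (x : Fin n → E) (i j : Fin n) : ℝ :=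
  if i < j then d (x i) (x j) else 1

theorem vv_eq {n : ℕ} (x : Fin n → E) : vv d x = ∏ i, ∏ j, hh d x i j := by
  unfold vv hh
  refine Finset.prod_congr rfl fun i _ => ?_
  rw [← Finset.prod_filter]
  refine Finset.prod_congr ?_ fun _ _ => rfl
  ext j
  simp

theorem hh_self {n : ℕ} (x : Fin n → E) (i : Fin n) : hh d x i i = 1 := by
  simp [hh]

theorem hh_comp {n : ℕ} (x : Fin (n + 1) → E) (k : Fin (n + 1)) (i j : Fin n) :
    hh d x (k.succAbove i) (k.succAbove j) = hh d (fun l => x (k.succAbove l)) i j := by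
  simp only [hh, Fin.succAbove_lt_succAbove_iff]

theorem vv_succ {n : ℕ} (x : Fin (n + 1) → E) (k : Fin (n + 1)) :
    vv d x = (∏ j, hh d x k j) * (∏ i, hh d x i k) * vv d (fun l => x (k.succAbove l)) := by
  rw [vv_eq, vv_eq, Fin.prod_univ_succAbove _ k]
  have h1 : ∏ i, hh d x i k = ∏ i : Fin n, hh d x (k.succAbove i) k := by
    rw [Fin.prod_univ_succAbove _ k, hh_self, one_mul]
  have h2 : ∀ i : Fin n, ∏ j, hh d x (k.succAbove i) j
      = hh d x (k.succAbove i) k * ∏ j, hh d (fun l => x (k.succAbove l)) i j := by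
    intro i
    rw [Fin.prod_univ_succAbove _ k]
    congr 1
    exact Finset.prod_congr rfl fun j _ => hh_comp d x k i j
  rw [h1, Finset.prod_congr rfl fun i _ => h2 i, Finset.prod_mul_distrib, mul_assoc]

theorem vv_pow {n : ℕ} (x : Fin (n + 1) → E) :
    vv d x ^ (n + 1) = vv d x * vv d x * ∏ k : Fin (n + 1), vv d (fun l => x (k.succAbove l)) := by
  calc vv d x ^ (n + 1) = ∏ _k : Fin (n + 1), vv d x := by
        rw [Finset.prod_const, Finset.card_univ, Fintype.card_fin]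
    _ = ∏ k : Fin (n + 1), ((∏ j, hh d x k j) * (∏ i, hh d x i k) *
          vv d (fun l => x (k.succAbove l))) := Finset.prod_congr rfl fun k _ => vv_succ d x k
    _ = vv d x * vv d x * ∏ k : Fin (n + 1), vv d (fun l => x (k.succAbove l)) := by
        rw [Finset.prod_mul_distrib, Finset.prod_mul_distrib]
        congr 2
        · rw [vv_eq]
        · rw [Finset.prod_comm, vv_eq]

theorem vv_nonneg (hd : ∀ x y, 0 ≤ d x y) {n : ℕ} (x : Fin n → E) : 0 ≤ vv d x :=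
  Finset.prod_nonneg fun _ _ => Finset.prod_nonneg fun _ _ => hd _ _

theorem vv_pow_le (hd : ∀ x y, 0 ≤ d x y) {n : ℕ} (hn : 2 ≤ n) (x : Fin (n + 1) → E) :
    vv d x ^ (n - 1) ≤ ∏ k : Fin (n + 1), vv d (fun l => x (k.succAbove l)) := by
  rcases (vv_nonneg d hd x).eq_or_lt with h | h
  · rw [← h, zero_pow (by omega)]
    exact Finset.prod_nonneg fun _ _ => vv_nonneg d hd _
  · have h1 := vv_pow d x
    have h2 : vv d x ^ (n + 1) = vv d x * vv d x * vv d x ^ (n - 1) := by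
      rw [← pow_two, ← pow_add]
      congr 1
      omega
    rw [h2] at h1
    exact (mul_left_cancel₀ (by positivity) h1).le

theorem sum_succ {n : ℕ} (f : Fin (n + 1) → ℝ) :
    ∑ k : Fin (n + 1), ∑ i : Fin n, f (k.succAbove i) = (n : ℝ) * ∑ i, f i := by
  have h : ∀ k : Fin (n + 1), ∑ i : Fin n, f (k.succAbove i) = ∑ i, f i - f k := by
    intro k
    rw [Fin.sum_univ_succAbove f k]
    ring
  rw [Finset.sum_congr rfl fun k _ => h k, Finset.sum_sub_distrib, Finset.sum_const,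
    Finset.card_univ, Fintype.card_fin, nsmul_eq_mul]
  push_cast
  ring

theorem step (hd : ∀ x y, 0 ≤ d x y) (S : Set E) (ψ : E → ℝ) (κ A : ℝ) (n : ℕ) (hn : 2 ≤ n)
    (h : ∀ x : Fin n → E, (∀ i, x i ∈ S) →
      vv d x ^ 2 * Real.exp (-(2 * κ * ((n : ℝ) - 1) * ∑ i, ψ (x i))) ≤
        Real.exp (A * ((n : ℝ) * ((n : ℝ) - 1))))
    (x : Fin (n + 1) → E) (hx : ∀ i, x i ∈ S) :
    vv d x ^ 2 * Real.exp (-(2 * κ * (((n + 1 : ℕ) : ℝ) - 1) * ∑ i, ψ (x i))) ≤
      Real.exp (A * (((n + 1 : ℕ) : ℝ) * (((n + 1 : ℕ) : ℝ) - 1))) := by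
  have hcast : ((n - 1 : ℕ) : ℝ) = (n : ℝ) - 1 := by
    rw [Nat.cast_sub (by omega), Nat.cast_one]
  have h0 : n - 1 ≠ 0 := by omega
  have hY : 0 ≤ vv d x ^ 2 * Real.exp (-(2 * κ * (((n + 1 : ℕ) : ℝ) - 1) * ∑ i, ψ (x i))) :=
    mul_nonneg (sq_nonneg _) (Real.exp_pos _).le
  refine (pow_le_pow_iff_left₀ hY (Real.exp_pos _).le h0).1 ?_
  have h1 : ∏ k : Fin (n + 1), (vv d (fun l => x (k.succAbove l)) ^ 2 *
      Real.exp (-(2 * κ * ((n : ℝ) - 1) * ∑ i, ψ (x (k.succAbove i))))) ≤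
      ∏ _k : Fin (n + 1), Real.exp (A * ((n : ℝ) * ((n : ℝ) - 1))) :=
    Finset.prod_le_prod (fun k _ => mul_nonneg (sq_nonneg _) (Real.exp_pos _).le)
      fun k _ => h _ fun i => hx _
  rw [Finset.prod_mul_distrib, ← Real.exp_sum, Finset.prod_pow, Finset.prod_const,
    Finset.card_univ, Fintype.card_fin, Finset.sum_neg_distrib, ← Finset.mul_sum,
    sum_succ fun i => ψ (x i), ← Real.exp_nat_mul] at h1
  have h2 := vv_pow_le d hd hn x
  have h3 : (vv d x ^ (n - 1)) ^ 2 ≤ (∏ k : Fin (n + 1), vv d (fun l => x (k.succAbove l))) ^ 2 :=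
    pow_le_pow_left₀ (pow_nonneg (vv_nonneg d hd x) _) h2 2
  rw [mul_pow, ← Real.exp_nat_mul, ← Real.exp_nat_mul, hcast]
  have e1 : (vv d x ^ 2) ^ (n - 1) = (vv d x ^ (n - 1)) ^ 2 := by
    rw [← pow_mul, ← pow_mul, mul_comm]
  have e2 : ((n : ℝ) - 1) * -(2 * κ * (((n + 1 : ℕ) : ℝ) - 1) * ∑ i, ψ (x i)) =
      -(2 * κ * ((n : ℝ) - 1) * ((n : ℝ) * ∑ i, ψ (x i))) := by
    push_cast
    ring
  have e3 : ((n : ℝ) - 1) * (A * (((n + 1 : ℕ) : ℝ) * (((n + 1 : ℕ) : ℝ) - 1))) =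
      ((n + 1 : ℕ) : ℝ) * (A * ((n : ℝ) * ((n : ℝ) - 1))) := by
    push_cast
    ring
  rw [e1, e2, e3]
  exact (mul_le_mul_of_nonneg_right h3 (Real.exp_pos _).le).trans h1

end FEK

open FEK in
/-- Fekete's monotonicity, abstract form. -/
theorem FEK_thm : FEK_Stmt := by
  intro E S d ψ κ A N hN hd _ h N' hN'
  induction N', hN' using Nat.le_induction with
  | base => exact h
  | succ n hn ih =>
    intro x hx
    exact step d hd S ψ κ A n (hN.trans hn) ih x hx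

end Pool.Agent.HX
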