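import Pool.Agent.HX.Stmts

/-!
Filling up with points of the disk (statement `FIL_Stmt`).
-/

namespace Pool.Agent.HX

open MeasureTheory ProbabilityTheory Filter Topology Pool.Agent.GH Pool.Agent.HA

namespace FIL

/-- A unit vector in the kernel. -/
lemma exists_unit (N m : ℕ) (hm : m < N) (a : Fin m → Fin N → ℂ) :
    ∃ x : Fin N → ℂ, ∑ k, ‖x k‖ ^ 2 = 1 ∧ ∀ i, ∑ k, x k * a i k = 0 := by
  let f : (Fin N → ℂ) →ₗ[ℂ] (Fin m → ℂ) :=
    { toFun := fun x i => ∑ k, x k * a i k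
      map_add' := by
        intro x y
        funext i
        simp only [Pi.add_apply, add_mul, Finset.sum_add_distrib]
      map_smul' := by
        intro c x
        funext i
        simp only [Pi.smul_apply, smul_eq_mul, RingHom.id_apply, Finset.mul_sum, mul_assoc] }
  have hk : LinearMap.ker f ≠ ⊥ := by
    apply LinearMap.ker_ne_bot_of_finrank_lt
    simpa using hm
  obtain ⟨x, hx, hx0⟩ := (Submodule.ne_bot_iff _).1 hk
  have hpos : 0 < ∑ k, ‖x k‖ ^ 2 := by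
    obtain ⟨k, hk⟩ := Function.ne_iff.1 hx0
    refine Finset.sum_pos' (fun i _ => by positivity) ⟨k, Finset.mem_univ k, ?_⟩
    have : 0 < ‖x k‖ := norm_pos_iff.2 hk
    positivity
  set s : ℝ := Real.sqrt (∑ k, ‖x k‖ ^ 2) with hs
  have hs0 : 0 < s := Real.sqrt_pos.2 hpos
  refine ⟨fun k => x k / (s : ℂ), ?_, ?_⟩
  · have h1 : ∀ k, ‖x k / (s : ℂ)‖ ^ 2 = ‖x k‖ ^ 2 / (∑ k, ‖x k‖ ^ 2) := by
      intro k
      rw [norm_div, Complex.norm_real, Real.norm_of_nonneg hs0.le, div_pow, hs,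
        Real.sq_sqrt hpos.le]
    rw [Finset.sum_congr rfl fun k _ => h1 k, ← Finset.sum_div, div_self hpos.ne']
  · intro i
    have h2 : f x = 0 := hx
    have h3 : ∑ k, x k * a i k = 0 := congrFun h2 i
    have h4 : ∀ k, x k / (s : ℂ) * a i k = (x k * a i k) / (s : ℂ) := by
      intro k
      ring
    rw [Finset.sum_congr rfl fun k _ => h4 k, ← Finset.sum_div, h3, zero_div]

/-- The polynomial with the coefficients `x_k/√k!`. -/
noncomputable def Qp {N : ℕ} (x : Fin N → ℂ) : Polynomial ℂ :=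
  ∑ k : Fin N, Polynomial.monomial (k : ℕ) (x k / ((Real.sqrt ((k : ℕ).factorial : ℝ) : ℝ) : ℂ))

lemma Qp_coeff {N : ℕ} (x : Fin N → ℂ) (j : Fin N) :
    (Qp x).coeff (j : ℕ) = x j / ((Real.sqrt ((j : ℕ).factorial : ℝ) : ℝ) : ℂ) := by
  unfold Qp
  rw [Polynomial.finset_sum_coeff, Finset.sum_eq_single j]
  · rw [Polynomial.coeff_monomial, if_pos rfl]
  · intro k _ hk
    rw [Polynomial.coeff_monomial, if_neg]
    intro h
    exact hk (Fin.ext h)
  · intro h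
    exact absurd (Finset.mem_univ j) h

lemma Qp_eval {N : ℕ} (x : Fin N → ℂ) (w : ℂ) :
    (Qp x).eval w = ∑ k : Fin N, x k * (w ^ (k : ℕ) /
      ((Real.sqrt ((k : ℕ).factorial : ℝ) : ℝ) : ℂ)) := by
  unfold Qp
  rw [Polynomial.eval_finset_sum]
  refine Finset.sum_congr rfl ?_
  intro k _
  rw [Polynomial.eval_monomial]
  ring

lemma Qp_fock {n : ℕ} (x : Fin (n + 1) → ℂ) : fock n (Qp x) = ∑ k, ‖x k‖ ^ 2 := by
  unfold fock
  rw [Finset.sum_range]
  refine Finset.sum_congr rfl ?_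
  intro k _
  rw [Qp_coeff, norm_div, Complex.norm_real, Real.norm_of_nonneg (Real.sqrt_nonneg _), div_pow,
    Real.sq_sqrt (by positivity)]
  have : ((k : ℕ).factorial : ℝ) ≠ 0 := by positivity
  field_simp

lemma exists_pt (hCAU : Pool.Agent.GH.CAU_Stmt) (n : ℕ) (x : Fin (n + 1) → ℂ)
    (hx : ∑ k, ‖x k‖ ^ 2 = 1) :
    ∃ w : ℂ, ‖w‖ ^ 2 ≤ (n : ℝ) ∧
      Real.exp (‖w‖ ^ 2) ≤ (2 * Real.exp 1 * ((n : ℝ) + 1) ^ 2) *
        ‖∑ k : Fin (n + 1), x k * (w ^ (k : ℕ) /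
          ((Real.sqrt ((k : ℕ).factorial : ℝ) : ℝ) : ℂ))‖ ^ 2 := by
  by_contra hcon
  push Not at hcon
  have hL : (0 : ℝ) < 2 * Real.exp 1 * ((n : ℝ) + 1) ^ 2 := by positivity
  have h := hCAU n (Qp x) (-Real.log (2 * Real.exp 1 * ((n : ℝ) + 1) ^ 2)) (by
    intro w hw
    have h1 := hcon w hw
    rw [Real.exp_add, Real.exp_neg, Real.exp_log hL, Qp_eval]
    rw [inv_mul_eq_div, le_div_iff₀ hL]
    linarith)
  rw [Qp_fock, hx, Real.exp_neg, Real.exp_log hL] at h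
  have h2 : Real.exp 1 * ((n : ℝ) + 1) ^ 2 * (2 * Real.exp 1 * ((n : ℝ) + 1) ^ 2)⁻¹ = 1 / 2 := by
    have : Real.exp 1 ≠ 0 := (Real.exp_pos 1).ne'
    have : ((n : ℝ) + 1) ≠ 0 := by positivity
    field_simp
  rw [h2] at h
  norm_num at h

lemma claim (hCAU : Pool.Agent.GH.CAU_Stmt) (hGRM : GRM_Stmt) (K : Set ℂ) (T r : ℝ) (u : ℂ → ℝ)
    (n : ℕ) (B : ℝ) (hr : 0 < r) (hT : 0 ≤ T) (hn : (n : ℝ) ≤ T ^ 2 * r ^ 2)
    (hB : BY K T r u (n + 1) B) :
    ∀ k m : ℕ, m + k = n + 1 → ∀ (z : Fin m → ℂ) (b : Fin m → Bool), Lab K T z b →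
      ‖(Gm (n + 1) r z).det‖ * ∏ i, wt r u (b i) (z i) ≤
        B * (2 * Real.exp 1 * ((n : ℝ) + 1) ^ 2) ^ k := by
  obtain ⟨-, h2, h3, -⟩ := hGRM
  have hL : (0 : ℝ) < 2 * Real.exp 1 * ((n : ℝ) + 1) ^ 2 := by positivity
  intro k
  induction k with
  | zero =>
    intro m hm z b hb
    rw [add_zero] at hm
    subst hm
    rw [pow_zero, mul_one, h3]
    exact hB z b hb
  | succ k ih =>
    intro m hm z b hb
    have hmn : m < n + 1 := by omega
    obtain ⟨x, hx1, hx2⟩ := exists_unit (n + 1) m hmn fun i k => feat r (k : ℕ) (z i)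
    obtain ⟨w, hw1, hw2⟩ := exists_pt hCAU n x hx1
    set y : ℂ := w / (r : ℂ) with hy
    have hrC : (r : ℂ) ≠ 0 := by exact_mod_cast hr.ne'
    have hry : (r : ℂ) * y = w := by
      rw [hy]
      field_simp
    have hyn : ‖y‖ ^ 2 = ‖w‖ ^ 2 / r ^ 2 := by
      rw [hy, norm_div, Complex.norm_real, Real.norm_of_nonneg hr.le, div_pow]
    have hyT : ‖y‖ ≤ T := by
      have h4 : ‖y‖ ^ 2 ≤ T ^ 2 := by
        rw [hyn, div_le_iff₀ (by positivity)]
        linarith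
      exact (sq_le_sq₀ (norm_nonneg y) hT).1 h4
    have hfe : ∑ k : Fin (n + 1), x k * (w ^ (k : ℕ) /
        ((Real.sqrt ((k : ℕ).factorial : ℝ) : ℝ) : ℂ)) =
        ∑ k : Fin (n + 1), x k * feat r (k : ℕ) y := by
      refine Finset.sum_congr rfl ?_
      intro k _
      unfold feat
      rw [hry]
    rw [hfe] at hw2
    have g2 := h2 (n + 1) m r (Fin.snoc (α := fun _ => ℂ) z y) (Fin.last m) x hx1.le (by
      intro i
      rw [Fin.succAbove_last, Fin.snoc_castSucc]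
      exact hx2 i)
    have e1 : (fun i : Fin m => (Fin.snoc (α := fun _ => ℂ) z y : Fin (m + 1) → ℂ)
        ((Fin.last m).succAbove i)) = z := by
      funext i
      rw [Fin.succAbove_last, Fin.snoc_castSucc]
    rw [e1, Fin.snoc_last] at g2
    have g3 := ih (m + 1) (by omega) (Fin.snoc (α := fun _ => ℂ) z y)
      (Fin.snoc (α := fun _ => Bool) b false) (by
        intro i
        refine Fin.lastCases ?_ (fun i => ?_) i
        · rw [Fin.snoc_last, Fin.snoc_last]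
          exact ⟨fun h => absurd h (by decide), fun _ => hyT⟩
        · rw [Fin.snoc_castSucc, Fin.snoc_castSucc]
          exact hb i)
    rw [Fin.prod_univ_castSucc] at g3
    simp only [Fin.snoc_castSucc, Fin.snoc_last] at g3
    have hwt : wt r u false y = Real.exp (-‖w‖ ^ 2) := by
      unfold wt
      rw [if_neg (by decide), hyn]
      congr 1
      field_simp
    rw [hwt] at g3
    have hW : 0 ≤ ∏ i, wt r u (b i) (z i) := by
      refine Finset.prod_nonneg ?_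
      intro i _
      unfold wt
      split_ifs <;> exact (Real.exp_pos _).le
    set D := ‖(Gm (n + 1) r z).det‖
    set D' := ‖(Gm (n + 1) r (Fin.snoc (α := fun _ => ℂ) z y)).det‖
    set W := ∏ i, wt r u (b i) (z i)
    set S := ‖∑ k : Fin (n + 1), x k * feat r (k : ℕ) y‖ ^ 2
    set L := 2 * Real.exp 1 * ((n : ℝ) + 1) ^ 2
    have hD : 0 ≤ D := norm_nonneg _
    -- D * S ≤ D', exp ≤ L * S, D' * (W * exp(-)) ≤ B L^k
    have k1 : D * Real.exp (‖w‖ ^ 2) ≤ L * D' := by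
      calc D * Real.exp (‖w‖ ^ 2) ≤ D * (L * S) := mul_le_mul_of_nonneg_left hw2 hD
        _ = L * (D * S) := by ring
        _ ≤ L * D' := mul_le_mul_of_nonneg_left g2 hL.le
    have k2 : D ≤ L * D' * Real.exp (-‖w‖ ^ 2) := by
      have e2 : Real.exp (‖w‖ ^ 2) * Real.exp (-‖w‖ ^ 2) = 1 := by
        rw [← Real.exp_add, add_neg_cancel, Real.exp_zero]
      calc D = D * Real.exp (‖w‖ ^ 2) * Real.exp (-‖w‖ ^ 2) := by rw [mul_assoc, e2, mul_one]
        _ ≤ L * D' * Real.exp (-‖w‖ ^ 2) :=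
          mul_le_mul_of_nonneg_right k1 (Real.exp_pos _).le
    calc D * W ≤ L * D' * Real.exp (-‖w‖ ^ 2) * W := mul_le_mul_of_nonneg_right k2 hW
      _ = L * (D' * (W * Real.exp (-‖w‖ ^ 2))) := by ring
      _ ≤ L * (B * L ^ k) := mul_le_mul_of_nonneg_left g3 hL.le
      _ = B * L ^ (k + 1) := by ring

end FIL

/-- Filling up with points of the disk. -/
theorem FIL_thm (hCAU : Pool.Agent.GH.CAU_Stmt) (hGRM : GRM_Stmt) : FIL_Stmt := by
  intro K T r u N B hN hr hT hNT hB0 hB n hn z hz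
  obtain ⟨N', rfl⟩ : ∃ N', N = N' + 1 := ⟨N - 1, by omega⟩
  have hc : (((N' + 1 : ℕ) : ℝ)) = (N' : ℝ) + 1 := by push_cast; ring
  rw [hc] at hNT ⊢
  have h := FIL.claim hCAU hGRM K T r u N' B hr hT (by linarith) hB (N' + 1 - n) n (by omega) z
    (fun _ => true) (fun i => ⟨fun _ => hz i, fun h => by simp at h⟩)
  have e : ∏ i, wt r u ((fun _ : Fin n => true) i) (z i) =
      ∏ i, Real.exp (-(2 * r ^ 2 * u (z i))) := by
    refine Finset.prod_congr rfl ?_
    intro i _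
    unfold wt
    rw [if_pos rfl]
  rw [e] at h
  refine h.trans (mul_le_mul_of_nonneg_left ?_ hB0)
  refine pow_le_pow_right₀ ?_ (by omega)
  have h1 : (1 : ℝ) ≤ Real.exp 1 := Real.one_le_exp zero_le_one
  have h2 : (0 : ℝ) ≤ (N' : ℝ) := Nat.cast_nonneg _
  nlinarith [mul_nonneg h2 h2, mul_nonneg (by linarith : (0 : ℝ) ≤ Real.exp 1 - 1) h2]

end Pool.Agent.HX
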