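import Pool.Agent.HX.Stmts

/-!
Bounds for Gram determinants: `GBD_Stmt` of `Pool.Agent.HX.Stmts`.
-/

namespace Pool.Agent.HX

open MeasureTheory ProbabilityTheory Filter Topology Pool.Agent.GH Pool.Agent.HA

namespace GBD

/-- A block of the exponential series beyond `j` is at most `s^(-j) exp(s X)`. -/
lemma tail_le (X s : ℝ) (hX : 0 ≤ X) (hs : 1 ≤ s) (j M : ℕ) :
    ∑ m ∈ Finset.Ico j M, X ^ m / (m.factorial : ℝ) ≤ (s ^ j)⁻¹ * Real.exp (s * X) := by
  have hs0 : (0 : ℝ) < s := lt_of_lt_of_le one_pos hs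
  have hstep : ∀ m ∈ Finset.Ico j M, X ^ m / (m.factorial : ℝ) ≤
      (s ^ j)⁻¹ * ((s * X) ^ m / (m.factorial : ℝ)) := by
    intro m hm
    have hjm : j ≤ m := (Finset.mem_Ico.1 hm).1
    have hf : (0 : ℝ) < (m.factorial : ℝ) := by exact_mod_cast m.factorial_pos
    have hsj : (0 : ℝ) < s ^ j := pow_pos hs0 j
    have h1 : s ^ j ≤ s ^ m := pow_le_pow_right₀ hs hjm
    rw [inv_mul_eq_div, div_div, div_le_div_iff₀ hf (mul_pos hf hsj), mul_pow]
    have h2 : 0 ≤ X ^ m := pow_nonneg hX m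
    have h3 : X ^ m * s ^ j ≤ X ^ m * s ^ m := mul_le_mul_of_nonneg_left h1 h2
    nlinarith [mul_le_mul_of_nonneg_right h3 hf.le]
  calc ∑ m ∈ Finset.Ico j M, X ^ m / (m.factorial : ℝ)
      ≤ ∑ m ∈ Finset.Ico j M, (s ^ j)⁻¹ * ((s * X) ^ m / (m.factorial : ℝ)) :=
        Finset.sum_le_sum hstep
    _ = (s ^ j)⁻¹ * ∑ m ∈ Finset.Ico j M, (s * X) ^ m / (m.factorial : ℝ) := by
        rw [Finset.mul_sum]
    _ ≤ (s ^ j)⁻¹ * Real.exp (s * X) := by
        refine mul_le_mul_of_nonneg_left ?_ (inv_nonneg.2 (pow_nonneg hs0.le j))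
        have hsX : 0 ≤ s * X := mul_nonneg hs0.le hX
        calc ∑ m ∈ Finset.Ico j M, (s * X) ^ m / (m.factorial : ℝ)
            ≤ ∑ m ∈ Finset.range M, (s * X) ^ m / (m.factorial : ℝ) := by
              refine Finset.sum_le_sum_of_subset_of_nonneg ?_ ?_
              · intro m hm
                exact Finset.mem_range.2 (Finset.mem_Ico.1 hm).2
              · intro m _ _
                positivity
          _ ≤ Real.exp (s * X) := Real.sum_le_exp_of_nonneg hsX M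

lemma exp_half_le : Real.exp (1 / 2) ≤ 2 := by
  have h1 : Real.exp (1 / 2) ^ 2 = Real.exp 1 := by
    rw [← Real.exp_nat_mul]; norm_num
  have h2 : Real.exp 1 < 3 := lt_trans Real.exp_one_lt_d9 (by norm_num)
  nlinarith [Real.exp_pos (1 / 2)]

/-- The final numerical estimate. -/
lemma small (n j M : ℕ) (X : ℝ) (hX : 0 ≤ X) (hn : n ≤ j) (hj : 1 ≤ j)
    (hXj : 512 * X ≤ (j : ℝ)) :
    (1 + (n : ℝ) * 16 ^ n * ∑ m ∈ Finset.Ico j M, X ^ m / (m.factorial : ℝ)) ^ n ≤ 2 := by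
  set T : ℝ := ∑ m ∈ Finset.Ico j M, X ^ m / (m.factorial : ℝ) with hT
  have hT0 : 0 ≤ T := Finset.sum_nonneg fun m _ => by positivity
  have h1 : T ≤ ((256 : ℝ) ^ j)⁻¹ * Real.exp (256 * X) := tail_le X 256 hX (by norm_num) j M
  have h2 : Real.exp (256 * X) ≤ 2 ^ j := by
    calc Real.exp (256 * X) ≤ Real.exp ((j : ℝ) * (1 / 2)) := by
          apply Real.exp_le_exp.2; linarith
      _ = Real.exp (1 / 2) ^ j := by rw [Real.exp_nat_mul]
      _ ≤ 2 ^ j := pow_le_pow_left₀ (Real.exp_pos _).le exp_half_le j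
  have h3 : T ≤ ((128 : ℝ) ^ j)⁻¹ := by
    refine h1.trans ?_
    calc ((256 : ℝ) ^ j)⁻¹ * Real.exp (256 * X) ≤ ((256 : ℝ) ^ j)⁻¹ * 2 ^ j :=
          mul_le_mul_of_nonneg_left h2 (by positivity)
      _ = ((128 : ℝ) ^ j)⁻¹ := by
          rw [← inv_pow, ← mul_pow, ← inv_pow]; norm_num
  have hnj : (n : ℝ) ≤ 2 ^ j := by
    have ha : n ≤ 2 ^ j := hn.trans (Nat.lt_two_pow_self).le
    exact_mod_cast ha
  have h16 : (16 : ℝ) ^ n ≤ 16 ^ j := pow_le_pow_right₀ (by norm_num) hn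
  have hβ : (n : ℝ) * ((n : ℝ) * 16 ^ n * T) ≤ 1 / 2 := by
    have hn0 : (0 : ℝ) ≤ n := Nat.cast_nonneg n
    calc (n : ℝ) * ((n : ℝ) * 16 ^ n * T)
        ≤ (2 : ℝ) ^ j * ((2 : ℝ) ^ j * 16 ^ j * ((128 : ℝ) ^ j)⁻¹) := by
          apply mul_le_mul hnj _ (by positivity) (by positivity)
          apply mul_le_mul _ h3 hT0 (by positivity)
          exact mul_le_mul hnj h16 (by positivity) (by positivity)
      _ = (1 / 2 : ℝ) ^ j := by
          rw [← mul_pow, ← inv_pow, ← mul_pow, ← mul_pow]; norm_num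
      _ ≤ (1 / 2 : ℝ) ^ 1 := pow_le_pow_of_le_one (by norm_num) (by norm_num) hj
      _ = 1 / 2 := pow_one _
  calc (1 + (n : ℝ) * 16 ^ n * T) ^ n ≤ Real.exp ((n : ℝ) * 16 ^ n * T) ^ n := by
        apply pow_le_pow_left₀ (by positivity)
        rw [add_comm]
        exact Real.add_one_le_exp _
    _ = Real.exp ((n : ℝ) * ((n : ℝ) * 16 ^ n * T)) := by rw [← Real.exp_nat_mul]
    _ ≤ Real.exp (1 / 2) := Real.exp_le_exp.2 hβ
    _ ≤ 2 := exp_half_le

end GBD

theorem GBD_thm (hINT : INT_Stmt) (hGRM : GRM_Stmt) : GBD_Stmt := by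
  obtain ⟨-, -, h3, h4, -, h6, -⟩ := hGRM
  constructor
  · intro R₀ r n M z hR hr hz
    have hX : 0 ≤ 4 * R₀ ^ 2 * r ^ 2 := by positivity
    rcases le_total M n with hM | hM
    · calc ‖(Gm M r z).det‖ ≤ ‖(Gm n r z).det‖ := h4 M n n r z hM
        _ = vdm z ^ 2 * cst r n := h3 n r z
        _ ≤ vdm z ^ 2 * cst r n *
            (1 + (n : ℝ) * 16 ^ n * Real.exp (4 * R₀ ^ 2 * r ^ 2)) ^ n := by
            have hnn : 0 ≤ vdm z ^ 2 * cst r n := by
              rw [← h3 n r z]; exact norm_nonneg _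
            refine le_mul_of_one_le_right hnn ?_
            apply one_le_pow₀
            have : 0 ≤ (n : ℝ) * 16 ^ n * Real.exp (4 * R₀ ^ 2 * r ^ 2) := by positivity
            linarith
    · have hkey := h6 n M n r ((n : ℝ) * 16 ^ n * Real.exp (4 * R₀ ^ 2 * r ^ 2)) z hM
        (by positivity) (by
          intro c
          have h := hINT R₀ r n z c n M hR hr hz le_rfl hM
          refine h.trans ?_
          refine mul_le_mul_of_nonneg_right ?_ (Finset.sum_nonneg fun k _ => by positivity)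
          refine mul_le_mul_of_nonneg_left ?_ (by positivity)
          rw [Nat.sub_self]
          have := GBD.tail_le (4 * R₀ ^ 2 * r ^ 2) 1 hX le_rfl 0 M
          simpa using this)
      rw [h3 n r z] at hkey
      calc ‖(Gm M r z).det‖ ≤ _ := hkey
        _ = _ := by ring
  · intro R₀ α hR hα
    have hR2 : (1 : ℝ) ≤ R₀ ^ 2 := one_le_pow₀ hR
    refine ⟨1 + 2 * α + 2048 * R₀ ^ 2, by nlinarith, by nlinarith, ?_⟩
    intro R hRR
    filter_upwards [eventually_ge_atTop (1 : ℝ)] with r hr1 n N' M z hz hn hN'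
    have hr2 : (1 : ℝ) ≤ r ^ 2 := one_le_pow₀ hr1
    have hR1 : (1 : ℝ) ≤ R := by nlinarith
    have hRsq : 1 + 2 * α + 2048 * R₀ ^ 2 ≤ R ^ 2 := by nlinarith
    have hRr : (1 + 2 * α + 2048 * R₀ ^ 2) * r ^ 2 ≤ (N' : ℝ) :=
      (mul_le_mul_of_nonneg_right hRsq (by positivity)).trans hN'
    have hX : 0 ≤ 4 * R₀ ^ 2 * r ^ 2 := by positivity
    have hnN : n ≤ N' := by
      have : (n : ℝ) ≤ (N' : ℝ) := by nlinarith
      exact_mod_cast this
    rcases le_total M N' with hM | hM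
    · calc ‖(Gm M r z).det‖ ≤ ‖(Gm N' r z).det‖ := h4 M N' n r z hM
        _ ≤ 2 * ‖(Gm N' r z).det‖ := by linarith [norm_nonneg (Gm N' r z).det]
    · have hcast : ((N' - n : ℕ) : ℝ) = (N' : ℝ) - n := by
        rw [Nat.cast_sub hnN]
      have hj1 : 1 ≤ N' - n := by
        have : (1 : ℝ) ≤ ((N' - n : ℕ) : ℝ) := by rw [hcast]; nlinarith
        exact_mod_cast this
      have hnj : n ≤ N' - n := by
        have : (n : ℝ) ≤ ((N' - n : ℕ) : ℝ) := by rw [hcast]; nlinarith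
        exact_mod_cast this
      have hXj : 512 * (4 * R₀ ^ 2 * r ^ 2) ≤ ((N' - n : ℕ) : ℝ) := by
        rw [hcast]; nlinarith
      have hsm := GBD.small n (N' - n) M (4 * R₀ ^ 2 * r ^ 2) hX hnj hj1 hXj
      set T : ℝ := ∑ m ∈ Finset.Ico (N' - n) M,
        (4 * R₀ ^ 2 * r ^ 2) ^ m / (m.factorial : ℝ) with hT
      have hT0 : 0 ≤ T := Finset.sum_nonneg fun m _ => by positivity
      have hkey := h6 N' M n r ((n : ℝ) * 16 ^ n * T) z hM (by positivity) (by
          intro c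
          have h := hINT R₀ r n z c N' M hR (lt_of_lt_of_le one_pos hr1) hz hnN hM
          refine h.trans ?_
          refine mul_le_mul_of_nonneg_left ?_ (by positivity)
          refine Finset.sum_le_sum_of_subset_of_nonneg ?_ fun k _ _ => by positivity
          intro k hk
          exact Finset.mem_range.2 (lt_of_lt_of_le (Finset.mem_range.1 hk) hnN))
      exact hkey.trans (mul_le_mul_of_nonneg_right hsm (norm_nonneg _))

end Pool.Agent.HX
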