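import Pool.Agent.HX.Stmts

/-!
GRM: general facts on Gram determinants.
-/

namespace Pool.Agent.HX

open MeasureTheory ProbabilityTheory Filter Topology Pool.Agent.GH Pool.Agent.HA
open scoped ComplexOrder

namespace GRM

open Matrix

/-- Gram matrix for a finite set of degrees. -/
noncomputable def Gs (S : Finset ℕ) (r : ℝ) {n : ℕ} (z : Fin n → ℂ) :
    Matrix (Fin n) (Fin n) ℂ :=
  Matrix.of fun i j => ∑ k ∈ S, feat r k (z i) * (starRingEnd ℂ) (feat r k (z j))

theorem Gm_eq (M : ℕ) (r : ℝ) {n : ℕ} (z : Fin n → ℂ) : Gm M r z = Gs (Finset.range M) r z := rfl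

theorem Gs_apply (S : Finset ℕ) (r : ℝ) {n : ℕ} (z : Fin n → ℂ) (i j : Fin n) :
    Gs S r z i j = ∑ k ∈ S, feat r k (z i) * (starRingEnd ℂ) (feat r k (z j)) := rfl

theorem Gs_herm (S : Finset ℕ) (r : ℝ) {n : ℕ} (z : Fin n → ℂ) : (Gs S r z).IsHermitian := by
  ext i j
  rw [Matrix.conjTranspose_apply, Gs_apply, Gs_apply, star_sum]
  refine Finset.sum_congr rfl fun k _ => ?_
  rw [star_mul', ← starRingEnd_apply, ← starRingEnd_apply, Complex.conj_conj, mul_comm]

/-- The quadratic form. -/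
theorem quad (S : Finset ℕ) (r : ℝ) {n : ℕ} (z : Fin n → ℂ) (x : Fin n → ℂ) :
    star x ⬝ᵥ (Gs S r z *ᵥ x) =
      ((∑ k ∈ S, ‖∑ i, star (x i) * feat r k (z i)‖ ^ 2 : ℝ) : ℂ) := by
  have h1 : ∀ k : ℕ, (((‖∑ i, star (x i) * feat r k (z i)‖ ^ 2 : ℝ)) : ℂ) =
      ∑ i, ∑ j, star (x i) * (feat r k (z i) * (starRingEnd ℂ) (feat r k (z j)) * x j) := by
    intro k
    rw [Complex.ofReal_pow, ← Complex.mul_conj', map_sum, Finset.sum_mul_sum]
    refine Finset.sum_congr rfl fun i _ => Finset.sum_congr rfl fun j _ => ?_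
    rw [map_mul, ← starRingEnd_apply, ← starRingEnd_apply, Complex.conj_conj]
    ring
  rw [Complex.ofReal_sum]
  simp_rw [h1]
  rw [Finset.sum_comm]
  rw [dotProduct]
  refine Finset.sum_congr rfl fun i _ => ?_
  rw [Finset.sum_comm, Matrix.mulVec, dotProduct, Finset.mul_sum, Pi.star_apply]
  refine Finset.sum_congr rfl fun j _ => ?_
  rw [Gs_apply, Finset.sum_mul, Finset.mul_sum]

theorem psd (S : Finset ℕ) (r : ℝ) {n : ℕ} (z : Fin n → ℂ) : (Gs S r z).PosSemidef := by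
  refine Matrix.PosSemidef.of_dotProduct_mulVec_nonneg (Gs_herm S r z) fun x => ?_
  rw [quad]
  have h : (0 : ℝ) ≤ ∑ k ∈ S, ‖∑ i, star (x i) * feat r k (z i)‖ ^ 2 :=
    Finset.sum_nonneg fun k _ => sq_nonneg _
  exact_mod_cast h

theorem psd_diff (S T : Finset ℕ) (r : ℝ) {n : ℕ} (z : Fin n → ℂ) (α : ℝ)
    (h : ∀ c : Fin n → ℂ, ∑ k ∈ T, ‖∑ i, c i * feat r k (z i)‖ ^ 2 ≤
      α * ∑ k ∈ S, ‖∑ i, c i * feat r k (z i)‖ ^ 2) :
    ((α : ℂ) • Gs S r z - Gs T r z).PosSemidef := by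
  refine Matrix.PosSemidef.of_dotProduct_mulVec_nonneg ?_ fun x => ?_
  · refine Matrix.IsHermitian.sub ?_ (Gs_herm T r z)
    unfold Matrix.IsHermitian
    rw [Matrix.conjTranspose_smul, (Gs_herm S r z).eq, ← starRingEnd_apply, Complex.conj_ofReal]
  · rw [Matrix.sub_mulVec, Matrix.smul_mulVec, dotProduct_sub, dotProduct_smul, quad, quad,
      smul_eq_mul]
    have h1 := h fun i => star (x i)
    have h2 : (0 : ℝ) ≤ α * (∑ k ∈ S, ‖∑ i, star (x i) * feat r k (z i)‖ ^ 2) -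
        ∑ k ∈ T, ‖∑ i, star (x i) * feat r k (z i)‖ ^ 2 := by linarith
    have h3 : ((α : ℂ) * ((∑ k ∈ S, ‖∑ i, star (x i) * feat r k (z i)‖ ^ 2 : ℝ) : ℂ) -
        ((∑ k ∈ T, ‖∑ i, star (x i) * feat r k (z i)‖ ^ 2 : ℝ) : ℂ)) =
        ((α * (∑ k ∈ S, ‖∑ i, star (x i) * feat r k (z i)‖ ^ 2) -
        ∑ k ∈ T, ‖∑ i, star (x i) * feat r k (z i)‖ ^ 2 : ℝ) : ℂ) := by
      push_cast
      ring
    rw [h3]
    exact_mod_cast h2

/-- Adding a number to a diagonal entry. -/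
theorem det_add_single {n : ℕ} (G : Matrix (Fin (n + 1)) (Fin (n + 1)) ℂ) (p : Fin (n + 1))
    (s : ℂ) : (G + Matrix.single p p s).det =
      G.det + s * (G.submatrix p.succAbove p.succAbove).det := by
  have hsub : ∀ j : Fin (n + 1), (G + Matrix.single p p s).submatrix p.succAbove j.succAbove =
      G.submatrix p.succAbove j.succAbove := by
    intro j
    ext a b
    rw [Matrix.submatrix_apply, Matrix.submatrix_apply, Matrix.add_apply,
      Matrix.single_apply_of_row_ne (Fin.succAbove_ne p a).symm, add_zero]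
  have hent : ∀ j : Fin (n + 1), (G + Matrix.single p p s) p j =
      G p j + if j = p then s else 0 := by
    intro j
    rw [Matrix.add_apply]
    congr 1
    by_cases hj : j = p
    · rw [if_pos hj, hj, Matrix.single_apply_same]
    · rw [if_neg hj, Matrix.single_apply_of_col_ne _ _ (Ne.symm hj)]
  rw [Matrix.det_succ_row _ p, Matrix.det_succ_row G p]
  have h1 : ∀ j : Fin (n + 1), (-1 : ℂ) ^ (p + j : ℕ) * (G + Matrix.single p p s) p j *
      ((G + Matrix.single p p s).submatrix p.succAbove j.succAbove).det =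
      (-1 : ℂ) ^ (p + j : ℕ) * G p j * (G.submatrix p.succAbove j.succAbove).det +
      (if j = p then s * (G.submatrix p.succAbove p.succAbove).det else 0) := by
    intro j
    rw [hsub, hent]
    by_cases hj : j = p
    · rw [if_pos hj, if_pos hj, hj]
      have : (-1 : ℂ) ^ (p + p : ℕ) = 1 := Even.neg_one_pow ⟨_, rfl⟩
      rw [this]
      ring
    · rw [if_neg hj, if_neg hj]
      ring
  rw [Finset.sum_congr rfl fun j _ => h1 j, Finset.sum_add_distrib,
    Finset.sum_ite_eq' Finset.univ p]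
  simp

/-- Expansion if the row `p` has only a diagonal entry. -/
theorem det_row {n : ℕ} (H : Matrix (Fin (n + 1)) (Fin (n + 1)) ℂ) (p : Fin (n + 1))
    (h : ∀ j, j ≠ p → H p j = 0) :
    H.det = H p p * (H.submatrix p.succAbove p.succAbove).det := by
  rw [Matrix.det_succ_row _ p, Finset.sum_eq_single p]
  · have : (-1 : ℂ) ^ (p + p : ℕ) = 1 := Even.neg_one_pow ⟨_, rfl⟩
    rw [this]
    ring
  · intro j _ hj
    rw [h j hj]
    ring
  · intro hp
    exact absurd (Finset.mem_univ p) hp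

theorem norm_add_of_nonneg {a b : ℂ} (ha : 0 ≤ a) (hb : 0 ≤ b) : ‖b‖ ≤ ‖a + b‖ := by
  obtain ⟨x, rfl⟩ : ∃ x : ℝ, a = x := ⟨a.re, by
    rw [Complex.nonneg_iff] at ha
    exact Complex.ext rfl (by rw [Complex.ofReal_im]; exact ha.2.symm)⟩
  obtain ⟨y, rfl⟩ : ∃ y : ℝ, b = y := ⟨b.re, by
    rw [Complex.nonneg_iff] at hb
    exact Complex.ext rfl (by rw [Complex.ofReal_im]; exact hb.2.symm)⟩
  have hx : 0 ≤ x := by exact_mod_cast ha
  have hy : 0 ≤ y := by exact_mod_cast hb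
  rw [← Complex.ofReal_add, Complex.norm_real, Complex.norm_real, Real.norm_of_nonneg hy,
    Real.norm_of_nonneg (by linarith)]
  linarith

theorem Gs_sub (S : Finset ℕ) (r : ℝ) {n : ℕ} (z : Fin (n + 1) → ℂ) (p : Fin (n + 1)) :
    (Gs S r z).submatrix p.succAbove p.succAbove = Gs S r (fun i : Fin n => z (p.succAbove i)) :=
  rfl

theorem norm_feat_sq (r : ℝ) (k : ℕ) (z : ℂ) :
    ‖feat r k z‖ ^ 2 = (r ^ 2 * ‖z‖ ^ 2) ^ k / (k.factorial : ℝ) := by
  unfold feat
  rw [norm_div, norm_pow, norm_mul, Complex.norm_real, Complex.norm_real, div_pow,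
    Real.norm_of_nonneg (Real.sqrt_nonneg _), Real.sq_sqrt (Nat.cast_nonneg _)]
  congr 1
  rw [← pow_mul, mul_comm k 2, pow_mul, mul_pow, Real.norm_eq_abs, sq_abs]

theorem diag_norm (M : ℕ) (r : ℝ) {n : ℕ} (z : Fin n → ℂ) (p : Fin n) :
    ‖Gs (Finset.range M) r z p p‖ ≤ Real.exp (r ^ 2 * ‖z p‖ ^ 2) := by
  rw [Gs_apply]
  refine (norm_sum_le _ _).trans ?_
  refine le_trans (le_of_eq ?_) (Real.sum_le_exp_of_nonneg (x := r ^ 2 * ‖z p‖ ^ 2)
    (by positivity) M)
  refine Finset.sum_congr rfl fun k _ => ?_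
  rw [norm_mul, RCLike.norm_conj, ← sq, norm_feat_sq]

/-- Part 1. -/
theorem part1 (hPSD : PSD_Stmt) (M n : ℕ) (r : ℝ) (z : Fin (n + 1) → ℂ) (p : Fin (n + 1)) :
    ‖(Gm M r z).det‖ ≤
      ‖(Gm M r (fun i : Fin n => z (p.succAbove i))).det‖ * Real.exp (r ^ 2 * ‖z p‖ ^ 2) := by
  rw [Gm_eq, Gm_eq]
  set G := Gs (Finset.range M) r z with hG
  have hGp : G.PosSemidef := psd _ _ _
  obtain ⟨D, hD⟩ : ∃ D : Matrix (Fin (n + 1)) (Fin (n + 1)) ℂ,
    D = Matrix.diagonal (fun i => if i = p then -1 else 1) := ⟨_, rfl⟩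
  have hDH : Dᴴ = D := by
    rw [hD, Matrix.diagonal_conjTranspose]
    congr 1
    funext i
    rw [Pi.star_apply]
    by_cases hi : i = p
    · rw [if_pos hi]; simp
    · rw [if_neg hi]; simp
  have hDG : (D * G * Dᴴ).PosSemidef := hGp.mul_mul_conjTranspose_same D
  have hDn : ‖D.det‖ = 1 := by
    rw [hD, Matrix.det_diagonal, norm_prod]
    refine Finset.prod_eq_one fun i _ => ?_
    by_cases hi : i = p
    · rw [if_pos hi]; simp
    · rw [if_neg hi]; simp
  have hdet : ‖(D * G * Dᴴ).det‖ = ‖G.det‖ := by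
    rw [hDH, Matrix.det_mul, Matrix.det_mul, norm_mul, norm_mul, hDn]
    ring
  have hent : ∀ i j, (D * G * Dᴴ) i j = (if i = p then -1 else 1) * G i j *
      (if j = p then -1 else 1) := by
    intro i j
    rw [hDH, hD, Matrix.mul_diagonal, Matrix.diagonal_mul]
  have h1 := hPSD.2 (n + 1) G (D * G * Dᴴ) (1 / 2) hGp hDG (by norm_num) (by norm_num)
  rw [hdet, ← Real.rpow_add_of_nonneg (norm_nonneg _) (by norm_num) (by norm_num)] at h1
  rw [show (1 / 2 : ℝ) + (1 - 1 / 2) = 1 by norm_num, Real.rpow_one] at h1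
  refine h1.trans ?_
  rw [det_row _ p]
  · rw [norm_mul, mul_comm]
    have e1 : (((1 / 2 : ℝ) : ℂ) • G + ((1 - 1 / 2 : ℝ) : ℂ) • (D * G * Dᴴ)) p p = G p p := by
      rw [Matrix.add_apply, Matrix.smul_apply, Matrix.smul_apply, hent, if_pos rfl, smul_eq_mul,
        smul_eq_mul]
      push_cast
      ring
    have e2 : (((1 / 2 : ℝ) : ℂ) • G + ((1 - 1 / 2 : ℝ) : ℂ) • (D * G * Dᴴ)).submatrix
        p.succAbove p.succAbove = Gs (Finset.range M) r (fun i : Fin n => z (p.succAbove i)) := by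
      ext i j
      rw [Matrix.submatrix_apply, Matrix.add_apply, Matrix.smul_apply, Matrix.smul_apply, hent,
        if_neg (Fin.succAbove_ne p i), if_neg (Fin.succAbove_ne p j), smul_eq_mul, smul_eq_mul]
      have : Gs (Finset.range M) r (fun i : Fin n => z (p.succAbove i)) i j =
        G (p.succAbove i) (p.succAbove j) := rfl
      rw [this]
      push_cast
      ring
    rw [e1, e2]
    exact mul_le_mul_of_nonneg_left (diag_norm M r z p) (norm_nonneg _)
  · intro j hj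
    rw [Matrix.add_apply, Matrix.smul_apply, Matrix.smul_apply, hent, if_pos rfl, if_neg hj,
      smul_eq_mul, smul_eq_mul]
    push_cast
    ring

/-- Part 2. -/
theorem part2 (M n : ℕ) (r : ℝ) (z : Fin (n + 1) → ℂ) (p : Fin (n + 1)) (x : Fin M → ℂ)
    (hx : ∑ k, ‖x k‖ ^ 2 ≤ 1)
    (h0 : ∀ i : Fin n, ∑ k : Fin M, x k * feat r (k : ℕ) (z (p.succAbove i)) = 0) :
    ‖(Gm M r (fun i : Fin n => z (p.succAbove i))).det‖ *
      ‖∑ k : Fin M, x k * feat r (k : ℕ) (z p)‖ ^ 2 ≤ ‖(Gm M r z).det‖ := by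
  rw [Gm_eq, Gm_eq]
  set G := Gs (Finset.range M) r z with hG
  obtain ⟨c, hc⟩ : ∃ c : ℂ, c = ∑ k : Fin M, x k * feat r (k : ℕ) (z p) := ⟨_, rfl⟩
  rw [← hc]
  obtain ⟨s, hs⟩ : ∃ s : ℝ, s = ‖c‖ ^ 2 := ⟨_, rfl⟩
  have hs0 : 0 ≤ s := by rw [hs]; positivity
  obtain ⟨B, hB⟩ : ∃ B : Matrix (Fin (n + 1)) (Fin (n + 1)) ℂ,
    B = G + Matrix.single p p (-(s : ℂ)) := ⟨_, rfl⟩
  have hBp : B.PosSemidef := by
    refine Matrix.PosSemidef.of_dotProduct_mulVec_nonneg ?_ fun v => ?_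
    · rw [hB]
      refine Matrix.IsHermitian.add (Gs_herm _ _ _) ?_
      unfold Matrix.IsHermitian
      rw [Matrix.conjTranspose_single, star_neg, ← starRingEnd_apply, Complex.conj_ofReal]
    · rw [hB, Matrix.add_mulVec, dotProduct_add, hG, quad]
      have h1 : star v ⬝ᵥ (Matrix.single p p (-(s : ℂ)) *ᵥ v) = ((-(s * ‖v p‖ ^ 2) : ℝ) : ℂ) := by
        rw [Matrix.single_mulVec, dotProduct, Finset.sum_eq_single p]
        · rw [Function.update_self, Pi.star_apply]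
          push_cast
          rw [← Complex.mul_conj', starRingEnd_apply]
          ring
        · intro j _ hj
          rw [Function.update_of_ne hj]
          simp
        · intro hp
          exact absurd (Finset.mem_univ p) hp
      rw [h1, ← Complex.ofReal_add]
      have h2 : s * ‖v p‖ ^ 2 ≤
          ∑ k ∈ Finset.range M, ‖∑ i, star (v i) * feat r k (z i)‖ ^ 2 := by
        have h3 : ∑ k : Fin M, x k * (∑ i, star (v i) * feat r (k : ℕ) (z i)) =
            star (v p) * c := by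
          have h4 : ∑ k : Fin M, x k * (∑ i, star (v i) * feat r (k : ℕ) (z i)) =
              ∑ i, star (v i) * ∑ k : Fin M, x k * feat r (k : ℕ) (z i) := by
            simp_rw [Finset.mul_sum]
            rw [Finset.sum_comm]
            refine Finset.sum_congr rfl fun i _ => Finset.sum_congr rfl fun k _ => ?_
            ring
          rw [h4, Fin.sum_univ_succAbove _ p, ← hc]
          have h5 : ∑ i : Fin n, star (v (p.succAbove i)) *
              ∑ k : Fin M, x k * feat r (k : ℕ) (z (p.succAbove i)) = 0 := by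
            refine Finset.sum_eq_zero fun i _ => ?_
            rw [h0 i, mul_zero]
          rw [h5, add_zero]
        have h4 : ‖star (v p) * c‖ ≤
            ∑ k : Fin M, ‖x k‖ * ‖∑ i, star (v i) * feat r (k : ℕ) (z i)‖ := by
          rw [← h3]
          refine (norm_sum_le _ _).trans (Finset.sum_le_sum fun k _ => ?_)
          rw [norm_mul]
        have h5 := Finset.sum_mul_sq_le_sq_mul_sq (Finset.univ : Finset (Fin M))
          (fun k => ‖x k‖) (fun k => ‖∑ i, star (v i) * feat r (k : ℕ) (z i)‖)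
        have h6 : ∑ k : Fin M, ‖∑ i, star (v i) * feat r (k : ℕ) (z i)‖ ^ 2 =
            ∑ k ∈ Finset.range M, ‖∑ i, star (v i) * feat r k (z i)‖ ^ 2 :=
          Fin.sum_univ_eq_sum_range
            (fun k => ‖∑ i, star (v i) * feat r k (z i)‖ ^ 2) M
        rw [h6] at h5
        have h7 : s * ‖v p‖ ^ 2 = ‖star (v p) * c‖ ^ 2 := by
          rw [norm_mul, norm_star, mul_pow, hs]
          ring
        rw [h7]
        have h8 : ‖star (v p) * c‖ ^ 2 ≤
            (∑ k : Fin M, ‖x k‖ * ‖∑ i, star (v i) * feat r (k : ℕ) (z i)‖) ^ 2 :=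
          pow_le_pow_left₀ (norm_nonneg _) h4 2
        have h9 : (∑ k, ‖x k‖ ^ 2) *
            ∑ k ∈ Finset.range M, ‖∑ i, star (v i) * feat r k (z i)‖ ^ 2 ≤
            1 * ∑ k ∈ Finset.range M, ‖∑ i, star (v i) * feat r k (z i)‖ ^ 2 :=
          mul_le_mul_of_nonneg_right hx (Finset.sum_nonneg fun k _ => sq_nonneg _)
        linarith
      have h3 : (0 : ℝ) ≤ (∑ k ∈ Finset.range M, ‖∑ i, star (v i) * feat r k (z i)‖ ^ 2) +
          -(s * ‖v p‖ ^ 2) := by linarith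
      exact_mod_cast h3
  have hGB : G = B + Matrix.single p p (s : ℂ) := by
    rw [hB, add_assoc, ← Matrix.single_add, neg_add_cancel, Matrix.single_zero, add_zero]
  have hsub : B.submatrix p.succAbove p.succAbove =
      Gs (Finset.range M) r (fun i : Fin n => z (p.succAbove i)) := by
    ext i j
    rw [hB, Matrix.submatrix_apply, Matrix.add_apply,
      Matrix.single_apply_of_row_ne (Fin.succAbove_ne p i).symm, add_zero]
    rfl
  rw [hGB, det_add_single, hsub]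
  refine le_trans (le_of_eq ?_) (norm_add_of_nonneg hBp.det_nonneg ?_)
  · rw [norm_mul, Complex.norm_real, Real.norm_of_nonneg hs0, hs]
    ring
  · exact mul_nonneg (by exact_mod_cast hs0) (psd _ _ _).det_nonneg

theorem norm_vander {n : ℕ} (z : Fin n → ℂ) : ‖(Matrix.vandermonde z).det‖ = vdm z := by
  rw [Matrix.det_vandermonde, norm_prod, vdm]
  refine Finset.prod_congr rfl fun i _ => ?_
  rw [norm_prod]
  exact Finset.prod_congr rfl fun j _ => norm_sub_rev _ _

/-- The matrix of the features. -/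
noncomputable def FA (M : ℕ) (r : ℝ) {n : ℕ} (z : Fin n → ℂ) : Matrix (Fin n) (Fin M) ℂ :=
  Matrix.of fun i k => feat r (k : ℕ) (z i)

theorem Gm_fact (M : ℕ) (r : ℝ) {n : ℕ} (z : Fin n → ℂ) : Gm M r z = FA M r z * (FA M r z)ᴴ := by
  ext i j
  rw [Gm_eq, Gs_apply, Matrix.mul_apply,
    ← Fin.sum_univ_eq_sum_range (fun k => feat r k (z i) * (starRingEnd ℂ) (feat r k (z j))) M]
  rfl

/-- Part 3. -/
theorem part3 (n : ℕ) (r : ℝ) (z : Fin n → ℂ) : ‖(Gm n r z).det‖ = vdm z ^ 2 * cst r n := by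
  have h1 : FA n r z = Matrix.vandermonde z *
      Matrix.diagonal (fun k : Fin n => (r : ℂ) ^ (k : ℕ) /
        (Real.sqrt ((k : ℕ).factorial : ℝ) : ℂ)) := by
    ext i k
    rw [Matrix.mul_diagonal, Matrix.vandermonde_apply]
    show ((r : ℂ) * z i) ^ (k : ℕ) / (Real.sqrt ((k : ℕ).factorial : ℝ) : ℂ) = _
    rw [mul_pow]
    ring
  rw [Gm_fact, Matrix.det_mul, Matrix.det_conjTranspose, norm_mul, norm_star, ← sq, h1,
    Matrix.det_mul, norm_mul, mul_pow, norm_vander, Matrix.det_diagonal, norm_prod, cst,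
    ← Fin.prod_univ_eq_prod_range (fun k => r ^ (2 * k) / (k.factorial : ℝ)) n,
    ← Finset.prod_pow]
  congr 1
  refine Finset.prod_congr rfl fun k _ => ?_
  rw [norm_div, norm_pow, Complex.norm_real, Complex.norm_real, div_pow,
    Real.norm_of_nonneg (Real.sqrt_nonneg _), Real.sq_sqrt (Nat.cast_nonneg _), ← pow_mul,
    mul_comm (k : ℕ) 2, pow_mul, pow_mul, Real.norm_eq_abs, sq_abs]

/-- Part 4. -/
theorem part4 (hPSD : PSD_Stmt) (M M' n : ℕ) (r : ℝ) (z : Fin n → ℂ) (h : M ≤ M') :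
    ‖(Gm M r z).det‖ ≤ ‖(Gm M' r z).det‖ := by
  rw [Gm_eq, Gm_eq]
  refine hPSD.1 n _ _ (psd _ _ _) ?_
  have h1 := psd_diff (Finset.range M') (Finset.range M) r z 1 (by
    intro c
    rw [one_mul]
    exact Finset.sum_le_sum_of_subset_of_nonneg (Finset.range_subset_range.2 h)
      fun k _ _ => sq_nonneg _)
  rw [Complex.ofReal_one, one_smul] at h1
  exact h1

theorem entry_tendsto (r : ℝ) (z w : ℂ) :
    Tendsto (fun M : ℕ => ∑ k ∈ Finset.range M, feat r k z * (starRingEnd ℂ) (feat r k w)) atTop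
      (𝓝 (Complex.exp ((r : ℂ) ^ 2 * z * (starRingEnd ℂ) w))) := by
  have h1 : ∀ k : ℕ, feat r k z * (starRingEnd ℂ) (feat r k w) =
      ((r : ℂ) ^ 2 * z * (starRingEnd ℂ) w) ^ k / (k.factorial : ℂ) := by
    intro k
    unfold feat
    rw [map_div₀, map_pow, map_mul, Complex.conj_ofReal, Complex.conj_ofReal, div_mul_div_comm,
      ← Complex.ofReal_mul, Real.mul_self_sqrt (Nat.cast_nonneg _), ← mul_pow,
      Complex.ofReal_natCast]
    congr 2
    ring
  have h2 : HasSum (fun k : ℕ => ((r : ℂ) ^ 2 * z * (starRingEnd ℂ) w) ^ k / (k.factorial : ℂ))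
      (Complex.exp ((r : ℂ) ^ 2 * z * (starRingEnd ℂ) w)) := by
    rw [Complex.exp_eq_exp_ℂ]
    exact NormedSpace.expSeries_div_hasSum_exp _
  have h3 := h2.tendsto_sum_nat
  simp_rw [h1]
  exact h3

/-- Part 5. -/
theorem part5 (hPSD : PSD_Stmt) (n : ℕ) (r : ℝ) (z : Fin n → ℂ) :
    (∀ M : ℕ, ‖(Gm M r z).det‖ ≤ ‖(Kf r z).det‖) ∧
    Tendsto (fun M : ℕ => ‖(Gm M r z).det‖) atTop (𝓝 ‖(Kf r z).det‖) := by
  have h1 : Tendsto (fun M : ℕ => Gm M r z) atTop (𝓝 (Kf r z)) := by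
    refine tendsto_pi_nhds.2 fun i => tendsto_pi_nhds.2 fun j => ?_
    exact entry_tendsto r (z i) (z j)
  have h2 : Continuous fun A : Matrix (Fin n) (Fin n) ℂ => ‖A.det‖ :=
    continuous_norm.comp (Continuous.matrix_det continuous_id)
  have h3 : Tendsto (fun M : ℕ => ‖(Gm M r z).det‖) atTop (𝓝 ‖(Kf r z).det‖) :=
    (h2.tendsto (Kf r z)).comp h1
  refine ⟨fun M => ?_, h3⟩
  have hm : Monotone fun M : ℕ => ‖(Gm M r z).det‖ := fun M M' h => part4 hPSD M M' n r z h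
  exact hm.ge_of_tendsto h3 M

/-- Part 6. -/
theorem part6 (hPSD : PSD_Stmt) (M M' n : ℕ) (r β : ℝ) (z : Fin n → ℂ) (hM : M ≤ M')
    (hβ : 0 ≤ β)
    (h : ∀ c : Fin n → ℂ, ∑ k ∈ Finset.Ico M M', ‖∑ i, c i * feat r k (z i)‖ ^ 2 ≤
      β * ∑ k ∈ Finset.range M, ‖∑ i, c i * feat r k (z i)‖ ^ 2) :
    ‖(Gm M' r z).det‖ ≤ (1 + β) ^ n * ‖(Gm M r z).det‖ := by
  rw [Gm_eq, Gm_eq]
  have h1 := psd_diff (Finset.range M) (Finset.range M') r z (1 + β) (by
    intro c
    have h2 := h c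
    rw [← Finset.sum_range_add_sum_Ico _ hM]
    linarith)
  have h2 := hPSD.1 n _ _ (psd (Finset.range M') r z) h1
  rw [Matrix.det_smul, norm_mul, norm_pow, Complex.norm_real, Fintype.card_fin,
    Real.norm_of_nonneg (by linarith)] at h2
  exact h2

/-- Part 7. -/
theorem part7 (M n : ℕ) (r : ℝ) (z : Fin n → ℂ) (h : M < n) : (Gm M r z).det = 0 := by
  by_contra hne
  have h1 : IsUnit (Gm M r z) := by
    rw [Matrix.isUnit_iff_isUnit_det]
    exact isUnit_iff_ne_zero.2 hne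
  have h2 := Matrix.rank_of_isUnit (Gm M r z) h1
  rw [Fintype.card_fin, Gm_fact] at h2
  have h3 := Matrix.rank_mul_le_left (FA M r z) (FA M r z)ᴴ
  have h4 := Matrix.rank_le_card_width (FA M r z)
  rw [Fintype.card_fin] at h4
  omega

end GRM

theorem GRM_thm (hPSD : PSD_Stmt) : GRM_Stmt :=
  ⟨GRM.part1 hPSD, fun M n r z p x hx h0 => GRM.part2 M n r z p x hx h0, GRM.part3,
    GRM.part4 hPSD, GRM.part5 hPSD, GRM.part6 hPSD, GRM.part7⟩

end Pool.Agent.HX
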