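import Pool.Agent.HX.Stmts
import Pool.Agent.GH.HOLEPT

/-!
HOF: the finite lower bound for the hole probability.
An almost maximal labelled tuple is enough, no compactness is needed.
-/

namespace Pool.Agent.HX

open MeasureTheory ProbabilityTheory Filter Topology Pool.Agent.GH Pool.Agent.HA

universe u

namespace HOF

/-! ### The matrix of the features -/

/-- The matrix of the features. -/
noncomputable def Ph (r : ℝ) {N : ℕ} (z : Fin N → ℂ) : Matrix (Fin N) (Fin N) ℂ :=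
  Matrix.of fun i k => feat r (k : ℕ) (z i)

lemma Ph_apply (r : ℝ) {N : ℕ} (z : Fin N → ℂ) (i k : Fin N) :
    Ph r z i k = feat r (k : ℕ) (z i) := rfl

lemma Ph_eq (r : ℝ) {N : ℕ} (z : Fin N → ℂ) :
    Ph r z = Matrix.vandermonde z * Matrix.diagonal (fun k : Fin N =>
      ((r : ℂ) ^ (k : ℕ) / (Real.sqrt ((k : ℕ).factorial : ℝ) : ℂ))) := by
  ext i k
  rw [Matrix.mul_diagonal, Matrix.vandermonde_apply, Ph_apply]
  unfold feat
  rw [mul_pow]
  ring

lemma norm_vand {N : ℕ} (z : Fin N → ℂ) : ‖(Matrix.vandermonde z).det‖ = vdm z := by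
  rw [Matrix.det_vandermonde, norm_prod]
  unfold vdm
  refine Finset.prod_congr rfl fun i _ => ?_
  rw [norm_prod]
  refine Finset.prod_congr rfl fun j _ => ?_
  rw [norm_sub_rev]

lemma norm_Ph_sq (r : ℝ) {N : ℕ} (z : Fin N → ℂ) :
    ‖(Ph r z).det‖ ^ 2 = vdm z ^ 2 * cst r N := by
  rw [Ph_eq, Matrix.det_mul, Matrix.det_diagonal, norm_mul, mul_pow, norm_vand]
  congr 1
  unfold cst
  rw [norm_prod, ← Finset.prod_pow, Finset.prod_range]
  refine Finset.prod_congr rfl fun k _ => ?_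
  rw [norm_div, norm_pow, Complex.norm_real, Complex.norm_real,
    Real.norm_of_nonneg (Real.sqrt_nonneg _), div_pow, Real.sq_sqrt (by positivity), ← pow_mul,
    mul_comm (k : ℕ) 2, pow_mul, Real.norm_eq_abs, sq_abs, pow_mul]

/-! ### Weights -/

lemma wt_pos (r : ℝ) (u : ℂ → ℝ) (b : Bool) (z : ℂ) : 0 < wt r u b z := by
  unfold wt
  split_ifs
  · exact Real.exp_pos _
  · exact Real.exp_pos _

/-- The functional. -/
noncomputable def FF (r : ℝ) (u : ℂ → ℝ) {N : ℕ} (z : Fin N → ℂ) (b : Fin N → Bool) : ℝ :=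
  ‖(Ph r z).det‖ ^ 2 * ∏ i, wt r u (b i) (z i)

lemma FF_eq (r : ℝ) (u : ℂ → ℝ) {N : ℕ} (z : Fin N → ℂ) (b : Fin N → Bool) :
    FF r u z b = vdm z ^ 2 * cst r N * ∏ i, wt r u (b i) (z i) := by
  unfold FF
  rw [norm_Ph_sq]

/-- distinct points in a disk -/
lemma exists_pts {T r : ℝ} (hT : 0 < T) (hr : 0 < r) (N : ℕ) :
    ∃ z : Fin N → ℂ, (∀ i, ‖z i‖ ≤ T) ∧ (Ph r z).det ≠ 0 := by
  refine ⟨fun i => ((T * ((i : ℕ) : ℝ) / N : ℝ) : ℂ), fun i => ?_, ?_⟩
  · have hN : (0 : ℝ) < N := by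
      have := i.pos
      exact_mod_cast this
    rw [Complex.norm_real, Real.norm_of_nonneg (by positivity), div_le_iff₀ hN]
    refine mul_le_mul_of_nonneg_left ?_ hT.le
    exact_mod_cast i.isLt.le
  · rw [Ph_eq, Matrix.det_mul, Matrix.det_diagonal]
    refine mul_ne_zero ?_ (Finset.prod_ne_zero_iff.2 fun k _ => ?_)
    · rw [Matrix.det_vandermonde_ne_zero_iff]
      intro i j hij
      have hN : (0 : ℝ) < N := by
        have := i.pos
        exact_mod_cast this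
      have h0 : ((T * ((i : ℕ) : ℝ) / N : ℝ) : ℂ) = ((T * ((j : ℕ) : ℝ) / N : ℝ) : ℂ) := hij
      have h1 := Complex.ofReal_injective h0
      have h2 : ((i : ℕ) : ℝ) = ((j : ℕ) : ℝ) := by
        field_simp at h1
        exact h1
      exact Fin.ext (by exact_mod_cast h2)
    · refine div_ne_zero (pow_ne_zero _ ?_) ?_
      · exact_mod_cast hr.ne'
      · rw [Ne, Complex.ofReal_eq_zero]
        exact (Real.sqrt_pos.2 (by positivity)).ne'

/-- an almost maximal labelled tuple -/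
lemma exists_max {K : Set ℂ} {T r B : ℝ} {u : ℂ → ℝ} {N : ℕ} (hT : 0 < T) (hr : 0 < r)
    (hBY : BY K T r u N B) :
    ∃ (z : Fin N → ℂ) (b : Fin N → Bool), Lab K T z b ∧ 0 < FF r u z b ∧ FF r u z b ≤ B ∧
      ∀ (y : Fin N → ℂ) (c : Fin N → Bool), Lab K T y c → FF r u y c ≤ 9 / 8 * FF r u z b := by
  obtain ⟨S, hS⟩ : ∃ S : Set ℝ, S = {x | ∃ (z : Fin N → ℂ) (b : Fin N → Bool), Lab K T z b ∧
    FF r u z b = x} := ⟨_, rfl⟩
  have hbdd : BddAbove S := by
    refine ⟨B, ?_⟩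
    rintro x hx
    rw [hS] at hx
    obtain ⟨z, b, hL, rfl⟩ := hx
    rw [FF_eq]
    exact hBY z b hL
  obtain ⟨z₀, hz₀, hd₀⟩ := exists_pts hT hr N
  have hL₀ : Lab K T z₀ (fun _ => false) := by
    intro i
    refine ⟨fun h => by simp at h, fun _ => hz₀ i⟩
  have hpos₀ : 0 < FF r u z₀ (fun _ => false) := by
    unfold FF
    have h1 : 0 < ‖(Ph r z₀).det‖ := norm_pos_iff.2 hd₀
    have h2 : 0 < ∏ i, wt r u false (z₀ i) := Finset.prod_pos fun i _ => wt_pos r u _ _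
    positivity
  have hmem₀ : FF r u z₀ (fun _ => false) ∈ S := by
    rw [hS]
    exact ⟨z₀, _, hL₀, rfl⟩
  have hs : 0 < sSup S := lt_of_lt_of_le hpos₀ (le_csSup hbdd hmem₀)
  obtain ⟨x, hx, hlt⟩ := exists_lt_of_lt_csSup ⟨_, hmem₀⟩ (show 8 / 9 * sSup S < sSup S by linarith)
  rw [hS] at hx
  obtain ⟨z, b, hL, rfl⟩ := hx
  refine ⟨z, b, hL, lt_of_le_of_lt (by positivity) hlt, ?_, fun y c hyc => ?_⟩
  · rw [FF_eq]
    exact hBY z b hL
  · have h1 : FF r u y c ≤ sSup S := by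
      refine le_csSup hbdd ?_
      rw [hS]
      exact ⟨y, c, hyc, rfl⟩
    linarith

/-! ### Interpolation -/

/-- The coefficients of the interpolation. -/
noncomputable def cf (r : ℝ) {N : ℕ} (z : Fin N → ℂ) (y : ℂ) : Fin N → ℂ :=
  Matrix.vecMul (fun k : Fin N => feat r (k : ℕ) y) (Ph r z)⁻¹

lemma cf_vecMul (r : ℝ) {N : ℕ} (z : Fin N → ℂ) (hz : (Ph r z).det ≠ 0) (y : ℂ) :
    Matrix.vecMul (cf r z y) (Ph r z) = fun k : Fin N => feat r (k : ℕ) y := by
  unfold cf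
  rw [Matrix.vecMul_vecMul, Matrix.nonsing_inv_mul _ (isUnit_iff_ne_zero.2 hz), Matrix.vecMul_one]

lemma Ph_update (r : ℝ) {N : ℕ} (z : Fin N → ℂ) (j : Fin N) (y : ℂ) :
    Ph r (Function.update z j y) = (Ph r z).updateRow j (fun k : Fin N => feat r (k : ℕ) y) := by
  ext i k
  rw [Ph_apply, Matrix.updateRow_apply]
  by_cases h : i = j
  · subst h
    rw [Function.update_self, if_pos rfl]
  · rw [Function.update_of_ne h, if_neg h, Ph_apply]

lemma det_update (r : ℝ) {N : ℕ} (z : Fin N → ℂ) (hz : (Ph r z).det ≠ 0) (j : Fin N) (y : ℂ) :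
    (Ph r (Function.update z j y)).det = cf r z y j * (Ph r z).det := by
  rw [Ph_update, ← cf_vecMul r z hz y]
  have h : Matrix.vecMul (cf r z y) (Ph r z) = ∑ k, cf r z y k • (Ph r z) k := by
    rw [Matrix.vecMul_eq_sum]
  rw [h, Matrix.det_updateRow_sum, smul_eq_mul]

lemma interp (r : ℝ) {N : ℕ} (z : Fin N → ℂ) (hz : (Ph r z).det ≠ 0) (y : ℂ) (x : Fin N → ℂ) :
    ∑ k, x k * feat r (k : ℕ) y = ∑ j, cf r z y j * ((Ph r z).mulVec x) j := by
  have h1 : ∑ k, x k * feat r (k : ℕ) y = (fun k : Fin N => feat r (k : ℕ) y) ⬝ᵥ x := by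
    unfold dotProduct
    refine Finset.sum_congr rfl fun k _ => ?_
    ring
  rw [h1, ← cf_vecMul r z hz y, ← Matrix.dotProduct_mulVec]
  rfl

/-- the bound for the coefficients -/
lemma cf_bound {K : Set ℂ} {T r : ℝ} {u : ℂ → ℝ} {N : ℕ} {z : Fin N → ℂ} {b : Fin N → Bool}
    (hL : Lab K T z b) (hz : (Ph r z).det ≠ 0)
    (hmax : ∀ (y : Fin N → ℂ) (c : Fin N → Bool), Lab K T y c →
      FF r u y c ≤ 9 / 8 * FF r u z b) (j : Fin N) (y : ℂ) (l : Bool)
    (h1 : l = true → y ∈ K) (h2 : l = false → ‖y‖ ≤ T) :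
    ‖cf r z y j‖ ^ 2 * wt r u l y ≤ 9 / 8 * wt r u (b j) (z j) := by
  have hL' : Lab K T (Function.update z j y) (Function.update b j l) := by
    intro i
    by_cases h : i = j
    · subst h
      rw [Function.update_self, Function.update_self]
      exact ⟨h1, h2⟩
    · rw [Function.update_of_ne h, Function.update_of_ne h]
      exact hL i
  have h3 := hmax _ _ hL'
  unfold FF at h3
  rw [det_update r z hz j y, norm_mul, mul_pow] at h3
  have e1 : ∏ i, wt r u (Function.update b j l i) (Function.update z j y i) =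
      wt r u l y * ∏ i ∈ Finset.univ.erase j, wt r u (b i) (z i) := by
    rw [← Finset.mul_prod_erase Finset.univ _ (Finset.mem_univ j), Function.update_self,
      Function.update_self]
    congr 1
    refine Finset.prod_congr rfl fun i hi => ?_
    have h : i ≠ j := (Finset.mem_erase.1 hi).1
    rw [Function.update_of_ne h, Function.update_of_ne h]
  have e2 : ∏ i, wt r u (b i) (z i) =
      wt r u (b j) (z j) * ∏ i ∈ Finset.univ.erase j, wt r u (b i) (z i) := by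
    rw [← Finset.mul_prod_erase Finset.univ _ (Finset.mem_univ j)]
  rw [e1, e2] at h3
  have hP : 0 < ∏ i ∈ Finset.univ.erase j, wt r u (b i) (z i) :=
    Finset.prod_pos fun i _ => wt_pos r u _ _
  have hD : 0 < ‖(Ph r z).det‖ ^ 2 := by
    have : 0 < ‖(Ph r z).det‖ := norm_pos_iff.2 hz
    positivity
  have h4 : (‖cf r z y j‖ ^ 2 * wt r u l y) *
      (‖(Ph r z).det‖ ^ 2 * ∏ i ∈ Finset.univ.erase j, wt r u (b i) (z i)) ≤
      (9 / 8 * wt r u (b j) (z j)) *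
      (‖(Ph r z).det‖ ^ 2 * ∏ i ∈ Finset.univ.erase j, wt r u (b i) (z i)) := by
    refine le_trans (le_of_eq ?_) (h3.trans (le_of_eq ?_))
    · ring
    · ring
  exact le_of_mul_le_mul_right h4 (mul_pos hD hP)

/-- the radii -/
noncomputable def del (r : ℝ) (u : ℂ → ℝ) {N : ℕ} (z : Fin N → ℂ) (b : Fin N → Bool)
    (j : Fin N) : ℝ := 1 / (7 * (N : ℝ) ^ 2 * Real.sqrt (wt r u (b j) (z j)))

lemma del_pos (r : ℝ) (u : ℂ → ℝ) {N : ℕ} (z : Fin N → ℂ) (b : Fin N → Bool) (j : Fin N) :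
    0 < del r u z b j := by
  have hN : (0 : ℝ) < N := by
    have := j.pos
    exact_mod_cast this
  have := Real.sqrt_pos.2 (wt_pos r u (b j) (z j))
  unfold del
  positivity

/-- the bound for the polynomial -/
lemma poly_bound {K : Set ℂ} {T r : ℝ} {u : ℂ → ℝ} {N : ℕ} (hN : 1 ≤ N) {z : Fin N → ℂ}
    {b : Fin N → Bool} (hL : Lab K T z b) (hz : (Ph r z).det ≠ 0)
    (hmax : ∀ (y : Fin N → ℂ) (c : Fin N → Bool), Lab K T y c →
      FF r u y c ≤ 9 / 8 * FF r u z b) (y : ℂ) (l : Bool)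
    (h1 : l = true → y ∈ K) (h2 : l = false → ‖y‖ ≤ T) {x : Fin N → ℂ}
    (hx : ∀ j, ‖((Ph r z).mulVec x) j‖ ≤ del r u z b j) :
    ‖∑ k, x k * feat r (k : ℕ) y‖ ^ 2 ≤ 9 / (8 * 49 * (N : ℝ) ^ 2) / wt r u l y := by
  have hN' : (0 : ℝ) < N := by exact_mod_cast hN
  have hw := wt_pos r u l y
  have hsw := Real.sqrt_pos.2 hw
  have h3 : ∀ j, ‖cf r z y j‖ * ‖((Ph r z).mulVec x) j‖ ≤
      Real.sqrt (9 / 8) / (7 * (N : ℝ) ^ 2 * Real.sqrt (wt r u l y)) := by
    intro j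
    have hwj := wt_pos r u (b j) (z j)
    have hswj := Real.sqrt_pos.2 hwj
    have h4 : ‖cf r z y j‖ * Real.sqrt (wt r u l y) ≤
        Real.sqrt (9 / 8) * Real.sqrt (wt r u (b j) (z j)) := by
      rw [← Real.sqrt_mul (by norm_num)]
      apply Real.le_sqrt_of_sq_le
      rw [mul_pow, Real.sq_sqrt hw.le]
      exact cf_bound hL hz hmax j y l h1 h2
    have h5 : ‖cf r z y j‖ ≤ Real.sqrt (9 / 8) * Real.sqrt (wt r u (b j) (z j)) /
        Real.sqrt (wt r u l y) := by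
      rw [le_div_iff₀ hsw]
      exact h4
    refine (mul_le_mul h5 (hx j) (norm_nonneg _) (by positivity)).trans (le_of_eq ?_)
    unfold del
    field_simp
  have h4 : ‖∑ k, x k * feat r (k : ℕ) y‖ ≤
      Real.sqrt (9 / 8) / (7 * (N : ℝ) * Real.sqrt (wt r u l y)) := by
    rw [interp r z hz y x]
    calc ‖∑ j, cf r z y j * ((Ph r z).mulVec x) j‖
        ≤ ∑ j, ‖cf r z y j * ((Ph r z).mulVec x) j‖ := norm_sum_le _ _
      _ ≤ ∑ _j : Fin N, Real.sqrt (9 / 8) / (7 * (N : ℝ) ^ 2 * Real.sqrt (wt r u l y)) := by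
          refine Finset.sum_le_sum fun j _ => ?_
          rw [norm_mul]
          exact h3 j
      _ = Real.sqrt (9 / 8) / (7 * (N : ℝ) * Real.sqrt (wt r u l y)) := by
          rw [Finset.sum_const, Finset.card_univ, Fintype.card_fin, nsmul_eq_mul]
          field_simp
  calc ‖∑ k, x k * feat r (k : ℕ) y‖ ^ 2
      ≤ (Real.sqrt (9 / 8) / (7 * (N : ℝ) * Real.sqrt (wt r u l y))) ^ 2 :=
        pow_le_pow_left₀ (norm_nonneg _) h4 2
    _ = 9 / (8 * 49 * (N : ℝ) ^ 2) / wt r u l y := by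
        rw [div_pow, mul_pow, mul_pow, Real.sq_sqrt (by norm_num), Real.sq_sqrt hw.le]
        field_simp
        norm_num

/-! ### The polynomial -/

/-- The polynomial with the given scaled coefficients. -/
noncomputable def Qx {n : ℕ} (x : Fin (n + 1) → ℂ) : Polynomial ℂ :=
  ∑ k : Fin (n + 1), Polynomial.C (x k / (Real.sqrt ((k : ℕ).factorial : ℝ) : ℂ)) *
    Polynomial.X ^ (k : ℕ)

lemma Qx_eval {n : ℕ} (x : Fin (n + 1) → ℂ) (w : ℂ) :
    (Qx x).eval w = ∑ k : Fin (n + 1), x k * w ^ (k : ℕ) /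
      (Real.sqrt ((k : ℕ).factorial : ℝ) : ℂ) := by
  unfold Qx
  rw [Polynomial.eval_finsetSum]
  refine Finset.sum_congr rfl fun k _ => ?_
  rw [Polynomial.eval_mul, Polynomial.eval_C, Polynomial.eval_pow, Polynomial.eval_X]
  ring

lemma Qx_coeff {n : ℕ} (x : Fin (n + 1) → ℂ) (k : Fin (n + 1)) :
    (Qx x).coeff (k : ℕ) = x k / (Real.sqrt ((k : ℕ).factorial : ℝ) : ℂ) := by
  unfold Qx
  rw [Polynomial.finsetSum_coeff, Finset.sum_eq_single k]
  · rw [Polynomial.coeff_C_mul, Polynomial.coeff_X_pow, if_pos rfl, mul_one]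
  · intro j _ hj
    rw [Polynomial.coeff_C_mul, Polynomial.coeff_X_pow, if_neg, mul_zero]
    exact fun h => hj (Fin.ext h.symm)
  · intro h
    exact absurd (Finset.mem_univ k) h

lemma fock_Qx {n : ℕ} (x : Fin (n + 1) → ℂ) : fock n (Qx x) = ∑ k, ‖x k‖ ^ 2 := by
  unfold fock
  rw [Finset.sum_range]
  refine Finset.sum_congr rfl fun k _ => ?_
  have h : (0 : ℝ) < ((k : ℕ).factorial : ℝ) := by positivity
  rw [Qx_coeff, norm_div, Complex.norm_real, Real.norm_of_nonneg (Real.sqrt_nonneg _), div_pow,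
    Real.sq_sqrt h.le]
  field_simp

lemma sum_feat {n : ℕ} (r : ℝ) (x : Fin (n + 1) → ℂ) (y : ℂ) :
    ∑ k : Fin (n + 1), x k * feat r (k : ℕ) y = (Qx x).eval ((r : ℂ) * y) := by
  rw [Qx_eval]
  refine Finset.sum_congr rfl fun k _ => ?_
  unfold feat
  ring

lemma qx_eval {n : ℕ} {q : Polynomial ℂ} (hq : q.natDegree ≤ n) (w : ℂ) :
    ∑ k : Fin (n + 1), (Real.sqrt ((k : ℕ).factorial : ℝ) : ℂ) * q.coeff (k : ℕ) * w ^ (k : ℕ) /
      (Real.sqrt ((k : ℕ).factorial : ℝ) : ℂ) = q.eval w := by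
  rw [Polynomial.eval_eq_sum_range' (n := n + 1) (by omega), Finset.sum_range]
  refine Finset.sum_congr rfl fun k _ => ?_
  have hf : (Real.sqrt ((k : ℕ).factorial : ℝ) : ℂ) ≠ 0 := by
    rw [Ne, Complex.ofReal_eq_zero]
    exact (Real.sqrt_pos.2 (by positivity)).ne'
  field_simp

lemma sum_qx {n : ℕ} (q : Polynomial ℂ) :
    ∑ k : Fin (n + 1), ‖(Real.sqrt ((k : ℕ).factorial : ℝ) : ℂ) * q.coeff (k : ℕ)‖ ^ 2 =
      fock n q := by
  unfold fock
  rw [Finset.sum_range]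
  refine Finset.sum_congr rfl fun k _ => ?_
  rw [norm_mul, Complex.norm_real, Real.norm_of_nonneg (Real.sqrt_nonneg _), mul_pow,
    Real.sq_sqrt (by positivity)]

/-! ### The set and its volume -/

/-- The set of coefficient vectors. -/
def SS (r : ℝ) {N : ℕ} (z : Fin N → ℂ) (δ : Fin N → ℝ) (v : Fin N → ℂ) : Set (Fin N → ℂ) :=
  {x | ∀ j, ‖((Ph r z).mulVec x + v) j‖ ≤ δ j}

lemma vol_SS (hRJC : RJC_Stmt) (r : ℝ) {N : ℕ} (z : Fin N → ℂ) (hz : (Ph r z).det ≠ 0)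
    (δ : Fin N → ℝ) (hδ : ∀ j, 0 ≤ δ j) (v : Fin N → ℂ) :
    MeasurableSet (SS r z δ v) ∧
      (volume (SS r z δ v)).toReal = (∏ j, Real.pi * δ j ^ 2) / ‖(Ph r z).det‖ ^ 2 := by
  obtain ⟨D, hD⟩ : ∃ D : Set (Fin N → ℂ), D = Set.pi Set.univ
    (fun j => Metric.closedBall (0 : ℂ) (δ j)) := ⟨_, rfl⟩
  have hDm : MeasurableSet D := by
    rw [hD]
    exact MeasurableSet.univ_pi fun j => measurableSet_closedBall
  have hmap : Measurable fun x : Fin N → ℂ => (Ph r z).mulVec x + v := by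
    refine (Continuous.add ?_ continuous_const).measurable
    exact Continuous.matrix_mulVec continuous_const continuous_id
  have hpre : SS r z δ v = (fun x : Fin N → ℂ => (Ph r z).mulVec x + v) ⁻¹' D := by
    ext x
    rw [hD]
    unfold SS
    simp only [Set.mem_ofPred_eq, Set.mem_preimage, Set.mem_pi, Set.mem_univ, forall_true_left,
      mem_closedBall_zero_iff]
  have hSm : MeasurableSet (SS r z δ v) := by
    rw [hpre]
    exact hmap hDm
  refine ⟨hSm, ?_⟩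
  have h1 := hRJC N (Ph r z) hz (D.indicator 1) (measurable_one.indicator hDm) v
  have h2 : ∫⁻ x, D.indicator (1 : (Fin N → ℂ) → ENNReal) ((Ph r z).mulVec x + v) =
      volume (SS r z δ v) := by
    rw [← lintegral_indicator_one hSm]
    refine lintegral_congr fun x => ?_
    rw [hpre]
    rfl
  rw [h2, lintegral_indicator_one hDm, hD, volume_pi_pi] at h1
  rw [h1, ENNReal.toReal_mul, ENNReal.toReal_ofReal (by positivity), ENNReal.toReal_prod]
  have h3 : ∀ j, (volume (Metric.closedBall (0 : ℂ) (δ j))).toReal = Real.pi * δ j ^ 2 := by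
    intro j
    rw [Complex.volume_closedBall, ENNReal.toReal_mul, ENNReal.toReal_pow,
      ENNReal.toReal_ofReal (hδ j)]
    rw [mul_comm]
    rfl
  rw [Finset.prod_congr rfl fun j _ => h3 j]
  ring

end HOF

open HOF in
/-- **(HOF)** -/
theorem HOF_thm (hGD : Pool.Agent.GH.GDENS_Stmt.{u}) (hIN : Pool.Agent.GH.INDT_Stmt.{u})
    (hCAU : Pool.Agent.GH.CAU_Stmt) (hRJC : Pool.Agent.HA.RJC_Stmt) : HOF_Stmt.{u} := by
  intro Ω _ P ξ hG K n r T B u q _ hn hr hT hnT _ hq hfq hB hBY hlow htail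
  have hprob : IsProbabilityMeasure P := hG.prob
  obtain ⟨z, b, hL, hF0, hFB, hmax⟩ := exists_max hT hr hBY
  have hz : (Ph r z).det ≠ 0 := by
    intro h
    unfold FF at hF0
    rw [h] at hF0
    simp at hF0
  have hn1 : (0 : ℝ) < (n : ℝ) + 1 := by positivity
  have hcast : (((n + 1 : ℕ)) : ℝ) = (n : ℝ) + 1 := by push_cast; ring
  obtain ⟨xq, hxq⟩ : ∃ xq : Fin (n + 1) → ℂ, xq = fun k : Fin (n + 1) =>
    (Real.sqrt ((k : ℕ).factorial : ℝ) : ℂ) * q.coeff (k : ℕ) := ⟨_, rfl⟩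
  obtain ⟨S, hS⟩ : ∃ S, S = SS r z (del r u z b) (-(Ph r z).mulVec xq) := ⟨_, rfl⟩
  obtain ⟨hmeas, hvol⟩ := vol_SS hRJC r z hz (del r u z b) (fun j => (del_pos r u z b j).le)
    (-(Ph r z).mulVec xq)
  rw [← hS] at hmeas hvol
  have hSx : ∀ x ∈ S, ∀ j, ‖((Ph r z).mulVec (x - xq)) j‖ ≤ del r u z b j := by
    intro x hx j
    rw [hS] at hx
    have h := hx j
    rw [Matrix.mulVec_sub]
    rwa [← sub_eq_add_neg] at h
  have hfock : ∀ x ∈ S, ∑ k, ‖(x - xq) k‖ ^ 2 ≤ 1 / 16 := by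
    intro x hx
    rw [← fock_Qx]
    have h1 := hCAU n (Qx (x - xq)) (Real.log (9 / (8 * 49 * ((n : ℝ) + 1) ^ 2))) ?_
    · rw [Real.exp_log (by positivity)] at h1
      refine h1.trans ?_
      have h2 : Real.exp 1 * ((n : ℝ) + 1) ^ 2 * (9 / (8 * 49 * ((n : ℝ) + 1) ^ 2)) =
          Real.exp 1 * (9 / 392) := by
        field_simp
        norm_num
      rw [h2]
      have := Real.exp_one_lt_d9
      linarith
    · intro w hw
      have h2 : (r : ℂ) * (w / r) = w := by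
        have : (r : ℂ) ≠ 0 := by exact_mod_cast hr.ne'
        field_simp
      have hy : ‖w / (r : ℂ)‖ ≤ T := by
        rw [norm_div, Complex.norm_real, Real.norm_of_nonneg hr.le, div_le_iff₀ hr]
        refine le_of_sq_le_sq ?_ (by positivity)
        rw [mul_pow]
        exact hw.trans hnT
      have h3 := poly_bound (by omega) hL hz hmax (w / (r : ℂ)) false (fun h => by simp at h)
        (fun _ => hy) (hSx x hx)
      rw [sum_feat, h2, hcast] at h3
      refine h3.trans (le_of_eq ?_)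
      rw [Real.exp_add, Real.exp_log (by positivity)]
      unfold wt
      rw [if_neg (by simp), Real.exp_neg, div_inv_eq_mul, norm_div, Complex.norm_real,
        Real.norm_of_nonneg hr.le, div_pow]
      congr 2
      field_simp
  have hone : ∀ x ∈ S, ∑ k, ‖x k‖ ^ 2 ≤ 1 := by
    intro x hx
    have h1 := hfock x hx
    have h2 : ∑ k, ‖xq k‖ ^ 2 ≤ 1 / 16 := by
      rw [hxq, sum_qx]
      exact hfq
    calc ∑ k, ‖x k‖ ^ 2 ≤ ∑ k, (2 * ‖(x - xq) k‖ ^ 2 + 2 * ‖xq k‖ ^ 2) := by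
          refine Finset.sum_le_sum fun k _ => ?_
          have h3 : ‖x k‖ ≤ ‖(x - xq) k‖ + ‖xq k‖ := by
            have := norm_add_le ((x - xq) k) (xq k)
            rwa [Pi.sub_apply, sub_add_cancel] at this
          nlinarith [sq_nonneg (‖(x - xq) k‖ - ‖xq k‖), norm_nonneg (x k),
            norm_nonneg ((x - xq) k), norm_nonneg (xq k)]
      _ = 2 * ∑ k, ‖(x - xq) k‖ ^ 2 + 2 * ∑ k, ‖xq k‖ ^ 2 := by
          rw [Finset.sum_add_distrib, Finset.mul_sum, Finset.mul_sum]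
      _ ≤ 1 := by linarith
  have hd := hGD P ξ hG n S hmeas hone
  have hi := hIN P ξ hG n S hmeas
  have hsub : {ω | (fun k : Fin (n + 1) => ξ (k : ℕ) ω) ∈ S ∧
      ∀ k : ℕ, n < k → ‖ξ k ω‖ ≤ (k : ℝ)} ⊆ {ω | ∀ x ∈ K, gef ξ ω ((r : ℂ) * x) ≠ 0} := by
    rintro ω ⟨hω, hωt⟩ y hy
    have hnw : ‖(r : ℂ) * y‖ = r * ‖y‖ := by
      rw [norm_mul, Complex.norm_real, Real.norm_of_nonneg hr.le]
    unfold gef
    refine HOLEPT.ne_zero (n := n) (ζ := fun k => ξ k ω) (w := (r : ℂ) * y)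
      (c := 1 / 2 * ‖q.eval ((r : ℂ) * y)‖) hωt ?_ ?_
    · rw [hnw]
      exact htail y hy
    · have h3 := poly_bound (by omega) hL hz hmax y true (fun _ => hy)
        (fun h => by simp at h) (hSx _ hω)
      rw [sum_feat, hcast] at h3
      have h4 := hlow y hy
      have h5 : ‖(Qx ((fun k : Fin (n + 1) => ξ (k : ℕ) ω) - xq)).eval ((r : ℂ) * y)‖ ≤
          1 / 2 * ‖q.eval ((r : ℂ) * y)‖ := by
        refine le_of_sq_le_sq (h3.trans ?_) (by positivity)
        unfold wt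
        rw [if_pos rfl, Real.exp_neg, div_inv_eq_mul]
        have e1 : Real.exp (2 * r ^ 2 * u y) = Real.exp (r ^ 2 * u y) ^ 2 := by
          rw [← Real.exp_nat_mul]
          congr 1
          push_cast
          ring
        rw [e1, mul_pow]
        refine mul_le_mul ?_ (pow_le_pow_left₀ (Real.exp_pos _).le h4 2) (by positivity)
          (by positivity)
        rw [div_le_iff₀ (by positivity)]
        have : (1 : ℝ) ≤ ((n : ℝ) + 1) ^ 2 := by
          nlinarith [(Nat.cast_nonneg n : (0 : ℝ) ≤ n)]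
        nlinarith
      have e2 : ∑ k : Fin (n + 1), ξ (k : ℕ) ω * ((r : ℂ) * y) ^ (k : ℕ) /
          (Real.sqrt ((k : ℕ).factorial : ℝ) : ℂ) =
          q.eval ((r : ℂ) * y) +
            (Qx ((fun k : Fin (n + 1) => ξ (k : ℕ) ω) - xq)).eval ((r : ℂ) * y) := by
        rw [Qx_eval, ← qx_eval hq, ← Finset.sum_add_distrib]
        refine Finset.sum_congr rfl fun k _ => ?_
        rw [hxq, Pi.sub_apply]
        ring
      show _ ≤ ‖∑ k : Fin (n + 1), ξ (k : ℕ) ω * ((r : ℂ) * y) ^ (k : ℕ) /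
          (Real.sqrt ((k : ℕ).factorial : ℝ) : ℂ)‖
      rw [e2]
      have h6 := norm_sub_norm_le (q.eval ((r : ℂ) * y))
        (-(Qx ((fun k : Fin (n + 1) => ξ (k : ℕ) ω) - xq)).eval ((r : ℂ) * y))
      rw [norm_neg, sub_neg_eq_add] at h6
      linarith
  have hmono : (P {ω | (fun k : Fin (n + 1) => ξ (k : ℕ) ω) ∈ S ∧
      ∀ k : ℕ, n < k → ‖ξ k ω‖ ≤ (k : ℝ)}).toReal ≤ holeP P ξ K r :=
    ENNReal.toReal_mono (measure_ne_top P _) (measure_mono hsub)
  refine le_trans ?_ hmono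
  refine le_trans ?_ hi
  have hhalf : 1 / 2 * (Real.exp (-1) / Real.pi ^ (n + 1) * (volume S).toReal) ≤
      1 / 2 * (P {ω | (fun k : Fin (n + 1) => ξ (k : ℕ) ω) ∈ S}).toReal :=
    mul_le_mul_of_nonneg_left hd (by norm_num)
  refine le_trans ?_ hhalf
  rw [hvol]
  have e3 : ∏ j, Real.pi * del r u z b j ^ 2 =
      Real.pi ^ (n + 1) * ((1 / (49 * ((n : ℝ) + 1) ^ 4)) ^ (n + 1) /
        ∏ j, wt r u (b j) (z j)) := by
    have h1 : ∀ j : Fin (n + 1), Real.pi * del r u z b j ^ 2 =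
        Real.pi * (1 / (49 * ((n : ℝ) + 1) ^ 4)) * (wt r u (b j) (z j))⁻¹ := by
      intro j
      have hw := wt_pos r u (b j) (z j)
      unfold del
      rw [hcast, div_pow, mul_pow, mul_pow, Real.sq_sqrt hw.le]
      field_simp
      norm_num
    rw [Finset.prod_congr rfl fun j _ => h1 j, Finset.prod_mul_distrib, Finset.prod_const,
      Finset.card_univ, Fintype.card_fin, Finset.prod_inv_distrib, mul_pow]
    ring
  rw [e3]
  have hpi : Real.pi ^ (n + 1) ≠ 0 := (pow_pos Real.pi_pos _).ne'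
  have e4 : 1 / 2 * (Real.exp (-1) / Real.pi ^ (n + 1) *
      (Real.pi ^ (n + 1) * ((1 / (49 * ((n : ℝ) + 1) ^ 4)) ^ (n + 1) /
        ∏ j, wt r u (b j) (z j)) / ‖(Ph r z).det‖ ^ 2)) =
      1 / 2 * Real.exp (-1) * ((1 / (49 * ((n : ℝ) + 1) ^ 4)) ^ (n + 1) / FF r u z b) := by
    unfold FF
    have hP : 0 < ∏ i, wt r u (b i) (z i) := Finset.prod_pos fun i _ => wt_pos r u _ _
    have hD : ‖(Ph r z).det‖ ≠ 0 := norm_ne_zero_iff.2 hz
    field_simp
  rw [e4]
  refine mul_le_mul_of_nonneg_left ?_ (by positivity)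
  exact div_le_div_of_nonneg_left (by positivity) hF0 hFB

end Pool.Agent.HX
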