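import Pool.Agent.HX.Stmts
import Pool.Agent.HA.ROT

/-!
Module INR: lower bound of the exponent by the disks contained in `K`.
-/

set_option autoImplicit false

namespace Pool.Agent.HX

open MeasureTheory ProbabilityTheory Filter Topology Pool.Agent.GH Pool.Agent.HA

universe u

namespace INR

/-- The mean of `log|g|` over the circle. -/
theorem avg_le {K : Set ℂ} {m : ℕ} {g : ℂ → ℂ} (hg : Hol K m g) {a : ℂ} {ρ : ℝ} (hρ : 0 < ρ)
    (hK : Metric.closedBall a ρ ⊆ K) :
    Real.circleAverage (fun w => Real.log ‖g (a + w)‖) 0 ρ ≤ m * ‖a‖ ^ 2 / 2 := by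
  have hd : Differentiable ℂ (fun w => g (a + w)) := by
    have := hg.1
    fun_prop
  have hne : ∀ u ∈ Metric.closedBall (0 : ℂ) |ρ|, g (a + u) ≠ 0 := by
    intro u hu
    apply hg.2.1
    apply hK
    rw [abs_of_pos hρ, mem_closedBall_zero_iff] at hu
    rw [mem_closedBall_iff_norm, add_sub_cancel_left]
    exact hu
  have h1 := AnalyticOnNhd.circleAverage_log_norm_of_ne_zero (R := ρ) (c := (0 : ℂ))
    (g := fun w => g (a + w)) (fun z _ => hd.analyticAt z) hne
  rw [h1]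
  have h2 : g (a + 0) ≠ 0 := hne 0 (by simp)
  have h3 : ‖g (a + 0)‖ ≤ Real.exp (m * ‖a‖ ^ 2 / 2) := by
    have := hg.2.2 (a + 0)
    rwa [add_zero] at this ⊢
  have h4 := Real.log_le_log (norm_pos_iff.2 h2) h3
  rwa [Real.log_exp] at h4

/-- The sum of the vertices of a regular polygon. -/
theorem sum_zero {N : ℕ} (hN : 2 ≤ N) {c : ℝ} {w : Fin N → ℂ}
    (h : ∀ z : ℂ, ∏ i, (z - w i) = (z - 0) ^ N - (c : ℂ) ^ N) : ∑ i, w i = 0 := by
  have h1 : (∏ i : Fin N, (Polynomial.X - Polynomial.C (w i))) =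
      Polynomial.X ^ N - Polynomial.C ((c : ℂ) ^ N) := by
    apply Polynomial.funext
    intro z
    rw [Polynomial.eval_prod]
    simp only [Polynomial.eval_sub, Polynomial.eval_X, Polynomial.eval_C, Polynomial.eval_pow]
    rw [h z, sub_zero]
  have h2 := Polynomial.prod_X_sub_C_nextCoeff (s := Finset.univ) w
  have hdeg : (Polynomial.X ^ N - Polynomial.C ((c : ℂ) ^ N)).natDegree = N := by
    exact Polynomial.natDegree_X_pow_sub_C
  rw [h1, Polynomial.nextCoeff, hdeg, if_neg (by omega), Polynomial.coeff_sub,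
    Polynomial.coeff_X_pow, Polynomial.coeff_C, if_neg (by omega), if_neg (by omega)] at h2
  have h3 : -∑ i, w i = 0 := by
    rw [← h2]; ring
  exact neg_eq_zero.1 h3

/-- Translation of the points. -/
theorem det_shift (r : ℝ) (a : ℂ) {n : ℕ} (w : Fin n → ℂ) (hw : ∑ i, w i = 0) :
    ‖(Kf r (fun i => a + w i)).det‖ =
      Real.exp (r ^ 2 * n * ‖a‖ ^ 2) * ‖(Kf r w).det‖ := by
  set e : Fin n → ℂ := fun i =>
    Complex.exp ((r : ℂ) ^ 2 * (((‖a‖ ^ 2 / 2 : ℝ) : ℂ) + w i * (starRingEnd ℂ) a)) with he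
  have haa : a * (starRingEnd ℂ) a = ((‖a‖ ^ 2 : ℝ) : ℂ) := by
    rw [Complex.mul_conj, Complex.normSq_eq_norm_sq]
  have h1 : Kf r (fun i => a + w i) =
      Matrix.of fun i j => e i * (Matrix.of fun i j => (starRingEnd ℂ) (e j) * Kf r w i j) i j := by
    ext i j
    simp only [Kf, Matrix.of_apply, he]
    rw [← Complex.exp_conj, ← Complex.exp_add, ← Complex.exp_add]
    congr 1
    simp only [map_add, map_mul, map_pow, Complex.conj_ofReal, Complex.conj_conj]
    have : (((‖a‖ ^ 2 / 2 : ℝ) : ℂ)) = a * (starRingEnd ℂ) a / 2 := by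
      rw [haa]; push_cast; ring
    rw [this]
    ring
  have h2 : (Kf r (fun i => a + w i)).det =
      (∏ i, e i) * ((∏ i, (starRingEnd ℂ) (e i)) * (Kf r w).det) := by
    rw [h1, Matrix.det_mul_column, Matrix.det_mul_row]
  have h3 : ‖∏ i, e i‖ ^ 2 = Real.exp (r ^ 2 * n * ‖a‖ ^ 2) := by
    have e1 : ∏ i, e i = Complex.exp (((r ^ 2 * n * ‖a‖ ^ 2 / 2 : ℝ) : ℂ)) := by
      rw [he, ← Complex.exp_sum]
      congr 1
      rw [← Finset.mul_sum, Finset.sum_add_distrib, ← Finset.sum_mul, hw, zero_mul, add_zero,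
        Finset.sum_const, Finset.card_univ, Fintype.card_fin, nsmul_eq_mul]
      push_cast
      ring
    rw [e1, Complex.norm_exp, Complex.ofReal_re, ← Real.exp_nat_mul]
    congr 1
    push_cast
    ring
  rw [h2, norm_mul, norm_mul, ← h3]
  have h4 : ‖∏ i, (starRingEnd ℂ) (e i)‖ = ‖∏ i, e i‖ := by
    rw [← map_prod, Complex.norm_conj]
  rw [h4]
  ring

theorem vdm_rot {n : ℕ} (w : Fin n → ℂ) {q : ℂ} (hq : ‖q‖ = 1) :
    vdm (fun i => w i * q) = vdm w := by
  unfold vdm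
  refine Finset.prod_congr rfl fun i _ => Finset.prod_congr rfl fun j _ => ?_
  rw [← sub_mul, norm_mul, hq, mul_one]

theorem cst_pos {r : ℝ} (hr : 0 < r) (n : ℕ) : 0 < cst r n := by
  unfold cst
  apply Finset.prod_pos
  intro k _
  positivity

/-- The inequality for one scale and one number of points. -/
theorem step (hROU : ROU_Stmt) (hGRM : GRM_Stmt) {K : Set ℂ} {c : ℝ} {m : ℕ} (hm : 1 ≤ m)
    {g : ℂ → ℂ} (hg : Hol K m g) {a : ℂ} {ρ : ℝ} (hρ : 0 < ρ)
    (hK : Metric.closedBall a ρ ⊆ K) {r : ℝ} (hr : 0 < r)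
    (h : ∀ (n : ℕ) (z : Fin n → ℂ), (∀ i, z i ∈ K) →
      ‖(Kf r z).det‖ * ∏ i, ‖g (z i)‖ ^ (-(2 * r ^ 2 / (m : ℝ))) ≤ Real.exp (c * r ^ 4))
    {n : ℕ} (hn : 2 ≤ n) :
    ((n : ℝ) * ρ ^ (n - 1)) ^ n * cst r n ≤ Real.exp (c * r ^ 4) := by
  obtain ⟨w, _, hw1, hw2, hw3⟩ := hROU 0 ρ n hρ (by omega)
  have hws := sum_zero hn hw2
  have hm0 : (0 : ℝ) < m := by exact_mod_cast hm
  set s : ℝ := 2 * r ^ 2 / (m : ℝ) with hs
  have hs0 : 0 < s := by positivity
  have hwn : ∀ i, ‖w i‖ = ρ := fun i => by simpa using hw1 i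
  have hnn : ∀ i (θ : ℝ), ‖w i * Complex.exp (θ * Complex.I)‖ = ρ := by
    intro i θ
    rw [norm_mul, Complex.norm_exp_ofReal_mul_I, mul_one, hwn]
  have hmem : ∀ i (θ : ℝ), a + w i * Complex.exp (θ * Complex.I) ∈ K := by
    intro i θ
    apply hK
    rw [mem_closedBall_iff_norm, add_sub_cancel_left, hnn]
  set L : ℝ := Real.exp (r ^ 2 * n * ‖a‖ ^ 2) * (((n : ℝ) * ρ ^ (n - 1)) ^ n * cst r n) with hL
  have hL0 : 0 < L := by
    have h1 := cst_pos hr n
    have h2 : (0 : ℝ) < n := by exact_mod_cast (by omega : 0 < n)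
    positivity
  have hpt : ∀ θ : ℝ, ∏ j, ‖g (a + w j * Complex.exp (θ * Complex.I))‖ ^ (-s) ≤
      Real.exp (c * r ^ 4) / L := by
    intro θ
    rw [le_div_iff₀ hL0, mul_comm]
    have hsum : ∑ i, w i * Complex.exp (θ * Complex.I) = 0 := by
      rw [← Finset.sum_mul, hws, zero_mul]
    have h1 := det_shift r a (fun i => w i * Complex.exp (θ * Complex.I)) hsum
    have h2 := (hGRM.2.2.2.2.1 n r (fun i => w i * Complex.exp (θ * Complex.I))).1 n
    rw [hGRM.2.2.1, vdm_rot w (Complex.norm_exp_ofReal_mul_I θ), hw3] at h2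
    have h3 := h n (fun i => a + w i * Complex.exp (θ * Complex.I)) (fun i => hmem i θ)
    rw [h1] at h3
    refine le_trans (mul_le_mul_of_nonneg_right ?_ ?_) h3
    · rw [hL]
      exact mul_le_mul_of_nonneg_left h2 (Real.exp_pos _).le
    · apply Finset.prod_nonneg
      intro i _
      positivity
  have hgc : Continuous (fun z => g (a + z)) := by
    have := hg.1.continuous
    fun_prop
  have hrot := ROT_thm (fun z => g (a + z)) ρ ρ s n 0 w hgc hρ le_rfl (by
    intro z _ hz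
    apply hg.2.1
    apply hK
    rwa [mem_closedBall_iff_norm, add_sub_cancel_left]) hs0 ⟨fun j _ => hwn j, fun j _ => hwn j⟩
  have hint : (2 * Real.pi)⁻¹ * ∫ θ in (0 : ℝ)..(2 * Real.pi),
      ∏ j, ‖g (a + w j * Complex.exp (θ * Complex.I))‖ ^ (-s) ≤ Real.exp (c * r ^ 4) / L := by
    have hpi : 0 < 2 * Real.pi := by positivity
    have hcont : Continuous fun θ : ℝ =>
        ∏ j, ‖g (a + w j * Complex.exp (θ * Complex.I))‖ ^ (-s) := by
      refine continuous_finsetProd _ fun j _ => ?_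
      refine Continuous.rpow_const ?_ fun θ => Or.inl ?_
      · exact (hgc.comp (continuous_const.mul (Complex.continuous_exp.comp
          (Complex.continuous_ofReal.mul continuous_const)))).norm
      · exact (norm_pos_iff.2 (hg.2.1 _ (hmem j θ))).ne'
    have h1 : ∫ θ in (0 : ℝ)..(2 * Real.pi),
        ∏ j, ‖g (a + w j * Complex.exp (θ * Complex.I))‖ ^ (-s) ≤
        ∫ _ in (0 : ℝ)..(2 * Real.pi), Real.exp (c * r ^ 4) / L :=
      intervalIntegral.integral_mono_on hpi.le (hcont.intervalIntegrable _ _)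
        (continuous_const.intervalIntegrable _ _) fun θ _ => hpt θ
    rw [intervalIntegral.integral_const, smul_eq_mul, sub_zero] at h1
    calc (2 * Real.pi)⁻¹ * _ ≤ (2 * Real.pi)⁻¹ * (2 * Real.pi * (Real.exp (c * r ^ 4) / L)) :=
          mul_le_mul_of_nonneg_left h1 (by positivity)
      _ = _ := by field_simp
  have h4 := hrot.trans hint
  have havg := avg_le hg hρ hK
  have h5 : -(r ^ 2 * n * ‖a‖ ^ 2) ≤ -(s * ((n : ℝ) *
      Real.circleAverage (fun w => Real.log ‖g (a + w)‖) 0 ρ + ((0 : ℕ) : ℝ) *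
      Real.circleAverage (fun w => Real.log ‖g (a + w)‖) 0 ρ)) := by
    rw [Nat.cast_zero, zero_mul, add_zero, neg_le_neg_iff]
    calc s * ((n : ℝ) * Real.circleAverage (fun w => Real.log ‖g (a + w)‖) 0 ρ) ≤
        s * ((n : ℝ) * (m * ‖a‖ ^ 2 / 2)) := by gcongr
      _ = r ^ 2 * n * ‖a‖ ^ 2 := by rw [hs]; field_simp
  have h6 := (Real.exp_le_exp.2 h5).trans h4
  rw [le_div_iff₀ hL0, hL, ← mul_assoc, ← Real.exp_add, neg_add_cancel, Real.exp_zero,
    one_mul] at h6
  exact h6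

/-- The logarithm of the constant. -/
theorem log_cst {r : ℝ} (hr : 0 < r) (n : ℕ) : Real.log (cst r n) =
    (n : ℝ) * ((n : ℝ) - 1) * Real.log r -
      ∑ k ∈ Finset.range n, Real.log (k.factorial : ℝ) := by
  unfold cst
  rw [Real.log_prod (fun k _ => by positivity)]
  have h1 : ∀ k ∈ Finset.range n, Real.log (r ^ (2 * k) / (k.factorial : ℝ)) =
      (k : ℝ) * 2 * Real.log r - Real.log (k.factorial : ℝ) := by
    intro k _
    rw [Real.log_div (by positivity) (by positivity), Real.log_pow]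
    push_cast
    ring
  rw [Finset.sum_congr rfl h1, Finset.sum_sub_distrib, ← Finset.sum_mul, ← Finset.sum_mul]
  congr 2
  have h2 := Finset.sum_range_id_mul_two n
  have h3 : ((∑ k ∈ Finset.range n, k : ℕ) : ℝ) * 2 = (n : ℝ) * ((n - 1 : ℕ) : ℝ) := by
    exact_mod_cast h2
  rw [Nat.cast_sum] at h3
  rw [h3]
  rcases Nat.eq_zero_or_pos n with rfl | hn
  · simp
  · rw [Nat.cast_sub hn, Nat.cast_one]

end INR

open INR in
theorem INR_thm (hROU : Pool.Agent.GH.ROU_Stmt) (hLFA : LFA_Stmt) (hGRM : GRM_Stmt) :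
    INR_Stmt := by
  rintro K c ⟨m, hm, g, hg, hr⟩ a ρ hρ hK
  obtain ⟨C, hC0, hC⟩ := hLFA
  set E : ℝ := Real.exp 1 with hE
  have hE0 : 0 < E := Real.exp_pos 1
  -- the scales
  set R : ℕ → ℝ := fun n => √((n : ℝ) / (E * ρ ^ 2)) with hR
  have hRt : Tendsto R atTop atTop := by
    apply Real.tendsto_sqrt_atTop.comp
    exact tendsto_natCast_atTop_atTop.atTop_div_const (by positivity)
  have hev : ∀ᶠ n : ℕ in atTop, 1 / 4 - C * ((1 + Real.log n) / n) ≤ c / (E ^ 2 * ρ ^ 4) := by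
    filter_upwards [hRt.eventually hr, eventually_ge_atTop 2] with n hn hn2
    have hnp : (0 : ℝ) < n := by exact_mod_cast (by omega : 0 < n)
    have hRp : 0 < R n := Real.sqrt_pos.2 (by positivity)
    have hR2 : R n ^ 2 = n / (E * ρ ^ 2) := Real.sq_sqrt (by positivity)
    have h1 := step hROU hGRM hm hg hρ hK hRp hn hn2
    have hcp := cst_pos hRp n
    have h2 := Real.log_le_log (by positivity) h1
    rw [Real.log_exp, Real.log_mul (by positivity) hcp.ne', Real.log_pow,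
      Real.log_mul hnp.ne' (by positivity), Real.log_pow, log_cst hRp] at h2
    have hlogR : Real.log (R n) = 1 / 2 * Real.log n - 1 / 2 - Real.log ρ := by
      rw [hR]
      simp only
      rw [Real.log_sqrt (by positivity), Real.log_div hnp.ne' (by positivity),
        Real.log_mul hE0.ne' (by positivity), Real.log_pow, hE, Real.log_exp]
      push_cast
      ring
    have h3 := (abs_le.1 (hC n (by omega))).2
    have hR4 : R n ^ 4 = n ^ 2 / (E ^ 2 * ρ ^ 4) := by
      have : R n ^ 4 = (R n ^ 2) ^ 2 := by ring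
      rw [this, hR2, div_pow]
      ring
    have hn1 : ((n - 1 : ℕ) : ℝ) = n - 1 := by
      rw [Nat.cast_sub (by omega), Nat.cast_one]
    rw [hlogR, hR4, hn1] at h2
    have hlog : 0 ≤ Real.log n := Real.log_natCast_nonneg n
    have h4 : (n : ℝ) ^ 2 * (1 / 4 - C * ((1 + Real.log n) / n)) ≤
        (n : ℝ) ^ 2 * (c / (E ^ 2 * ρ ^ 4)) := by
      have e1 : (n : ℝ) ^ 2 * (1 / 4 - C * ((1 + Real.log n) / n)) =
          (n : ℝ) ^ 2 / 4 - C * n * (1 + Real.log n) := by
        field_simp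
      have e2 : (n : ℝ) ^ 2 * (c / (E ^ 2 * ρ ^ 4)) = c * ((n : ℝ) ^ 2 / (E ^ 2 * ρ ^ 4)) := by
        ring
      rw [e1, e2]
      nlinarith [mul_nonneg hnp.le hlog]
    exact le_of_mul_le_mul_left h4 (by positivity)
  have hlim : Tendsto (fun n : ℕ => 1 / 4 - C * ((1 + Real.log n) / n)) atTop
      (𝓝 (1 / 4 - C * 0)) := by
    apply Tendsto.const_sub
    apply Tendsto.const_mul
    have h1 : Tendsto (fun x : ℝ => (1 + Real.log x) / x) atTop (𝓝 0) := by
      have h2 : Tendsto (fun x : ℝ => 1 / x) atTop (𝓝 0) :=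
        tendsto_const_nhds.div_atTop tendsto_id
      have h3 : Tendsto (fun x : ℝ => Real.log x / x) atTop (𝓝 0) := by
        have := Real.tendsto_pow_log_div_mul_add_atTop 1 0 1 one_ne_zero
        simpa using this
      have h4 := h2.add h3
      rw [add_zero] at h4
      refine h4.congr fun x => ?_
      rw [add_div]
    exact h1.comp tendsto_natCast_atTop_atTop
  have hfin := le_of_tendsto hlim hev
  rw [mul_zero, sub_zero, le_div_iff₀ (by positivity)] at hfin
  have hE2 : Real.exp 2 = E ^ 2 := by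
    rw [hE, ← Real.exp_nat_mul]
    norm_num
  rw [hE2]
  linarith

end Pool.Agent.HX
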