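import Pool.Agent.HX.Stmts

/-!
High moments of a measure with `n` atoms are controlled by the first `n` moments.
-/

namespace Pool.Agent.HX.INT

open Finset Pool.Agent.GH Pool.Agent.HA

/-- The normalized moments: all of them are controlled by the first `n` ones. -/
theorem mom (R : ℝ) (hR : 0 < R) : ∀ (n : ℕ) (z c : Fin n → ℂ), (∀ i, ‖z i‖ ≤ R) → ∀ k : ℕ,
    ‖∑ i, c i * z i ^ k‖ / R ^ k ≤
      2 ^ (n + k) * ∑ l ∈ range n, ‖∑ i, c i * z i ^ l‖ / R ^ l := by
  intro n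
  induction n with
  | zero =>
    intro z c _ k
    simp
  | succ n ih =>
    intro z c hz k
    set L : ℕ → ℂ := fun k => ∑ i, c i * z i ^ k with hL
    set L' : ℕ → ℂ := fun k => ∑ i : Fin n, (c i.succ * (z i.succ - z 0)) * z i.succ ^ k with hL'
    set A : ℝ := ∑ l ∈ range (n + 1), ‖L l‖ / R ^ l with hA
    have hM : ∀ l, 0 ≤ ‖L l‖ / R ^ l := fun l => by positivity
    have hA0 : 0 ≤ A := sum_nonneg fun l _ => hM l
    have hrec : ∀ k, L (k + 1) = L' k + z 0 * L k := by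
      intro k
      simp only [hL, hL', Fin.sum_univ_succ, mul_add, Finset.mul_sum]
      have : ∀ i : Fin n, c i.succ * z i.succ ^ (k + 1)
          = c i.succ * (z i.succ - z 0) * z i.succ ^ k + z 0 * (c i.succ * z i.succ ^ k) := by
        intro i; ring
      rw [Finset.sum_congr rfl fun i _ => this i, Finset.sum_add_distrib]
      ring
    have hL'2 : ∀ k, ‖L' k‖ ≤ ‖L (k + 1)‖ + R * ‖L k‖ := by
      intro k
      have h1 : L' k = L (k + 1) - z 0 * L k := by rw [hrec]; ring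
      rw [h1]
      refine (norm_sub_le _ _).trans ?_
      rw [norm_mul]
      gcongr
      exact hz 0
    have hsum : ∑ l ∈ range n, ‖L' l‖ / R ^ l ≤ R * (2 * A) := by
      have h1 : ∀ l ∈ range n, ‖L' l‖ / R ^ l
          ≤ R * (‖L (l + 1)‖ / R ^ (l + 1) + ‖L l‖ / R ^ l) := by
        intro l _
        have h2 : R * (‖L (l + 1)‖ / R ^ (l + 1) + ‖L l‖ / R ^ l)
            = (‖L (l + 1)‖ + R * ‖L l‖) / R ^ l := by
          rw [pow_succ]
          field_simp
        rw [h2]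
        gcongr
        exact hL'2 l
      refine (sum_le_sum h1).trans ?_
      rw [← Finset.mul_sum, Finset.sum_add_distrib]
      have h3 : ∑ l ∈ range n, ‖L (l + 1)‖ / R ^ (l + 1) ≤ A := by
        rw [hA, Finset.sum_range_succ']
        have := hM 0
        linarith
      have h4 : ∑ l ∈ range n, ‖L l‖ / R ^ l ≤ A := by
        rw [hA, Finset.sum_range_succ]
        have := hM n
        linarith
      gcongr
      linarith only [h3, h4]
    have hstep : ∀ k, ‖L' k‖ / R ^ (k + 1) ≤ 2 ^ (n + k) * (2 * A) := by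
      intro k
      have h1 := ih (fun i => z i.succ) (fun i => c i.succ * (z i.succ - z 0))
        (fun i => hz i.succ) k
      have h2 : ‖L' k‖ / R ^ k ≤ 2 ^ (n + k) * (R * (2 * A)) := by
        exact h1.trans (mul_le_mul_of_nonneg_left hsum (by positivity))
      rw [pow_succ, ← div_div, div_le_iff₀ hR]
      calc ‖L' k‖ / R ^ k ≤ 2 ^ (n + k) * (R * (2 * A)) := h2
        _ = 2 ^ (n + k) * (2 * A) * R := by ring
    have main : ∀ k, ‖L k‖ / R ^ k ≤ (1 + 2 ^ (n + 1) * (2 ^ k - 1)) * A := by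
      intro k
      induction k with
      | zero =>
        have h1 : ‖L 0‖ / R ^ 0 ≤ A :=
          Finset.single_le_sum (f := fun l => ‖L l‖ / R ^ l) (fun l _ => hM l)
            (Finset.mem_range.2 (Nat.succ_pos n))
        simpa using h1
      | succ k ihk =>
        have h1 : ‖L (k + 1)‖ ≤ ‖L' k‖ + R * ‖L k‖ := by
          rw [hrec]
          refine (norm_add_le _ _).trans ?_
          rw [norm_mul]
          gcongr
          exact hz 0
        have h2 : ‖L (k + 1)‖ / R ^ (k + 1) ≤ ‖L' k‖ / R ^ (k + 1) + ‖L k‖ / R ^ k := by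
          have h3 : ‖L' k‖ / R ^ (k + 1) + ‖L k‖ / R ^ k
              = (‖L' k‖ + R * ‖L k‖) / R ^ (k + 1) := by
            rw [pow_succ]
            field_simp
          rw [h3]
          gcongr
        calc ‖L (k + 1)‖ / R ^ (k + 1) ≤ ‖L' k‖ / R ^ (k + 1) + ‖L k‖ / R ^ k := h2
          _ ≤ 2 ^ (n + k) * (2 * A) + (1 + 2 ^ (n + 1) * (2 ^ k - 1)) * A :=
            add_le_add (hstep k) ihk
          _ = (1 + 2 ^ (n + 1) * (2 ^ (k + 1) - 1)) * A := by ring
    refine (main k).trans ?_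
    gcongr
    have h5 : (1 : ℝ) ≤ 2 ^ (n + 1) := one_le_pow₀ (by norm_num)
    have h6 : (2 : ℝ) ^ (n + 1 + k) = 2 ^ (n + 1) * 2 ^ k := by rw [pow_add]
    rw [h6]
    linarith

/-- The same for the normalized monomials. -/
theorem feat_bound (R r : ℝ) (hR : 0 < R) (hr : 0 < r) (n : ℕ) (z c : Fin n → ℂ)
    (hz : ∀ i, ‖z i‖ ≤ R) (k : ℕ) :
    ‖∑ i, c i * feat r k (z i)‖ ≤ ∑ l ∈ range n,
      (2 ^ (n + k) * (r * R) ^ k / (r * R) ^ l * Real.sqrt (l.factorial : ℝ) /
        Real.sqrt (k.factorial : ℝ)) * ‖∑ i, c i * feat r l (z i)‖ := by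
  have hf : ∀ m : ℕ, ‖∑ i, c i * feat r m (z i)‖
      = r ^ m / Real.sqrt (m.factorial : ℝ) * ‖∑ i, c i * z i ^ m‖ := by
    intro m
    have h1 : ∑ i, c i * feat r m (z i)
        = ((r : ℂ) ^ m / (Real.sqrt (m.factorial : ℝ) : ℂ)) * ∑ i, c i * z i ^ m := by
      rw [Finset.mul_sum]
      refine Finset.sum_congr rfl fun i _ => ?_
      unfold feat
      rw [mul_pow]
      ring
    rw [h1, norm_mul, norm_div, norm_pow, Complex.norm_real, Complex.norm_real,
      Real.norm_of_nonneg hr.le, Real.norm_of_nonneg (Real.sqrt_nonneg _)]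
  have hk := mom R hR n z c hz k
  rw [div_le_iff₀ (by positivity)] at hk
  rw [hf k]
  have hs : ∀ m : ℕ, 0 < Real.sqrt (m.factorial : ℝ) := fun m =>
    Real.sqrt_pos.2 (by exact_mod_cast Nat.factorial_pos m)
  calc r ^ k / Real.sqrt (k.factorial : ℝ) * ‖∑ i, c i * z i ^ k‖
      ≤ r ^ k / Real.sqrt (k.factorial : ℝ) *
        (2 ^ (n + k) * (∑ l ∈ range n, ‖∑ i, c i * z i ^ l‖ / R ^ l) * R ^ k) := by
        have := hs k
        gcongr
    _ = _ := by
        rw [Finset.mul_sum, Finset.sum_mul, Finset.mul_sum]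
        refine Finset.sum_congr rfl fun l _ => ?_
        rw [hf l]
        have h1 := (hs k).ne'
        have h2 := (hs l).ne'
        have h3 := hr.ne'
        have h4 := hR.ne'
        rw [mul_pow r R k, mul_pow r R l]
        field_simp

theorem coef_bound (R r : ℝ) (hR : 0 < R) (hr : 0 < r) (n k l : ℕ) (hl : l < n) (hk : n ≤ k) :
    (2 ^ (n + k) * (r * R) ^ k / (r * R) ^ l * Real.sqrt (l.factorial : ℝ) /
        Real.sqrt (k.factorial : ℝ)) ^ 2 ≤
      16 ^ n * ((4 * R ^ 2 * r ^ 2) ^ (k - l) / ((k - l).factorial : ℝ)) := by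
  obtain ⟨m, rfl⟩ : ∃ m, k = l + m := ⟨k - l, by omega⟩
  have hlf : (0 : ℝ) < (l.factorial : ℝ) := by exact_mod_cast Nat.factorial_pos l
  have hmf : (0 : ℝ) < (m.factorial : ℝ) := by exact_mod_cast Nat.factorial_pos m
  have hkf : (0 : ℝ) < ((l + m).factorial : ℝ) := by exact_mod_cast Nat.factorial_pos _
  have hx : 0 < r * R := mul_pos hr hR
  have h1 : (2 ^ (n + (l + m)) * (r * R) ^ (l + m) / (r * R) ^ l *
      Real.sqrt (l.factorial : ℝ) / Real.sqrt ((l + m).factorial : ℝ)) ^ 2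
      = 4 ^ (n + l) * ((4 * R ^ 2 * r ^ 2) ^ m) * ((l.factorial : ℝ) / ((l + m).factorial : ℝ)) := by
    have h2 : (2 : ℝ) ^ (n + (l + m)) * (r * R) ^ (l + m) / (r * R) ^ l
        = 2 ^ (n + l) * (2 * (r * R)) ^ m := by
      rw [pow_add (r * R) l m, ← add_assoc, pow_add (2 : ℝ) (n + l) m, mul_pow 2 (r * R) m]
      field_simp
    rw [h2, div_pow, mul_pow, Real.sq_sqrt hlf.le, Real.sq_sqrt hkf.le, mul_pow]
    have h3 : ((2 : ℝ) ^ (n + l)) ^ 2 = 4 ^ (n + l) := by
      rw [← pow_mul, mul_comm (n + l) 2, pow_mul]; norm_num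
    have h3' : ((2 * (r * R)) ^ m) ^ 2 = (4 * R ^ 2 * r ^ 2) ^ m := by
      rw [← pow_mul, mul_comm m 2, pow_mul]; congr 1; ring
    rw [h3, h3', mul_div_assoc]
  rw [h1, Nat.add_sub_cancel_left]
  have h4 : (l.factorial : ℝ) / ((l + m).factorial : ℝ) ≤ 1 / (m.factorial : ℝ) := by
    rw [div_le_div_iff₀ hkf hmf, one_mul]
    have := Nat.factorial_mul_factorial_dvd_factorial_add l m
    exact_mod_cast Nat.le_of_dvd (Nat.factorial_pos _) this
  have h5 : (4 : ℝ) ^ (n + l) ≤ 16 ^ n := by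
    have : (16 : ℝ) ^ n = 4 ^ (n + n) := by
      rw [← two_mul, pow_mul]; norm_num
    rw [this]
    exact pow_le_pow_right₀ (by norm_num) (by omega)
  have h6 : (0 : ℝ) ≤ (4 * R ^ 2 * r ^ 2) ^ m := by positivity
  calc (4 : ℝ) ^ (n + l) * (4 * R ^ 2 * r ^ 2) ^ m *
        ((l.factorial : ℝ) / ((l + m).factorial : ℝ))
      ≤ 16 ^ n * (4 * R ^ 2 * r ^ 2) ^ m * (1 / (m.factorial : ℝ)) := by gcongr
    _ = _ := by ring

end Pool.Agent.HX.INT

namespace Pool.Agent.HX

open Finset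

theorem INT_thm : INT_Stmt := by
  intro R₀ r n z c M M' hR₀ hr hz hnM hMM'
  have hR : 0 < R₀ := by linarith
  set F : ℕ → ℂ := fun k => ∑ i, c i * feat r k (z i) with hF
  set X : ℝ := 4 * R₀ ^ 2 * r ^ 2 with hX
  have hX0 : 0 ≤ X := by positivity
  set S : ℝ := ∑ k ∈ range n, ‖F k‖ ^ 2 with hS
  have hS0 : 0 ≤ S := sum_nonneg fun _ _ => by positivity
  have h1 : ∀ k ∈ Ico M M', ‖F k‖ ^ 2 ≤
      (∑ l ∈ range n, 16 ^ n * (X ^ (k - l) / ((k - l).factorial : ℝ))) * S := by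
    intro k hk
    rw [Finset.mem_Ico] at hk
    have h2 := INT.feat_bound R₀ r hR hr n z c hz k
    have h3 : ‖F k‖ ^ 2 ≤ (∑ l ∈ range n,
      (2 ^ (n + k) * (r * R₀) ^ k / (r * R₀) ^ l * Real.sqrt (l.factorial : ℝ) /
        Real.sqrt (k.factorial : ℝ)) * ‖F l‖) ^ 2 :=
      pow_le_pow_left₀ (norm_nonneg _) h2 2
    refine h3.trans ((Finset.sum_mul_sq_le_sq_mul_sq _ _ _).trans ?_)
    refine mul_le_mul_of_nonneg_right ?_ hS0
    refine sum_le_sum fun l hl => ?_
    exact INT.coef_bound R₀ r hR hr n k l (Finset.mem_range.1 hl) (by omega)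
  have h4 : ∀ l ∈ range n, ∑ k ∈ Ico M M', X ^ (k - l) / ((k - l).factorial : ℝ) ≤
      ∑ m ∈ Ico (M - n) M', X ^ m / (m.factorial : ℝ) := by
    intro l hl
    rw [Finset.mem_range] at hl
    have hinj : Set.InjOn (fun k : ℕ => k - l) (Ico M M' : Finset ℕ) := by
      intro a ha b hb hab
      simp only [Finset.coe_Ico, Set.mem_Ico] at ha hb
      simp only at hab
      omega
    rw [← Finset.sum_image (f := fun m : ℕ => X ^ m / (m.factorial : ℝ)) hinj]
    refine Finset.sum_le_sum_of_subset_of_nonneg ?_ fun _ _ _ => by positivity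
    intro m hm
    rw [Finset.mem_image] at hm
    obtain ⟨k, hk, rfl⟩ := hm
    rw [Finset.mem_Ico] at hk ⊢
    omega
  calc ∑ k ∈ Ico M M', ‖F k‖ ^ 2
      ≤ ∑ k ∈ Ico M M',
        (∑ l ∈ range n, 16 ^ n * (X ^ (k - l) / ((k - l).factorial : ℝ))) * S := sum_le_sum h1
    _ = (∑ l ∈ range n, 16 ^ n * ∑ k ∈ Ico M M', X ^ (k - l) / ((k - l).factorial : ℝ)) * S := by
        rw [← Finset.sum_mul, Finset.sum_comm]
        congr 1
        refine Finset.sum_congr rfl fun l _ => ?_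
        rw [Finset.mul_sum]
    _ ≤ (∑ _l ∈ range n, 16 ^ n * ∑ m ∈ Ico (M - n) M', X ^ m / (m.factorial : ℝ)) * S := by
        refine mul_le_mul_of_nonneg_right ?_ hS0
        refine sum_le_sum fun l hl => ?_
        exact mul_le_mul_of_nonneg_left (h4 l hl) (by positivity)
    _ = (n : ℝ) * 16 ^ n * (∑ m ∈ Ico (M - n) M', X ^ m / (m.factorial : ℝ)) * S := by
        rw [Finset.sum_const, Finset.card_range, nsmul_eq_mul]
        ring

end Pool.Agent.HX
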