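import Pool.Agent.HX.Stmts

/-!
Sums of logarithms of factorials.
-/

namespace Pool.Agent.HX

open Pool.Agent.GH Pool.Agent.HA

namespace LFA

lemma del_bounds (n : ℕ) (hn : 1 ≤ n) :
    1 / ((n : ℝ) + 1) ≤ Real.log ((n : ℝ) + 1) - Real.log n ∧
      Real.log ((n : ℝ) + 1) - Real.log n ≤ 1 / (n : ℝ) := by
  have h0 : (0 : ℝ) < n := by exact_mod_cast hn
  have h1 : (0 : ℝ) < (n : ℝ) + 1 := by linarith
  constructor
  · have h2 : Real.log ((n : ℝ) / (n + 1)) ≤ (n : ℝ) / (n + 1) - 1 :=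
      Real.log_le_sub_one_of_pos (by positivity)
    rw [Real.log_div h0.ne' h1.ne'] at h2
    have h3 : (n : ℝ) / (n + 1) - 1 = -(1 / ((n : ℝ) + 1)) := by
      field_simp
      ring
    rw [h3] at h2
    linarith
  · have h2 : Real.log (((n : ℝ) + 1) / n) ≤ ((n : ℝ) + 1) / n - 1 :=
      Real.log_le_sub_one_of_pos (by positivity)
    rw [Real.log_div h1.ne' h0.ne'] at h2
    have h3 : ((n : ℝ) + 1) / n - 1 = 1 / (n : ℝ) := by
      field_simp
      ring
    rw [h3] at h2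
    exact h2

lemma log_nonneg_nat (n : ℕ) : 0 ≤ Real.log (n : ℝ) := Real.log_natCast_nonneg n

/-- `n log n - n + 1 ≤ log n! ≤ n log n - n + 1 + log n`. -/
lemma log_fact (n : ℕ) (hn : 1 ≤ n) :
    (n : ℝ) * Real.log n - n + 1 ≤ Real.log (n.factorial : ℝ) ∧
      Real.log (n.factorial : ℝ) ≤ (n : ℝ) * Real.log n - n + 1 + Real.log n := by
  induction n, hn using Nat.le_induction with
  | base => simp
  | succ n hn ih =>
    have h0 : (0 : ℝ) < n := by exact_mod_cast hn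
    have h1 : (0 : ℝ) < (n : ℝ) + 1 := by linarith
    obtain ⟨d1, d2⟩ := del_bounds n hn
    have e : Real.log ((n + 1).factorial : ℝ) =
        Real.log ((n : ℝ) + 1) + Real.log (n.factorial : ℝ) := by
      rw [Nat.factorial_succ]
      push_cast
      rw [Real.log_mul h1.ne' (by positivity)]
    rw [e]
    push_cast
    set L := Real.log (n : ℝ)
    set L' := Real.log ((n : ℝ) + 1)
    have a1 : (n : ℝ) * (L' - L) ≤ 1 := by
      have := mul_le_mul_of_nonneg_left d2 h0.le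
      rwa [mul_one_div_cancel h0.ne'] at this
    have a2 : 1 ≤ ((n : ℝ) + 1) * (L' - L) := by
      have := mul_le_mul_of_nonneg_left d1 h1.le
      rwa [mul_one_div_cancel h1.ne'] at this
    constructor
    · nlinarith [ih.1]
    · nlinarith [ih.2]

/-- The increment of `n^2/2 log n - 3/4 n^2`. -/
lemma step (n : ℕ) (hn : 1 ≤ n) :
    |Real.log (n.factorial : ℝ) - ((((n : ℝ) + 1) ^ 2 / 2 * Real.log ((n : ℝ) + 1)
      - 3 / 4 * ((n : ℝ) + 1) ^ 2) - ((n : ℝ) ^ 2 / 2 * Real.log n - 3 / 4 * (n : ℝ) ^ 2))| ≤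
      2 * (1 + Real.log n) := by
  have h0 : (0 : ℝ) < n := by exact_mod_cast hn
  have hn1 : (1 : ℝ) ≤ n := by exact_mod_cast hn
  have h1 : (0 : ℝ) < (n : ℝ) + 1 := by linarith
  obtain ⟨d1, d2⟩ := del_bounds n hn
  obtain ⟨f1, f2⟩ := log_fact n hn
  have hL := log_nonneg_nat n
  set L := Real.log (n : ℝ)
  set L' := Real.log ((n : ℝ) + 1)
  set F := Real.log (n.factorial : ℝ)
  have a2 : ((n : ℝ) + 1) ≤ ((n : ℝ) + 1) ^ 2 * (L' - L) := by
    have := mul_le_mul_of_nonneg_left d1 (sq_nonneg ((n : ℝ) + 1))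
    have e : ((n : ℝ) + 1) ^ 2 * (1 / ((n : ℝ) + 1)) = (n : ℝ) + 1 := by
      field_simp
    linarith
  have a3 : ((n : ℝ) + 1) ^ 2 * (L' - L) ≤ n + 3 := by
    have := mul_le_mul_of_nonneg_left d2 (sq_nonneg ((n : ℝ) + 1))
    have e : ((n : ℝ) + 1) ^ 2 * (1 / (n : ℝ)) = n + 2 + 1 / n := by
      field_simp
      ring
    have e2 : 1 / (n : ℝ) ≤ 1 := by
      rw [div_le_one h0]
      exact hn1
    linarith
  have key : (((n : ℝ) + 1) ^ 2 / 2 * L' - 3 / 4 * ((n : ℝ) + 1) ^ 2) -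
      ((n : ℝ) ^ 2 / 2 * L - 3 / 4 * (n : ℝ) ^ 2) =
      (n : ℝ) * L + L / 2 + ((n : ℝ) + 1) ^ 2 * (L' - L) / 2 - 3 / 2 * n - 3 / 4 := by
    ring
  rw [key, abs_le]
  constructor <;> linarith

end LFA

theorem LFA_thm (_hFACT : Pool.Agent.GH.FACT_Stmt) : LFA_Stmt := by
  refine ⟨2, by norm_num, ?_⟩
  intro n hn
  induction n, hn using Nat.le_induction with
  | base =>
    norm_num [Finset.sum_range_one]
  | succ n hn ih =>
    have h0 : (0 : ℝ) < n := by exact_mod_cast hn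
    have hs := LFA.step n hn
    have hd := (LFA.del_bounds n hn).1
    have hpos : 0 ≤ 1 / ((n : ℝ) + 1) := by positivity
    have hL := LFA.log_nonneg_nat n
    rw [Finset.sum_range_succ]
    push_cast
    set L := Real.log (n : ℝ)
    set L' := Real.log ((n : ℝ) + 1)
    set F := Real.log (n.factorial : ℝ)
    set S := ∑ k ∈ Finset.range n, Real.log (k.factorial : ℝ)
    have hLL : L ≤ L' := by linarith
    have e : S + F - (((n : ℝ) + 1) ^ 2 / 2 * L' - 3 / 4 * ((n : ℝ) + 1) ^ 2) =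
        (S - ((n : ℝ) ^ 2 / 2 * L - 3 / 4 * (n : ℝ) ^ 2)) +
        (F - ((((n : ℝ) + 1) ^ 2 / 2 * L' - 3 / 4 * ((n : ℝ) + 1) ^ 2) -
          ((n : ℝ) ^ 2 / 2 * L - 3 / 4 * (n : ℝ) ^ 2))) := by
      ring
    rw [e]
    refine (abs_add_le _ _).trans ?_
    refine (add_le_add ih hs).trans ?_
    nlinarith

end Pool.Agent.HX
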