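import Pool.Agent.HX.Stmts

/-!
The function found by the minimax argument.
-/

set_option autoImplicit false

namespace Pool.Agent.HX

open MeasureTheory ProbabilityTheory Filter Topology Pool.Agent.GH Pool.Agent.HA

universe u

namespace LOW

/-! ### The Borel space of a disjoint union -/

lemma inl_img {α β : Type} [TopologicalSpace α] [TopologicalSpace β] (s : Set α)
    (hs : MeasurableSet[borel α] s) : MeasurableSet[borel (α ⊕ β)] (Sum.inl '' s) := by
  letI : MeasurableSpace (α ⊕ β) := borel (α ⊕ β)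
  haveI : BorelSpace (α ⊕ β) := ⟨rfl⟩
  letI : MeasurableSpace α := borel α
  haveI : BorelSpace α := ⟨rfl⟩
  exact (Topology.IsOpenEmbedding.inl.measurableEmbedding).measurableSet_image' hs

lemma inr_img {α β : Type} [TopologicalSpace α] [TopologicalSpace β] (s : Set β)
    (hs : MeasurableSet[borel β] s) : MeasurableSet[borel (α ⊕ β)] (Sum.inr '' s) := by
  letI : MeasurableSpace (α ⊕ β) := borel (α ⊕ β)
  haveI : BorelSpace (α ⊕ β) := ⟨rfl⟩
  letI : MeasurableSpace β := borel β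
  haveI : BorelSpace β := ⟨rfl⟩
  exact (Topology.IsOpenEmbedding.inr.measurableEmbedding).measurableSet_image' hs

lemma sum_borel {α β : Type} [TopologicalSpace α] [TopologicalSpace β] [MeasurableSpace α]
    [MeasurableSpace β] [h1 : BorelSpace α] [h2 : BorelSpace β] : BorelSpace (α ⊕ β) := by
  constructor
  apply le_antisymm
  · intro s hs
    have h3 : MeasurableSet (Sum.inl ⁻¹' s : Set α) := measurable_inl hs
    have h4 : MeasurableSet (Sum.inr ⁻¹' s : Set β) := measurable_inr hs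
    rw [h1.measurable_eq] at h3
    rw [h2.measurable_eq] at h4
    have h5 : s = Sum.inl '' (Sum.inl ⁻¹' s) ∪ Sum.inr '' (Sum.inr ⁻¹' s) := by
      ext x
      rcases x with x | x <;> simp
    rw [h5]
    exact MeasurableSet.union (inl_img _ h3) (inr_img _ h4)
  · apply MeasurableSpace.generateFrom_le
    intro s hs
    have hs' : IsOpen s := hs
    refine ⟨?_, ?_⟩
    · exact (hs'.preimage continuous_inl).measurableSet
    · exact (hs'.preimage continuous_inr).measurableSet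

/-! ### The determinant for a discrete measure -/

lemma norm_det_feat (hGRM : GRM_Stmt) (n : ℕ) (r : ℝ) (z : Fin n → ℂ) :
    ‖(Matrix.of fun (k j : Fin n) => feat r (k : ℕ) (z j)).det‖ ^ 2 = vdm z ^ 2 * cst r n := by
  rw [← hGRM.2.2.1 n r z]
  set Φ : Matrix (Fin n) (Fin n) ℂ := Matrix.of fun (k j : Fin n) => feat r (k : ℕ) (z j) with hΦ
  have h1 : Gm n r z = Φ.transpose * Φ.map (starRingEnd ℂ) := by
    ext i j
    rw [Gm, Matrix.of_apply, Matrix.mul_apply, Finset.sum_range]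
    rfl
  have h2 : (Φ.map (starRingEnd ℂ)).det = (starRingEnd ℂ) Φ.det := by
    rw [← RingHom.mapMatrix_apply, ← RingHom.map_det]
  rw [h1, Matrix.det_mul, Matrix.det_transpose, h2, norm_mul, RCLike.norm_conj, sq]

lemma DD_disc (hGRM : GRM_Stmt) {K : Set ℂ} {T : ℝ} [MeasurableSingletonClass (YY K T)] (r : ℝ)
    (N : ℕ) (z : Fin N → ℂ) (y : Fin N → YY K T) (hy : ∀ j, pt (y j) = z j) (ψ : YY K T → ℝ) :
    DD ((N : ENNReal)⁻¹ • ∑ j : Fin N, Measure.dirac (y j)) (fY r N) ψ =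
      (1 / (N : ℝ)) ^ N * (vdm z ^ 2 * cst r N) * ∏ j, Real.exp (-(ψ (y j))) := by
  set Φ : Matrix (Fin N) (Fin N) ℂ := Matrix.of fun (k j : Fin N) => feat r (k : ℕ) (z j) with hΦ
  have h1 : (Matrix.of fun k l : Fin N => ∫ x, fY r N k x * (starRingEnd ℂ) (fY r N l x) *
      ((Real.exp (-(ψ x)) : ℝ) : ℂ) ∂((N : ENNReal)⁻¹ • ∑ j : Fin N, Measure.dirac (y j))) =
      ((1 / (N : ℝ) : ℝ) : ℂ) • (Φ * Matrix.diagonal (fun j => ((Real.exp (-(ψ (y j))) : ℝ) : ℂ)) *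
        (Φ.map (starRingEnd ℂ)).transpose) := by
    ext k l
    rw [Matrix.of_apply, integral_smul_measure, integral_finset_sum_measure]
    · simp only [integral_dirac]
      rw [Matrix.smul_apply, Matrix.mul_apply, ENNReal.toReal_inv, ENNReal.toReal_natCast]
      rw [Complex.real_smul, smul_eq_mul]
      congr 1
      · push_cast
        rw [one_div]
      · apply Finset.sum_congr rfl
        intro j _
        rw [Matrix.mul_diagonal, Matrix.transpose_apply, Matrix.map_apply]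
        simp only [fY, hy, hΦ, Matrix.of_apply]
        ring
    · intro j _
      apply integrable_dirac
      exact enorm_lt_top
  have h2 : (Φ.map (starRingEnd ℂ)).det = (starRingEnd ℂ) Φ.det := by
    rw [← RingHom.mapMatrix_apply, ← RingHom.map_det]
  rw [DD, h1, Matrix.det_smul, Matrix.det_mul, Matrix.det_mul, Matrix.det_transpose,
    Matrix.det_diagonal, h2, Fintype.card_fin, norm_mul, norm_mul, norm_mul, norm_pow,
    RCLike.norm_conj, ← norm_det_feat hGRM, Complex.norm_real, norm_prod]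
  have h3 : ∀ j : Fin N, ‖((Real.exp (-(ψ (y j))) : ℝ) : ℂ)‖ = Real.exp (-(ψ (y j))) := by
    intro j
    rw [Complex.norm_real, Real.norm_eq_abs, abs_of_pos (Real.exp_pos _)]
  rw [Finset.prod_congr rfl fun j _ => h3 j]
  have h4 : ‖(1 / (N : ℝ) : ℝ)‖ = 1 / (N : ℝ) := by
    rw [Real.norm_eq_abs, abs_of_nonneg (by positivity)]
  rw [h4]
  ring

lemma prob_disc {α : Type} [MeasurableSpace α] (N : ℕ) (hN : 1 ≤ N) (y : Fin N → α) :
    IsProbabilityMeasure ((N : ENNReal)⁻¹ • ∑ j : Fin N, Measure.dirac (y j)) := by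
  constructor
  rw [Measure.smul_apply, Measure.finset_sum_apply]
  simp only [measure_univ, Finset.sum_const, Finset.card_univ, Fintype.card_fin, nsmul_eq_mul,
    mul_one, smul_eq_mul]
  rw [ENNReal.inv_mul_cancel]
  · exact_mod_cast (by omega : N ≠ 0)
  · exact ENNReal.natCast_ne_top N

/-! ### Continuity and convexity -/

lemma cont_log {K : Set ℂ} {ρ τ : ℝ} {g : ℂ → ℂ} (hg : g ∈ Cl K ρ τ) :
    ContinuousOn (fun z => 2 * Real.log ‖g z‖) K := by
  have h1 : ContinuousOn (fun z => ‖g z‖) K := hg.1.continuous.norm.continuousOn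
  exact (h1.log fun z hz => norm_ne_zero_iff.2 (hg.2.1 z hz)).const_smul (2 : ℝ)

/-- The functions `2 log|g|`. -/
def Sg (K : Set ℂ) (ρ τ : ℝ) : Set (ℂ → ℝ) := {v | ∃ g ∈ Cl K ρ τ, v = fun z => 2 * Real.log ‖g z‖}

lemma hull_cont {K : Set ℂ} {ρ τ : ℝ} {v : ℂ → ℝ} (hv : v ∈ convexHull ℝ (Sg K ρ τ)) :
    ContinuousOn v K := by
  have h1 : convexHull ℝ (Sg K ρ τ) ⊆ {v | ContinuousOn v K} := by
    apply convexHull_min
    · rintro v ⟨g, hg, rfl⟩
      exact cont_log hg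
    · intro v hv w hw a b _ _ _
      exact (hv.const_smul a).add (hw.const_smul b)
  exact h1 hv

lemma pt_cont {K : Set ℂ} {T : ℝ} : Continuous (pt : YY K T → ℂ) :=
  continuous_sum_dom.2 ⟨continuous_subtype_val, continuous_subtype_val⟩

lemma psi_cont {K : Set ℂ} {T r : ℝ} {v : ℂ → ℝ} (hv : ContinuousOn v K) :
    Continuous (psi r v : YY K T → ℝ) := by
  refine continuous_sum_dom.2 ⟨?_, ?_⟩
  · exact continuousOn_iff_continuous_restrict.1 hv
  · exact (continuous_subtype_val.norm.pow 2).const_smul (r ^ 2)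

lemma fY_cont {K : Set ℂ} {T r : ℝ} {N : ℕ} (k : Fin N) :
    Continuous (fY r N k : YY K T → ℂ) := by
  unfold fY feat
  exact ((continuous_const.mul pt_cont).pow _).div_const _

lemma one_mem {K : Set ℂ} {ρ τ : ℝ} (hρ : 0 ≤ ρ) (hτ : 0 ≤ τ) : (fun _ => 1 : ℂ → ℂ) ∈ Cl K ρ τ := by
  refine ⟨differentiable_const _, fun _ _ => one_ne_zero, fun z => ?_⟩
  rw [norm_one]
  exact Real.one_le_exp (by positivity)

/-- The weights of the convex combination. -/
lemma hull_rep {K : Set ℂ} {ρ τ : ℝ} {v : ℂ → ℝ} (hv : v ∈ convexHull ℝ (Sg K ρ τ)) :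
    ∃ (m : ℕ) (t : Fin m → ℝ) (g : Fin m → ℂ → ℂ), (∀ i, 0 ≤ t i) ∧ ∑ i, t i = 1 ∧
      (∀ i, g i ∈ Cl K ρ τ) ∧ ∀ z, v z = 2 * ∑ i, t i * Real.log ‖g i z‖ := by
  rw [convexHull_eq] at hv
  obtain ⟨ι, s, w, x, hw0, hw1, hx, hc⟩ := hv
  have h1 : ∀ i : s, ∃ g ∈ Cl K ρ τ, x i = fun z => 2 * Real.log ‖g z‖ := fun i => hx i i.2
  choose g hg hgx using h1
  set e := s.equivFin
  refine ⟨s.card, fun i => w (e.symm i), fun i => g (e.symm i), fun i => hw0 _ (e.symm i).2, ?_,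
    fun i => hg _, ?_⟩
  · rw [← hw1, ← Finset.sum_coe_sort s]
    exact Equiv.sum_comp e.symm (fun i : s => w i)
  · intro z
    rw [← hc, Finset.centerMass_eq_of_sum_1 _ _ hw1, Finset.sum_apply, Finset.mul_sum,
      ← Finset.sum_coe_sort s, ← Equiv.sum_comp e.symm]
    apply Finset.sum_congr rfl
    intro i _
    rw [Pi.smul_apply, hgx, smul_eq_mul]
    ring

lemma psi_comb {K : Set ℂ} {T r : ℝ} (v w : ℂ → ℝ) (a b : ℝ) (hab : a + b = 1) :
    (psi r (a • v + b • w) : YY K T → ℝ) = a • psi r v + b • psi r w := by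
  funext y
  rcases y with y | y
  · simp [psi]
  · simp only [psi, Sum.elim_inr, Pi.add_apply, Pi.smul_apply, smul_eq_mul]
    rw [← add_mul, hab, one_mul]

/-! ### Constants -/

lemma C3_le {ε R R₀ ε₀ η r κ : ℝ} (hR : 1 ≤ R) (hε₀ : 0 < ε₀) (hε₀1 : ε₀ ≤ 1) (hη : 0 < η)
    (hR₀ : 1 ≤ R₀) (hr : 1 ≤ r) (hκ : κ = ε / (4 * R ^ 2))
    (h1 : 2 * ε₀ * (1 + 4 * R ^ 2) ≤ κ) (h2 : η * (1 + 2 * R₀ ^ 2) ≤ κ / 2)
    (h3 : Real.log (2 / η) ≤ κ / 2 * r ^ 2) :
    max (2 * Real.exp (η * (ε₀ * r ^ 2 + (1 / 2 + ε₀) * r ^ 2 * R₀ ^ 2)) / η)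
        (Real.exp (2 * (ε₀ * r ^ 2) + max (2 * ((1 / 2 + ε₀) * r ^ 2) - r ^ 2) 0 * (2 * R) ^ 2)) ≤
      Real.exp (κ * r ^ 2) := by
  have hr2 : 0 < r ^ 2 := by positivity
  apply max_le
  · have h4 : 2 * Real.exp (η * (ε₀ * r ^ 2 + (1 / 2 + ε₀) * r ^ 2 * R₀ ^ 2)) / η =
        Real.exp (Real.log (2 / η) + η * (ε₀ * r ^ 2 + (1 / 2 + ε₀) * r ^ 2 * R₀ ^ 2)) := by
      rw [Real.exp_add, Real.exp_log (by positivity)]
      ring
    rw [h4]
    apply Real.exp_le_exp.2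
    have h5 : η * (ε₀ * r ^ 2 + (1 / 2 + ε₀) * r ^ 2 * R₀ ^ 2) ≤ κ / 2 * r ^ 2 := by
      have h6 : ε₀ * r ^ 2 + (1 / 2 + ε₀) * r ^ 2 * R₀ ^ 2 ≤ (1 + 2 * R₀ ^ 2) * r ^ 2 := by
        have h7 : ε₀ * r ^ 2 ≤ 1 * r ^ 2 := mul_le_mul_of_nonneg_right hε₀1 hr2.le
        have h8 : (1 / 2 + ε₀) * r ^ 2 * R₀ ^ 2 ≤ 2 * (r ^ 2 * R₀ ^ 2) := by
          have : 0 ≤ r ^ 2 * R₀ ^ 2 := by positivity
          nlinarith
        nlinarith
      calc η * (ε₀ * r ^ 2 + (1 / 2 + ε₀) * r ^ 2 * R₀ ^ 2) ≤ η * ((1 + 2 * R₀ ^ 2) * r ^ 2) :=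
            mul_le_mul_of_nonneg_left h6 hη.le
        _ = η * (1 + 2 * R₀ ^ 2) * r ^ 2 := by ring
        _ ≤ κ / 2 * r ^ 2 := mul_le_mul_of_nonneg_right h2 hr2.le
    linarith
  · apply Real.exp_le_exp.2
    have h4 : 2 * ((1 / 2 + ε₀) * r ^ 2) - r ^ 2 = 2 * ε₀ * r ^ 2 := by ring
    rw [h4, max_eq_left (by positivity)]
    calc 2 * (ε₀ * r ^ 2) + 2 * ε₀ * r ^ 2 * (2 * R) ^ 2 = 2 * ε₀ * (1 + 4 * R ^ 2) * r ^ 2 := by
          ring
      _ ≤ κ * r ^ 2 := mul_le_mul_of_nonneg_right h1 hr2.le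

lemma pow_fac (N : ℕ) : (N : ℝ) ^ N * (1 / (N.factorial : ℝ)) ≤ Real.exp N := by
  have := Real.pow_div_factorial_le_exp (x := (N : ℝ)) (by positivity) N
  rwa [div_eq_mul_one_div] at this

end LOW

open LOW in
theorem LOW_thm (hGRO : Pool.Agent.HA.GRO_Stmt) (hGRM : GRM_Stmt) (hMMX : MMX_Stmt)
    (hLWA : LWA_Stmt.{u}) : LOW_Stmt.{u} := by
  intro Ω _ P ξ hG K R₀ Q R ε hK hR₀ hKR hQ hRR hε
  have hR : 1 ≤ R := hR₀.trans hRR
  -- constants
  obtain ⟨κ, hκ⟩ : ∃ κ : ℝ, κ = ε / (4 * R ^ 2) := ⟨_, rfl⟩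
  have hκ0 : 0 < κ := by rw [hκ]; positivity
  obtain ⟨ε₀, hε₀⟩ : ∃ ε₀ : ℝ, ε₀ = min ε (min 1 (κ / (2 * (1 + 4 * R ^ 2)))) := ⟨_, rfl⟩
  have hε₀0 : 0 < ε₀ := by
    rw [hε₀]
    exact lt_min hε (lt_min one_pos (by positivity))
  have hε₀ε : ε₀ ≤ ε := by rw [hε₀]; exact min_le_left _ _
  have hε₀1 : ε₀ ≤ 1 := by rw [hε₀]; exact (min_le_right _ _).trans (min_le_left _ _)
  have hε₀κ : 2 * ε₀ * (1 + 4 * R ^ 2) ≤ κ := by
    have h1 : ε₀ ≤ κ / (2 * (1 + 4 * R ^ 2)) := by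
      rw [hε₀]; exact (min_le_right _ _).trans (min_le_right _ _)
    rw [le_div_iff₀ (by positivity)] at h1
    linarith
  obtain ⟨η, hη⟩ : ∃ η : ℝ, η = min (1 / 2) (κ / (2 * (1 + 2 * R₀ ^ 2))) := ⟨_, rfl⟩
  have hη0 : 0 < η := by
    rw [hη]
    exact lt_min (by norm_num) (by positivity)
  have hη1 : η ≤ 1 / 2 := by rw [hη]; exact min_le_left _ _
  have hηκ : η * (1 + 2 * R₀ ^ 2) ≤ κ / 2 := by
    have h1 : η ≤ κ / (2 * (1 + 2 * R₀ ^ 2)) := by rw [hη]; exact min_le_right _ _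
    rw [le_div_iff₀ (by positivity)] at h1
    linarith
  obtain ⟨Cg, hCg0, hCg⟩ := hGRO.2 ε₀ hε₀0
  obtain ⟨L, hL⟩ : ∃ L : ℝ, L = Real.sqrt (Q + 2) := ⟨_, rfl⟩
  have hL1 : 1 ≤ L := by
    rw [hL]
    exact Real.one_le_sqrt.2 (by linarith)
  have hL2 : L ^ 2 = Q + 2 := by rw [hL]; exact Real.sq_sqrt (by linarith)
  filter_upwards [eventually_ge_atTop (2 : ℝ), eventually_ge_atTop (2 * L * Real.exp Cg / ε₀ ^ 2),
    eventually_ge_atTop (2 / κ * Real.log (2 / η)),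
    eventually_ge_atTop (2 / ε * (Real.log 4 + 2 * R ^ 2))] with r hr2 hrL hrη hrε hhole
  have hr0 : 0 < r := by linarith
  have hr1 : 1 ≤ r := by linarith
  have hrr : r ≤ r ^ 2 := by nlinarith
  have hhp : 0 < holeP P ξ K r := (Real.exp_pos _).trans_le hhole
  obtain ⟨N, hN⟩ : ∃ N : ℕ, N = ⌊R ^ 2 * r ^ 2⌋₊ + 2 := ⟨_, rfl⟩
  have hN1 : 1 ≤ N := by omega
  have hNle : (N : ℝ) ≤ 2 * R ^ 2 * r ^ 2 := by
    have h1 : (⌊R ^ 2 * r ^ 2⌋₊ : ℝ) ≤ R ^ 2 * r ^ 2 := Nat.floor_le (by positivity)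
    have h2 : (1 : ℝ) * 4 ≤ R ^ 2 * r ^ 2 :=
      mul_le_mul (by nlinarith) (by nlinarith) (by norm_num) (by positivity)
    rw [hN]
    push_cast
    linarith
  obtain ⟨ρ, hρ⟩ : ∃ ρ : ℝ, ρ = ε₀ * r ^ 2 := ⟨_, rfl⟩
  obtain ⟨τ, hτ⟩ : ∃ τ : ℝ, τ = (1 / 2 + ε₀) * r ^ 2 := ⟨_, rfl⟩
  have hρ0 : 0 ≤ ρ := by rw [hρ]; positivity
  have hτ0 : 0 ≤ τ := by rw [hτ]; positivity
  obtain ⟨C3, hC3⟩ : ∃ C3 : ℝ, C3 = max (2 * Real.exp (η * (ρ + τ * R₀ ^ 2)) / η)
      (Real.exp (2 * ρ + max (2 * τ - r ^ 2) 0 * (2 * R) ^ 2)) := ⟨_, rfl⟩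
  have hC3le : C3 ≤ Real.exp (κ * r ^ 2) := by
    rw [hC3, hρ, hτ]
    refine C3_le (ε := ε) hR hε₀0 hε₀1 hη0 hR₀ hr1 hκ hε₀κ hηκ ?_
    have h1 : 2 / κ * Real.log (2 / η) ≤ r ^ 2 := hrη.trans hrr
    have h2 : Real.log (2 / η) = κ / 2 * (2 / κ * Real.log (2 / η)) := by field_simp
    rw [h2]
    exact mul_le_mul_of_nonneg_left h1 (by positivity)
  have hC30 : 0 < C3 := by
    rw [hC3]
    exact lt_of_lt_of_le (Real.exp_pos _) (le_max_right _ _)
  -- spaces
  haveI : CompactSpace ↥K := isCompact_iff_compactSpace.1 hK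
  haveI : CompactSpace ↥(Metric.closedBall (0 : ℂ) (2 * R)) :=
    isCompact_iff_compactSpace.1 (isCompact_closedBall _ _)
  haveI : BorelSpace (YY K (2 * R)) := sum_borel
  -- the growth hypothesis
  have hgrow : ∀ x : ℕ → ℂ, (∀ n : ℕ, ‖x n‖ ≤ (L * r ^ 2) * ((n : ℝ) + 1)) →
      Differentiable ℂ (ser x) ∧ (∀ w, Tendsto (fun M => serN x M w) atTop (𝓝 (ser x w))) ∧
      ∀ w M, ‖serN x M w‖ ≤ Real.exp (ρ + τ / r ^ 2 * ‖w‖ ^ 2) := by
    intro x hx
    obtain ⟨h1, h2, h3, _⟩ := hCg x (L * r ^ 2) (by positivity) hx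
    refine ⟨h1, h2, fun w M => (h3 w M).trans ?_⟩
    have h4 : τ / r ^ 2 = 1 / 2 + ε₀ := by
      rw [hτ]
      field_simp
    rw [h4, Real.exp_add, Real.exp_add, ← mul_assoc]
    apply mul_le_mul_of_nonneg_right _ (Real.exp_pos _).le
    have h5 : 2 * L * Real.exp Cg ≤ ε₀ ^ 2 * r ^ 2 := by
      have := hrL.trans hrr
      rw [div_le_iff₀ (by positivity)] at this
      linarith
    have h6 := Real.quadratic_le_exp_of_nonneg hρ0
    rw [hρ] at h6 ⊢
    have h7 : 0 < r ^ 2 := by positivity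
    have h8 : L * r ^ 2 * Real.exp Cg ≤ (ε₀ * r ^ 2) ^ 2 / 2 := by
      have := mul_le_mul_of_nonneg_right h5 h7.le
      nlinarith
    have h9 : 0 ≤ ε₀ * r ^ 2 := by positivity
    linarith
  -- the bound
  obtain ⟨B, hB⟩ : ∃ B : ℝ, B = 4 / holeP P ξ K r * (1 / (N.factorial : ℝ)) * C3 ^ N := ⟨_, rfl⟩
  have hB0 : 0 < B := by
    rw [hB]
    positivity
  -- the convex set
  obtain ⟨C, hC⟩ : ∃ C : Set (YY K (2 * R) → ℝ),
      C = {ψ | ∃ v ∈ convexHull ℝ (Sg K ρ τ), ψ = psi r v} := ⟨_, rfl⟩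
  have hmm := hMMX (YY K (2 * R)) N (fY r N) C B (fun k => fY_cont k)
    (by
      rw [hC]
      rintro _ ⟨v, hv, rfl⟩ _ ⟨w, hw, rfl⟩ a b ha hb hab
      exact ⟨a • v + b • w, (convex_convexHull ℝ _) hv hw ha hb hab, (psi_comb v w a b hab).symm⟩)
    (by
      rw [hC]
      exact ⟨_, _, subset_convexHull ℝ _ ⟨_, one_mem hρ0 hτ0, rfl⟩, rfl⟩)
    (by
      rw [hC]
      rintro _ ⟨v, hv, rfl⟩
      exact psi_cont (hull_cont hv))
    hB0
    (by
      intro a
      by_contra hcon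
      push Not at hcon
      have hD : ∀ g ∈ Cl K ρ τ, B ≤ DD (a : Measure (YY K (2 * R))) (fY r N)
          (psi r (fun z => (2 - η) * Real.log ‖g z‖)) := by
        intro g hg
        apply hcon
        rw [hC]
        refine ⟨_, ?_, rfl⟩
        have h1 : (fun z => (2 - η) * Real.log ‖g z‖) =
            (1 - η / 2) • (fun z => 2 * Real.log ‖g z‖) +
              (η / 2) • (fun z => 2 * Real.log ‖(fun _ => 1 : ℂ → ℂ) z‖) := by
          funext z
          simp only [Pi.add_apply, Pi.smul_apply, smul_eq_mul, norm_one, Real.log_one]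
          ring
        rw [h1]
        have h2 : (fun z => 2 * Real.log ‖g z‖) ∈ convexHull ℝ (Sg K ρ τ) :=
          subset_convexHull ℝ _ ⟨g, hg, rfl⟩
        have h3 : (fun z => 2 * Real.log ‖(fun _ => 1 : ℂ → ℂ) z‖) ∈ convexHull ℝ (Sg K ρ τ) :=
          subset_convexHull ℝ _ ⟨_, one_mem hρ0 hτ0, rfl⟩
        exact (convex_convexHull ℝ _) h2 h3 (by linarith) (by linarith) (by ring)
      have h1 := hLWA P ξ hG K R₀ (2 * R) r (L * r ^ 2) η ρ τ B N (a : Measure (YY K (2 * R)))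
        inferInstance hK hKR (by linarith) (by linarith) hr0
        (by nlinarith) hη0 (by linarith) hρ0 hτ0 hgrow hB0 hD
      rw [← hC3] at h1
      have h2 : 1 / B * (1 / (N.factorial : ℝ)) * C3 ^ N = holeP P ξ K r / 4 := by
        rw [hB]
        have : (N.factorial : ℝ) ≠ 0 := by positivity
        field_simp
      rw [h2] at h1
      have h3 : Real.exp (-(L * r ^ 2) ^ 2) ≤ Real.exp (-4) * holeP P ξ K r := by
        have h4 : -(L * r ^ 2) ^ 2 = -(2 * r ^ 4) + -(Q * r ^ 4) := by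
          rw [mul_pow, hL2]
          ring
        rw [h4, Real.exp_add]
        apply mul_le_mul _ hhole (Real.exp_pos _).le (Real.exp_pos _).le
        apply Real.exp_le_exp.2
        have h5 : (16 : ℝ) ≤ r ^ 4 := by
          have := pow_le_pow_left₀ (by norm_num) hr2 4
          norm_num at this
          exact this
        linarith
      have h6 : Real.exp (-4) ≤ 1 / 16 := by
        have h7 : (16 : ℝ) ≤ Real.exp 4 := by
          have h8 : (2 : ℝ) ≤ Real.exp 1 := by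
            have := Real.add_one_le_exp (1 : ℝ)
            linarith
          have h9 : Real.exp 4 = Real.exp 1 ^ 4 := by
            rw [← Real.exp_nat_mul]
            norm_num
          have h10 := pow_le_pow_left₀ (by norm_num) h8 4
          rw [← h9] at h10
          norm_num at h10
          exact h10
        rw [Real.exp_neg, one_div]
        exact inv_anti₀ (by norm_num) h7
      nlinarith)
  obtain ⟨ψ, hψC, hψ⟩ := hmm
  rw [hC] at hψC
  obtain ⟨v, hv, rfl⟩ := hψC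
  obtain ⟨m, t, g, ht0, ht1, hg, hvz⟩ := hull_rep hv
  refine ⟨m, t, g, ht0, ht1, ?_, ?_⟩
  · intro i
    refine ⟨(hg i).1, (hg i).2.1, fun z => ((hg i).2.2 z).trans ?_⟩
    apply Real.exp_le_exp.2
    rw [hρ, hτ]
    have h1 : 0 ≤ r ^ 2 := by positivity
    have h2 : 0 ≤ r ^ 2 * ‖z‖ ^ 2 := by positivity
    nlinarith
  · rw [← hN]
    intro z b hlab
    -- the points
    have hpt : ∀ j : Fin N, ∃ y : YY K (2 * R), pt y = z j ∧
        Real.exp (-(psi r v y)) = wt r (fun z => (∑ i, t i * Real.log ‖g i z‖) / r ^ 2)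
          (b j) (z j) := by
      intro j
      rcases hbj : b j with _ | _
      · refine ⟨Sum.inr ⟨z j, ?_⟩, rfl, ?_⟩
        · rw [Metric.mem_closedBall, dist_zero_right]
          exact (hlab j).2 hbj
        · rw [wt, if_neg (by simp)]
          rfl
      · refine ⟨Sum.inl ⟨z j, (hlab j).1 hbj⟩, rfl, ?_⟩
        rw [wt, if_pos rfl]
        have h1 : psi r v (Sum.inl ⟨z j, (hlab j).1 hbj⟩ : YY K (2 * R)) = v (z j) := rfl
        rw [h1, hvz]
        congr 2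
        field_simp
    choose y hy hyw using hpt
    haveI := prob_disc N hN1 y
    have h1 := hψ ⟨(N : ENNReal)⁻¹ • ∑ j : Fin N, Measure.dirac (y j), this⟩
    have h2 := DD_disc hGRM r N z y hy (psi r v)
    simp only [ProbabilityMeasure.coe_mk] at h1
    rw [h2, Finset.prod_congr rfl fun j _ => hyw j] at h1
    have hNpos : (0 : ℝ) < N := by exact_mod_cast hN1
    have h3 : vdm z ^ 2 * cst r N * ∏ i, wt r (fun z => (∑ i, t i * Real.log ‖g i z‖) / r ^ 2)
        (b i) (z i) ≤ (N : ℝ) ^ N * B := by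
      have h4 := mul_le_mul_of_nonneg_left h1 (by positivity : (0 : ℝ) ≤ (N : ℝ) ^ N)
      have h5 : (N : ℝ) ^ N * (1 / (N : ℝ)) ^ N = 1 := by
        rw [← mul_pow, mul_one_div_cancel hNpos.ne', one_pow]
      calc vdm z ^ 2 * cst r N * ∏ i, wt r (fun z => (∑ i, t i * Real.log ‖g i z‖) / r ^ 2)
            (b i) (z i) = ((N : ℝ) ^ N * (1 / (N : ℝ)) ^ N) * (vdm z ^ 2 * cst r N *
              ∏ i, wt r (fun z => (∑ i, t i * Real.log ‖g i z‖) / r ^ 2) (b i) (z i)) := by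
            rw [h5, one_mul]
        _ ≤ _ := by
            refine le_trans (le_of_eq ?_) h4
            ring
    refine h3.trans ?_
    have h6 : (N : ℝ) ^ N * B = 4 * ((N : ℝ) ^ N * (1 / (N.factorial : ℝ))) * C3 ^ N /
        holeP P ξ K r := by
      rw [hB]
      ring
    rw [h6]
    apply div_le_div_of_nonneg_right _ hhp.le
    have h7 : C3 ^ N ≤ Real.exp (ε / 2 * r ^ 4) := by
      calc C3 ^ N ≤ Real.exp (κ * r ^ 2) ^ N := pow_le_pow_left₀ hC30.le hC3le N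
        _ = Real.exp (κ * r ^ 2 * N) := by
            rw [← Real.exp_nat_mul]
            ring_nf
        _ ≤ Real.exp (ε / 2 * r ^ 4) := by
            apply Real.exp_le_exp.2
            calc κ * r ^ 2 * N ≤ κ * r ^ 2 * (2 * R ^ 2 * r ^ 2) :=
                  mul_le_mul_of_nonneg_left hNle (by positivity)
              _ = ε / 2 * r ^ 4 := by
                  rw [hκ]
                  field_simp
                  ring
    have h8 : 4 * ((N : ℝ) ^ N * (1 / (N.factorial : ℝ))) ≤ Real.exp (ε / 2 * r ^ 4) := by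
      calc 4 * ((N : ℝ) ^ N * (1 / (N.factorial : ℝ))) ≤ 4 * Real.exp N :=
            mul_le_mul_of_nonneg_left (pow_fac N) (by norm_num)
        _ = Real.exp (Real.log 4 + N) := by
            rw [Real.exp_add, Real.exp_log (by norm_num)]
        _ ≤ Real.exp (ε / 2 * r ^ 4) := by
            apply Real.exp_le_exp.2
            have h9 : Real.log 4 ≤ Real.log 4 * r ^ 2 := by
              have : 0 ≤ Real.log 4 := Real.log_nonneg (by norm_num)
              nlinarith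
            have h10 : Real.log 4 + 2 * R ^ 2 ≤ ε / 2 * r ^ 2 := by
              have := hrε.trans hrr
              have h11 : Real.log 4 + 2 * R ^ 2 = ε / 2 * (2 / ε * (Real.log 4 + 2 * R ^ 2)) := by
                field_simp
              rw [h11]
              exact mul_le_mul_of_nonneg_left this (by positivity)
            have h12 := mul_le_mul_of_nonneg_right h10 (by positivity : (0 : ℝ) ≤ r ^ 2)
            nlinarith
    calc 4 * ((N : ℝ) ^ N * (1 / (N.factorial : ℝ))) * C3 ^ N ≤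
          Real.exp (ε / 2 * r ^ 4) * Real.exp (ε / 2 * r ^ 4) :=
          mul_le_mul h8 h7 (by positivity) (Real.exp_pos _).le
      _ = Real.exp (ε * r ^ 4) := by
          rw [← Real.exp_add]
          congr 1
          ring

end Pool.Agent.HX
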