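import Pool.Agent.HA.Defs

/-!
Definitions for the hole probability exponent of the Gaussian entire function in arbitrary compact
sets (MP_629fb1_pr).  The Gaussian entire function, the hole probability `holeP`, the product of
distances `vdm` and the capacity `cap` are those of `Pool.Agent.GH.Core`.
-/

namespace Pool.Agent.HX

open MeasureTheory ProbabilityTheory Filter Topology Pool.Agent.GH Pool.Agent.HA

universe u

/-! ### Definitions used in the final statement -/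

/-- The matrix with entries `exp(r^2 z_i conj(z_j))`. -/
noncomputable def Kf (r : ℝ) {n : ℕ} (z : Fin n → ℂ) : Matrix (Fin n) (Fin n) ℂ :=
  Matrix.of fun i j => Complex.exp ((r : ℂ) ^ 2 * z i * (starRingEnd ℂ) (z j))

/-- Entire functions without zeros on `K` that are at most `exp(m |z|^2 / 2)`. -/
def Hol (K : Set ℂ) (m : ℕ) (g : ℂ → ℂ) : Prop :=
  Differentiable ℂ g ∧ (∀ z ∈ K, g z ≠ 0) ∧ ∀ z, ‖g z‖ ≤ Real.exp (m * ‖z‖ ^ 2 / 2)

/-- `c` is a good exponent for `K`: for some `m ≥ 1` and some entire `g` without zeros on `K` with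
`|g(z)| ≤ exp(m |z|^2 / 2)`, all large `r` and all `z_1, ..., z_n` in `K` (any `n`) satisfy
`|det(exp(r^2 z_i conj(z_j)))| ∏ |g(z_i)|^(-2 r^2 / m) ≤ exp(c r^4)`. -/
def Good (K : Set ℂ) (c : ℝ) : Prop :=
  ∃ m : ℕ, 1 ≤ m ∧ ∃ g : ℂ → ℂ, Hol K m g ∧ ∀ᶠ r : ℝ in atTop,
    ∀ (n : ℕ) (z : Fin n → ℂ), (∀ i, z i ∈ K) →
      ‖(Kf r z).det‖ * ∏ i, ‖g (z i)‖ ^ (-(2 * r ^ 2 / (m : ℝ))) ≤ Real.exp (c * r ^ 4)

/-- The exponent: the infimum of the good exponents. -/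
noncomputable def Jex (K : Set ℂ) : ℝ := sInf {c : ℝ | Good K c}

/-! ### Auxiliary definitions (not used in the final statement) -/

/-- The monomials `(r z)^k / √k!`. -/
noncomputable def feat (r : ℝ) (k : ℕ) (z : ℂ) : ℂ :=
  ((r : ℂ) * z) ^ k / (Real.sqrt (k.factorial : ℝ) : ℂ)

/-- The constant `∏_{k<n} r^{2k}/k!`. -/
noncomputable def cst (r : ℝ) (n : ℕ) : ℝ :=
  ∏ k ∈ Finset.range n, (r ^ (2 * k) / (k.factorial : ℝ))

/-- Gram matrix of the kernel with `M` terms. -/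
noncomputable def Gm (M : ℕ) (r : ℝ) {n : ℕ} (z : Fin n → ℂ) : Matrix (Fin n) (Fin n) ℂ :=
  Matrix.of fun i j => ∑ k ∈ Finset.range M, feat r k (z i) * (starRingEnd ℂ) (feat r k (z j))

/-- Weight of a labelled point: `exp(-2 r^2 u)` for the label `true`, `exp(-r^2 |z|^2)` for the
label `false`. -/
noncomputable def wt (r : ℝ) (u : ℂ → ℝ) (b : Bool) (z : ℂ) : ℝ :=
  if b = true then Real.exp (-(2 * r ^ 2 * u z)) else Real.exp (-(r ^ 2 * ‖z‖ ^ 2))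

/-- Labelled points: with the label `true` in `K`, with the label `false` in the disk of
radius `T`. -/
def Lab (K : Set ℂ) (T : ℝ) {n : ℕ} (z : Fin n → ℂ) (b : Fin n → Bool) : Prop :=
  ∀ i, (b i = true → z i ∈ K) ∧ (b i = false → ‖z i‖ ≤ T)

/-- Bound `B` for the labelled `N`-tuples. -/
def BY (K : Set ℂ) (T r : ℝ) (u : ℂ → ℝ) (N : ℕ) (B : ℝ) : Prop :=
  ∀ (z : Fin N → ℂ) (b : Fin N → Bool), Lab K T z b →
    vdm z ^ 2 * cst r N * ∏ i, wt r u (b i) (z i) ≤ B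

/-- Bound `B` for the `n`-tuples of `K`, kernel with `M` terms. -/
def BM (K : Set ℂ) (M : ℕ) (r : ℝ) (u : ℂ → ℝ) (n : ℕ) (B : ℝ) : Prop :=
  ∀ z : Fin n → ℂ, (∀ i, z i ∈ K) →
    ‖(Gm M r z).det‖ * ∏ i, Real.exp (-(2 * r ^ 2 * u (z i))) ≤ B

/-- Bound `B` for the `n`-tuples of `K`, kernel `exp(r^2 z w*)`. -/
def BF (K : Set ℂ) (r : ℝ) (u : ℂ → ℝ) (n : ℕ) (B : ℝ) : Prop :=
  ∀ z : Fin n → ℂ, (∀ i, z i ∈ K) →
    ‖(Kf r z).det‖ * ∏ i, Real.exp (-(2 * r ^ 2 * u (z i))) ≤ B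

/-- Entire functions without zeros on `K` that are at most `exp(ρ + τ |z|^2)`. -/
def Cl (K : Set ℂ) (ρ τ : ℝ) : Set (ℂ → ℂ) :=
  {g | Differentiable ℂ g ∧ (∀ z ∈ K, g z ≠ 0) ∧ ∀ z, ‖g z‖ ≤ Real.exp (ρ + τ * ‖z‖ ^ 2)}

/-- The determinant of the matrix `∫ φ_k conj(φ_l) exp(-ψ) da`. -/
noncomputable def DD {Y : Type} [MeasurableSpace Y] (a : Measure Y) {N : ℕ} (φ : Fin N → Y → ℂ)
    (ψ : Y → ℝ) : ℝ :=
  ‖(Matrix.of fun k l : Fin N => ∫ y, φ k y * (starRingEnd ℂ) (φ l y) *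
    ((Real.exp (-(ψ y)) : ℝ) : ℂ) ∂a).det‖

/-- The disjoint union of `K` and the disk of radius `T`. -/
abbrev YY (K : Set ℂ) (T : ℝ) : Type := ↥K ⊕ ↥(Metric.closedBall (0 : ℂ) T)

/-- The point of the plane. -/
def pt {K : Set ℂ} {T : ℝ} : YY K T → ℂ := Sum.elim (fun z => (z : ℂ)) (fun z => (z : ℂ))

/-- The exponent of the weight: `v` on `K`, `r^2 |z|^2` on the disk. -/
noncomputable def psi {K : Set ℂ} {T : ℝ} (r : ℝ) (v : ℂ → ℝ) : YY K T → ℝ :=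
  Sum.elim (fun z => v (z : ℂ)) (fun z => r ^ 2 * ‖(z : ℂ)‖ ^ 2)

/-- The functions `(r z)^k/√k!`, `k < N`, on the disjoint union. -/
noncomputable def fY {K : Set ℂ} {T : ℝ} (r : ℝ) (N : ℕ) : Fin N → YY K T → ℂ :=
  fun k y => feat r (k : ℕ) (pt y)

end Pool.Agent.HX
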