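import Pool.Agent.HA.Stmts
import Pool.Agent.HX.Defs

/-!
Statements of the modules, with complete proofs in the comments.

Plan.  For a compact `K` let `p(r) = -log holeP`.  (LOW) At a large scale `r` a minimax argument
gives an average `u` of functions `r^-2 log|g|`, `g` entire without zeros on `K`, for which all
weighted Vandermonde determinants of `N = R^2 r^2` points are at most `exp(p(r) + ε r^4)`.
(SCA) By Fekete's monotonicity this passes to all larger scales `r'`; there it gives bounds for the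
Gram determinants of all finite subsets of `K`.  (ADM) So `p(r)/r^4 + ε` is a good exponent.
(UPC) Conversely a good exponent `c` gives `holeP >= exp(-(c + ε) r^4)` for all large `r`.
-/

namespace Pool.Agent.HX

open MeasureTheory ProbabilityTheory Filter Topology Pool.Agent.GH Pool.Agent.HA
open scoped ComplexOrder

universe u

/-! ### Part A: deterministic tools -/

/-- Fekete's monotonicity, abstract form.

Proof. Induction on `N'`; it is enough to pass from `N` to `N + 1`.  Let `x` be an `(N+1)`-tuple of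
points of `S`.  Apply the hypothesis to the `N + 1` tuples `x ∘ k.succAbove` and multiply the
inequalities: every unordered pair `{i, j}` survives in `N - 1` of them and every index in `N` of
them, hence `(∏_{i<j} d(x_i,x_j))^(2(N-1)) exp(-2κ(N-1) N ∑ ψ(x_i)) ≤ exp(A (N+1) N (N-1))`.
Take the `(N-1)`-th root (`N ≥ 2`; monotonicity of `t ↦ t^(N-1)` on nonnegative reals).
A convenient form of the product over pairs: since `d` is symmetric and nonnegative,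
`(∏_{i<j} d(x_i,x_j))^2 = ∏_i ∏_{j ≠ i} d(x_i,x_j)`; compare the proof of the decrease of `dn` in
`Pool/Agent/GH/CAPA.lean`. -/
def FEK_Stmt : Prop := ∀ {E : Type} (S : Set E) (d : E → E → ℝ) (ψ : E → ℝ) (κ A : ℝ) (N : ℕ),
  2 ≤ N → (∀ x y, 0 ≤ d x y) → (∀ x y, d x y = d y x) →
  (∀ x : Fin N → E, (∀ i, x i ∈ S) →
    (∏ i, ∏ j ∈ Finset.Ioi i, d (x i) (x j)) ^ 2 *
      Real.exp (-(2 * κ * ((N : ℝ) - 1) * ∑ i, ψ (x i))) ≤
      Real.exp (A * ((N : ℝ) * ((N : ℝ) - 1)))) →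
  ∀ N' : ℕ, N ≤ N' → ∀ x : Fin N' → E, (∀ i, x i ∈ S) →
    (∏ i, ∏ j ∈ Finset.Ioi i, d (x i) (x j)) ^ 2 *
      Real.exp (-(2 * κ * ((N' : ℝ) - 1) * ∑ i, ψ (x i))) ≤
      Real.exp (A * ((N' : ℝ) * ((N' : ℝ) - 1)))

/-- Sums of logarithms of factorials.

Proof. Lower bound: `Pool.Agent.GH.FACT_thm : FACT_Stmt` bounds the sum over `range (n+1)` from
below; subtract `log n! ≤ n log n`. Upper bound: `log k! ≤ (k+1) log (k+1) - k` for `k ≥ 0`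
(compare with `∫_1^{k+1} log`), then sum over `k < n` and compare `∑_{j=1}^n j log j` with the
integral of the increasing function `x log x`:
`∑_{j=1}^{n} j log j ≤ ∫_1^{n} x log x dx + n log n ≤ n^2/2 log n - n^2/4 + 1/4 + n log n`, and
`∑_{k<n} k = n(n-1)/2`.  (Or any induction on `n`.) -/
def LFA_Stmt : Prop := ∃ C : ℝ, 0 ≤ C ∧ ∀ n : ℕ, 1 ≤ n →
  |(∑ k ∈ Finset.range n, Real.log (k.factorial : ℝ)) -
    ((n : ℝ) ^ 2 / 2 * Real.log n - 3 / 4 * (n : ℝ) ^ 2)| ≤ C * n * (1 + Real.log n)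

/-- High moments of a measure with `n` atoms are controlled by the first `n` moments.

Proof. Let `Q = ∏ (X - z_i)`, `n ≥ 1` (for `n = 0` both sides vanish). For `k ≥ n` let
`P_k = ∑_{l<n} c_{kl} X^l` be the interpolation polynomial in Newton form,
`P_k = ∑_{j<n} h_{k-j}(z_0,...,z_j) ∏_{i<j} (X - z_i)`, where `h_m` is the complete homogeneous
symmetric polynomial; `z_i^k = P_k(z_i)` for all `i` (also with repeated points).  As
`|h_{k-j}(z_0,...,z_j)| ≤ C(k,j) R₀^(k-j)` and the coefficient of `X^l` in `∏_{i<j}(X - z_i)` is at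
most `C(j,l) R₀^(j-l)`, one gets `|c_{kl}| ≤ R₀^(k-l) ∑_j C(k,j) C(j,l) ≤ 2^(n+k) R₀^(k-l)`.
(An induction on the number of points proves existence and bounds at the same time:
`h_m(z_0..z_j) = h_m(z_0..z_{j-1}) + z_j h_{m-1}(z_0..z_j)`; existence: the polynomial
`X^k - P_k` is divisible by all `∏_{i≤j}(X - z_i)` successively, with quotient having the
`h` of the next set as coefficients.)  So `feat r k (z_i) = ∑_{l<n} b_{kl} feat r l (z_i)` with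
`|b_{kl}|^2 = |c_{kl}|^2 r^(2(k-l)) l!/k! ≤ 4^(n+k) (R₀^2 r^2)^(k-l) / (k-l)!
≤ 16^n (4 R₀^2 r^2)^m / m!`, `m = k - l` (use `k! ≥ l! (k-l)!` and `k ≤ n + m`).  By
Cauchy-Schwarz `|∑_i c_i feat r k (z_i)|^2 ≤ (∑_l |b_{kl}|^2) ∑_l |∑_i c_i feat r l (z_i)|^2`; sum
over `k ∈ [M, M')`: for each `l < n` the numbers `m = k - l` are distinct and lie in
`[M - n, M')`. -/
def INT_Stmt : Prop := ∀ (R₀ r : ℝ) (n : ℕ) (z : Fin n → ℂ) (c : Fin n → ℂ) (M M' : ℕ),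
  1 ≤ R₀ → 0 < r → (∀ i, ‖z i‖ ≤ R₀) → n ≤ M → M ≤ M' →
  ∑ k ∈ Finset.Ico M M', ‖∑ i, c i * feat r k (z i)‖ ^ 2 ≤
    (n : ℝ) * 16 ^ n *
      (∑ m ∈ Finset.Ico (M - n) M', (4 * R₀ ^ 2 * r ^ 2) ^ m / (m.factorial : ℝ)) *
      ∑ k ∈ Finset.range n, ‖∑ i, c i * feat r k (z i)‖ ^ 2

/-- Determinants of positive semidefinite matrices: monotonicity and logarithmic concavity.

Proof. (1) If `det A = 0` nothing to prove. Otherwise `A` is positive definite; with `S = A^(1/2)`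
(Mathlib: `Matrix.PosSemidef` square roots, or `A = C * Cᴴ`), `B = S (1 + E) S`, with
`E = S⁻¹ (B - A) S⁻¹` positive semidefinite, and `det (1 + E) ≥ 1` since the eigenvalues of `E` are
nonnegative (`Matrix.IsHermitian.det_eq_prod_eigenvalues` for `1 + E`, whose eigenvalues are at
least one).  (2) For `0 < t < 1`: if both determinants vanish or one of them vanishes the left side
is zero. Otherwise `A = S S`, `B = S E S` with `E` positive definite with eigenvalues `e_i > 0`,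
`t A + (1-t) B = S (t + (1-t) E) S` has determinant `det(S)^2 ∏ (t + (1-t) e_i)` and
`t + (1-t) e ≥ e^(1-t)` (weighted arithmetic-geometric mean,
`Real.geom_mean_le_arith_mean2_weighted`).  `t = 0`, `t = 1` are trivial (`0^0 = 1`). -/
def PSD_Stmt : Prop :=
  (∀ (n : ℕ) (A B : Matrix (Fin n) (Fin n) ℂ), A.PosSemidef → (B - A).PosSemidef →
    ‖A.det‖ ≤ ‖B.det‖) ∧
  ∀ (n : ℕ) (A B : Matrix (Fin n) (Fin n) ℂ) (t : ℝ), A.PosSemidef → B.PosSemidef →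
    0 ≤ t → t ≤ 1 →
    ‖A.det‖ ^ t * ‖B.det‖ ^ (1 - t) ≤ ‖((t : ℂ) • A + ((1 - t : ℝ) : ℂ) • B).det‖

/-- Gram determinants: general facts.

Proof. Write `a_i = (feat r k (z_i))_{k<M}`, so `Gm M r z = a aᴴ` with the `n × M` matrix `a`.
(1),(2): after a permutation of the rows and columns (which does not change the determinant) let
`p` be the last index.  Let `G'` be the Gram matrix of the other vectors. If `det G' = 0` then the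
others are linearly dependent, so `det = 0` and (1), (2) hold ((2): left side zero; (1): left side
zero).  Otherwise, by the Schur complement (`Matrix.det_fromBlocks₁₁`),
`det Gm = det G' * (|a_p|^2 - y^* G'^{-1} y)`, where the second factor is the squared distance `δ`
of `a_p` to the span of the others: equivalently write `a_p = w + e`, `w` in the span, `e`
orthogonal to it; row operations give `det Gm = det G' * |e|^2`. (1): `|e|^2 ≤ |a_p|^2 =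
∑_{k<M} (r|z_p|)^{2k}/k! ≤ exp(r^2|z_p|^2)`. (2): `∑ x_k a_p(k) = ∑ x_k e(k)` because
`∑ x_k w(k) = 0`, so it is at most `|x| |e| ≤ |e|` in modulus.
(3) `Gm n r z = Φ Φᴴ` with `Φ = vandermonde(z) * diag(r^k/√k!)`, `|det vandermonde| = vdm`
(`Pool/Agent/HA/CPA.lean`, `norm_det`).
(4) `Gm M' - Gm M` is positive semidefinite (sum of rank one terms): `PSD_Stmt` (1).
(5) `Gm M r z → Kf r z` entrywise as `M → ∞` (exponential series), so the determinants converge;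
with (4) the sequence `‖det Gm M‖` is nondecreasing with limit `‖det Kf‖`.
(6) The hypothesis says `cᵀ (Gm M' - Gm M) c̄ ≤ β cᵀ (Gm M) c̄` for all `c`, so `(1+β) Gm M - Gm M'`
is positive semidefinite; `PSD_Stmt` (1) and `det((1+β)A) = (1+β)^n det A`.
(7) The rank is at most `M < n`. -/
def GRM_Stmt : Prop :=
  (∀ (M n : ℕ) (r : ℝ) (z : Fin (n + 1) → ℂ) (p : Fin (n + 1)),
    ‖(Gm M r z).det‖ ≤
      ‖(Gm M r (fun i : Fin n => z (p.succAbove i))).det‖ * Real.exp (r ^ 2 * ‖z p‖ ^ 2)) ∧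
  (∀ (M n : ℕ) (r : ℝ) (z : Fin (n + 1) → ℂ) (p : Fin (n + 1)) (x : Fin M → ℂ),
    ∑ k, ‖x k‖ ^ 2 ≤ 1 →
    (∀ i : Fin n, ∑ k : Fin M, x k * feat r (k : ℕ) (z (p.succAbove i)) = 0) →
    ‖(Gm M r (fun i : Fin n => z (p.succAbove i))).det‖ *
      ‖∑ k : Fin M, x k * feat r (k : ℕ) (z p)‖ ^ 2 ≤ ‖(Gm M r z).det‖) ∧
  (∀ (n : ℕ) (r : ℝ) (z : Fin n → ℂ), ‖(Gm n r z).det‖ = vdm z ^ 2 * cst r n) ∧
  (∀ (M M' n : ℕ) (r : ℝ) (z : Fin n → ℂ), M ≤ M' →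
    ‖(Gm M r z).det‖ ≤ ‖(Gm M' r z).det‖) ∧
  (∀ (n : ℕ) (r : ℝ) (z : Fin n → ℂ), (∀ M : ℕ, ‖(Gm M r z).det‖ ≤ ‖(Kf r z).det‖) ∧
    Tendsto (fun M : ℕ => ‖(Gm M r z).det‖) atTop (𝓝 ‖(Kf r z).det‖)) ∧
  (∀ (M M' n : ℕ) (r β : ℝ) (z : Fin n → ℂ), M ≤ M' → 0 ≤ β →
    (∀ c : Fin n → ℂ, ∑ k ∈ Finset.Ico M M', ‖∑ i, c i * feat r k (z i)‖ ^ 2 ≤
      β * ∑ k ∈ Finset.range M, ‖∑ i, c i * feat r k (z i)‖ ^ 2) →
    ‖(Gm M' r z).det‖ ≤ (1 + β) ^ n * ‖(Gm M r z).det‖) ∧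
  ∀ (M n : ℕ) (r : ℝ) (z : Fin n → ℂ), M < n → (Gm M r z).det = 0

/-- Bounds for Gram determinants.

Proof. (a) For `M ≤ n` use `GRM` (4), (3) and that the last factor is at least one. For `M ≥ n` use
`GRM` (6) with `n` and `M` in place of `M, M'` and
`β = n 16^n ∑_{m ∈ Ico 0 M} (4R₀²r²)^m/m! ≤ n 16^n exp(4R₀²r²)` from `INT`, then `GRM` (3).
(b) By (4) we may assume `M ≥ N'`. By `INT` with `N'` in place of `M` (and
`∑_{k<n} ≤ ∑_{k<N'}`), `GRM` (6) gives `‖det Gm M‖ ≤ (1+β)^n ‖det Gm N'‖` with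
`β = n 16^n ∑_{m ≥ N'-n} X^m/m!`, `X = 4R₀²r²`. With `j = N' - n ≥ (R²-α) r² - 1`; take
`R₁² ≥ α + 2α + 32·e·4R₀² + 2` or any large value so that for large `r`: `j ≥ 2n`, `j ≥ 2X` and
`e X / j ≤ 1/32`; then `∑_{m≥j} X^m/m! ≤ 2 X^j/j! ≤ 2 (eX/j)^j ≤ 2·32^(-j)` and
`n β ≤ 2 n² 16^n 32^(-j) ≤ 2 j² 8^(-j) → 0` (as `16^n ≤ 4^j`); so `(1+β)^n ≤ exp(nβ) ≤ 2` for large
`r` (`j → ∞` uniformly). -/
def GBD_Stmt : Prop :=
  (∀ (R₀ r : ℝ) (n M : ℕ) (z : Fin n → ℂ), 1 ≤ R₀ → 0 < r → (∀ i, ‖z i‖ ≤ R₀) →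
    ‖(Gm M r z).det‖ ≤
      vdm z ^ 2 * cst r n * (1 + (n : ℝ) * 16 ^ n * Real.exp (4 * R₀ ^ 2 * r ^ 2)) ^ n) ∧
  ∀ (R₀ α : ℝ), 1 ≤ R₀ → 0 < α → ∃ R₁ : ℝ, 1 ≤ R₁ ∧ α ≤ R₁ ^ 2 ∧ ∀ R : ℝ, R₁ ≤ R →
    ∀ᶠ r : ℝ in atTop, ∀ (n N' M : ℕ) (z : Fin n → ℂ), (∀ i, ‖z i‖ ≤ R₀) →
      (n : ℝ) ≤ α * r ^ 2 → R ^ 2 * r ^ 2 ≤ (N' : ℝ) →
      ‖(Gm M r z).det‖ ≤ 2 * ‖(Gm N' r z).det‖

/-- The mass bound: bounds for tuples of at most `α r^2` points imply the bounds for all tuples.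

Proof. `C` is the constant of `LFA`. Suppose it fails and let `n` be minimal with a tuple
`z ∈ K^n` such that `‖det Gm M r z‖ ∏ exp(-2r²u(z_i)) > exp(v r⁴)`; `n > α r²`, in particular
`n ≥ 4`. The determinant is not zero, so `n ≤ M` (`GRM` (7)) and `vdm z > 0` (`GBD` (a)). Let
`m = ⌊n/2⌋ ≥ 2`, `V = log (vdm z)^2`, `U = ∑ u(z_i)`, `c_m = log cst r m`.
For all `x ∈ K^m`: `(vdm x)² cst r m ∏ exp(-2r²u(x_i)) ≤ ‖det Gm M r x‖ ∏ ... ≤ exp(v r⁴)` by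
minimality and `GRM` (3), (4).  `FEK` with `E = ℂ`, `S = K`, `d = ‖x - y‖`, `ψ = u`,
`κ = r²/(m-1)`, `A = (v r⁴ - c_m)/(m(m-1))` gives
`V - 2r² ((n-1)/(m-1)) U ≤ (v r⁴ - c_m) n(n-1)/(m(m-1))`, that is
`((m-1)/(n-1)) V - 2r² U ≤ (v r⁴ - c_m) n/m`.
On the other hand `v r⁴ + 2r² U < log ‖det Gm M r z‖ ≤ V + c_n + E` with
`E = n log(1 + n 16^n exp(4R₀²r²))` (`GBD` (a)). Together
`(n/m) c_m - c_n - ((n-m)/(n-1)) V - E < v r⁴ (n/m - 1) ≤ 2 v₀ r⁴`.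
Now `V ≤ n(n-1) log(2R₀)`, `c_n = n(n-1) log r - S_n`, `S_n = ∑_{k<n} log k!`, and by `LFA`
`(n/m) c_m - c_n = -n(n-m) log r + S_n - (n/m) S_m
  ≥ n(n-m) (1/2 log(n/r²) - 3/4) - 2 C n (1 + log n)` (use `log m ≤ log n`).
As `n > α r²`, `n - m ≥ n/2`, `E ≤ n (log 2 + log n + n log 16 + 4R₀²r²) ≤ 5 n² + 4 R₀² n²/α`:
for `α` large in terms of `R₀`, `C`, `v₀` the left side is at least `n² ≥ α² r⁴ > 2 v₀ r⁴`
(for `r ≥ 1` say), a contradiction. -/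
def MAS_Stmt : Prop := ∀ (R₀ v₀ : ℝ), 1 ≤ R₀ → 0 < v₀ → ∃ α : ℝ, 0 < α ∧ ∀ᶠ r : ℝ in atTop,
  ∀ (K : Set ℂ) (u : ℂ → ℝ) (M : ℕ) (v : ℝ), (∀ z ∈ K, ‖z‖ ≤ R₀) → 0 ≤ v → v ≤ v₀ →
    (∀ n : ℕ, (n : ℝ) ≤ α * r ^ 2 → BM K M r u n (Real.exp (v * r ^ 4))) →
    ∀ n : ℕ, BM K M r u n (Real.exp (v * r ^ 4))

/-- Filling up with points of the disk.

Proof. Let `L = 2 e N²`. Claim: for every `m ≤ N` and every labelled `m`-tuple `(z, b)`,
`‖det Gm N r z‖ ∏ wt r u (b i) (z i) ≤ B L^(N-m)`; the assertion is the case of constant label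
`true` (`wt = exp(-2r²u)`, `L ≥ 1`). Downward induction from `m = N`, where it is `GRM` (3). For
`m < N`: if the determinant vanishes there is nothing to prove. As `m < N` there is
`x : Fin N → ℂ`, `∑ |x_k|² = 1`, with `∑_k x_k feat r k (z_i) = 0` for all `i`. Let
`Q = ∑ x_k X^k/√k!`, degree `≤ N-1`, `fock (N-1) Q = 1`. By `CAU_Stmt` (`n = N-1`,
`Λ = -log L`) there is `w` with `|w|² ≤ N - 1` and `|Q(w)|² > exp(|w|²)/L` (otherwise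
`fock ≤ e N² / L = 1/2`). Put `y = w/r`, `|y| ≤ T`, label `false`. Then `∑ x_k feat r k y = Q(w)`
and by `GRM` (2) with `p = last` (`Fin.snoc z y`)
`‖det Gm N r (snoc z y)‖ ≥ ‖det Gm N r z‖ exp(|w|²)/L`, and `wt r u false y = exp(-|w|²)`; the
induction hypothesis for the `(m+1)`-tuple gives the claim. -/
def FIL_Stmt : Prop := ∀ (K : Set ℂ) (T r : ℝ) (u : ℂ → ℝ) (N : ℕ) (B : ℝ), 1 ≤ N → 0 < r →
  0 ≤ T → (N : ℝ) - 1 ≤ T ^ 2 * r ^ 2 → 0 ≤ B → BY K T r u N B →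
  ∀ n : ℕ, n ≤ N → BM K N r u n (B * (2 * Real.exp 1 * (N : ℝ) ^ 2) ^ N)

/-- Dropping the points of the disk.

Proof. Claim: for all `m ≤ M` and all labelled `m`-tuples (with any `T`),
`‖det Gm M r z‖ ∏ wt ≤ B`. Induction on the number of labels `false` (or on `m`): if all labels are
`true` this is the hypothesis. Otherwise let `b p = false`; by `GRM` (1) the left side is at most
the left side for the `(m-1)`-tuple without `p`, because `wt r u false (z p) exp(r²|z_p|²) = 1`.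
For `m = M` use `GRM` (3). -/
def DRP_Stmt : Prop := ∀ (K : Set ℂ) (T r : ℝ) (u : ℂ → ℝ) (M : ℕ) (B : ℝ),
  (∀ n : ℕ, n ≤ M → BM K M r u n B) → BY K T r u M B

/-- Transfer to larger scales.

Proof. `α` from `MAS` for `(R₀, v₀ + ε)`, `R₁` from `GBD` (b) for `(R₀, α)`, `R = max R₀ R₁`.
Let `r` be large (how large depends on `R₀, v₀, ε, R` only), `N = ⌊R²r²⌋ + 2`,
`κ = r²/(N-1) ≤ 1/R²`. Let `Ψ' ≥ |u|` on `K`, `Ψ' ≥ 2R²`, and
`A = (v r⁴ - log cst r N)/(N(N-1))`. Use `FEK` with `E = ℂ × Bool`, `S` the labelled points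
(`K`, `T = 2R`), `d = ‖x.1 - y.1‖`, `ψ(z,true) = u z`, `ψ(z,false) = |z|²/2` (so
`wt r u b z = exp(-2r²ψ)`, `κ(N-1) = r²`).
Let `r'` be large, `N' = ⌈r'²/κ⌉ + 1`, `s' = κ(N'-1) ∈ [r'², r'² + κ)`. Then `N' ≥ N`,
`R²r'² ≤ N'`, `N' - 1 ≤ 4R²r'²`, and for labelled `N'`-tuples
`(vdm)² ∏ exp(-2s'ψ) ≤ exp(A N'(N'-1))`, so
`(vdm)² cst r' N' ∏ wt r' u ≤ exp(A N'(N'-1) + log cst r' N' + 2κN'Ψ')`.
With `log cst r N = N(N-1) log r - S_N` and `LFA`: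
`log cst r N/(N(N-1)) ≥ log r - 1/2 log N + 3/4 - C'(1+log N)/N` and the reverse inequality for
`r', N'`. Since `r²/(N-1) = κ ≥ r'²/(N'-1)`, i.e. `log r' - 1/2 log(N'-1) ≤ log r - 1/2 log(N-1)`,
the difference `log cst r' N'/(N'(N'-1)) - log cst r N/(N(N-1))` is at most `C''(1+log N)/N`
(for `N' ≥ N`). Moreover `N'(N'-1)/(N(N-1)) ≤ (r'²/r² + 2)²`. Hence the exponent is at most
`v r⁴ (r'²/r²+2)² + C''(1+log N)/N · N'² + 2κN'Ψ' ≤ (v + ε/2) r'⁴` if first `r` is large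
(`N'² ≤ 16 R⁴ r'⁴`, `C'' 16 R⁴ (1+log N)/N ≤ ε/8`) and then `r'` is large.
By `FIL` (`T = 2R`) `BM K N' r' u n` holds with `exp((v+ε/2) r'⁴) (2eN'²)^N'` for `n ≤ N'`, and by
`GBD` (b) `BM K M r' u n` holds with twice that for all `M` and `n ≤ α r'²`; this is
`≤ exp((v+ε) r'⁴)` for `r'` large. By `MAS` it holds for all `n` and all `M`; let `M → ∞`
(`GRM` (5)). -/
def SCA_Stmt : Prop := ∀ (R₀ v₀ ε : ℝ), 1 ≤ R₀ → 0 < v₀ → 0 < ε → ∃ R : ℝ, R₀ ≤ R ∧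
  ∀ᶠ r : ℝ in atTop, ∀ (K : Set ℂ) (u : ℂ → ℝ) (v : ℝ), (∀ z ∈ K, ‖z‖ ≤ R₀) →
    (∃ Ψ : ℝ, ∀ z ∈ K, |u z| ≤ Ψ) → 0 ≤ v → v ≤ v₀ →
    BY K (2 * R) r u (⌊R ^ 2 * r ^ 2⌋₊ + 2) (Real.exp (v * r ^ 4)) →
    ∀ᶠ r' : ℝ in atTop, ∀ n : ℕ, BF K r' u n (Real.exp ((v + ε) * r' ^ 4))

/-! ### Part B: lower bounds for the hole probability -/

/-- The finite lower bound for the hole probability.

Proof. By compactness (for each of the finitely many label functions the set of tuples is compact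
and the functional is continuous there) there is a labelled `(n+1)`-tuple `(z_j, b_j)` for which
`(vdm)² cst ∏ wt` is maximal among the labelled `(n+1)`-tuples (`K`, `T`), and the maximum is
positive, because the disk of radius `T > 0` contains `n+1` distinct points. Let `ψ_j = u(z_j)` or
`|z_j|²/2` according to the label, and similarly `ψ(y)` for a labelled point. Let
`ℓ_j(z) = ∏_{i≠j} (z - z_i)/(z_j - z_i)`. Replacing the `j`-th point by a labelled point `y` over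
`z` multiplies the functional by `|ℓ_j(z)|² exp(-2r²(ψ(y) - ψ_j))`, so
`|ℓ_j(z)| ≤ exp(r²(ψ(y) - ψ_j))`: i.e. `|ℓ_j(z)| ≤ exp(r²(u(z) - ψ_j))` for `z ∈ K` and
`≤ exp(r²(|z|²/2 - ψ_j))` for `|z| ≤ T`.
For `x : Fin (n+1) → ℂ` let `p_x(z) = ∑ x_k feat r k z`, a polynomial of degree `≤ n`, equal to
`∑_j p_x(z_j) ℓ_j(z)`. Let `δ_j = exp(r²ψ_j)/(7(n+1)²)` and
`S = {x | |p_x(z_j)| ≤ δ_j for all j}`. For `x ∈ S`: `|p_x(z)| ≤ exp(r²u(z))/(7(n+1))` on `K` and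
`≤ exp(r²|z|²/2)/(7(n+1))` for `|z| ≤ T`; the polynomial `Q_x = ∑ x_k X^k/√k!` (so
`p_x(z) = Q_x(r z)`) satisfies `|Q_x(w)|² ≤ exp(Λ + |w|²)` for `|w|² ≤ n ≤ T²r²`,
`Λ = -log(49(n+1)²)`, and `CAU_Stmt` gives `∑|x_k|² = fock n Q_x ≤ e/49 ≤ 1/16`. The map
`x ↦ (p_x(z_j))_j` is linear with matrix `Φ = (feat r k (z_j))`, `|det Φ|² = (vdm)² cst r (n+1)`,
hence `vol S = ∏ (π δ_j²)/|det Φ|²` (`RJC_Stmt`, or `Pool/Agent/GH/POLV.lean`).
Let `x_q(k) = √k! q.coeff k`, `∑|x_q|² = fock n q ≤ 1/16`, so `∑ |x_q + x|² ≤ 1/4 ≤ 1` on `S`.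
If `(ξ_0,...,ξ_n) ∈ x_q + S` and `|ξ_k| ≤ k` for `k > n`, then for `z ∈ K`
`gef(r z) = q(rz) + p_x(z) + ∑_{k>n} ξ_k (rz)^k/√k!` is not zero as
`|p_x(z)| ≤ |q(rz)|/14` and the tail is less than `|q(rz)|/2`. By `INDT_Stmt` and `GDENS_Stmt`
`holeP ≥ (1/2) e^{-1} π^{-(n+1)} vol S = (1/2)e^{-1} ∏ δ_j²/((vdm)² cst)
= (1/2) e^{-1} (49(n+1)^4)^{-(n+1)} / ((vdm)² cst ∏ wt) ≥ ...`.
(`∑'` of the tail: summable by `TAILE`-like estimates, see `Pool/Agent/GH/HOLEPT.lean`, which has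
the same final step.) -/
def HOF_Stmt : Prop := ∀ {Ω : Type u} [MeasurableSpace Ω] (P : Measure Ω) (ξ : ℕ → Ω → ℂ),
  IsGauss P ξ → ∀ (K : Set ℂ) (n : ℕ) (r T B : ℝ) (u : ℂ → ℝ) (q : Polynomial ℂ), IsCompact K →
    1 ≤ n → 0 < r → 0 < T → (n : ℝ) ≤ T ^ 2 * r ^ 2 → ContinuousOn u K → q.natDegree ≤ n →
    fock n q ≤ 1 / 16 → 0 < B → BY K T r u (n + 1) B →
    (∀ x ∈ K, Real.exp (r ^ 2 * u x) ≤ ‖q.eval ((r : ℂ) * x)‖) →
    (∀ x ∈ K, (∑' k : ℕ, (if n < k then (k : ℝ) * (r * ‖x‖) ^ k / Real.sqrt (k.factorial : ℝ)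
      else 0)) < 1 / 2 * ‖q.eval ((r : ℂ) * x)‖) →
    1 / 2 * Real.exp (-1) * ((1 / (49 * ((n : ℝ) + 1) ^ 4)) ^ (n + 1) / B) ≤ holeP P ξ K r

/-- Taylor polynomials of functions bounded by the Gaussian weight.

Proof. Let `c_j` be the Taylor coefficients of `G` at `0`, `q = ∑_{j ≤ n} c_j X^j`. Cauchy's
estimate on the circle of radius `√j` gives `|c_j| ≤ s exp(j/2) j^{-j/2}` for `j ≥ 1`, and
`|c_0| ≤ s`. As `j! ≤ e √j (j/e)^j` (`j ≥ 1`; any bound `j! ≤ C (j+1) (j/e)^j` would do, e.g.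
`j! ≤ e j (j/e)^j`), `j! |c_j|² ≤ s² e (j+1)` and `|c_j| √j! ≤ s √(e j) ≤ 2 s j` for `j ≥ 1`. Sum
up: `fock n q ≤ s² e (n+1)²`, and `|G(w) - q(w)| ≤ ∑_{j>n} |c_j| |w|^j
≤ 2 s ∑_{j>n} j |w|^j/√j!`. -/
def TAY_Stmt : Prop := ∀ (G : ℂ → ℂ) (s : ℝ) (n : ℕ), Differentiable ℂ G → 0 ≤ s →
  (∀ w, ‖G w‖ ≤ s * Real.exp (‖w‖ ^ 2 / 2)) → ∃ q : Polynomial ℂ, q.natDegree ≤ n ∧
    fock n q ≤ s ^ 2 * Real.exp 1 * ((n : ℝ) + 1) ^ 2 ∧
    ∀ w, ‖G w - q.eval w‖ ≤ 2 * s *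
      ∑' k : ℕ, (if n < k then (k : ℝ) * ‖w‖ ^ k / Real.sqrt (k.factorial : ℝ) else 0)

/-- A good exponent gives lower bounds for the hole probability.

Proof. Let `m, g` be as in `Good K c`, `c ≥ 0` (take `n = 0` in `Good`: `1 ≤ exp(c r⁴)`), `ε > 0`.
If `K` is empty `holeP = 1`. Let `R₀ ≥ 1` with `K` in the disk of radius `R₀`,
`u = (1/m) log|g|`, continuous on `K`, `|u| ≤ Ψ` on `K`. Let `α` be given by `MAS` for
`(R₀, c + 1)`, `ε₁ = min(1, ε/2)/(4α + 4)`, `v = c + 4 ε₁ α ≤ c + 1`. `TAILE` with `R = R₀`,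
`W = Ψ + 4` gives `A ≥ 1`; put `T = √A`, `n = ⌊A r²⌋`, `r` large.
(i) For `n' ≤ α r²`, `z ∈ K^n'`:
`‖det Gm (n+1) r z‖ ∏ exp(-2r²(u(z_i) - 2ε₁)) ≤ ‖det Kf‖ ∏ |g(z_i)|^(-2r²/m) exp(4ε₁r²n')
≤ exp(v r⁴)` by `GRM` (5). By `MAS` (with `M = n+1`, `u - 2ε₁`) the same holds for all `n'`, and
by `DRP` `BY K T r (u - 2ε₁) (n+1) (exp(v r⁴))`.
(ii) `k = ⌊r²/m⌋`, `G(w) = exp(-ε₁r²) g(w/r)^k`, `|G(w)| ≤ exp(-ε₁r²) exp(|w|²/2)` as
`k m ≤ r²`. `TAY` gives `q` with `fock n q ≤ exp(-2ε₁r²) e (n+1)² ≤ 1/16` and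
`|G(rx) - q(rx)| ≤ 2 exp(-W r²)` on `K` (`|rx| ≤ r R₀`). On `K`:
`|G(rx)| = exp(-ε₁r² + k m u(x)) ≥ exp(r²(u(x) - ε₁) - mΨ) ≥ 2 exp(r²(u(x) - 2ε₁))` for `r` large
(`k m > r² - m`), and `2exp(-Wr²) ≤ |G(rx)|/4` for `r` large, so `|q(rx)| ≥ exp(r²(u(x)-2ε₁))`, and
the tail sum of `TAILE`, at most `exp(-W r²)`, is less than `|q(rx)|/2`.
(iii) `HOF` with `u - 2ε₁`, `B = exp(v r⁴)`:
`holeP ≥ (1/2)e^{-1} (49(n+1)^4)^{-(n+1)} exp(-v r⁴) ≥ exp(-(c+ε) r⁴)` for `r` large, because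
`(n+1) log(49(n+1)^4) = O(r² log r)` and `v ≤ c + ε/2`. -/
def UPC_Stmt : Prop := ∀ {Ω : Type u} [MeasurableSpace Ω] (P : Measure Ω) (ξ : ℕ → Ω → ℂ),
  IsGauss P ξ → ∀ (K : Set ℂ) (c : ℝ), IsCompact K → Good K c → HoleLB P ξ K c

/-! ### Part C: the minimax argument -/

/-- Andréief's identity.

Proof. Expand the square of the modulus of the determinant with two sums over permutations
(`Matrix.det_apply`), integrate term by term with Fubini for products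
(`MeasureTheory.integral_fintype_prod_eq_prod` or similar):
`∫ ∏_j φ_{σ j}(x_j) conj φ_{τ j}(x_j) w(x_j) = ∏_j G_{σ j, τ j}`, and
`∑_{σ,τ} sgn σ sgn τ ∏_j G_{σ j,τ j} = N! det G`. All functions are bounded and measurable and the
measure is finite. -/
def AND_Stmt : Prop := ∀ (Y : Type) [MeasurableSpace Y] (μ : Measure Y) [IsFiniteMeasure μ]
  (N : ℕ) (φ : Fin N → Y → ℂ) (w : Y → ℝ) (C : ℝ), (∀ k, Measurable (φ k)) → Measurable w →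
  (∀ k y, ‖φ k y‖ ≤ C) → (∀ y, 0 ≤ w y ∧ w y ≤ C) →
  (Matrix.of fun k l : Fin N => ∫ y, φ k y * (starRingEnd ℂ) (φ l y) * (w y : ℂ) ∂μ).det =
    (((1 / (N.factorial : ℝ)) * ∫ x : Fin N → Y,
      ‖(Matrix.of fun j k : Fin N => φ k (x j)).det‖ ^ 2 * ∏ j, w (x j)
        ∂(Measure.pi fun _ => μ) : ℝ) : ℂ)

/-- Properties of `DD`: weak continuity, logarithmic concavity in the measure, logarithmic
convexity in the exponent, common zeros.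

Proof. (1) Each entry `a ↦ ∫ φ_k conj(φ_l) e^{-ψ} da` is continuous for the weak topology (real and
imaginary parts are bounded continuous functions;
`ProbabilityMeasure.tendsto_iff_forall_integral_tendsto`). (2) The matrices are positive
semidefinite, and depend affinely on the measure: `PSD_Stmt` (2). (3) `AND_Stmt` and Hölder's
inequality (finite product form, `ENNReal.lintegral_prod_norm_pow_le`, or induction with two
factors): `∏_j exp(-∑_i t_i ψ_i(x_j)) = ∏_i (∏_j exp(-ψ_i(x_j)))^{t_i}`. (4) By `AND_Stmt`,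
`DD a φ ψ = 0` iff the determinant of `(φ_k(x_j))` vanishes almost everywhere, a condition without
`ψ` (the weights are positive). -/
def DDP_Stmt : Prop := ∀ (Y : Type) [TopologicalSpace Y] [CompactSpace Y] [T2Space Y]
  [MeasurableSpace Y] [BorelSpace Y] (N : ℕ) (φ : Fin N → Y → ℂ), (∀ k, Continuous (φ k)) →
  (∀ ψ : Y → ℝ, Continuous ψ →
    Continuous (fun a : ProbabilityMeasure Y => DD (a : Measure Y) φ ψ)) ∧
  (∀ (ψ : Y → ℝ) (a b c : ProbabilityMeasure Y) (t : ℝ), Continuous ψ → 0 ≤ t → t ≤ 1 →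
    (c : Measure Y) = ENNReal.ofReal t • (a : Measure Y) +
      ENNReal.ofReal (1 - t) • (b : Measure Y) →
    DD (a : Measure Y) φ ψ ^ t * DD (b : Measure Y) φ ψ ^ (1 - t) ≤ DD (c : Measure Y) φ ψ) ∧
  (∀ (m : ℕ) (ψ : Fin m → Y → ℝ) (t : Fin m → ℝ) (a : ProbabilityMeasure Y),
    (∀ i, Continuous (ψ i)) → (∀ i, 0 ≤ t i) → ∑ i, t i = 1 →
    DD (a : Measure Y) φ (fun y => ∑ i, t i * ψ i y) ≤ ∏ i, DD (a : Measure Y) φ (ψ i) ^ t i) ∧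
  ∀ (ψ ψ' : Y → ℝ) (a : ProbabilityMeasure Y), Continuous ψ → Continuous ψ' →
    DD (a : Measure Y) φ ψ = 0 → DD (a : Measure Y) φ ψ' = 0

/-- The minimax theorem.

Proof. The sets `{a | DD a φ ψ < B}`, `ψ ∈ C`, are open (`DDP` (1)) and cover the compact space of
probability measures (`CompactSpace (ProbabilityMeasure Y)`), so finitely many
`ψ_1, ..., ψ_m ∈ C` suffice (`m ≥ 1`, adding an element of `C` if necessary). Let
`X = {x : Fin m → ℝ | ∃ a, (∀ i, 0 < DD a φ ψ_i) ∧ ∀ i, x_i ≤ log DD a φ ψ_i}` and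
`O = {x | ∀ i, log B < x_i}`. `X` is convex by `DDP` (2) (the convex combination of two probability
measures is one), `O` is open and convex, and they are disjoint. If `X` is empty then
`DD a φ ψ_1 = 0 ≤ B` for all `a` by `DDP` (4). Otherwise `geometric_hahn_banach_open` gives a linear
form `x ↦ ∑ s_i x_i`, not zero, and a number `q` with `∑ s_i x_i ≤ q` on `X` and
`q ≤ ∑ s_i x_i` on `O` (up to the sign); `O` contains with `x` all larger vectors, so `s_i ≥ 0`,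
and normalising `∑ s_i = 1`. Letting `x → (log B, ..., log B)` in `O`: `q ≤ log B`... (so on `X`
`∑ s_i x_i ≤ log B`). Put `ψ = ∑ s_i ψ_i ∈ C`. For every `a`: if all `DD a φ ψ_i > 0` then
`DD a φ ψ ≤ ∏ (DD a φ ψ_i)^{s_i} ≤ B` by `DDP` (3); otherwise `DD a φ ψ = 0` by `DDP` (4). -/
def MMX_Stmt : Prop := ∀ (Y : Type) [TopologicalSpace Y] [CompactSpace Y] [T2Space Y]
  [MeasurableSpace Y] [BorelSpace Y] (N : ℕ) (φ : Fin N → Y → ℂ) (C : Set (Y → ℝ)) (B : ℝ),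
  (∀ k, Continuous (φ k)) → Convex ℝ C → C.Nonempty → (∀ ψ ∈ C, Continuous ψ) → 0 < B →
  (∀ a : ProbabilityMeasure Y, ∃ ψ ∈ C, DD (a : Measure Y) φ ψ < B) →
  ∃ ψ ∈ C, ∀ a : ProbabilityMeasure Y, DD (a : Measure Y) φ ψ ≤ B

/-- Expectation of a product of functions of the values of a Taylor polynomial of the Gaussian
entire function at `N` points.

Proof. The same as for `FIN_Stmt` (`Pool/Agent/HA/FIN.lean`) with `n0 = 0`, `k = N`, and the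
functions `hh η R` replaced by arbitrary measurable functions: condition on `ξ_N, ..., ξ_{M-1}`,
change variables with `RJC_Stmt`, and bound the Gaussian density by `π^{-N}`. -/
def NEG_Stmt : Prop := ∀ {Ω : Type u} [MeasurableSpace Ω] (P : Measure Ω) (ξ : ℕ → Ω → ℂ),
  IsGauss P ξ → ∀ (N M : ℕ) (w : Fin N → ℂ) (h : Fin N → ℂ → ENNReal), N ≤ M →
    (∀ j, Measurable (h j)) → (VM 0 N w).det ≠ 0 →
    ∫⁻ ω, ∏ j, h j (serN (co ξ ω) M (w j)) ∂P ≤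
      ENNReal.ofReal (1 / ‖(VM 0 N w).det‖ ^ 2) *
        ∏ j, (ENNReal.ofReal (1 / Real.pi) * ∫⁻ v, h j v)

/-- Upper bound for the hole probability from a measure on the disjoint union.

Proof. Let `Y = YY K T`, `φ = fY r N`, `Hbad = {ω | ¬ ∀ n, |ξ_n| ≤ H(n+1)}`,
`P(Hbad) ≤ 2exp(-H²)` by `TLP_Stmt`. Let `E` be the event of the hole without `Hbad`. For `ω ∈ E`
the function `g_ω(z) = gef ξ ω (r z) = ser (co ξ ω) (r z)` lies in `Cl K ρ τ` (growth hypothesis,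
limit `M → ∞`), so `D ≤ DD a φ (psi r ((2-η) log|g_ω|))`. By `AND_Stmt` (on `K` the weight
`|g_ω|^(-(2-η))` is continuous and bounded)
`N! D ≤ ∫_{Y^N} |det(feat r k (pt y_j))|² ∏_j w_ω(y_j) da^N`, with `w_ω(y) = |g_ω(z)|^(-(2-η))` on
`K` and `exp(-r²|z|²)` on the disk.
For a labelled point `y` over `z` let `h_y : ℂ → [0,∞]`, `h_y = hh η B_K` for `y ∈ K`,
`B_K = exp(ρ + τ R₀²)`, and `h_y(v) = exp(-r²|z|²) 1[|v| ≤ exp(ρ + τ|z|²)]` for `y` in the disk.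
Let `Q_M(ω) = ∫ |det|² ∏_j h_{y_j}(serN (co ξ ω) M (r pt y_j)) da^N`. For `ω ∈ E` and every `y`,
`h_y(serN_M) → w_ω(y)` as `M → ∞` (on `K`: `|serN_M| ≤ B_K` for all `M`, and the limit `g_ω(z)` is
not zero, so `|serN_M|^(η-2) → |g_ω|^(η-2)`; on the disk it is constant in `M`), hence by Fatou
`N! D ≤ liminf_M Q_M(ω)` on `E`. By Tonelli and `NEG_Stmt` (`w_j = r pt y_j`, note
`VM 0 N w = (feat r k (pt y_j))_{j,k}`; where the determinant vanishes the integrand is zero)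
`E[Q_M] ≤ ∏_j sup_y (1/π) ∫ h_y ≤ C₃^N` with
`C₃ = max(2 exp(η(ρ+τR₀²))/η, exp(2ρ + max(2τ - r², 0) T²))`: by `HIN_Stmt` the integral of
`hh η B/π` is `2B^η/η`, and `(1/π)·π exp(2ρ+2τ|z|²)·exp(-r²|z|²)` for the disk. By Fatou again
`P(E) N! D ≤ E[liminf Q_M] ≤ C₃^N` (if `E` is not measurable use the outer measure:
`P(E) ≤ P{liminf Q_M ≥ N! D}`).
Joint measurability of `(ω, y) ↦ h_y(serN (co ξ ω) M (r pt y))`: `serN` is a finite sum of products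
of measurable functions; `h` is a measurable function of `(y, v)`. -/
def LWA_Stmt : Prop := ∀ {Ω : Type u} [MeasurableSpace Ω] (P : Measure Ω) (ξ : ℕ → Ω → ℂ),
  IsGauss P ξ → ∀ (K : Set ℂ) (R₀ T r H η ρ τ D : ℝ) (N : ℕ) (a : Measure (YY K T)),
    IsProbabilityMeasure a → IsCompact K → (∀ z ∈ K, ‖z‖ ≤ R₀) → 0 ≤ R₀ → 0 ≤ T → 0 < r →
    1 ≤ H → 0 < η → η < 2 → 0 ≤ ρ → 0 ≤ τ →
    (∀ x : ℕ → ℂ, (∀ n : ℕ, ‖x n‖ ≤ H * ((n : ℝ) + 1)) → Differentiable ℂ (ser x) ∧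
      (∀ w, Tendsto (fun M => serN x M w) atTop (𝓝 (ser x w))) ∧
      ∀ w M, ‖serN x M w‖ ≤ Real.exp (ρ + τ / r ^ 2 * ‖w‖ ^ 2)) →
    0 < D → (∀ g ∈ Cl K ρ τ, D ≤ DD a (fY r N) (psi r (fun z => (2 - η) * Real.log ‖g z‖))) →
    holeP P ξ K r ≤ 2 * Real.exp (-H ^ 2) + 1 / D * (1 / (N.factorial : ℝ)) *
      (max (2 * Real.exp (η * (ρ + τ * R₀ ^ 2)) / η)
        (Real.exp (2 * ρ + max (2 * τ - r ^ 2) 0 * T ^ 2))) ^ N

/-- The function found by the minimax argument.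

Proof. `N = ⌊R²r²⌋ + 2`, `T = 2R`. Choose `ε₀ ∈ (0, ε]` and `η ∈ (0,1)` small (in terms of
`R, R₀, ε`), `L = √(Q+2)`, `H = L r²`, `ρ = ε₀ r²`, `τ = (1/2 + ε₀) r²`. `GRO_Stmt` with
`δ = ε₀` gives `C`; for `r` large `log H + C ≤ ε₀ r²`, so the growth hypothesis of `LWA` holds
(`τ/r² = 1/2 + ε₀`). Let `C₃` be as in `LWA`:
`log C₃ ≤ max(log(2/η) + η r²(ε₀ + (1/2+ε₀)R₀²), 2ε₀ r²(1 + T²))`, and
`N log C₃ ≤ (ε/2) r⁴` for `r` large by the choice of `ε₀, η`.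
Let `C = {psi r v | v ∈ convexHull ℝ {fun z => 2 log|g z| | g ∈ Cl K ρ τ}}`, a convex set of
continuous functions on `YY K T` (continuity: `g` has no zeros on `K`), not empty (`g = 1`).
`B = (4/holeP) (1/N!) C₃^N`. If for some probability measure `a` all `ψ ∈ C` had
`DD a (fY r N) ψ ≥ B`, then, since `(2-η) log|g| = (1-η/2) 2log|g| + (η/2) 2log|1|`, `LWA` with
`D = B` would give `holeP ≤ 2exp(-H²) + holeP/4 ≤ holeP/2` for `r` large (`H² = (Q+2) r⁴`,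
`holeP ≥ exp(-Q r⁴)`), absurd. So `MMX` applies: there is `v` in the convex hull with
`DD a (fY r N) (psi r v) ≤ B` for all `a`. Write `v = ∑ t_i 2 log|g_i|` and `u = v/(2r²)`.
For labelled points `y_1..y_N` (elements of `YY K T`) let `a = (1/N) ∑ δ_{y_j}`. The matrix is
`(1/N) ∑_j e^{-ψ(y_j)} φ(y_j) φ(y_j)^*`, its determinant has modulus
`N^{-N} |det(feat r k (z_j))|² ∏ e^{-ψ(y_j)} = N^{-N} (vdm)² cst r N ∏ wt r u (b_j) (z_j)`.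
So `(vdm)² cst ∏ wt ≤ N^N B = (4/holeP) (N^N/N!) C₃^N ≤ (4/holeP) e^N C₃^N ≤ exp(ε r⁴)/holeP`. -/
def LOW_Stmt : Prop := ∀ {Ω : Type u} [MeasurableSpace Ω] (P : Measure Ω) (ξ : ℕ → Ω → ℂ),
  IsGauss P ξ → ∀ (K : Set ℂ) (R₀ Q R ε : ℝ), IsCompact K → 1 ≤ R₀ → (∀ z ∈ K, ‖z‖ ≤ R₀) →
    0 < Q → R₀ ≤ R → 0 < ε → ∀ᶠ r : ℝ in atTop, Real.exp (-(Q * r ^ 4)) ≤ holeP P ξ K r →
      ∃ (m : ℕ) (t : Fin m → ℝ) (g : Fin m → ℂ → ℂ), (∀ i, 0 ≤ t i) ∧ ∑ i, t i = 1 ∧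
        (∀ i, g i ∈ Cl K (ε * r ^ 2) ((1 / 2 + ε) * r ^ 2)) ∧
        BY K (2 * R) r (fun z => (∑ i, t i * Real.log ‖g i z‖) / r ^ 2)
          (⌊R ^ 2 * r ^ 2⌋₊ + 2) (Real.exp (ε * r ^ 4) / holeP P ξ K r)

/-! ### Part D: the exponent -/

/-- Products of powers.

Proof. For a large natural number `m` let `k_i = ⌊t_i m/((1+2ε) r²)⌋` and
`g = exp(-ε m) ∏ g_i^{k_i}`. As `∑ k_i (1+2ε) r² ≤ m`,
`|g(z)| ≤ exp(-εm + (∑k_i)(ε r² + (1/2+ε) r²|z|²)) ≤ exp(m|z|²/2)`; `g` is entire without zeros on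
`K`. On `K` let `u* = (∑ t_i log|g_i|)/r²`; `u* ≤ ε + (1/2+ε) R₀²`. With `|log|g_i|| ≤ Λ` on `K`
(compactness), `log|g| ≥ -εm + (m/(1+2ε)) u* - (number of i) Λ`, and
`u*/(1+2ε) ≥ u* - 2ε max(u*,0) ≥ u* - 2ε(ε + (1/2+ε)R₀²)`. So `(1/m) log|g| ≥ u* - 4ε(1+R₀²)` for
`m` large (`ε ≤ 1/2`). -/
def PRW_Stmt : Prop := ∀ (K : Set ℂ) (R₀ r ε : ℝ) (n : ℕ) (t : Fin n → ℝ) (g : Fin n → ℂ → ℂ),
  IsCompact K → 1 ≤ R₀ → (∀ z ∈ K, ‖z‖ ≤ R₀) → 0 < r → 0 < ε → ε ≤ 1 / 2 → (∀ i, 0 ≤ t i) →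
  ∑ i, t i = 1 → (∀ i, g i ∈ Cl K (ε * r ^ 2) ((1 / 2 + ε) * r ^ 2)) →
  ∃ (m : ℕ) (h : ℂ → ℂ), 1 ≤ m ∧ Hol K m h ∧ ∀ z ∈ K,
    (∑ i, t i * Real.log ‖g i z‖) / r ^ 2 - 4 * ε * (1 + R₀ ^ 2) ≤ Real.log ‖h z‖ / m

/-- The hole probability gives good exponents.

Proof. `K` in the disk of radius `R₀ ≥ 1`; we may assume `Q > 0`, `ε ≤ 1`. `SCA` for
`(R₀, Q + 1, ε/3)` gives `R`. Let `ε₁ ≤ 1/2` be small, `ε₂ = 4ε₁(1+R₀²)`,
`ε₁ + 4ε₂R² ≤ ε/3`. Let `r` be large and `p = -log holeP ≤ Q r⁴`. `LOW` (with `ε₁`) gives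
`t_i, g_i`; let `u* = (∑ t_i log|g_i|)/r²` and `u = u* - ε₂`. Then `BY K (2R) r u N` holds with
`exp(ε₁r⁴) e^p exp(2r²ε₂N) ≤ exp(v r⁴)`, `v = p/r⁴ + ε₁ + 4ε₂R² ≤ Q + 1` (`N ≤ 2R²r²`; each weight
changes at most by the factor `exp(2r²ε₂)`; `v ≥ 0` because `holeP ≤ 1`). `SCA` gives for all large
`r'` and all `n`: `BF K r' u n (exp((v + ε/3) r'⁴))`. `PRW` gives `m, h` with `Hol K m h` and
`(1/m) log|h| ≥ u` on `K`; so `∏ |h(z_i)|^(-2r'²/m) ≤ ∏ exp(-2r'²u(z_i))`, hence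
`Good K (v + ε/3)`, and `Good` is monotone in the exponent. -/
def ADM_Stmt : Prop := ∀ {Ω : Type u} [MeasurableSpace Ω] (P : Measure Ω) (ξ : ℕ → Ω → ℂ),
  IsGauss P ξ → ∀ (K : Set ℂ) (Q : ℝ), IsCompact K →
    (∀ᶠ r : ℝ in atTop, Real.exp (-(Q * r ^ 4)) ≤ holeP P ξ K r) → ∀ ε : ℝ, 0 < ε →
      ∀ᶠ r : ℝ in atTop, Good K (-Real.log (holeP P ξ K r) / r ^ 4 + ε)

/-- Lower bound by the disks contained in `K`.

Proof. Let `m, g` be as in `Good K c`. `log|g|` is harmonic in a neighbourhood of the closed disk,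
so its average over the circle `|z - a| = ρ` is `log|g(a)| ≤ m|a|²/2`. For `n ≥ 2` and a real `θ`
let `z_j = a + ρ e^{iθ} ω^j`, `ω = e^{2πi/n}`. The average over `θ` of `∑_j log|g(z_j)|` is
`n log|g(a)|`, so for some `θ` `∑_j log|g(z_j)| ≤ n m |a|²/2`, i.e.
`∏ |g(z_j)|^(-2r²/m) ≥ exp(-r²n|a|²)`. With `z_j = a + w_j`, `∑ w_j = 0`:
`exp(r² z_i conj(z_j)) = e_i · exp(r² w_i conj(w_j)) · conj(e_j)`, `e_i = exp(r²(|a|²/2 + w_i conj a))`,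
`∏ |e_i|² = exp(r² n |a|²)`, so `|det Kf r z| = exp(r²n|a|²) |det Kf r w| ≥ exp(r²n|a|²) (vdm w)² cst r n`
by `GRM` (5), (3); `(vdm w)² = (n ρ^(n-1))^n` (`ROU_Stmt` gives it for one rotation; `vdm` is
rotation invariant). Hence `(n ρ^(n-1))^n cst r n ≤ exp(c r⁴)` for all large `r` and all `n ≥ 2`.
Take `n = ⌊e ρ² r²⌋`: by `LFA` the logarithm of the left side is
`n² (1/2 log(ρ²r²/n) + 3/4) + O(n log n) = (e²/4 + o(1)) ρ⁴ r⁴`. -/
def INR_Stmt : Prop := ∀ (K : Set ℂ) (c : ℝ), Good K c → ∀ (a : ℂ) (ρ : ℝ), 0 < ρ →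
  Metric.closedBall a ρ ⊆ K → Real.exp 2 / 4 * ρ ^ 4 ≤ c

/-- The capacity of a closed disk.

Proof. `ρ ≤ cap` from `CAPA_Stmt`; `vdm` of `n` points of the disk is at most `n^(n/2) ρ^(n(n-1)/2)`
by Hadamard's inequality (`Pool/Agent/HA/CPA.lean`, `vdm_le`, after a translation). -/
def CPD_Stmt : Prop := ∀ (a : ℂ) (ρ : ℝ), 0 < ρ → cap (Metric.closedBall a ρ) = ρ

end Pool.Agent.HX
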