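import Mathlib
import Pool.Agent.HX.Stmts

/-!
# LWA: upper bound for the hole probability from a measure on the disjoint union
-/

namespace Pool.Agent.HX

open MeasureTheory ProbabilityTheory Filter Topology Pool.Agent.GH Pool.Agent.HA

universe u

namespace LWA

variable {K : Set ℂ} {T : ℝ}

theorem measurable_pt : Measurable (pt : YY K T → ℂ) := by
  unfold pt
  exact measurable_subtype_coe.sumElim measurable_subtype_coe

theorem continuous_feat (r : ℝ) (k : ℕ) : Continuous (feat r k) := by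
  unfold feat
  fun_prop

theorem measurable_fY (r : ℝ) (N : ℕ) (k : Fin N) : Measurable (fY (K := K) (T := T) r N k) := by
  unfold fY
  exact (continuous_feat r k).measurable.comp measurable_pt

/-- The function lies in the class. -/
theorem mem_Cl {r ρ τ : ℝ} (hr : 0 < r) {x : ℕ → ℂ} (hd : Differentiable ℂ (ser x))
    (hl : ∀ w, Tendsto (fun M => serN x M w) atTop (𝓝 (ser x w)))
    (hb : ∀ w M, ‖serN x M w‖ ≤ Real.exp (ρ + τ / r ^ 2 * ‖w‖ ^ 2))
    (hne : ∀ z ∈ K, ser x ((r : ℂ) * z) ≠ 0) :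
    (fun z => ser x ((r : ℂ) * z)) ∈ Cl K ρ τ := by
  refine ⟨?_, hne, ?_⟩
  · exact hd.comp (by fun_prop)
  · intro z
    have h1 := (hl ((r : ℂ) * z)).norm
    have h2 := le_of_tendsto h1 (Eventually.of_forall fun M => hb ((r : ℂ) * z) M)
    refine h2.trans (le_of_eq ?_)
    congr 2
    rw [norm_mul, Complex.norm_real, Real.norm_eq_abs, abs_of_pos hr]
    field_simp

/-- The determinant of the functions at the points. -/
noncomputable def dt (r : ℝ) (N : ℕ) (x : Fin N → YY K T) : ℝ :=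
  ‖(Matrix.of fun j k : Fin N => fY (K := K) (T := T) r N k (x j)).det‖ ^ 2

theorem dt_nonneg (r : ℝ) (N : ℕ) (x : Fin N → YY K T) : 0 ≤ dt r N x := by
  unfold dt
  positivity

theorem measurable_dt (r : ℝ) (N : ℕ) : Measurable (dt (K := K) (T := T) r N) := by
  unfold dt
  simp only [Matrix.det_apply, Matrix.of_apply]
  refine Measurable.pow_const (Measurable.norm ?_) _
  refine Finset.measurable_sum _ fun σ _ => ?_
  refine Measurable.const_smul ?_ _
  refine Finset.measurable_prod _ fun j _ => ?_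
  exact (measurable_fY r N j).comp (measurable_pi_apply _)

/-- The weight. -/
noncomputable def ww (r s : ℝ) (g : ℂ → ℂ) (y : YY K T) : ℝ :=
  Real.exp (-(psi r (fun z => s * Real.log ‖g z‖) y))

theorem ww_pos (r s : ℝ) (g : ℂ → ℂ) (y : YY K T) : 0 < ww r s g y := Real.exp_pos _

theorem measurable_ww (r s : ℝ) {g : ℂ → ℂ} (hg : Continuous g) :
    Measurable (ww (K := K) (T := T) r s g) := by
  unfold ww psi
  refine Real.measurable_exp.comp (Measurable.neg ?_)
  refine Measurable.sumElim ?_ ?_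
  · exact ((Real.measurable_log.comp hg.measurable.norm).const_mul s).comp measurable_subtype_coe
  · exact (measurable_subtype_coe.norm.pow_const 2).const_mul (r ^ 2)

theorem bound_ww (hK : IsCompact K) (r s : ℝ) {g : ℂ → ℂ} (hg : Continuous g)
    (hne : ∀ z ∈ K, g z ≠ 0) : ∃ C : ℝ, ∀ y : YY K T, ww r s g y ≤ C := by
  have hc : ContinuousOn (fun z => Real.exp (-(s * Real.log ‖g z‖))) K := by
    refine Real.continuous_exp.comp_continuousOn (ContinuousOn.neg ?_)
    refine continuousOn_const.mul (ContinuousOn.log hg.norm.continuousOn ?_)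
    exact fun z hz => norm_ne_zero_iff.mpr (hne z hz)
  obtain ⟨C, hC⟩ := hK.exists_bound_of_continuousOn hc
  refine ⟨max C 1, ?_⟩
  rintro (z | z)
  · refine le_trans ?_ (le_max_left _ _)
    have h1 := hC z z.2
    rw [Real.norm_eq_abs, abs_of_pos (Real.exp_pos _)] at h1
    exact h1
  · refine le_trans ?_ (le_max_right _ _)
    change Real.exp (-(r ^ 2 * ‖(z : ℂ)‖ ^ 2)) ≤ 1
    rw [Real.exp_le_one_iff]
    have : 0 ≤ r ^ 2 * ‖(z : ℂ)‖ ^ 2 := by positivity
    linarith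

theorem bound_fY (hK : IsCompact K) (r : ℝ) (N : ℕ) :
    ∃ C : ℝ, ∀ (k : Fin N) (y : YY K T), ‖fY r N k y‖ ≤ C := by
  have hc : Continuous (fun z => ∑ k : Fin N, ‖feat r k z‖) :=
    continuous_finsetSum _ fun k _ => (continuous_feat r k).norm
  obtain ⟨C₁, hC₁⟩ := hK.exists_bound_of_continuousOn hc.continuousOn
  obtain ⟨C₂, hC₂⟩ := (isCompact_closedBall (0 : ℂ) T).exists_bound_of_continuousOn
    hc.continuousOn
  refine ⟨max C₁ C₂, ?_⟩
  have key : ∀ (k : Fin N) (z : ℂ), ‖feat r k z‖ ≤ ‖∑ k : Fin N, ‖feat r k z‖‖ := by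
    intro k z
    rw [Real.norm_eq_abs]
    refine le_trans ?_ (le_abs_self _)
    exact Finset.single_le_sum (f := fun k : Fin N => ‖feat r k z‖)
      (fun i _ => norm_nonneg _) (Finset.mem_univ k)
  rintro k (z | z)
  · exact (key k z).trans ((hC₁ z z.2).trans (le_max_left _ _))
  · exact (key k z).trans ((hC₂ z z.2).trans (le_max_right _ _))

/-- Andreief's identity for `DD`. -/
theorem DD_eq (hAND : AND_Stmt) (a : Measure (YY K T)) [IsProbabilityMeasure a]
    (hK : IsCompact K) (r s : ℝ) {g : ℂ → ℂ} (hg : Continuous g) (hne : ∀ z ∈ K, g z ≠ 0)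
    (N : ℕ) :
    DD a (fY r N) (psi r (fun z => s * Real.log ‖g z‖)) = 1 / (N.factorial : ℝ) *
      ∫ x, dt r N x * ∏ j, ww r s g (x j) ∂(Measure.pi fun _ => a) := by
  obtain ⟨C₁, hC₁⟩ := bound_ww (T := T) hK r s hg hne
  obtain ⟨C₂, hC₂⟩ := bound_fY (T := T) hK r N
  have h := hAND (YY K T) a N (fY r N) (ww r s g) (max C₁ C₂) (measurable_fY r N)
    (measurable_ww r s hg) (fun k y => (hC₂ k y).trans (le_max_right _ _))
    (fun y => ⟨(ww_pos r s g y).le, (hC₁ y).trans (le_max_left _ _)⟩)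
  unfold DD
  have h' := congrArg norm h
  refine h'.trans ?_
  rw [Complex.norm_real, Real.norm_eq_abs, abs_of_nonneg]
  · rfl
  · refine mul_nonneg (by positivity) (integral_nonneg fun x => ?_)
    refine mul_nonneg (by positivity) (Finset.prod_nonneg fun j _ => (ww_pos r s g _).le)

theorem lower (hAND : AND_Stmt) (a : Measure (YY K T)) [IsProbabilityMeasure a]
    (hK : IsCompact K) (r s : ℝ) {g : ℂ → ℂ} (hg : Continuous g) (hne : ∀ z ∈ K, g z ≠ 0)
    (N : ℕ) {D : ℝ} (hD : D ≤ DD a (fY r N) (psi r (fun z => s * Real.log ‖g z‖))) :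
    ENNReal.ofReal ((N.factorial : ℝ) * D) ≤
      ∫⁻ x, ENNReal.ofReal (dt r N x) * ∏ j, ENNReal.ofReal (ww r s g (x j))
        ∂(Measure.pi fun _ => a) := by
  have hN : (0 : ℝ) < N.factorial := by positivity
  rw [DD_eq hAND a hK r s hg hne N] at hD
  have h1 : (N.factorial : ℝ) * D ≤
      ∫ x, dt r N x * ∏ j, ww r s g (x j) ∂(Measure.pi fun _ => a) := by
    have h2 := mul_le_mul_of_nonneg_left hD hN.le
    rwa [← mul_assoc, mul_one_div_cancel hN.ne', one_mul] at h2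
  refine (ENNReal.ofReal_le_ofReal h1).trans ?_
  have h0 : ∀ x : Fin N → YY K T, 0 ≤ dt r N x * ∏ j, ww r s g (x j) := fun x =>
    mul_nonneg (dt_nonneg r N x) (Finset.prod_nonneg fun j _ => (ww_pos r s g _).le)
  have hm : Measurable fun x : Fin N → YY K T => dt r N x * ∏ j, ww r s g (x j) := by
    refine (measurable_dt r N).mul (Finset.measurable_prod _ fun j _ => ?_)
    exact (measurable_ww r s hg).comp (measurable_pi_apply j)
  rw [integral_eq_lintegral_of_nonneg_ae (Eventually.of_forall h0) hm.aestronglyMeasurable]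
  refine ENNReal.ofReal_toReal_le.trans (le_of_eq ?_)
  refine lintegral_congr fun x => ?_
  rw [ENNReal.ofReal_mul (dt_nonneg r N x),
    ENNReal.ofReal_prod_of_nonneg fun j _ => (ww_pos r s g _).le]

/-- The cut off functions. -/
noncomputable def hY (η B ρ τ r : ℝ) (y : YY K T) (v : ℂ) : ENNReal :=
  if y.isLeft = true then hh η B v else
    if ‖v‖ ≤ Real.exp (ρ + τ * ‖pt y‖ ^ 2) then
      ENNReal.ofReal (Real.exp (-(r ^ 2 * ‖pt y‖ ^ 2))) else 0

theorem measurable_hY {η B ρ τ r : ℝ} (hh' : Measurable (hh η B)) :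
    Measurable fun p : YY K T × ℂ => hY η B ρ τ r p.1 p.2 := by
  unfold hY
  refine Measurable.ite ?_ (hh'.comp measurable_snd) ?_
  · have h1 : MeasurableSet {y : YY K T | y.isLeft = true} := by
      have h2 : {y : YY K T | y.isLeft = true} = Set.range Sum.inl := by
        ext y
        rcases y with y | y
        · simp
        · simp
      rw [h2]
      exact measurableSet_range_inl
    exact measurable_fst h1
  · refine Measurable.ite ?_ ?_ measurable_const
    · refine measurableSet_le measurable_snd.norm ?_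
      refine Real.measurable_exp.comp ?_
      exact ((((measurable_pt.comp measurable_fst).norm).pow_const 2).const_mul τ).const_add ρ
    · refine ENNReal.measurable_ofReal.comp (Real.measurable_exp.comp (Measurable.neg ?_))
      exact ((measurable_pt.comp measurable_fst).norm.pow_const 2).const_mul (r ^ 2)

/-- The convergence of the cut off functions to the weight. -/
theorem tendsto_hY {η R₀ ρ τ r : ℝ} (hr : 0 < r) (hτ : 0 ≤ τ) (hR₀ : ∀ z ∈ K, ‖z‖ ≤ R₀)
    {c : ℕ → ℂ} (hl : ∀ w, Tendsto (fun M => serN c M w) atTop (𝓝 (ser c w)))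
    (hb : ∀ w M, ‖serN c M w‖ ≤ Real.exp (ρ + τ / r ^ 2 * ‖w‖ ^ 2))
    (hne : ∀ z ∈ K, ser c ((r : ℂ) * z) ≠ 0) (y : YY K T) :
    Tendsto (fun M => hY η (Real.exp (ρ + τ * R₀ ^ 2)) ρ τ r y
      (serN c M ((r : ℂ) * pt y))) atTop
      (𝓝 (ENNReal.ofReal (ww r (2 - η) (fun z => ser c ((r : ℂ) * z)) y))) := by
  have hb' : ∀ (z : ℂ) (M : ℕ), ‖serN c M ((r : ℂ) * z)‖ ≤ Real.exp (ρ + τ * ‖z‖ ^ 2) := by
    intro z M
    refine (hb _ M).trans (le_of_eq ?_)
    congr 2
    rw [norm_mul, Complex.norm_real, Real.norm_eq_abs, abs_of_pos hr]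
    field_simp
  rcases y with z | z
  · have h1 : ∀ M : ℕ, hY η (Real.exp (ρ + τ * R₀ ^ 2)) ρ τ r (Sum.inl z : YY K T)
        (serN c M ((r : ℂ) * pt (Sum.inl z : YY K T))) =
        ENNReal.ofReal (‖serN c M ((r : ℂ) * (z : ℂ))‖ ^ (η - 2)) := by
      intro M
      have h2 : ‖serN c M ((r : ℂ) * (z : ℂ))‖ ≤ Real.exp (ρ + τ * R₀ ^ 2) := by
        refine (hb' z M).trans ?_
        rw [Real.exp_le_exp]
        have h3 := hR₀ z z.2
        have h4 : ‖(z : ℂ)‖ ^ 2 ≤ R₀ ^ 2 := pow_le_pow_left₀ (norm_nonneg _) h3 2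
        have h5 := mul_le_mul_of_nonneg_left h4 hτ
        linarith
      unfold hY hh
      rw [if_pos (by rfl)]
      exact if_pos h2
    simp_rw [h1]
    apply ENNReal.tendsto_ofReal
    have hne' := norm_ne_zero_iff.mpr (hne z z.2)
    have h6 : ww r (2 - η) (fun z => ser c ((r : ℂ) * z)) (Sum.inl z : YY K T) =
        ‖ser c ((r : ℂ) * (z : ℂ))‖ ^ (η - 2) := by
      rw [Real.rpow_def_of_pos (lt_of_le_of_ne (norm_nonneg _) hne'.symm)]
      unfold ww psi
      rw [Sum.elim_inl]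
      congr 1
      ring
    rw [h6]
    exact (hl _).norm.rpow_const (Or.inl hne')
  · refine tendsto_const_nhds.congr fun M => ?_
    unfold hY
    rw [if_neg (by simp)]
    exact (if_pos (hb' z M)).symm

/-- The integral of the cut off functions. -/
theorem lint_hY (hHIN : Pool.Agent.HA.HIN_Stmt) {η R₀ ρ τ r : ℝ} (hη : 0 < η)
    (y : YY K T) :
    ENNReal.ofReal (1 / Real.pi) * ∫⁻ v, hY η (Real.exp (ρ + τ * R₀ ^ 2)) ρ τ r y v ≤
      ENNReal.ofReal (max (2 * Real.exp (η * (ρ + τ * R₀ ^ 2)) / η)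
        (Real.exp (2 * ρ + max (2 * τ - r ^ 2) 0 * T ^ 2))) := by
  have hpi := Real.pi_pos
  rcases y with z | z
  · have h1 := (hHIN η (Real.exp (ρ + τ * R₀ ^ 2)) hη (Real.exp_pos _)).2
    have h2 : ∀ v, hY η (Real.exp (ρ + τ * R₀ ^ 2)) ρ τ r (Sum.inl z : YY K T) v =
        hh η (Real.exp (ρ + τ * R₀ ^ 2)) v := by
      intro v
      unfold hY
      exact if_pos (by rfl)
    simp_rw [h2]
    rw [h1, ← ENNReal.ofReal_mul (by positivity)]
    refine ENNReal.ofReal_le_ofReal (le_trans (le_of_eq ?_) (le_max_left _ _))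
    rw [← Real.exp_mul]
    field_simp
  · have h2 : ∀ v, hY η (Real.exp (ρ + τ * R₀ ^ 2)) ρ τ r (Sum.inr z : YY K T) v =
        Set.indicator (Metric.closedBall (0 : ℂ) (Real.exp (ρ + τ * ‖(z : ℂ)‖ ^ 2)))
          (fun _ => ENNReal.ofReal (Real.exp (-(r ^ 2 * ‖(z : ℂ)‖ ^ 2)))) v := by
      intro v
      unfold hY
      rw [if_neg (by simp)]
      by_cases hv : ‖v‖ ≤ Real.exp (ρ + τ * ‖(z : ℂ)‖ ^ 2)
      · rw [Set.indicator_of_mem (mem_closedBall_zero_iff.mpr hv)]
        exact if_pos hv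
      · rw [Set.indicator_of_notMem (by rwa [mem_closedBall_zero_iff])]
        exact if_neg hv
    simp_rw [h2]
    rw [lintegral_indicator measurableSet_closedBall, setLIntegral_const,
      Complex.volume_closedBall, ← ENNReal.ofReal_pow (Real.exp_pos _).le,
      ← ENNReal.ofReal_coe_nnreal, NNReal.coe_real_pi, ← ENNReal.ofReal_mul (by positivity),
      ← ENNReal.ofReal_mul (by positivity), ← ENNReal.ofReal_mul (by positivity)]
    refine ENNReal.ofReal_le_ofReal (le_trans ?_ (le_max_right _ _))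
    have h3 : 1 / Real.pi * (Real.exp (-(r ^ 2 * ‖(z : ℂ)‖ ^ 2)) *
        (Real.exp (ρ + τ * ‖(z : ℂ)‖ ^ 2) ^ 2 * Real.pi)) =
        Real.exp (-(r ^ 2 * ‖(z : ℂ)‖ ^ 2)) * Real.exp (ρ + τ * ‖(z : ℂ)‖ ^ 2) ^ 2 := by
      field_simp
    rw [h3, ← Real.exp_nat_mul, ← Real.exp_add, Real.exp_le_exp]
    have h4 : ‖(z : ℂ)‖ ≤ T := by
      have := z.2
      rwa [mem_closedBall_zero_iff] at this
    have h5 : ‖(z : ℂ)‖ ^ 2 ≤ T ^ 2 := pow_le_pow_left₀ (norm_nonneg _) h4 2
    have h6 : (2 * τ - r ^ 2) * ‖(z : ℂ)‖ ^ 2 ≤ max (2 * τ - r ^ 2) 0 * T ^ 2 := by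
      refine (mul_le_mul_of_nonneg_right (le_max_left _ 0) (by positivity)).trans ?_
      exact mul_le_mul_of_nonneg_left h5 (le_max_right _ _)
    push_cast
    nlinarith [h6]

section meas

variable {Ω : Type u} [MeasurableSpace Ω] {ξ : ℕ → Ω → ℂ}

theorem meas_ser (hξ : ∀ n, Measurable (ξ n)) (r : ℝ) (N M : ℕ) (j : Fin N) :
    Measurable fun p : Ω × (Fin N → YY K T) => serN (co ξ p.1) M ((r : ℂ) * pt (p.2 j)) := by
  unfold serN
  refine Finset.measurable_sum _ fun n _ => ?_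
  have h1 : Measurable fun p : Ω × (Fin N → YY K T) => co ξ p.1 n := (hξ n).comp measurable_fst
  have h2 : Measurable fun p : Ω × (Fin N → YY K T) => (r : ℂ) * pt (p.2 j) :=
    (measurable_pt.comp ((measurable_pi_apply j).comp measurable_snd)).const_mul _
  exact (h1.mul (h2.pow_const n)).div_const _

/-- The integrand. -/
noncomputable def F (ξ : ℕ → Ω → ℂ) (η B ρ τ r : ℝ) (N M : ℕ) (ω : Ω)
    (x : Fin N → YY K T) : ENNReal :=
  ENNReal.ofReal (dt r N x) * ∏ j, hY η B ρ τ r (x j) (serN (co ξ ω) M ((r : ℂ) * pt (x j)))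

theorem meas_F (hξ : ∀ n, Measurable (ξ n)) {η B ρ τ r : ℝ} (hh' : Measurable (hh η B))
    (N M : ℕ) : Measurable fun p : Ω × (Fin N → YY K T) => F ξ η B ρ τ r N M p.1 p.2 := by
  unfold F
  refine Measurable.mul ?_ (Finset.measurable_prod _ fun j _ => ?_)
  · exact ENNReal.measurable_ofReal.comp ((measurable_dt r N).comp measurable_snd)
  · exact (measurable_hY hh').comp
      (((measurable_pi_apply j).comp measurable_snd).prodMk (meas_ser hξ r N M j))

/-- The expectation for fixed points. -/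
theorem lint_F (hHIN : Pool.Agent.HA.HIN_Stmt) (hNEG : NEG_Stmt.{u}) {P : Measure Ω}
    (hG : IsGauss P ξ) {η R₀ ρ τ r : ℝ} (hη : 0 < η) {N M : ℕ} (hNM : N ≤ M)
    (x : Fin N → YY K T) :
    ∫⁻ ω, F ξ η (Real.exp (ρ + τ * R₀ ^ 2)) ρ τ r N M ω x ∂P ≤
      ENNReal.ofReal (max (2 * Real.exp (η * (ρ + τ * R₀ ^ 2)) / η)
        (Real.exp (2 * ρ + max (2 * τ - r ^ 2) 0 * T ^ 2))) ^ N := by
  have hh' : Measurable (hh η (Real.exp (ρ + τ * R₀ ^ 2))) := (hHIN η _ hη (Real.exp_pos _)).1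
  have hVM : VM 0 N (fun j => (r : ℂ) * pt (x j)) =
      Matrix.of fun j k : Fin N => fY (K := K) (T := T) r N k (x j) := by
    ext j k
    simp only [VM, Matrix.of_apply, fY, feat, zero_add]
  by_cases hdet : (VM 0 N (fun j => (r : ℂ) * pt (x j))).det = 0
  · have h0 : dt r N x = 0 := by
      unfold dt
      rw [← hVM, hdet]
      simp
    unfold F
    rw [h0]
    simp
  · have h1 := hNEG P ξ hG N M (fun j => (r : ℂ) * pt (x j))
      (fun j => hY η (Real.exp (ρ + τ * R₀ ^ 2)) ρ τ r (x j)) hNM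
      (fun j => (measurable_hY hh').comp measurable_prodMk_left) hdet
    unfold F
    rw [lintegral_const_mul' _ _ ENNReal.ofReal_ne_top]
    refine (mul_le_mul' le_rfl h1).trans ?_
    rw [← mul_assoc]
    have h2 : ENNReal.ofReal (dt r N x) *
        ENNReal.ofReal (1 / ‖(VM 0 N (fun j => (r : ℂ) * pt (x j))).det‖ ^ 2) = 1 := by
      rw [← ENNReal.ofReal_mul (dt_nonneg r N x)]
      unfold dt
      rw [← hVM, mul_one_div_cancel (pow_ne_zero 2 (norm_ne_zero_iff.mpr hdet)),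
        ENNReal.ofReal_one]
    rw [h2, one_mul]
    refine (Finset.prod_le_prod' fun j _ => lint_hY hHIN hη (x j)).trans (le_of_eq ?_)
    rw [Finset.prod_const, Finset.card_univ, Fintype.card_fin]

theorem lint_lint_F (hHIN : Pool.Agent.HA.HIN_Stmt) (hNEG : NEG_Stmt.{u}) {P : Measure Ω}
    (hG : IsGauss P ξ) {η R₀ ρ τ r : ℝ} (hη : 0 < η) {N M : ℕ} (hNM : N ≤ M)
    (a : Measure (YY K T)) [IsProbabilityMeasure a] :
    ∫⁻ ω, ∫⁻ x, F ξ η (Real.exp (ρ + τ * R₀ ^ 2)) ρ τ r N M ω x ∂(Measure.pi fun _ => a) ∂P ≤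
      ENNReal.ofReal (max (2 * Real.exp (η * (ρ + τ * R₀ ^ 2)) / η)
        (Real.exp (2 * ρ + max (2 * τ - r ^ 2) 0 * T ^ 2))) ^ N := by
  have := hG.prob
  have hh' : Measurable (hh η (Real.exp (ρ + τ * R₀ ^ 2))) := (hHIN η _ hη (Real.exp_pos _)).1
  rw [lintegral_lintegral_swap (meas_F hG.meas hh' N M).aemeasurable]
  refine (lintegral_mono fun x => lint_F hHIN hNEG hG hη hNM x).trans (le_of_eq ?_)
  rw [lintegral_const, measure_univ, mul_one]

end meas

/-- The pointwise statement. -/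
theorem pointwise (hAND : AND_Stmt) {Ω : Type u} {ξ : ℕ → Ω → ℂ} {ω : Ω}
    (a : Measure (YY K T)) [IsProbabilityMeasure a]
    (hK : IsCompact K) {η R₀ ρ τ r D : ℝ} (hr : 0 < r) (hτ : 0 ≤ τ)
    (hR₀ : ∀ z ∈ K, ‖z‖ ≤ R₀) (hh' : Measurable (hh η (Real.exp (ρ + τ * R₀ ^ 2)))) (N : ℕ)
    (hd : Differentiable ℂ (ser (co ξ ω)))
    (hl : ∀ w, Tendsto (fun M => serN (co ξ ω) M w) atTop (𝓝 (ser (co ξ ω) w)))
    (hb : ∀ w M, ‖serN (co ξ ω) M w‖ ≤ Real.exp (ρ + τ / r ^ 2 * ‖w‖ ^ 2))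
    (hne : ∀ z ∈ K, ser (co ξ ω) ((r : ℂ) * z) ≠ 0)
    (hD : ∀ g ∈ Cl K ρ τ, D ≤ DD a (fY r N) (psi r (fun z => (2 - η) * Real.log ‖g z‖))) :
    ENNReal.ofReal ((N.factorial : ℝ) * D) ≤
      liminf (fun M => ∫⁻ x, F ξ η (Real.exp (ρ + τ * R₀ ^ 2)) ρ τ r N M ω x
        ∂(Measure.pi fun _ : Fin N => a)) atTop := by
  have hC := mem_Cl (K := K) hr hd hl hb hne
  refine (lower hAND a hK r (2 - η) hC.1.continuous hC.2.1 N (hD _ hC)).trans ?_
  refine le_trans (lintegral_mono fun x => ?_) (lintegral_liminf_le fun M => ?_)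
  · have h1 : Tendsto (fun M => F ξ η (Real.exp (ρ + τ * R₀ ^ 2)) ρ τ r N M ω x) atTop
        (𝓝 (ENNReal.ofReal (dt r N x) * ∏ j, ENNReal.ofReal
          (ww r (2 - η) (fun z => ser (co ξ ω) ((r : ℂ) * z)) (x j)))) := by
      unfold F
      refine ENNReal.Tendsto.const_mul ?_ (Or.inr ENNReal.ofReal_ne_top)
      refine ENNReal.tendsto_finsetProd_of_ne_top _ (fun j _ => ?_) (fun j _ => ?_)
      · exact tendsto_hY hr hτ hR₀ hl hb hne (x j)
      · exact ENNReal.ofReal_ne_top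
    exact h1.liminf_eq.ge
  · unfold F
    refine Measurable.mul ?_ (Finset.measurable_prod _ fun j _ => ?_)
    · exact ENNReal.measurable_ofReal.comp (measurable_dt r N)
    · have h3 : Measurable fun x : Fin N → YY K T => serN (co ξ ω) M ((r : ℂ) * pt (x j)) := by
        refine Continuous.measurable (f := fun w => serN (co ξ ω) M w) ?_ |>.comp ?_
        · unfold serN
          fun_prop
        · exact (measurable_pt.comp (measurable_pi_apply j)).const_mul _
      exact (measurable_hY hh').comp ((measurable_pi_apply j).prodMk h3)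

end LWA

open LWA

theorem LWA_thm (hTLP : Pool.Agent.HA.TLP_Stmt.{u}) (hHIN : Pool.Agent.HA.HIN_Stmt)
    (hAND : AND_Stmt) (hNEG : NEG_Stmt.{u}) : LWA_Stmt.{u} := by
  intro Ω _ P ξ hG K R₀ T r H η ρ τ D N a ha hK hR₀ hR₀0 hT hr hH hη hη2 hρ hτ hx hD0 hD
  have := hG.prob
  have hh' : Measurable (hh η (Real.exp (ρ + τ * R₀ ^ 2))) := (hHIN η _ hη (Real.exp_pos _)).1
  obtain ⟨C, hC⟩ : ∃ C : ℝ, C = max (2 * Real.exp (η * (ρ + τ * R₀ ^ 2)) / η)
        (Real.exp (2 * ρ + max (2 * τ - r ^ 2) 0 * T ^ 2)) := ⟨_, rfl⟩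
  have hC0 : 0 < C := by
    rw [hC]
    exact lt_max_of_lt_right (Real.exp_pos _)
  obtain ⟨L, hL⟩ : ∃ L : Ω → ENNReal, L = fun ω => liminf (fun M => ∫⁻ x,
      F (K := K) (T := T) ξ η (Real.exp (ρ + τ * R₀ ^ 2)) ρ τ r N M ω x
        ∂(Measure.pi fun _ => a)) atTop := ⟨_, rfl⟩
  have hLm0 : ∀ M : ℕ, Measurable fun ω => ∫⁻ x,
      F (K := K) (T := T) ξ η (Real.exp (ρ + τ * R₀ ^ 2)) ρ τ r N M ω x
        ∂(Measure.pi fun _ => a) := fun M => (meas_F hG.meas hh' N M).lintegral_prod_right'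
  have hLm : Measurable L := by
    rw [hL]
    exact Measurable.liminf hLm0
  have hsub : {ω | ∀ z ∈ K, gef ξ ω ((r : ℂ) * z) ≠ 0} ⊆
      {ω | ¬ ∀ n : ℕ, ‖ξ n ω‖ ≤ H * ((n : ℝ) + 1)} ∪
        {ω | ENNReal.ofReal ((N.factorial : ℝ) * D) ≤ L ω} := by
    intro ω hω
    by_cases hb : ∀ n : ℕ, ‖ξ n ω‖ ≤ H * ((n : ℝ) + 1)
    · right
      obtain ⟨hd, hlim, hR'⟩ := hx (co ξ ω) hb
      change ENNReal.ofReal ((N.factorial : ℝ) * D) ≤ L ω
      rw [hL]
      exact pointwise hAND a hK hr hτ hR₀ hh' N hd hlim hR' hω hD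
    · left
      exact hb
  have hLint : ∫⁻ ω, L ω ∂P ≤ ENNReal.ofReal C ^ N := by
    rw [hL]
    refine (lintegral_liminf_le hLm0).trans ?_
    refine liminf_le_of_frequently_le' (Eventually.frequently ?_)
    filter_upwards [eventually_ge_atTop N] with M hM
    rw [hC]
    exact lint_lint_F hHIN hNEG hG hη hM a
  have hmark := mul_meas_ge_le_lintegral (μ := P) hLm
    (ENNReal.ofReal ((N.factorial : ℝ) * D))
  have hND : 0 < (N.factorial : ℝ) * D := by positivity
  have h5 : ENNReal.ofReal ((N.factorial : ℝ) * D) *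
      P {ω | ENNReal.ofReal ((N.factorial : ℝ) * D) ≤ L ω} ≤ ENNReal.ofReal (C ^ N) := by
    rw [ENNReal.ofReal_pow hC0.le]
    exact hmark.trans hLint
  have h6 := ENNReal.toReal_mono ENNReal.ofReal_ne_top h5
  rw [ENNReal.toReal_mul, ENNReal.toReal_ofReal hND.le,
    ENNReal.toReal_ofReal (by positivity)] at h6
  have h7 : (P {ω | ENNReal.ofReal ((N.factorial : ℝ) * D) ≤ L ω}).toReal ≤
      1 / D * (1 / (N.factorial : ℝ)) * C ^ N := by
    have h8 : 1 / D * (1 / (N.factorial : ℝ)) * C ^ N = C ^ N / ((N.factorial : ℝ) * D) := by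
      field_simp
    rw [h8, le_div_iff₀ hND, mul_comm]
    exact h6
  unfold holeP
  rw [← hC]
  refine (ENNReal.toReal_mono (measure_ne_top _ _) (measure_mono hsub)).trans ?_
  refine (ENNReal.toReal_mono ?_ (measure_union_le _ _)).trans ?_
  · exact ENNReal.add_ne_top.mpr ⟨measure_ne_top _ _, measure_ne_top _ _⟩
  rw [ENNReal.toReal_add (measure_ne_top _ _) (measure_ne_top _ _)]
  exact add_le_add (hTLP P ξ hG H hH) h7

end Pool.Agent.HX
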