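import Pool.Agent.HX.Stmts

/-!
The mass bound (module MAS): bounds for tuples of at most `α r^2` points imply the bounds for all
tuples.
-/

namespace Pool.Agent.HX.MAS

open MeasureTheory ProbabilityTheory Filter Topology Pool.Agent.GH Pool.Agent.HA Pool.Agent.HX

/-- The product of the distances of points of a disk. -/
lemma vdm_le {n : ℕ} (z : Fin n → ℂ) (R : ℝ) (hR : 1 ≤ R) (hz : ∀ i, ‖z i‖ ≤ R) :
    vdm z ≤ ((2 * R) ^ (n - 1)) ^ n := by
  have h1 : ∀ i : Fin n, ∏ j ∈ Finset.Ioi i, ‖z i - z j‖ ≤ (2 * R) ^ (n - 1) := by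
    intro i
    have h2 : ∏ j ∈ Finset.Ioi i, ‖z i - z j‖ ≤ (2 * R) ^ (Finset.Ioi i).card := by
      rw [← Finset.prod_const]
      refine Finset.prod_le_prod (fun j _ => norm_nonneg _) fun j _ => ?_
      calc ‖z i - z j‖ ≤ ‖z i‖ + ‖z j‖ := norm_sub_le _ _
        _ ≤ 2 * R := by linarith [hz i, hz j]
    refine h2.trans (pow_le_pow_right₀ (by linarith) ?_)
    rw [Fin.card_Ioi]
    omega
  unfold vdm
  calc ∏ i : Fin n, ∏ j ∈ Finset.Ioi i, ‖z i - z j‖
      ≤ ∏ _i : Fin n, (2 * R) ^ (n - 1) :=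
        Finset.prod_le_prod (fun i _ => Finset.prod_nonneg fun j _ => norm_nonneg _)
          (fun i _ => h1 i)
    _ = ((2 * R) ^ (n - 1)) ^ n := by simp

lemma vdm_nonneg {n : ℕ} (z : Fin n → ℂ) : 0 ≤ vdm z := by
  unfold vdm
  exact Finset.prod_nonneg fun i _ => Finset.prod_nonneg fun j _ => norm_nonneg _

lemma cst_pos (r : ℝ) (hr : 0 < r) (n : ℕ) : 0 < cst r n := by
  unfold cst
  exact Finset.prod_pos fun k _ => by positivity

lemma log_cst (r : ℝ) (hr : 0 < r) (n : ℕ) :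
    Real.log (cst r n) = (n : ℝ) * ((n : ℝ) - 1) * Real.log r -
      ∑ k ∈ Finset.range n, Real.log (k.factorial : ℝ) := by
  induction n with
  | zero => simp [cst]
  | succ n ih =>
    have h1 : cst r (n + 1) = cst r n * (r ^ (2 * n) / (n.factorial : ℝ)) := by
      unfold cst
      rw [Finset.prod_range_succ]
    have h2 : (0 : ℝ) < n.factorial := by exact_mod_cast Nat.factorial_pos n
    rw [h1, Real.log_mul (cst_pos r hr n).ne' (by positivity),
      Real.log_div (by positivity) h2.ne', Real.log_pow, ih, Finset.sum_range_succ]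
    push_cast
    ring

/-- The real inequality behind the contradiction. -/
lemma key (R₀ v₀ C α r n m c_n c_m S_n S_m V U E v : ℝ) (hR : 1 ≤ R₀) (hv₀ : 0 < v₀) (hC : 0 ≤ C)
    (hα : Real.exp (2 * (3 / 4 + 2 * Real.log (2 * R₀) + 2 * (2 * C + 7))) + 4 * R₀ ^ 2 +
      2 * v₀ + 4 ≤ α)
    (hr : 1 ≤ r) (hn : α * r ^ 2 < n) (hm : 2 ≤ m) (hmn : 2 * m ≤ n) (hmn' : n ≤ 2 * m + 1)
    (hcn : c_n = n * (n - 1) * Real.log r - S_n) (hcm : c_m = m * (m - 1) * Real.log r - S_m)
    (hSn : |S_n - (n ^ 2 / 2 * Real.log n - 3 / 4 * n ^ 2)| ≤ C * n * (1 + Real.log n))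
    (hSm : |S_m - (m ^ 2 / 2 * Real.log m - 3 / 4 * m ^ 2)| ≤ C * m * (1 + Real.log m))
    (hV : V ≤ 2 * (n * (n - 1) * Real.log (2 * R₀)))
    (hE : E ≤ n * (Real.log 2 + Real.log n + n * Real.log 16 + 4 * R₀ ^ 2 * r ^ 2))
    (hv : v ≤ v₀)
    (h1 : V - 2 * r ^ 2 * ((n - 1) / (m - 1)) * U ≤
      (v * r ^ 4 - c_m) / (m * (m - 1)) * (n * (n - 1)))
    (h2 : v * r ^ 4 + 2 * r ^ 2 * U < V + c_n + E) : False := by
  have hn4 : 4 ≤ n := by linarith
  have hn0 : 0 < n := by linarith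
  have hm0 : 0 < m := by linarith
  have hm1 : 0 < m - 1 := by linarith
  have hn1 : 0 < n - 1 := by linarith
  have hnm : 0 < n - m := by linarith
  have hr0 : 0 < r := by linarith
  have hr2 : 1 ≤ r ^ 2 := one_le_pow₀ hr
  have hexp := Real.exp_pos (2 * (3 / 4 + 2 * Real.log (2 * R₀) + 2 * (2 * C + 7)))
  have hR2 : 0 < R₀ ^ 2 := by positivity
  have hα4 : 4 ≤ α := by linarith
  have hα0 : 0 < α := by linarith
  -- step 1: multiply h1 by (m-1)/(n-1)
  have h3 : (m - 1) / (n - 1) * V - 2 * r ^ 2 * U ≤ (v * r ^ 4 - c_m) * (n / m) := by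
    have h4 := mul_le_mul_of_nonneg_left h1 (div_nonneg hm1.le hn1.le)
    have h5 : (m - 1) / (n - 1) * (V - 2 * r ^ 2 * ((n - 1) / (m - 1)) * U) =
        (m - 1) / (n - 1) * V - 2 * r ^ 2 * U := by
      field_simp
    have h6 : (m - 1) / (n - 1) * ((v * r ^ 4 - c_m) / (m * (m - 1)) * (n * (n - 1))) =
        (v * r ^ 4 - c_m) * (n / m) := by
      field_simp
    rw [h5, h6] at h4
    exact h4
  -- step 2
  have h7 : (n / m) * c_m - c_n - (n - m) / (n - 1) * V - E < v * r ^ 4 * (n / m - 1) := by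
    have h8 : (n - m) / (n - 1) * V = V - (m - 1) / (n - 1) * V := by
      field_simp
      ring
    rw [h8]
    nlinarith [h3, h2]
  -- the bound on the right
  have h9 : v * r ^ 4 * (n / m - 1) ≤ 2 * v₀ * r ^ 4 := by
    have h10 : n / m - 1 ≤ 2 := by
      rw [sub_le_iff_le_add, div_le_iff₀ hm0]
      linarith
    have h10' : 0 ≤ n / m - 1 := by
      rw [sub_nonneg, le_div_iff₀ hm0]
      linarith
    have h11 : v * r ^ 4 * (n / m - 1) ≤ v₀ * r ^ 4 * (n / m - 1) :=
      mul_le_mul_of_nonneg_right (mul_le_mul_of_nonneg_right hv (by positivity)) h10'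
    have h12 : v₀ * r ^ 4 * (n / m - 1) ≤ v₀ * r ^ 4 * 2 :=
      mul_le_mul_of_nonneg_left h10 (by positivity)
    linarith
  -- logs
  have hlogn : Real.log n ≤ n - 1 := Real.log_le_sub_one_of_pos hn0
  have hlogmn : Real.log m ≤ Real.log n := Real.log_le_log hm0 (by linarith)
  have hlogn0 : 0 ≤ Real.log n := Real.log_nonneg (by linarith)
  have hlogr : 2 * Real.log r + Real.log α ≤ Real.log n := by
    have h13 : Real.log (α * r ^ 2) ≤ Real.log n := Real.log_le_log (by positivity) hn.le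
    rw [Real.log_mul hα0.ne' (by positivity), Real.log_pow] at h13
    push_cast at h13
    linarith
  have hlogα : 2 * (3 / 4 + 2 * Real.log (2 * R₀) + 2 * (2 * C + 7)) ≤ Real.log α := by
    rw [Real.le_log_iff_exp_le hα0]
    linarith
  -- S_n - (n/m) S_m
  have hSn' := (abs_le.mp hSn).1
  have hSm' := (abs_le.mp hSm).2
  have h14 : (n / m) * S_m ≤ n * m / 2 * Real.log n - 3 / 4 * (n * m) +
      C * n * (1 + Real.log n) := by
    have h15 : S_m ≤ m ^ 2 / 2 * Real.log n - 3 / 4 * m ^ 2 + C * m * (1 + Real.log n) := by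
      have h16 : m ^ 2 / 2 * Real.log m ≤ m ^ 2 / 2 * Real.log n :=
        mul_le_mul_of_nonneg_left hlogmn (by positivity)
      have h17 : C * m * (1 + Real.log m) ≤ C * m * (1 + Real.log n) :=
        mul_le_mul_of_nonneg_left (by linarith) (by positivity)
      linarith
    have h18 := mul_le_mul_of_nonneg_left h15 (div_nonneg hn0.le hm0.le)
    have h19 : n / m * (m ^ 2 / 2 * Real.log n - 3 / 4 * m ^ 2 + C * m * (1 + Real.log n)) =
        n * m / 2 * Real.log n - 3 / 4 * (n * m) + C * n * (1 + Real.log n) := by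
      field_simp
    rw [h19] at h18
    exact h18
  have h20 : n / m * c_m - c_n = -(n * (n - m) * Real.log r) + S_n - n / m * S_m := by
    rw [hcm, hcn]
    field_simp
    ring
  have h21 : n * (n - m) * (1 / 2 * Real.log α - 3 / 4) - 2 * (C * n * (1 + Real.log n)) ≤
      n / m * c_m - c_n := by
    rw [h20]
    have h22 : n * (n - m) * (Real.log r + 1 / 2 * Real.log α) ≤
        n * (n - m) * (1 / 2 * Real.log n) :=
      mul_le_mul_of_nonneg_left (by linarith) (by positivity)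
    nlinarith [h22, h14, hSn']
  have h23 : (n - m) / (n - 1) * V ≤ n * (n - m) * (2 * Real.log (2 * R₀)) := by
    have h24 := mul_le_mul_of_nonneg_left hV (div_nonneg hnm.le hn1.le)
    have h25 : (n - m) / (n - 1) * (2 * (n * (n - 1) * Real.log (2 * R₀))) =
        n * (n - m) * (2 * Real.log (2 * R₀)) := by
      field_simp
    rw [h25] at h24
    exact h24
  have h26 : C * n * (1 + Real.log n) ≤ C * n ^ 2 := by
    have : C * n * (1 + Real.log n) ≤ C * n * n :=
      mul_le_mul_of_nonneg_left (by linarith) (by positivity)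
    nlinarith [this]
  have h27 : E ≤ 6 * n ^ 2 := by
    have hl2 : Real.log 2 ≤ 1 := by
      have := Real.log_two_lt_d9
      linarith
    have hl16 : Real.log 16 ≤ 3 := by
      have h16 : Real.log 16 = 4 * Real.log 2 := by
        rw [show (16 : ℝ) = 2 ^ 4 by norm_num, Real.log_pow]
        norm_num
      have := Real.log_two_lt_d9
      rw [h16]
      linarith
    have h28 : 4 * R₀ ^ 2 * r ^ 2 ≤ n := by
      have h29 : 4 * R₀ ^ 2 * r ^ 2 ≤ α * r ^ 2 :=
        mul_le_mul_of_nonneg_right (by linarith) (by positivity)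
      linarith
    have h30 : n * Real.log 16 ≤ n * 3 := mul_le_mul_of_nonneg_left hl16 hn0.le
    have h31 : n * (Real.log 2 + Real.log n + n * Real.log 16 + 4 * R₀ ^ 2 * r ^ 2) ≤
        n * (1 + (n - 1) + n * 3 + n) :=
      mul_le_mul_of_nonneg_left (by linarith) hn0.le
    nlinarith [h31, hE]
  -- combine
  have hB : 2 * (2 * C + 7) ≤ 1 / 2 * Real.log α - 3 / 4 - 2 * Real.log (2 * R₀) := by
    linarith
  have h32 : n * (n / 2) * (2 * (2 * C + 7)) ≤
      n * (n - m) * (1 / 2 * Real.log α - 3 / 4 - 2 * Real.log (2 * R₀)) := by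
    have h33 : n * (n / 2) ≤ n * (n - m) := mul_le_mul_of_nonneg_left (by linarith) hn0.le
    calc n * (n / 2) * (2 * (2 * C + 7)) ≤ n * (n - m) * (2 * (2 * C + 7)) :=
          mul_le_mul_of_nonneg_right h33 (by positivity)
      _ ≤ _ := mul_le_mul_of_nonneg_left hB (by positivity)
  have h34 : n ^ 2 < 2 * v₀ * r ^ 4 := by
    nlinarith [h32, h27, h26, h23, h21, h7, h9]
  have h35 : (α * r ^ 2) ^ 2 < n ^ 2 := by
    apply pow_lt_pow_left₀ hn (by positivity) (by norm_num)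
  have h36 : 2 * v₀ ≤ α ^ 2 := by nlinarith
  have h37 : 2 * v₀ * r ^ 4 ≤ (α * r ^ 2) ^ 2 := by
    rw [show (α * r ^ 2) ^ 2 = α ^ 2 * r ^ 4 by ring]
    exact mul_le_mul_of_nonneg_right h36 (by positivity)
  linarith

end Pool.Agent.HX.MAS

namespace Pool.Agent.HX

open MeasureTheory ProbabilityTheory Filter Topology Pool.Agent.GH Pool.Agent.HA

theorem MAS_thm (hFEK : FEK_Stmt) (hLFA : LFA_Stmt) (hGRM : GRM_Stmt) (hGBD : GBD_Stmt) :
    MAS_Stmt := by
  obtain ⟨_, _, hG3, hG4, _, _, hG7⟩ := hGRM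
  obtain ⟨hGa, _⟩ := hGBD
  obtain ⟨C, hC, hS⟩ := hLFA
  intro R₀ v₀ hR hv₀
  refine ⟨Real.exp (2 * (3 / 4 + 2 * Real.log (2 * R₀) + 2 * (2 * C + 7))) + 4 * R₀ ^ 2 +
      2 * v₀ + 4, by positivity, ?_⟩
  set α := Real.exp (2 * (3 / 4 + 2 * Real.log (2 * R₀) + 2 * (2 * C + 7))) + 4 * R₀ ^ 2 +
      2 * v₀ + 4 with hα
  have hα4 : 4 ≤ α := by
    have h0 := Real.exp_pos (2 * (3 / 4 + 2 * Real.log (2 * R₀) + 2 * (2 * C + 7)))
    have : 0 < R₀ ^ 2 := by positivity
    rw [hα]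
    linarith
  filter_upwards [eventually_ge_atTop (1 : ℝ)] with r hr
  intro K u M v hK hv hvv₀ hsmall n
  have hr0 : 0 < r := by linarith
  induction n using Nat.strong_induction_on with
  | _ n ih =>
  by_cases hn : (n : ℝ) ≤ α * r ^ 2
  · exact hsmall n hn
  rw [not_le] at hn
  intro z hz
  by_contra hcon
  rw [not_le] at hcon
  have hr2 : 1 ≤ r ^ 2 := one_le_pow₀ hr
  have hn4 : (4 : ℝ) < n := by nlinarith
  have hn4' : 4 < n := by exact_mod_cast hn4
  -- the determinant is not zero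
  have hprod : 0 < ∏ i, Real.exp (-(2 * r ^ 2 * u (z i))) :=
    Finset.prod_pos fun i _ => Real.exp_pos _
  have hdet : 0 < ‖(Gm M r z).det‖ := by
    by_contra h
    have h' : ‖(Gm M r z).det‖ = 0 := le_antisymm (not_lt.mp h) (norm_nonneg _)
    rw [h', zero_mul] at hcon
    exact absurd hcon (not_lt.mpr (Real.exp_pos _).le)
  have hnM : n ≤ M := by
    by_contra h
    have := hG7 M n r z (not_le.mp h)
    rw [this, norm_zero] at hdet
    exact lt_irrefl _ hdet
  have hle := hGa R₀ r n M z hR hr0 (fun i => hK _ (hz i))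
  set Ein : ℝ := 1 + (n : ℝ) * 16 ^ n * Real.exp (4 * R₀ ^ 2 * r ^ 2) with hEin
  have hEin0 : 0 < Ein := by rw [hEin]; positivity
  have hvd : 0 < vdm z := by
    rcases (MAS.vdm_nonneg z).lt_or_eq with h | h
    · exact h
    · rw [← h] at hle
      simp at hle
      rw [hle] at hdet
      simp at hdet
  have hcn := MAS.cst_pos r hr0 n
  -- the number of points m
  set m : ℕ := n / 2 with hm
  have hm2 : 2 ≤ m := by omega
  have hmn : 2 * m ≤ n := by omega
  have hmn' : n ≤ 2 * m + 1 := by omega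
  have hcm := MAS.cst_pos r hr0 m
  have hm2' : (2 : ℝ) ≤ m := by exact_mod_cast hm2
  have hm1 : (0 : ℝ) < (m : ℝ) - 1 := by linarith
  have hm0 : (0 : ℝ) < m := by linarith
  -- FEK
  have hfek := hFEK K (fun x y => ‖x - y‖) u (r ^ 2 / ((m : ℝ) - 1))
    ((v * r ^ 4 - Real.log (cst r m)) / ((m : ℝ) * ((m : ℝ) - 1))) m hm2
    (fun x y => norm_nonneg _) (fun x y => norm_sub_rev _ _) (by
      intro x hx
      have h1 := ih m (by omega) x hx
      have h2 := hG4 m M m r x (by omega)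
      rw [hG3] at h2
      have h3 : vdm x ^ 2 * cst r m * ∏ i, Real.exp (-(2 * r ^ 2 * u (x i))) ≤
          Real.exp (v * r ^ 4) :=
        (mul_le_mul_of_nonneg_right h2 (Finset.prod_nonneg fun i _ => (Real.exp_pos _).le)).trans h1
      have h4 : ∏ i, Real.exp (-(2 * r ^ 2 * u (x i))) =
          Real.exp (-(2 * (r ^ 2 / ((m : ℝ) - 1)) * ((m : ℝ) - 1) * ∑ i, u (x i))) := by
        rw [← Real.exp_sum]
        congr 1
        rw [Finset.sum_neg_distrib, ← Finset.mul_sum]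
        field_simp
      rw [h4] at h3
      have h5 : Real.exp ((v * r ^ 4 - Real.log (cst r m)) / ((m : ℝ) * ((m : ℝ) - 1)) *
          ((m : ℝ) * ((m : ℝ) - 1))) = Real.exp (v * r ^ 4) / cst r m := by
        rw [div_mul_cancel₀ _ (by positivity), Real.exp_sub, Real.exp_log hcm]
      rw [h5, le_div_iff₀ hcm]
      have h6 : (∏ i, ∏ j ∈ Finset.Ioi i, ‖x i - x j‖) = vdm x := rfl
      rw [h6]
      linarith) n (by omega) z hz
  have h6 : (∏ i, ∏ j ∈ Finset.Ioi i, ‖z i - z j‖) = vdm z := rfl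
  beta_reduce at hfek
  rw [h6] at hfek
  -- logarithms
  have hV1 : Real.log (vdm z ^ 2) - 2 * r ^ 2 * (((n : ℝ) - 1) / ((m : ℝ) - 1)) * ∑ i, u (z i) ≤
      (v * r ^ 4 - Real.log (cst r m)) / ((m : ℝ) * ((m : ℝ) - 1)) *
        ((n : ℝ) * ((n : ℝ) - 1)) := by
    have h7 := Real.log_le_log (mul_pos (pow_pos hvd 2) (Real.exp_pos _)) hfek
    rw [Real.log_mul (pow_pos hvd 2).ne' (Real.exp_pos _).ne', Real.log_exp, Real.log_exp] at h7
    have h8 : 2 * (r ^ 2 / ((m : ℝ) - 1)) * ((n : ℝ) - 1) * ∑ i, u (z i) =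
        2 * r ^ 2 * (((n : ℝ) - 1) / ((m : ℝ) - 1)) * ∑ i, u (z i) := by
      ring
    rw [h8] at h7
    linarith
  have hV2 : v * r ^ 4 + 2 * r ^ 2 * ∑ i, u (z i) <
      Real.log (vdm z ^ 2) + Real.log (cst r n) + (n : ℝ) * Real.log Ein := by
    have h7 := Real.log_lt_log (Real.exp_pos _) hcon
    rw [Real.log_exp, Real.log_mul hdet.ne' hprod.ne', ← Real.exp_sum, Real.log_exp,
      Finset.sum_neg_distrib, ← Finset.mul_sum] at h7
    have h8 := Real.log_le_log hdet hle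
    rw [Real.log_mul (mul_pos (pow_pos hvd 2) hcn).ne' (pow_pos hEin0 n).ne',
      Real.log_mul (pow_pos hvd 2).ne' hcn.ne', Real.log_pow Ein] at h8
    linarith
  have hVV : Real.log (vdm z ^ 2) ≤ 2 * ((n : ℝ) * ((n : ℝ) - 1) * Real.log (2 * R₀)) := by
    have h7 := Real.log_le_log hvd (MAS.vdm_le z R₀ hR (fun i => hK _ (hz i)))
    rw [Real.log_pow, Real.log_pow] at h7
    rw [Real.log_pow]
    have h8 : ((n - 1 : ℕ) : ℝ) = (n : ℝ) - 1 := by
      rw [Nat.cast_sub (by omega)]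
      norm_num
    rw [h8] at h7
    push_cast
    linarith
  have hEE : (n : ℝ) * Real.log Ein ≤ (n : ℝ) * (Real.log 2 + Real.log n +
      n * Real.log 16 + 4 * R₀ ^ 2 * r ^ 2) := by
    apply mul_le_mul_of_nonneg_left _ (by positivity)
    have hn0 : (0 : ℝ) < n := by linarith
    have h7 : Ein ≤ 2 * ((n : ℝ) * 16 ^ n * Real.exp (4 * R₀ ^ 2 * r ^ 2)) := by
      have h8 : 1 ≤ (n : ℝ) * 16 ^ n * Real.exp (4 * R₀ ^ 2 * r ^ 2) := by
        have h9 : (1 : ℝ) ≤ n := by linarith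
        have h10 : (1 : ℝ) ≤ 16 ^ n := one_le_pow₀ (by norm_num)
        have h11 : 1 ≤ Real.exp (4 * R₀ ^ 2 * r ^ 2) := Real.one_le_exp (by positivity)
        have h12 : 1 ≤ (n : ℝ) * 16 ^ n := one_le_mul_of_one_le_of_one_le h9 h10
        exact one_le_mul_of_one_le_of_one_le h12 h11
      rw [hEin]
      linarith
    have h13 := Real.log_le_log hEin0 h7
    rw [Real.log_mul (by norm_num) (by positivity), Real.log_mul (by positivity) (by positivity),
      Real.log_mul (by positivity) (by positivity), Real.log_exp, Real.log_pow] at h13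
    linarith
  exact MAS.key R₀ v₀ C α r n m (Real.log (cst r n)) (Real.log (cst r m)) _ _
    (Real.log (vdm z ^ 2)) (∑ i, u (z i)) ((n : ℝ) * Real.log Ein) v hR hv₀ hC le_rfl hr hn hm2'
    (by exact_mod_cast hmn) (by exact_mod_cast hmn') (MAS.log_cst r hr0 n) (MAS.log_cst r hr0 m)
    (hS n (by omega)) (hS m (by omega)) hVV hEE hvv₀ hV1 hV2

end Pool.Agent.HX
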