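import Pool.Agent.HX.Stmts

/-!
# The minimax theorem
-/

namespace Pool.Agent.HX

open MeasureTheory ProbabilityTheory Filter Topology Pool.Agent.GH Pool.Agent.HA
open scoped ComplexOrder

namespace MMX

theorem DD_nonneg {Y : Type} [MeasurableSpace Y] (a : Measure Y) {N : ℕ} (φ : Fin N → Y → ℂ)
    (ψ : Y → ℝ) : 0 ≤ DD a φ ψ := norm_nonneg _

/-- convex combination of two probability measures -/
theorem exists_comb {Y : Type} [MeasurableSpace Y] (a b : ProbabilityMeasure Y) (t : ℝ)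
    (h0 : 0 ≤ t) (h1 : t ≤ 1) : ∃ c : ProbabilityMeasure Y,
      (c : Measure Y) = ENNReal.ofReal t • (a : Measure Y) +
        ENNReal.ofReal (1 - t) • (b : Measure Y) := by
  refine ⟨⟨ENNReal.ofReal t • (a : Measure Y) + ENNReal.ofReal (1 - t) • (b : Measure Y), ⟨?_⟩⟩,
    rfl⟩
  rw [Measure.add_apply, Measure.smul_apply, Measure.smul_apply, measure_univ, measure_univ,
    smul_eq_mul, smul_eq_mul, mul_one, mul_one, ← ENNReal.ofReal_add h0 (by linarith)]
  simp

/-- separation of a convex set from a quadrant -/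
theorem separate {m : ℕ} (X : Set (Fin m → ℝ)) (hX : Convex ℝ X) (hne : X.Nonempty) (β : ℝ)
    (h : ∀ x ∈ X, ∃ i, x i ≤ β) :
    ∃ t : Fin m → ℝ, (∀ i, 0 ≤ t i) ∧ ∑ i, t i = 1 ∧ ∀ x ∈ X, ∑ i, t i * x i ≤ β := by
  classical
  have hO : IsOpen (Set.pi Set.univ fun _ : Fin m => Set.Ioi β) :=
    isOpen_set_pi Set.finite_univ fun _ _ => isOpen_Ioi
  have hOc : Convex ℝ (Set.pi Set.univ fun _ : Fin m => Set.Ioi β) :=
    convex_pi fun _ _ => convex_Ioi β
  have hd : Disjoint (Set.pi Set.univ fun _ : Fin m => Set.Ioi β) X := by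
    rw [Set.disjoint_left]
    intro x hx hxX
    obtain ⟨i, hi⟩ := h x hxX
    have := hx i (Set.mem_univ i)
    rw [Set.mem_Ioi] at this
    linarith
  obtain ⟨f, u, hf1, hf2⟩ := geometric_hahn_banach_open hOc hO hX hd
  have hfs : ∀ x : Fin m → ℝ, f x = ∑ i, x i * f (Pi.single i 1) := by
    intro x
    conv_lhs => rw [pi_eq_sum_univ' x]
    rw [map_sum]
    refine Finset.sum_congr rfl fun i _ => ?_
    rw [map_smul, smul_eq_mul]
  -- the coefficients are nonpositive
  have hs : ∀ i, f (Pi.single i 1) ≤ 0 := by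
    intro i
    by_contra hi
    push Not at hi
    have hx0 : (fun _ : Fin m => β + 1) ∈ Set.pi Set.univ fun _ : Fin m => Set.Ioi β := by
      intro j _
      simp
    have h1 := hf1 _ hx0
    have hN : 0 ≤ (u - f (fun _ : Fin m => β + 1)) / f (Pi.single i 1) :=
      div_nonneg (by linarith) hi.le
    have hx1 : (fun _ : Fin m => β + 1) +
        ((u - f (fun _ : Fin m => β + 1)) / f (Pi.single i 1)) • (Pi.single i (1 : ℝ)) ∈
        Set.pi Set.univ fun _ : Fin m => Set.Ioi β := by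
      intro j _
      rw [Set.mem_Ioi, Pi.add_apply, Pi.smul_apply, smul_eq_mul]
      have : 0 ≤ (Pi.single i (1 : ℝ) : Fin m → ℝ) j := by
        rw [Pi.single_apply]
        split_ifs
        · exact zero_le_one
        · exact le_rfl
      nlinarith [mul_nonneg hN this]
    have h2 := hf1 _ hx1
    rw [map_add, map_smul, smul_eq_mul, div_mul_cancel₀ _ hi.ne'] at h2
    linarith
  have hpos : 0 < ∑ i, -f (Pi.single i 1) := by
    have h0 : 0 ≤ ∑ i, -f (Pi.single i 1) :=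
      Finset.sum_nonneg fun i _ => by linarith [hs i]
    rcases h0.lt_or_eq with h1 | h1
    · exact h1
    · exfalso
      have h2 : ∀ i, -f (Pi.single i 1) = 0 := fun i =>
        (Finset.sum_eq_zero_iff_of_nonneg fun i _ => by linarith [hs i]).1 h1.symm i
          (Finset.mem_univ i)
      have h3 : ∀ x, f x = 0 := by
        intro x
        rw [hfs]
        refine Finset.sum_eq_zero fun i _ => ?_
        have := h2 i
        rw [neg_eq_zero] at this
        rw [this, mul_zero]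
      obtain ⟨x, hx⟩ := hne
      have h4 := hf2 x hx
      have h5 := hf1 (fun _ => β + 1) (fun j _ => by simp)
      rw [h3] at h4 h5
      linarith
  refine ⟨fun i => -f (Pi.single i 1) / ∑ j, -f (Pi.single j 1), fun i =>
    div_nonneg (by linarith [hs i]) hpos.le, ?_, fun x hx => ?_⟩
  · rw [← Finset.sum_div, div_self hpos.ne']
  · have h1 : ∑ i, -f (Pi.single i 1) / (∑ j, -f (Pi.single j 1)) * x i =
        -f x / ∑ j, -f (Pi.single j 1) := by
      rw [hfs x, ← Finset.sum_neg_distrib, Finset.sum_div]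
      refine Finset.sum_congr rfl fun i _ => ?_
      ring
    rw [h1, div_le_iff₀ hpos]
    have h2 := hf2 x hx
    have h3 : ∀ δ : ℝ, 0 < δ → -u ≤ (β + δ) * ∑ j, -f (Pi.single j 1) := by
      intro δ hδ
      have h4 := hf1 (fun _ => β + δ) (fun j _ => by simp [hδ])
      rw [hfs] at h4
      have h5 : ∑ i, (β + δ) * f (Pi.single i 1) = -((β + δ) * ∑ j, -f (Pi.single j 1)) := by
        rw [Finset.mul_sum, ← Finset.sum_neg_distrib]
        refine Finset.sum_congr rfl fun i _ => ?_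
        ring
      have h6 : ∑ i, (fun _ : Fin m => β + δ) i * f (Pi.single i 1) =
        ∑ i, (β + δ) * f (Pi.single i 1) := rfl
      rw [h6, h5] at h4
      linarith
    have h4 : -u ≤ β * ∑ j, -f (Pi.single j 1) := by
      refine le_of_forall_pos_le_add fun ε hε => ?_
      have h5 := h3 (ε / ∑ j, -f (Pi.single j 1)) (div_pos hε hpos)
      rw [add_mul, div_mul_cancel₀ _ hpos.ne'] at h5
      exact h5
    linarith

end MMX

theorem MMX_thm (hDDP : DDP_Stmt) : MMX_Stmt := by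
  classical
  intro Y _ _ _ _ _ N φ C B hφ hC hne hcont hB hcov
  obtain ⟨hD1, hD2, hD3, hD4⟩ := hDDP Y N φ hφ
  obtain ⟨ψ₀, hψ₀⟩ := hne
  -- finite subcover
  obtain ⟨s, hs⟩ := isCompact_univ.elim_finite_subcover
    (fun ψ : C => {a : ProbabilityMeasure Y | DD (a : Measure Y) φ ψ.1 < B})
    (fun ψ => isOpen_lt (hD1 ψ.1 (hcont ψ.1 ψ.2)) continuous_const)
    (fun a _ => by
      obtain ⟨ψ, hψ, h⟩ := hcov a
      exact Set.mem_iUnion.2 ⟨⟨ψ, hψ⟩, h⟩)
  let e := s.equivFin
  let Ψ : Fin s.card → Y → ℝ := fun i => (e.symm i).1.1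
  have hΨC : ∀ i, Ψ i ∈ C := fun i => (e.symm i).1.2
  have hΨc : ∀ i, Continuous (Ψ i) := fun i => hcont _ (hΨC i)
  have hcover : ∀ a : ProbabilityMeasure Y, ∃ i, DD (a : Measure Y) φ (Ψ i) < B := by
    intro a
    have h := hs (Set.mem_univ a)
    simp only [Set.mem_iUnion] at h
    obtain ⟨ψ, hψs, hψ⟩ := h
    refine ⟨e ⟨ψ, hψs⟩, ?_⟩
    have : Ψ (e ⟨ψ, hψs⟩) = ψ.1 := by
      change (e.symm (e ⟨ψ, hψs⟩)).1.1 = ψ.1
      rw [Equiv.symm_apply_apply]
    rw [this]
    exact hψ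
  -- the case of a vanishing determinant
  have hzero : ∀ a : ProbabilityMeasure Y, ∀ ψ ∈ C, (¬ ∀ i, 0 < DD (a : Measure Y) φ (Ψ i)) →
      DD (a : Measure Y) φ ψ ≤ B := by
    intro a ψ hψ h
    push Not at h
    obtain ⟨i, hi⟩ := h
    have h0 : DD (a : Measure Y) φ (Ψ i) = 0 := le_antisymm hi (MMX.DD_nonneg _ _ _)
    rw [hD4 (Ψ i) ψ a (hΨc i) (hcont ψ hψ) h0]
    exact hB.le
  let X : Set (Fin s.card → ℝ) := {x | ∃ a : ProbabilityMeasure Y,
    (∀ i, 0 < DD (a : Measure Y) φ (Ψ i)) ∧ ∀ i, x i ≤ Real.log (DD (a : Measure Y) φ (Ψ i))}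
  by_cases hXne : X.Nonempty
  · have hXc : Convex ℝ X := by
      intro x hx y hy p q hp hq hpq
      obtain ⟨a, ha1, ha2⟩ := hx
      obtain ⟨b, hb1, hb2⟩ := hy
      have hq' : q = 1 - p := by linarith
      obtain ⟨c, hc⟩ := MMX.exists_comb a b p hp (by linarith)
      have h1 : ∀ i, DD (a : Measure Y) φ (Ψ i) ^ p * DD (b : Measure Y) φ (Ψ i) ^ (1 - p) ≤
          DD (c : Measure Y) φ (Ψ i) := fun i =>
        hD2 (Ψ i) a b c p (hΨc i) hp (by linarith) hc
      have h2 : ∀ i, 0 < DD (a : Measure Y) φ (Ψ i) ^ p * DD (b : Measure Y) φ (Ψ i) ^ (1 - p) :=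
        fun i => mul_pos (Real.rpow_pos_of_pos (ha1 i) _) (Real.rpow_pos_of_pos (hb1 i) _)
      refine ⟨c, fun i => lt_of_lt_of_le (h2 i) (h1 i), fun i => ?_⟩
      have h3 := Real.log_le_log (h2 i) (h1 i)
      rw [Real.log_mul (Real.rpow_pos_of_pos (ha1 i) _).ne' (Real.rpow_pos_of_pos (hb1 i) _).ne',
        Real.log_rpow (ha1 i), Real.log_rpow (hb1 i)] at h3
      refine le_trans ?_ h3
      rw [Pi.add_apply, Pi.smul_apply, Pi.smul_apply, smul_eq_mul, smul_eq_mul, hq']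
      exact add_le_add (mul_le_mul_of_nonneg_left (ha2 i) hp)
        (mul_le_mul_of_nonneg_left (hb2 i) (by linarith))
    obtain ⟨t, ht0, ht1, ht2⟩ := MMX.separate X hXc hXne (Real.log B) (by
      rintro x ⟨a, ha1, ha2⟩
      obtain ⟨i, hi⟩ := hcover a
      exact ⟨i, (ha2 i).trans (Real.log_le_log (ha1 i) hi.le)⟩)
    have hmem : (fun y => ∑ i, t i * Ψ i y) ∈ C := by
      have h1 := hC.sum_mem (t := Finset.univ) (w := t) (z := Ψ) (fun i _ => ht0 i) ht1
        (fun i _ => hΨC i)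
      have h2 : ∑ i, t i • Ψ i = fun y => ∑ i, t i * Ψ i y := by
        ext y
        rw [Finset.sum_apply]
        rfl
      rwa [h2] at h1
    refine ⟨_, hmem, fun a => ?_⟩
    by_cases ha : ∀ i, 0 < DD (a : Measure Y) φ (Ψ i)
    · refine (hD3 s.card Ψ t a hΨc ht0 ht1).trans ?_
      have h1 := ht2 (fun i => Real.log (DD (a : Measure Y) φ (Ψ i))) ⟨a, ha, fun i => le_rfl⟩
      have h2 : ∏ i, DD (a : Measure Y) φ (Ψ i) ^ t i =
          Real.exp (∑ i, t i * Real.log (DD (a : Measure Y) φ (Ψ i))) := by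
        rw [Real.exp_sum]
        refine Finset.prod_congr rfl fun i _ => ?_
        rw [Real.rpow_def_of_pos (ha i), mul_comm]
      rw [h2]
      calc Real.exp (∑ i, t i * Real.log (DD (a : Measure Y) φ (Ψ i)))
          ≤ Real.exp (Real.log B) := Real.exp_le_exp.2 h1
        _ = B := Real.exp_log hB
    · exact hzero a _ hmem ha
  · refine ⟨ψ₀, hψ₀, fun a => hzero a ψ₀ hψ₀ fun ha => hXne ?_⟩
    exact ⟨fun i => Real.log (DD (a : Measure Y) φ (Ψ i)), a, ha, fun i => le_rfl⟩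

end Pool.Agent.HX
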