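import Pool.Agent.HX.Stmts

/-!
Products of powers: a convex combination of logarithms of functions of the class `Cl` is bounded
from above, up to a small error, by `(1/m) log|h|` with one function `h` of the class `Hol K m`.
-/

namespace Pool.Agent.HX

open MeasureTheory ProbabilityTheory Filter Topology Pool.Agent.GH Pool.Agent.HA

namespace PRW

/-- `|log|g||` is bounded on a compact set without zeros. -/
lemma log_bound (K : Set ℂ) (hK : IsCompact K) (g : ℂ → ℂ) (hg : Continuous g)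
    (hz : ∀ z ∈ K, g z ≠ 0) : ∃ C : ℝ, 0 ≤ C ∧ ∀ z ∈ K, |Real.log ‖g z‖| ≤ C := by
  have hc : ContinuousOn (fun z => Real.log ‖g z‖) K := by
    apply ContinuousOn.log
    · exact hg.norm.continuousOn
    · intro z hzK
      exact norm_ne_zero_iff.mpr (hz z hzK)
  obtain ⟨C, hC⟩ := hK.exists_bound_of_continuousOn hc
  refine ⟨max C 0, le_max_right _ _, fun z hzK => ?_⟩
  have := hC z hzK
  rw [Real.norm_eq_abs] at this
  exact this.trans (le_max_left _ _)

/-- The same for finitely many functions. -/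
lemma log_bounds (K : Set ℂ) (hK : IsCompact K) (n : ℕ) (g : Fin n → ℂ → ℂ)
    (hg : ∀ i, Continuous (g i)) (hz : ∀ i, ∀ z ∈ K, g i z ≠ 0) :
    ∃ C : ℝ, 0 ≤ C ∧ ∀ i, ∀ z ∈ K, |Real.log ‖g i z‖| ≤ C := by
  choose C hC0 hC using fun i => log_bound K hK (g i) (hg i) (hz i)
  refine ⟨∑ i, C i, Finset.sum_nonneg fun i _ => hC0 i, fun i z hzK => ?_⟩
  exact (hC i z hzK).trans (Finset.single_le_sum (fun j _ => hC0 j) (Finset.mem_univ i))

/-- The upper bound for the product. -/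
lemma upper (n : ℕ) (r ε A : ℝ) (m : ℕ) (k : Fin n → ℕ) (x : Fin n → ℝ) (hr : 0 < r) (hε : 0 < ε)
    (hA : 0 ≤ A) (hx0 : ∀ i, 0 ≤ x i)
    (hx : ∀ i, x i ≤ Real.exp (ε * r ^ 2 + (1 / 2 + ε) * r ^ 2 * A))
    (hk : (∑ i, (k i : ℝ)) * ((1 + 2 * ε) * r ^ 2) ≤ m) :
    Real.exp (-(ε * m)) * ∏ i, x i ^ k i ≤ Real.exp (m * A / 2) := by
  have h1 : ∏ i, x i ^ k i ≤ ∏ i, Real.exp ((k i : ℝ) * (ε * r ^ 2 + (1 / 2 + ε) * r ^ 2 * A)) := by
    apply Finset.prod_le_prod
    · intro i _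
      exact pow_nonneg (hx0 i) _
    · intro i _
      rw [Real.exp_nat_mul]
      exact pow_le_pow_left₀ (hx0 i) (hx i) _
  have h2 : ∏ i, Real.exp ((k i : ℝ) * (ε * r ^ 2 + (1 / 2 + ε) * r ^ 2 * A)) =
      Real.exp ((∑ i, (k i : ℝ)) * (ε * r ^ 2 + (1 / 2 + ε) * r ^ 2 * A)) := by
    rw [← Real.exp_sum, Finset.sum_mul]
  calc Real.exp (-(ε * m)) * ∏ i, x i ^ k i
      ≤ Real.exp (-(ε * m)) *
        Real.exp ((∑ i, (k i : ℝ)) * (ε * r ^ 2 + (1 / 2 + ε) * r ^ 2 * A)) := by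
        rw [← h2]
        exact mul_le_mul_of_nonneg_left h1 (Real.exp_pos _).le
    _ = Real.exp (-(ε * m) + (∑ i, (k i : ℝ)) * (ε * r ^ 2 + (1 / 2 + ε) * r ^ 2 * A)) := by
        rw [Real.exp_add]
    _ ≤ Real.exp (m * A / 2) := by
        apply Real.exp_le_exp.mpr
        have hS : 0 ≤ ∑ i, (k i : ℝ) := Finset.sum_nonneg fun i _ => Nat.cast_nonneg _
        set S := ∑ i, (k i : ℝ)
        have hr2 : 0 < r ^ 2 := by positivity
        have h3 : S * r ^ 2 ≤ m := by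
          have : S * r ^ 2 ≤ S * ((1 + 2 * ε) * r ^ 2) := by
            apply mul_le_mul_of_nonneg_left _ hS
            nlinarith
          linarith
        have h4 : S * (ε * r ^ 2 + (1 / 2 + ε) * r ^ 2 * A) =
            ε * (S * r ^ 2) + (S * ((1 + 2 * ε) * r ^ 2)) * (A / 2) := by ring
        rw [h4]
        have h5 : ε * (S * r ^ 2) ≤ ε * m := mul_le_mul_of_nonneg_left h3 hε.le
        have h6 : (S * ((1 + 2 * ε) * r ^ 2)) * (A / 2) ≤ m * (A / 2) :=
          mul_le_mul_of_nonneg_right hk (by positivity)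
        linarith

end PRW

open PRW in
theorem PRW_thm : PRW_Stmt := by
  intro K R₀ r ε n t g hK hR₀ hKR hr hε hε2 ht hts hg
  have hr2 : 0 < r ^ 2 := by positivity
  have hR2 : 0 ≤ R₀ ^ 2 := by positivity
  obtain ⟨Λ, hΛ0, hΛ⟩ := log_bounds K hK n g (fun i => (hg i).1.continuous) (fun i => (hg i).2.1)
  obtain ⟨m, hm⟩ := exists_nat_ge (max 1 (n * Λ / (2 * ε)))
  have hm1 : (1 : ℝ) ≤ m := (le_max_left _ _).trans hm
  have hmΛ : n * Λ / (2 * ε) ≤ m := (le_max_right _ _).trans hm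
  have hmpos : (0 : ℝ) < m := by linarith
  have hd : 0 < (1 + 2 * ε) * r ^ 2 := by positivity
  set q : Fin n → ℝ := fun i => t i * m / ((1 + 2 * ε) * r ^ 2) with hq
  have hq0 : ∀ i, 0 ≤ q i := fun i => by
    have := ht i
    simp only [hq]
    positivity
  set k : Fin n → ℕ := fun i => ⌊q i⌋₊ with hk
  have hkq : ∀ i, (k i : ℝ) ≤ q i := fun i => Nat.floor_le (hq0 i)
  have hqk : ∀ i, q i < k i + 1 := fun i => Nat.lt_floor_add_one (q i)
  have hqs : ∑ i, q i = m / ((1 + 2 * ε) * r ^ 2) := by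
    simp only [hq]
    rw [← Finset.sum_div, ← Finset.sum_mul, hts, one_mul]
  have hks : (∑ i, (k i : ℝ)) * ((1 + 2 * ε) * r ^ 2) ≤ m := by
    have h1 : ∑ i, (k i : ℝ) ≤ m / ((1 + 2 * ε) * r ^ 2) := by
      rw [← hqs]
      exact Finset.sum_le_sum fun i _ => hkq i
    exact (le_div_iff₀ hd).mp h1
  refine ⟨m, fun z => (Real.exp (-(ε * m)) : ℂ) * ∏ i, g i z ^ k i, ?_, ⟨?_, ?_, ?_⟩, ?_⟩
  · exact_mod_cast hm1
  · apply Differentiable.const_mul
    apply Differentiable.fun_finsetProd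
    intro i _
    exact (hg i).1.pow _
  · intro z hz
    apply mul_ne_zero
    · exact_mod_cast (Real.exp_pos _).ne'
    · rw [Finset.prod_ne_zero_iff]
      intro i _
      exact pow_ne_zero _ ((hg i).2.1 z hz)
  · intro z
    rw [norm_mul, Complex.norm_real, Real.norm_of_nonneg (Real.exp_pos _).le, norm_prod]
    simp only [norm_pow]
    exact upper n r ε (‖z‖ ^ 2) m k (fun i => ‖g i z‖) hr hε (by positivity)
      (fun i => norm_nonneg _) (fun i => (hg i).2.2 z) hks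
  · intro z hz
    have hgz : ∀ i, g i z ≠ 0 := fun i => (hg i).2.1 z hz
    have hlog : Real.log ‖(Real.exp (-(ε * m)) : ℂ) * ∏ i, g i z ^ k i‖ =
        -(ε * m) + ∑ i, (k i : ℝ) * Real.log ‖g i z‖ := by
      rw [norm_mul, Complex.norm_real, Real.norm_of_nonneg (Real.exp_pos _).le, norm_prod,
        Real.log_mul (Real.exp_pos _).ne', Real.log_exp, Real.log_prod]
      · congr 1
        apply Finset.sum_congr rfl
        intro i _
        rw [norm_pow, Real.log_pow]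
      · intro i _
        exact norm_ne_zero_iff.mpr (pow_ne_zero _ (hgz i))
      · rw [Finset.prod_ne_zero_iff]
        intro i _
        exact norm_ne_zero_iff.mpr (pow_ne_zero _ (hgz i))
    simp only [hlog]
    -- the lower bound for the sum
    set L : Fin n → ℝ := fun i => Real.log ‖g i z‖ with hL
    have hsum : ∑ i, q i * L i - n * Λ ≤ ∑ i, (k i : ℝ) * L i := by
      have h1 : ∀ i, q i * L i - Λ ≤ (k i : ℝ) * L i := by
        intro i
        have h2 : (q i - k i) * L i ≤ Λ := by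
          have h3 : |L i| ≤ Λ := hΛ i z hz
          have h4 : 0 ≤ q i - k i := by linarith [hkq i]
          have h5 : q i - k i ≤ 1 := by linarith [hqk i]
          calc (q i - k i) * L i ≤ (q i - k i) * |L i| :=
                mul_le_mul_of_nonneg_left (le_abs_self _) h4
            _ ≤ 1 * |L i| := mul_le_mul_of_nonneg_right h5 (abs_nonneg _)
            _ ≤ Λ := by linarith
        linarith
      have h6 := Finset.sum_le_sum fun i (_ : i ∈ Finset.univ) => h1 i
      rw [Finset.sum_sub_distrib] at h6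
      simpa using h6
    have hqL : ∑ i, q i * L i = m / (1 + 2 * ε) * ((∑ i, t i * L i) / r ^ 2) := by
      have h1 : ∀ i, q i * L i = (m / ((1 + 2 * ε) * r ^ 2)) * (t i * L i) := by
        intro i
        simp only [hq]
        ring
      rw [Finset.sum_congr rfl fun i _ => h1 i, ← Finset.mul_sum]
      field_simp
    set u : ℝ := (∑ i, t i * L i) / r ^ 2 with hu
    have hz2 : ‖z‖ ^ 2 ≤ R₀ ^ 2 := pow_le_pow_left₀ (norm_nonneg _) (hKR z hz) 2
    have hLup : ∀ i, L i ≤ (ε + (1 / 2 + ε) * R₀ ^ 2) * r ^ 2 := by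
      intro i
      have h1 : Real.log ‖g i z‖ ≤ ε * r ^ 2 + (1 / 2 + ε) * r ^ 2 * ‖z‖ ^ 2 := by
        have := Real.log_le_log (norm_pos_iff.mpr (hgz i)) ((hg i).2.2 z)
        rwa [Real.log_exp] at this
      have h2 : (1 / 2 + ε) * r ^ 2 * ‖z‖ ^ 2 ≤ (1 / 2 + ε) * r ^ 2 * R₀ ^ 2 :=
        mul_le_mul_of_nonneg_left hz2 (by positivity)
      have h3 : L i = Real.log ‖g i z‖ := rfl
      rw [h3]
      nlinarith
    have hu1 : u ≤ ε + (1 / 2 + ε) * R₀ ^ 2 := by
      rw [hu, div_le_iff₀ hr2]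
      calc ∑ i, t i * L i ≤ ∑ i, t i * ((ε + (1 / 2 + ε) * R₀ ^ 2) * r ^ 2) :=
            Finset.sum_le_sum fun i _ => mul_le_mul_of_nonneg_left (hLup i) (ht i)
        _ = (ε + (1 / 2 + ε) * R₀ ^ 2) * r ^ 2 := by
            rw [← Finset.sum_mul, hts, one_mul]
    have hU : ε + (1 / 2 + ε) * R₀ ^ 2 ≤ 1 / 2 + R₀ ^ 2 := by nlinarith
    have hu2 : u ≤ 1 / 2 + R₀ ^ 2 := hu1.trans hU
    -- comparison of u/(1+2ε) with u
    have hcmp : u - 2 * ε * (1 / 2 + R₀ ^ 2) ≤ u / (1 + 2 * ε) := by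
      rw [le_div_iff₀ (by positivity)]
      by_cases hu0 : 0 ≤ u
      · nlinarith [mul_nonneg hε.le hR2, mul_nonneg hε.le hε.le, mul_nonneg hε.le hu0,
          mul_nonneg (mul_nonneg hε.le hε.le) hR2]
      · push Not at hu0
        nlinarith [mul_nonneg hε.le hR2, mul_nonneg hε.le hε.le,
          mul_nonneg (mul_nonneg hε.le hε.le) hR2, mul_pos hε (neg_pos.mpr hu0)]
    rw [le_div_iff₀ hmpos]
    have hfin : m / (1 + 2 * ε) * u = m * (u / (1 + 2 * ε)) := by ring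
    have h7 : m * (u - 2 * ε * (1 / 2 + R₀ ^ 2)) ≤ m * (u / (1 + 2 * ε)) :=
      mul_le_mul_of_nonneg_left hcmp hmpos.le
    have h8 : n * Λ ≤ m * (2 * ε) := by
      rwa [div_le_iff₀ (by positivity)] at hmΛ
    rw [hqL, hfin] at hsum
    have h9 : 0 ≤ m * (ε * R₀ ^ 2) := by positivity
    nlinarith

end Pool.Agent.HX
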