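import Pool.Agent.HX.Stmts

/-!
# PSD: determinants of positive semidefinite matrices
-/

namespace Pool.Agent.HX

open scoped ComplexOrder MatrixOrder
open Matrix Unitary

namespace PSD

/-- The determinant of `a + b E` for a Hermitian matrix `E`. -/
theorem det_affine {n : ℕ} {E : Matrix (Fin n) (Fin n) ℂ} (hE : E.IsHermitian) (a b : ℂ) :
    (a • (1 : Matrix (Fin n) (Fin n) ℂ) + b • E).det =
      ∏ i, (a + b * (hE.eigenvalues i : ℂ)) := by
  have h := hE.spectral_theorem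
  have h1 : a • (1 : Matrix (Fin n) (Fin n) ℂ) + b • E =
      conjStarAlgAut ℂ _ hE.eigenvectorUnitary
        (a • (1 : Matrix (Fin n) (Fin n) ℂ) +
          b • diagonal (RCLike.ofReal ∘ hE.eigenvalues)) := by
    conv_lhs => rw [h]
    rw [map_add, map_smul, map_smul, map_one]
  rw [h1, conjStarAlgAut_apply, det_mul_right_comm]
  have h2 : (hE.eigenvectorUnitary : Matrix (Fin n) (Fin n) ℂ) *
      (star (hE.eigenvectorUnitary : Matrix (Fin n) (Fin n) ℂ)) = 1 :=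
    Unitary.coe_mul_star_self _
  have h3 : a • (1 : Matrix (Fin n) (Fin n) ℂ) +
      b • diagonal (RCLike.ofReal ∘ hE.eigenvalues) =
      diagonal (fun i => a + b * (hE.eigenvalues i : ℂ)) := by
    ext i j
    by_cases hij : i = j
    · subst hij
      simp
    · simp [hij, diagonal_apply_ne]
  rw [h3, det_mul, det_diagonal]
  have h4 := congrArg det h2
  rw [det_one] at h4
  rw [h4, one_mul]

/-- Simultaneous reduction. -/
theorem reduce {n : ℕ} {A B : Matrix (Fin n) (Fin n) ℂ} (hA : A.PosSemidef) (hB : B.PosSemidef)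
    (hd : A.det ≠ 0) : ∃ (c : ℝ) (e : Fin n → ℝ), 0 < c ∧ (∀ i, 0 ≤ e i) ∧
      ∀ a b : ℂ, ‖(a • A + b • B).det‖ = c * ‖∏ i, (a + b * (e i : ℂ))‖ := by
  obtain ⟨C, hC⟩ := CStarAlgebra.nonneg_iff_eq_star_mul_self.mp hA.nonneg
  rw [star_eq_conjTranspose] at hC
  have hCd : C.det ≠ 0 := by
    intro h0
    apply hd
    rw [hC, det_mul, h0, mul_zero]
  have hCu : IsUnit C.det := isUnit_iff_ne_zero.mpr hCd
  set E : Matrix (Fin n) (Fin n) ℂ := (C⁻¹)ᴴ * B * C⁻¹ with hEdef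
  have hE : E.PosSemidef := hB.conjTranspose_mul_mul_same C⁻¹
  have hBE : B = Cᴴ * E * C := by
    have h1 : Cᴴ * (C⁻¹)ᴴ = 1 := by
      rw [← conjTranspose_mul, nonsing_inv_mul _ hCu, conjTranspose_one]
    have h2 : C⁻¹ * C = 1 := nonsing_inv_mul _ hCu
    calc B = 1 * B * 1 := by rw [one_mul, mul_one]
      _ = (Cᴴ * (C⁻¹)ᴴ) * B * (C⁻¹ * C) := by rw [h1, h2]
      _ = Cᴴ * E * C := by rw [hEdef]; simp only [mul_assoc]
  refine ⟨‖C.det‖ ^ 2, hE.isHermitian.eigenvalues, by positivity,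
    hE.eigenvalues_nonneg, fun a b => ?_⟩
  have h3 : a • A + b • B = Cᴴ * (a • (1 : Matrix (Fin n) (Fin n) ℂ) + b • E) * C := by
    rw [mul_add, add_mul, mul_smul_comm, mul_smul_comm, smul_mul_assoc, smul_mul_assoc, mul_one,
      ← hC, ← hBE]
  rw [h3, det_mul, det_mul, det_conjTranspose, det_affine hE.isHermitian, norm_mul, norm_mul,
    norm_star]
  ring

theorem norm_prod_eq {n : ℕ} (e : Fin n → ℝ) (a b : ℝ) (ha : 0 ≤ a) (hb : 0 ≤ b)
    (he : ∀ i, 0 ≤ e i) :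
    ‖∏ i, ((a : ℂ) + (b : ℂ) * (e i : ℂ))‖ = ∏ i, (a + b * e i) := by
  rw [norm_prod]
  refine Finset.prod_congr rfl fun i _ => ?_
  rw [← Complex.ofReal_mul, ← Complex.ofReal_add, Complex.norm_real, Real.norm_eq_abs,
    abs_of_nonneg (add_nonneg ha (mul_nonneg hb (he i)))]

theorem mono {n : ℕ} {A B : Matrix (Fin n) (Fin n) ℂ} (hA : A.PosSemidef)
    (hB : (B - A).PosSemidef) : ‖A.det‖ ≤ ‖B.det‖ := by
  by_cases hd : A.det = 0
  · rw [hd, norm_zero]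
    exact norm_nonneg _
  obtain ⟨c, e, hc, he, h⟩ := reduce hA hB hd
  have h1 := h ((1 : ℝ) : ℂ) ((0 : ℝ) : ℂ)
  have h2 := h ((1 : ℝ) : ℂ) ((1 : ℝ) : ℂ)
  rw [norm_prod_eq e 1 0 zero_le_one le_rfl he] at h1
  rw [norm_prod_eq e 1 1 zero_le_one zero_le_one he] at h2
  have h3 : ((1 : ℝ) : ℂ) • A + ((0 : ℝ) : ℂ) • (B - A) = A := by simp
  have h4 : ((1 : ℝ) : ℂ) • A + ((1 : ℝ) : ℂ) • (B - A) = B := by simp
  rw [h3] at h1
  rw [h4] at h2
  rw [h1, h2]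
  refine mul_le_mul_of_nonneg_left ?_ hc.le
  refine Finset.prod_le_prod (fun i _ => by simp) fun i _ => ?_
  have := he i
  linarith

theorem conc {n : ℕ} {A B : Matrix (Fin n) (Fin n) ℂ} {t : ℝ} (hA : A.PosSemidef)
    (hB : B.PosSemidef) (ht0 : 0 ≤ t) (ht1 : t ≤ 1) :
    ‖A.det‖ ^ t * ‖B.det‖ ^ (1 - t) ≤ ‖((t : ℂ) • A + ((1 - t : ℝ) : ℂ) • B).det‖ := by
  rcases ht0.eq_or_lt with h0 | h0
  · subst h0
    simp
  by_cases hd : A.det = 0
  · rw [hd, norm_zero, Real.zero_rpow h0.ne', zero_mul]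
    exact norm_nonneg _
  obtain ⟨c, e, hc, he, h⟩ := reduce hA hB hd
  have h1 := h ((1 : ℝ) : ℂ) ((0 : ℝ) : ℂ)
  have h2 := h ((0 : ℝ) : ℂ) ((1 : ℝ) : ℂ)
  have h3 := h (t : ℂ) ((1 - t : ℝ) : ℂ)
  rw [norm_prod_eq e 1 0 zero_le_one le_rfl he] at h1
  rw [norm_prod_eq e 0 1 le_rfl zero_le_one he] at h2
  rw [norm_prod_eq e t (1 - t) ht0 (by linarith) he] at h3
  have h4 : ((1 : ℝ) : ℂ) • A + ((0 : ℝ) : ℂ) • B = A := by simp
  have h5 : ((0 : ℝ) : ℂ) • A + ((1 : ℝ) : ℂ) • B = B := by simp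
  rw [h4] at h1
  rw [h5] at h2
  rw [h1, h2, h3]
  have h6 : ∏ i : Fin n, ((1 : ℝ) + 0 * e i) = 1 := by simp
  have h7 : ∏ i : Fin n, ((0 : ℝ) + 1 * e i) = ∏ i, e i := by simp
  rw [h6, h7, mul_one, Real.mul_rpow hc.le (Finset.prod_nonneg fun i _ => he i), ← mul_assoc,
    ← Real.rpow_add hc]
  have h8 : t + (1 - t) = 1 := by ring
  rw [h8, Real.rpow_one]
  refine mul_le_mul_of_nonneg_left ?_ hc.le
  rw [← Real.finsetProd_rpow _ _ (fun i _ => he i)]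
  refine Finset.prod_le_prod (fun i _ => Real.rpow_nonneg (he i) _) fun i _ => ?_
  have h9 := Real.geom_mean_le_arith_mean2_weighted ht0 (by linarith : (0 : ℝ) ≤ 1 - t)
    zero_le_one (he i) h8
  rw [Real.one_rpow, one_mul, mul_one] at h9
  exact h9

end PSD

theorem PSD_thm : PSD_Stmt :=
  ⟨fun _ _ _ hA hB => PSD.mono hA hB, fun _ _ _ _ hA hB ht0 ht1 => PSD.conc hA hB ht0 ht1⟩

end Pool.Agent.HX
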