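import Pool.Agent.HX.Stmts

/-!
# Module SCA: transfer to larger scales
-/

set_option autoImplicit false

namespace Pool.Agent.HX

open MeasureTheory ProbabilityTheory Filter Topology Pool.Agent.GH Pool.Agent.HA

namespace SCA

theorem cst_pos {r : ℝ} (hr : 0 < r) (n : ℕ) : 0 < cst r n := by
  unfold cst
  exact Finset.prod_pos fun k _ => by positivity

theorem log_cst {r : ℝ} (hr : 0 < r) (n : ℕ) :
    Real.log (cst r n) = (n : ℝ) * ((n : ℝ) - 1) * Real.log r -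
      ∑ k ∈ Finset.range n, Real.log (k.factorial : ℝ) := by
  induction n with
  | zero => simp [cst]
  | succ n ih =>
    have h1 : cst r (n + 1) = cst r n * (r ^ (2 * n) / (n.factorial : ℝ)) := by
      unfold cst
      rw [Finset.prod_range_succ]
    rw [h1, Real.log_mul (cst_pos hr n).ne' (by positivity), ih, Finset.sum_range_succ,
      Real.log_div (by positivity) (by positivity), Real.log_pow]
    push_cast
    ring

/-- The exponent of a labelled point. -/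
noncomputable def ps (u : ℂ → ℝ) (x : ℂ × Bool) : ℝ :=
  if x.2 = true then u x.1 else ‖x.1‖ ^ 2 / 2

theorem wt_eq (r : ℝ) (u : ℂ → ℝ) (b : Bool) (z : ℂ) :
    wt r u b z = Real.exp (-(2 * r ^ 2 * ps u (z, b))) := by
  unfold wt ps
  cases b
  · rw [if_neg (by simp), if_neg (by simp)]
    congr 1
    ring
  · rw [if_pos rfl, if_pos rfl]

theorem prod_wt {n : ℕ} (r : ℝ) (u : ℂ → ℝ) (z : Fin n → ℂ) (b : Fin n → Bool) :
    ∏ i, wt r u (b i) (z i) = Real.exp (-(2 * r ^ 2 * ∑ i, ps u (z i, b i))) := by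
  rw [Finset.mul_sum, ← Finset.sum_neg_distrib, Real.exp_sum]
  exact Finset.prod_congr rfl fun i _ => wt_eq r u (b i) (z i)

/-- The monotonicity applied to the labelled points. -/
theorem step (hFEK : FEK_Stmt) {K : Set ℂ} {T r κ : ℝ} {u : ℂ → ℝ} {N : ℕ} {W : ℝ}
    (hN : 2 ≤ N) (hr : 0 < r) (hκ : κ * ((N : ℝ) - 1) = r ^ 2)
    (hBY : BY K T r u N (Real.exp W)) (N' : ℕ) (hNN : N ≤ N') (z : Fin N' → ℂ)
    (b : Fin N' → Bool) (hL : Lab K T z b) :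
    vdm z ^ 2 * Real.exp (-(2 * κ * ((N' : ℝ) - 1) * ∑ i, ps u (z i, b i))) ≤
      Real.exp ((W - Real.log (cst r N)) / ((N : ℝ) * ((N : ℝ) - 1)) *
        ((N' : ℝ) * ((N' : ℝ) - 1))) := by
  have hN2 : (2 : ℝ) ≤ N := by exact_mod_cast hN
  have hN1 : (0 : ℝ) < (N : ℝ) * ((N : ℝ) - 1) := by nlinarith
  refine hFEK (E := ℂ × Bool) {x | (x.2 = true → x.1 ∈ K) ∧ (x.2 = false → ‖x.1‖ ≤ T)}
    (fun x y => ‖x.1 - y.1‖) (ps u) κ _ N hN (fun x y => norm_nonneg _)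
    (fun x y => norm_sub_rev _ _) ?_ N' hNN (fun i => (z i, b i)) hL
  intro x hx
  have h1 := hBY (fun i => (x i).1) (fun i => (x i).2) hx
  rw [prod_wt] at h1
  have hc := cst_pos hr N
  have h2 : Real.exp W = cst r N * Real.exp (W - Real.log (cst r N)) := by
    rw [Real.exp_sub, Real.exp_log hc]
    field_simp
  rw [h2] at h1
  have h3 : (vdm fun i => (x i).1) ^ 2 * Real.exp (-(2 * r ^ 2 * ∑ i, ps u (x i))) ≤
      Real.exp (W - Real.log (cst r N)) := by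
    refine le_of_mul_le_mul_left ?_ hc
    calc cst r N * ((vdm fun i => (x i).1) ^ 2 * Real.exp (-(2 * r ^ 2 * ∑ i, ps u (x i))))
        = (vdm fun i => (x i).1) ^ 2 * cst r N *
          Real.exp (-(2 * r ^ 2 * ∑ i, ps u (x i))) := by ring
      _ ≤ _ := h1
  have e : 2 * κ * ((N : ℝ) - 1) = 2 * r ^ 2 := by
    rw [← hκ]
    ring
  rw [div_mul_cancel₀ _ hN1.ne', e]
  exact h3

/-- The bound at the larger scale. -/
theorem newBY (hFEK : FEK_Stmt) {K : Set ℂ} {T r r' κ Ψ : ℝ} {u : ℂ → ℝ} {N : ℕ} {W : ℝ}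
    (hN : 2 ≤ N) (hr : 0 < r) (hr' : 0 < r') (hκ : κ * ((N : ℝ) - 1) = r ^ 2)
    (hBY : BY K T r u N (Real.exp W)) (N' : ℕ) (hNN : N ≤ N')
    (h1 : r' ^ 2 ≤ κ * ((N' : ℝ) - 1)) (h2 : κ * ((N' : ℝ) - 1) ≤ r' ^ 2 + κ)
    (hΨ : 0 ≤ Ψ) (hKΨ : ∀ z ∈ K, |u z| ≤ Ψ) (hT : T ^ 2 / 2 ≤ Ψ) :
    BY K T r' u N' (Real.exp ((W - Real.log (cst r N)) / ((N : ℝ) * ((N : ℝ) - 1)) *
        ((N' : ℝ) * ((N' : ℝ) - 1)) + Real.log (cst r' N') + 2 * κ * N' * Ψ)) := by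
  intro z b hL
  have hs := step hFEK hN hr hκ hBY N' hNN z b hL
  rw [prod_wt]
  have hc := cst_pos hr' N'
  set σ : ℝ := ∑ i, ps u (z i, b i) with hσ
  have hps : ∀ i, ps u (z i, b i) ≤ Ψ := by
    intro i
    unfold ps
    cases hb : b i
    · rw [if_neg (by simp)]
      have h3 := (hL i).2 hb
      have h4 : ‖z i‖ ^ 2 ≤ T ^ 2 := pow_le_pow_left₀ (norm_nonneg _) h3 2
      simp only
      linarith
    · rw [if_pos rfl]
      exact (abs_le.1 (hKΨ _ ((hL i).1 hb))).2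
  have hσle : σ ≤ N' * Ψ := by
    rw [hσ]
    refine (Finset.sum_le_sum fun i _ => hps i).trans ?_
    rw [Finset.sum_const, Finset.card_univ, Fintype.card_fin, nsmul_eq_mul]
  have hd0 : 0 ≤ κ * ((N' : ℝ) - 1) - r' ^ 2 := by linarith
  have hN'0 : (0 : ℝ) ≤ N' := Nat.cast_nonneg _
  have hexp : 2 * (κ * ((N' : ℝ) - 1) - r' ^ 2) * σ ≤ 2 * κ * N' * Ψ := by
    calc 2 * (κ * ((N' : ℝ) - 1) - r' ^ 2) * σ
        ≤ 2 * (κ * ((N' : ℝ) - 1) - r' ^ 2) * (N' * Ψ) :=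
          mul_le_mul_of_nonneg_left hσle (by linarith)
      _ ≤ 2 * κ * (N' * Ψ) := mul_le_mul_of_nonneg_right (by linarith) (by positivity)
      _ = 2 * κ * N' * Ψ := by ring
  have e1 : Real.exp (-(2 * r' ^ 2 * σ)) =
      Real.exp (-(2 * κ * ((N' : ℝ) - 1) * σ)) *
        Real.exp (2 * (κ * ((N' : ℝ) - 1) - r' ^ 2) * σ) := by
    rw [← Real.exp_add]
    congr 1
    ring
  rw [Real.exp_add, Real.exp_add, Real.exp_log hc, e1]
  calc vdm z ^ 2 * cst r' N' * (Real.exp (-(2 * κ * ((N' : ℝ) - 1) * σ)) *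
        Real.exp (2 * (κ * ((N' : ℝ) - 1) - r' ^ 2) * σ))
      = (vdm z ^ 2 * Real.exp (-(2 * κ * ((N' : ℝ) - 1) * σ))) * cst r' N' *
        Real.exp (2 * (κ * ((N' : ℝ) - 1) - r' ^ 2) * σ) := by ring
    _ ≤ Real.exp ((W - Real.log (cst r N)) / ((N : ℝ) * ((N : ℝ) - 1)) *
        ((N' : ℝ) * ((N' : ℝ) - 1))) * cst r' N' * Real.exp (2 * κ * N' * Ψ) := by
        refine mul_le_mul (mul_le_mul_of_nonneg_right hs hc.le) (Real.exp_le_exp.2 hexp)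
          (Real.exp_pos _).le ?_
        exact mul_nonneg (Real.exp_pos _).le hc.le

/-- The growth of the constants. -/
theorem log_est {C : ℝ} (hC : 0 ≤ C)
    (hL : ∀ n : ℕ, 1 ≤ n → |(∑ k ∈ Finset.range n, Real.log (k.factorial : ℝ)) -
      ((n : ℝ) ^ 2 / 2 * Real.log n - 3 / 4 * (n : ℝ) ^ 2)| ≤ C * n * (1 + Real.log n))
    {r r' κ : ℝ} (hr : 0 < r) (hr' : 0 < r') (hκ : 0 < κ) {N N' : ℕ} (hN : 2 ≤ N)
    (hNN : N ≤ N') (h1 : κ * ((N : ℝ) - 1) = r ^ 2) (h2 : r' ^ 2 ≤ κ * ((N' : ℝ) - 1)) :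
    Real.log (cst r' N') / ((N' : ℝ) * ((N' : ℝ) - 1)) -
      Real.log (cst r N) / ((N : ℝ) * ((N : ℝ) - 1)) ≤
      (C + 2) * ((1 + Real.log N) / ((N : ℝ) - 1)) +
        (C + 1) * ((1 + Real.log N') / ((N' : ℝ) - 1)) := by
  have hN2 : (2 : ℝ) ≤ N := by exact_mod_cast hN
  have hN2' : (2 : ℝ) ≤ N' := by exact_mod_cast hN.trans hNN
  have a0 : (0 : ℝ) < (N : ℝ) - 1 := by linarith
  have a0' : (0 : ℝ) < (N' : ℝ) - 1 := by linarith
  have l0 : 0 ≤ Real.log N := Real.log_nonneg (by linarith)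
  have l0' : 0 ≤ Real.log N' := Real.log_nonneg (by linarith)
  have b1 := (abs_le.1 (hL N (by omega))).2
  have b2 := (abs_le.1 (hL N' (by omega))).1
  rw [log_cst hr, log_cst hr']
  generalize hS : (∑ k ∈ Finset.range N, Real.log (k.factorial : ℝ)) = S at b1 ⊢
  generalize hS' : (∑ k ∈ Finset.range N', Real.log (k.factorial : ℝ)) = S' at b2 ⊢
  have e1 : ((N : ℝ) * ((N : ℝ) - 1) * Real.log r - S) / ((N : ℝ) * ((N : ℝ) - 1)) =
      Real.log r - S / ((N : ℝ) * ((N : ℝ) - 1)) := by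
    field_simp
  have e2 : ((N' : ℝ) * ((N' : ℝ) - 1) * Real.log r' - S') / ((N' : ℝ) * ((N' : ℝ) - 1)) =
      Real.log r' - S' / ((N' : ℝ) * ((N' : ℝ) - 1)) := by
    field_simp
  rw [e1, e2]
  -- the sums
  have c1 : S / ((N : ℝ) * ((N : ℝ) - 1)) ≤ Real.log N / 2 - 3 / 4 +
      (C + 1 / 2) * ((1 + Real.log N) / ((N : ℝ) - 1)) := by
    rw [div_le_iff₀ (by positivity)]
    have e3 : (Real.log N / 2 - 3 / 4 + (C + 1 / 2) * ((1 + Real.log N) / ((N : ℝ) - 1))) *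
        ((N : ℝ) * ((N : ℝ) - 1)) = (Real.log N / 2 - 3 / 4) * ((N : ℝ) * ((N : ℝ) - 1)) +
        (C + 1 / 2) * (1 + Real.log N) * N := by
      field_simp
    rw [e3]
    nlinarith
  have c2 : Real.log N' / 2 - 3 / 4 - (C + 3 / 4) * ((1 + Real.log N') / ((N' : ℝ) - 1)) ≤
      S' / ((N' : ℝ) * ((N' : ℝ) - 1)) := by
    rw [le_div_iff₀ (by positivity)]
    have e3 : (Real.log N' / 2 - 3 / 4 - (C + 3 / 4) * ((1 + Real.log N') / ((N' : ℝ) - 1))) *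
        ((N' : ℝ) * ((N' : ℝ) - 1)) = (Real.log N' / 2 - 3 / 4) * ((N' : ℝ) * ((N' : ℝ) - 1)) -
        (C + 3 / 4) * (1 + Real.log N') * N' := by
      field_simp
    rw [e3]
    nlinarith
  -- the radii
  have d1 : 2 * Real.log r = Real.log κ + Real.log ((N : ℝ) - 1) := by
    rw [← Real.log_mul hκ.ne' a0.ne', h1, Real.log_pow]
    push_cast
    ring
  have d2 : 2 * Real.log r' ≤ Real.log κ + Real.log ((N' : ℝ) - 1) := by
    rw [← Real.log_mul hκ.ne' a0'.ne']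
    have := Real.log_le_log (by positivity) h2
    rw [Real.log_pow] at this
    push_cast at this
    exact this
  have d3 : Real.log ((N' : ℝ) - 1) ≤ Real.log N' := Real.log_le_log a0' (by linarith)
  have d4 : Real.log N - 1 / ((N : ℝ) - 1) ≤ Real.log ((N : ℝ) - 1) := by
    have h3 : Real.log ((N : ℝ) / ((N : ℝ) - 1)) ≤ (N : ℝ) / ((N : ℝ) - 1) - 1 :=
      Real.log_le_sub_one_of_pos (by positivity)
    rw [Real.log_div (by positivity) a0.ne'] at h3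
    have h4 : (N : ℝ) / ((N : ℝ) - 1) - 1 = 1 / ((N : ℝ) - 1) := by
      field_simp
      ring
    linarith
  have d5 : 1 / ((N : ℝ) - 1) ≤ (1 + Real.log N) / ((N : ℝ) - 1) :=
    div_le_div_of_nonneg_right (by linarith) a0.le
  have d6 : 0 ≤ (1 + Real.log N') / ((N' : ℝ) - 1) := by positivity
  have d7 : 0 ≤ (1 + Real.log N) / ((N : ℝ) - 1) := by positivity
  linarith

theorem ratio_le {x y : ℝ} (hx : 2 ≤ x) (hy : 0 < y) (hxy : y ^ 2 ≤ x) :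
    (1 + Real.log x) / (x - 1) ≤ 4 / y := by
  have hs : 0 < Real.sqrt x := Real.sqrt_pos.2 (by linarith)
  have h1 : Real.log x ≤ 2 * Real.sqrt x - 2 := by
    have h := Real.log_le_sub_one_of_pos hs
    rw [Real.log_sqrt (by linarith)] at h
    linarith
  have h2 : y ≤ Real.sqrt x := Real.le_sqrt_of_sq_le hxy
  have h3 : Real.sqrt x ^ 2 = x := Real.sq_sqrt (by linarith)
  rw [div_le_div_iff₀ (by linarith) hy]
  have h4 : (1 + Real.log x) * y ≤ (2 * Real.sqrt x) * y :=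
    mul_le_mul_of_nonneg_right (by linarith) hy.le
  have h5 : (2 * Real.sqrt x) * y ≤ (2 * Real.sqrt x) * Real.sqrt x :=
    mul_le_mul_of_nonneg_left h2 (by positivity)
  nlinarith

/-- The size of the factor in `FIL`. -/
theorem pow_le {x y : ℝ} {n : ℕ} (hx : x = n) (hn : 1 ≤ n) (hy : 0 < y) (hxy : y ^ 2 ≤ x) :
    (2 * Real.exp 1 * x ^ 2) ^ n ≤ Real.exp (4 * x ^ 2 / y) := by
  have hx1 : (1 : ℝ) ≤ x := by
    rw [hx]
    exact_mod_cast hn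
  have hs : 0 < Real.sqrt x := Real.sqrt_pos.2 (by linarith)
  have h1 : Real.log x ≤ 2 * Real.sqrt x - 2 := by
    have h := Real.log_le_sub_one_of_pos hs
    rw [Real.log_sqrt (by linarith)] at h
    linarith
  have h2 : y ≤ Real.sqrt x := Real.le_sqrt_of_sq_le hxy
  have h3 : Real.sqrt x ^ 2 = x := Real.sq_sqrt (by linarith)
  have hpos : 0 < 2 * Real.exp 1 * x ^ 2 := by positivity
  have e1 : (2 * Real.exp 1 * x ^ 2) ^ n = Real.exp (n * Real.log (2 * Real.exp 1 * x ^ 2)) := by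
    rw [mul_comm (n : ℝ), Real.exp_mul, Real.exp_log hpos, Real.rpow_natCast]
  rw [e1]
  apply Real.exp_le_exp.2
  rw [← hx, Real.log_mul (by positivity) (by positivity), Real.log_mul (by norm_num)
    (Real.exp_pos _).ne', Real.log_exp, Real.log_pow]
  have h4 : Real.log 2 ≤ 1 := by
    have := Real.log_le_sub_one_of_pos (show (0 : ℝ) < 2 by norm_num)
    linarith
  have h5 : Real.log 2 + 1 + ((2 : ℕ) : ℝ) * Real.log x ≤ 4 * Real.sqrt x := by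
    push_cast
    linarith
  calc x * (Real.log 2 + 1 + ((2 : ℕ) : ℝ) * Real.log x) ≤ x * (4 * Real.sqrt x) :=
        mul_le_mul_of_nonneg_left h5 (by linarith)
    _ ≤ 4 * x ^ 2 / y := by
        rw [le_div_iff₀ hy]
        have h6 : x * (4 * Real.sqrt x) * y ≤ x * (4 * Real.sqrt x) * Real.sqrt x :=
          mul_le_mul_of_nonneg_left h2 (by positivity)
        nlinarith

end SCA

open SCA in
/-- Transfer to larger scales. -/
theorem SCA_thm (hFEK : FEK_Stmt) (hLFA : LFA_Stmt) (hGRM : GRM_Stmt) (hGBD : GBD_Stmt)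
    (hMAS : MAS_Stmt) (hFIL : FIL_Stmt) : SCA_Stmt := by
  intro R₀ v₀ ε hR₀ hv₀ hε
  obtain ⟨C, hC, hL⟩ := hLFA
  obtain ⟨α, hα, hM⟩ := hMAS R₀ (v₀ + ε) hR₀ (by positivity)
  obtain ⟨R₁, hR₁, hαR, hG⟩ := hGBD.2 R₀ α hR₀ hα
  obtain ⟨R, hRdef⟩ : ∃ R : ℝ, R = max R₀ R₁ := ⟨_, rfl⟩
  have hRR₀ : R₀ ≤ R := by rw [hRdef]; exact le_max_left _ _
  have hRR₁ : R₁ ≤ R := by rw [hRdef]; exact le_max_right _ _
  refine ⟨R, hRR₀, ?_⟩
  have hR1 : 1 ≤ R := hR₀.trans hRR₀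
  have hR2 : 1 ≤ R ^ 2 := one_le_pow₀ hR1
  have hG' := hG R hRR₁
  filter_upwards [eventually_ge_atTop 1, eventually_ge_atTop (800 * R ^ 4 * (C + 2) / ε)] with
    r hr1 hrC K u v hK hu hv hv0 hBY
  obtain ⟨Ψ, hΨ⟩ := hu
  have hr0 : 0 < r := by linarith
  obtain ⟨N, hNdef⟩ : ∃ N : ℕ, N = ⌊R ^ 2 * r ^ 2⌋₊ + 2 := ⟨_, rfl⟩
  rw [← hNdef] at hBY
  have hN : 2 ≤ N := by omega
  have hNr : (N : ℝ) = ⌊R ^ 2 * r ^ 2⌋₊ + 2 := by rw [hNdef]; push_cast; rfl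
  have hNlo : R ^ 2 * r ^ 2 ≤ (N : ℝ) - 1 := by
    have := Nat.lt_floor_add_one (R ^ 2 * r ^ 2)
    linarith
  have hNhi : (N : ℝ) - 1 ≤ R ^ 2 * r ^ 2 + 1 := by
    have := Nat.floor_le (show 0 ≤ R ^ 2 * r ^ 2 by positivity)
    linarith
  have hr2 : 1 ≤ r ^ 2 := one_le_pow₀ hr1
  have hN1pos : 0 < (N : ℝ) - 1 := lt_of_lt_of_le (by positivity) hNlo
  have hRr : 1 ≤ R ^ 2 * r ^ 2 := one_le_mul_of_one_le_of_one_le hR2 hr2
  have hNr2 : r ^ 2 ≤ (N : ℝ) - 1 :=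
    (le_mul_of_one_le_left (by positivity) hR2).trans hNlo
  obtain ⟨κ, hκdef⟩ : ∃ κ : ℝ, κ = r ^ 2 / ((N : ℝ) - 1) := ⟨_, rfl⟩
  have hκ0 : 0 < κ := by rw [hκdef]; positivity
  have hκN : κ * ((N : ℝ) - 1) = r ^ 2 := by
    rw [hκdef]
    field_simp
  have hκ1 : κ ≤ 1 := by
    rw [hκdef, div_le_one hN1pos]
    exact hNr2
  obtain ⟨Ψ', hΨ'⟩ : ∃ Ψ' : ℝ, Ψ' = max Ψ (2 * R ^ 2) := ⟨_, rfl⟩
  have hΨ1 : Ψ ≤ Ψ' := by rw [hΨ']; exact le_max_left _ _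
  have hΨ2 : 2 * R ^ 2 ≤ Ψ' := by rw [hΨ']; exact le_max_right _ _
  have hΨ0 : 0 ≤ Ψ' := le_trans (by positivity) hΨ2
  filter_upwards [hG', hM, eventually_ge_atTop r,
    eventually_ge_atTop (800 * R ^ 4 * (C + 1) / ε), eventually_ge_atTop (24 * v₀ / ε),
    eventually_ge_atTop (80 * R ^ 2 * Ψ' / ε), eventually_ge_atTop (1200 * R ^ 4 / ε),
    eventually_ge_atTop (8 / ε)] with r' hG1 hM1 hrr hc1 hc2 hc3 hc4 hc5
  have hr'1 : 1 ≤ r' := hr1.trans hrr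
  have hr'0 : 0 < r' := by linarith
  have hr'2 : 1 ≤ r' ^ 2 := one_le_pow₀ hr'1
  have hr'le : r' ≤ r' ^ 2 := le_self_pow₀ hr'1 (by norm_num)
  have hRr' : 1 ≤ R ^ 2 * r' ^ 2 := one_le_mul_of_one_le_of_one_le hR2 hr'2
  obtain ⟨N', hN'def⟩ : ∃ N' : ℕ, N' = ⌈r' ^ 2 / κ⌉₊ + 1 := ⟨_, rfl⟩
  have hN'r : (N' : ℝ) - 1 = ⌈r' ^ 2 / κ⌉₊ := by
    rw [hN'def]
    push_cast
    ring
  have hq : r' ^ 2 / κ = r' ^ 2 * ((N : ℝ) - 1) / r ^ 2 := by
    rw [hκdef]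
    field_simp
  have hN'lo : r' ^ 2 / κ ≤ (N' : ℝ) - 1 := by
    rw [hN'r]
    exact Nat.le_ceil _
  have hN'hi : (N' : ℝ) - 1 ≤ r' ^ 2 / κ + 1 := by
    rw [hN'r]
    exact (Nat.ceil_lt_add_one (by positivity)).le
  have hs1 : r' ^ 2 ≤ κ * ((N' : ℝ) - 1) := by
    rw [div_le_iff₀ hκ0] at hN'lo
    linarith
  have hs2 : κ * ((N' : ℝ) - 1) ≤ r' ^ 2 + κ := by
    calc κ * ((N' : ℝ) - 1) ≤ κ * (r' ^ 2 / κ + 1) := mul_le_mul_of_nonneg_left hN'hi hκ0.le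
      _ = r' ^ 2 + κ := by field_simp
  have hRN' : R ^ 2 * r' ^ 2 ≤ (N' : ℝ) - 1 := by
    refine le_trans ?_ hN'lo
    rw [hq, le_div_iff₀ (by positivity)]
    have := mul_le_mul_of_nonneg_left hNlo (show 0 ≤ r' ^ 2 by positivity)
    linarith
  have hNN : N ≤ N' := by
    have h1 : (N : ℝ) - 1 ≤ (N' : ℝ) - 1 := by
      refine le_trans ?_ hN'lo
      rw [hq, le_div_iff₀ (by positivity), mul_comm]
      exact mul_le_mul_of_nonneg_right (pow_le_pow_left₀ hr0.le hrr 2) hN1pos.le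
    have h2 : (N : ℝ) ≤ N' := by linarith
    exact_mod_cast h2
  have hN'4 : (N' : ℝ) - 1 ≤ 3 * R ^ 2 * r' ^ 2 := by
    refine hN'hi.trans ?_
    have h1 : r' ^ 2 / κ ≤ r' ^ 2 * (2 * R ^ 2) := by
      rw [hq, div_le_iff₀ (by positivity), mul_assoc]
      refine mul_le_mul_of_nonneg_left ?_ (by positivity)
      linarith
    linarith
  have hN'5 : (N' : ℝ) ≤ 4 * R ^ 2 * r' ^ 2 := by linarith
  have hN'r2 : r' ^ 2 ≤ (N' : ℝ) := by
    have : r' ^ 2 ≤ R ^ 2 * r' ^ 2 := le_mul_of_one_le_left (by positivity) hR2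
    linarith
  have hN'2 : (2 : ℝ) ≤ N' := by exact_mod_cast hN.trans hNN
  have hN2 : (2 : ℝ) ≤ N := by exact_mod_cast hN
  have hN'sq : (N' : ℝ) ^ 2 ≤ 16 * R ^ 4 * r' ^ 4 := by
    calc (N' : ℝ) ^ 2 ≤ (4 * R ^ 2 * r' ^ 2) ^ 2 := pow_le_pow_left₀ (by linarith) hN'5 2
      _ = 16 * R ^ 4 * r' ^ 4 := by ring
  have hr'4 : 0 < r' ^ 4 := by positivity
  -- the constants
  have k1 : 64 * R ^ 4 * (C + 2) / r ≤ ε / 8 := by
    rw [div_le_iff₀ hε] at hrC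
    rw [div_le_iff₀ hr0]
    have : 0 ≤ r * ε := by positivity
    linarith
  have k2 : 64 * R ^ 4 * (C + 1) / r' ≤ ε / 8 := by
    rw [div_le_iff₀ hε] at hc1
    rw [div_le_iff₀ hr'0]
    have : 0 ≤ r' * ε := by positivity
    linarith
  have k3 : 3 * v₀ * r' ^ 2 ≤ ε / 8 * r' ^ 4 := by
    rw [div_le_iff₀ hε] at hc2
    have h0 : r' * ε ≤ r' ^ 2 * ε := mul_le_mul_of_nonneg_right hr'le hε.le
    have h1 : 3 * v₀ ≤ ε / 8 * r' ^ 2 := by linarith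
    calc 3 * v₀ * r' ^ 2 ≤ ε / 8 * r' ^ 2 * r' ^ 2 := mul_le_mul_of_nonneg_right h1 (by positivity)
      _ = ε / 8 * r' ^ 4 := by ring
  have k4 : 8 * R ^ 2 * Ψ' * r' ^ 2 ≤ ε / 8 * r' ^ 4 := by
    rw [div_le_iff₀ hε] at hc3
    have h0 : r' * ε ≤ r' ^ 2 * ε := mul_le_mul_of_nonneg_right hr'le hε.le
    have h2 : 0 ≤ r' ^ 2 * ε := by positivity
    have h1 : 8 * R ^ 2 * Ψ' ≤ ε / 8 * r' ^ 2 := by linarith
    calc 8 * R ^ 2 * Ψ' * r' ^ 2 ≤ ε / 8 * r' ^ 2 * r' ^ 2 :=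
          mul_le_mul_of_nonneg_right h1 (by positivity)
      _ = ε / 8 * r' ^ 4 := by ring
  have k5 : 64 * R ^ 4 / r' ≤ ε / 8 := by
    rw [div_le_iff₀ hε] at hc4
    rw [div_le_iff₀ hr'0]
    have : 0 ≤ r' * ε := by positivity
    linarith
  have k6 : (2 : ℝ) ≤ Real.exp (ε / 8 * r' ^ 4) := by
    rw [div_le_iff₀ hε] at hc5
    have h1 : 1 ≤ ε / 8 * r' ^ 4 := by
      have h2 : r' ≤ r' ^ 4 := by
        calc r' ≤ r' ^ 2 := hr'le
          _ ≤ r' ^ 4 := pow_le_pow_right₀ hr'1 (by norm_num)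
      have h3 : r' * ε ≤ r' ^ 4 * ε := mul_le_mul_of_nonneg_right h2 hε.le
      linarith
    have h3 := Real.add_one_le_exp (ε / 8 * r' ^ 4)
    linarith
  -- the bound for the labelled tuples
  have hW := newBY hFEK hN hr0 hr'0 hκN hBY N' hNN hs1 hs2 hΨ0
    (fun z hz => (hΨ z hz).trans hΨ1) (by linarith : (2 * R) ^ 2 / 2 ≤ Ψ')
  set W' : ℝ := (v * r ^ 4 - Real.log (cst r N)) / ((N : ℝ) * ((N : ℝ) - 1)) *
        ((N' : ℝ) * ((N' : ℝ) - 1)) + Real.log (cst r' N') + 2 * κ * N' * Ψ' with hW'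
  have hP : 0 < (N : ℝ) * ((N : ℝ) - 1) := by positivity
  have hN'1pos : 0 < (N' : ℝ) - 1 := by linarith
  have hP' : 0 < (N' : ℝ) * ((N' : ℝ) - 1) := by positivity
  have hWle : W' ≤ (v + ε / 2) * r' ^ 4 := by
    have hest := log_est hC hL hr0 hr'0 hκ0 hN hNN hκN hs1
    have q1 : (1 + Real.log N) / ((N : ℝ) - 1) ≤ 4 / r := ratio_le hN2 hr0 (by linarith)
    have q2 : (1 + Real.log N') / ((N' : ℝ) - 1) ≤ 4 / r' := ratio_le hN'2 hr'0 hN'r2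
    have q3 : Real.log (cst r' N') / ((N' : ℝ) * ((N' : ℝ) - 1)) -
        Real.log (cst r N) / ((N : ℝ) * ((N : ℝ) - 1)) ≤
        (C + 2) * (4 / r) + (C + 1) * (4 / r') := by
      refine hest.trans (add_le_add (mul_le_mul_of_nonneg_left q1 (by linarith))
        (mul_le_mul_of_nonneg_left q2 (by linarith)))
    have q4 : (N' : ℝ) * ((N' : ℝ) - 1) ≤ 16 * R ^ 4 * r' ^ 4 := by linarith
    have q5 : (N' : ℝ) * ((N' : ℝ) - 1) *
        (Real.log (cst r' N') / ((N' : ℝ) * ((N' : ℝ) - 1)) -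
        Real.log (cst r N) / ((N : ℝ) * ((N : ℝ) - 1))) ≤
        (ε / 8 + ε / 8) * r' ^ 4 := by
      calc (N' : ℝ) * ((N' : ℝ) - 1) *
        (Real.log (cst r' N') / ((N' : ℝ) * ((N' : ℝ) - 1)) -
        Real.log (cst r N) / ((N : ℝ) * ((N : ℝ) - 1)))
          ≤ (N' : ℝ) * ((N' : ℝ) - 1) * ((C + 2) * (4 / r) + (C + 1) * (4 / r')) :=
            mul_le_mul_of_nonneg_left q3 hP'.le
        _ ≤ 16 * R ^ 4 * r' ^ 4 * ((C + 2) * (4 / r) + (C + 1) * (4 / r')) :=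
            mul_le_mul_of_nonneg_right q4 (by positivity)
        _ = (64 * R ^ 4 * (C + 2) / r + 64 * R ^ 4 * (C + 1) / r') * r' ^ 4 := by
            field_simp
            ring
        _ ≤ (ε / 8 + ε / 8) * r' ^ 4 := mul_le_mul_of_nonneg_right (add_le_add k1 k2) hr'4.le
    have q6 : r ^ 4 * ((N' : ℝ) * ((N' : ℝ) - 1)) ≤
        (r' ^ 2 + 1) ^ 2 * ((N : ℝ) * ((N : ℝ) - 1)) := by
      have g1 : r ^ 2 * ((N' : ℝ) - 1) ≤ (r' ^ 2 + 1) * ((N : ℝ) - 1) := by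
        calc r ^ 2 * ((N' : ℝ) - 1) = (κ * ((N' : ℝ) - 1)) * ((N : ℝ) - 1) := by
              rw [← hκN]; ring
          _ ≤ (r' ^ 2 + 1) * ((N : ℝ) - 1) :=
              mul_le_mul_of_nonneg_right (by linarith) hN1pos.le
      have g2 : r ^ 2 * (N' : ℝ) ≤ (r' ^ 2 + 1) * (N : ℝ) := by
        have g3 : ((N : ℝ) - 1) * N' ≤ N * ((N' : ℝ) - 1) := by
          have : (N : ℝ) ≤ N' := by exact_mod_cast hNN
          linarith
        calc r ^ 2 * (N' : ℝ) = κ * (((N : ℝ) - 1) * N') := by rw [← hκN]; ring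
          _ ≤ κ * (N * ((N' : ℝ) - 1)) := mul_le_mul_of_nonneg_left g3 hκ0.le
          _ = (κ * ((N' : ℝ) - 1)) * N := by ring
          _ ≤ (r' ^ 2 + 1) * (N : ℝ) :=
              mul_le_mul_of_nonneg_right (by linarith) (by linarith)
      calc r ^ 4 * ((N' : ℝ) * ((N' : ℝ) - 1)) = (r ^ 2 * (N' : ℝ)) * (r ^ 2 * ((N' : ℝ) - 1)) := by
            ring
        _ ≤ ((r' ^ 2 + 1) * (N : ℝ)) * ((r' ^ 2 + 1) * ((N : ℝ) - 1)) :=
            mul_le_mul g2 g1 (by positivity) (by positivity)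
        _ = (r' ^ 2 + 1) ^ 2 * ((N : ℝ) * ((N : ℝ) - 1)) := by ring
    have q7 : v * r ^ 4 / ((N : ℝ) * ((N : ℝ) - 1)) * ((N' : ℝ) * ((N' : ℝ) - 1)) ≤
        v * r' ^ 4 + ε / 8 * r' ^ 4 := by
      have g4 : v * r ^ 4 / ((N : ℝ) * ((N : ℝ) - 1)) * ((N' : ℝ) * ((N' : ℝ) - 1)) ≤
          v * (r' ^ 2 + 1) ^ 2 := by
        rw [div_mul_eq_mul_div, div_le_iff₀ hP]
        calc v * r ^ 4 * ((N' : ℝ) * ((N' : ℝ) - 1)) =
              v * (r ^ 4 * ((N' : ℝ) * ((N' : ℝ) - 1))) := by ring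
          _ ≤ v * ((r' ^ 2 + 1) ^ 2 * ((N : ℝ) * ((N : ℝ) - 1))) :=
              mul_le_mul_of_nonneg_left q6 hv
          _ = v * (r' ^ 2 + 1) ^ 2 * ((N : ℝ) * ((N : ℝ) - 1)) := by ring
      have g5 : v * (r' ^ 2 + 1) ^ 2 = v * r' ^ 4 + v * (2 * r' ^ 2 + 1) := by ring
      have g6 : v * (2 * r' ^ 2 + 1) ≤ 3 * v₀ * r' ^ 2 := by
        have g7 : v * (2 * r' ^ 2 + 1) ≤ v₀ * (2 * r' ^ 2 + 1) :=
          mul_le_mul_of_nonneg_right hv0 (by positivity)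
        have g8 : v₀ * 1 ≤ v₀ * r' ^ 2 := mul_le_mul_of_nonneg_left hr'2 hv₀.le
        linarith
      linarith
    have q8 : 2 * κ * N' * Ψ' ≤ ε / 8 * r' ^ 4 := by
      refine le_trans ?_ k4
      calc 2 * κ * N' * Ψ' ≤ 2 * 1 * (4 * R ^ 2 * r' ^ 2) * Ψ' := by
            refine mul_le_mul_of_nonneg_right ?_ hΨ0
            exact mul_le_mul (by linarith) hN'5 (by linarith) (by norm_num)
        _ = 8 * R ^ 2 * Ψ' * r' ^ 2 := by ring
    have q9 : W' = v * r ^ 4 / ((N : ℝ) * ((N : ℝ) - 1)) * ((N' : ℝ) * ((N' : ℝ) - 1)) +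
        (N' : ℝ) * ((N' : ℝ) - 1) *
        (Real.log (cst r' N') / ((N' : ℝ) * ((N' : ℝ) - 1)) -
        Real.log (cst r N) / ((N : ℝ) * ((N : ℝ) - 1))) + 2 * κ * N' * Ψ' := by
      have e : (N' : ℝ) * ((N' : ℝ) - 1) *
          (Real.log (cst r' N') / ((N' : ℝ) * ((N' : ℝ) - 1))) = Real.log (cst r' N') :=
        mul_div_cancel₀ _ hP'.ne'
      rw [hW']
      linear_combination (-1) * e
    rw [q9]
    linarith
  -- the bound for the tuples of the set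
  have hF : ∀ n : ℕ, n ≤ N' → BM K N' r' u n
      (Real.exp W' * (2 * Real.exp 1 * (N' : ℝ) ^ 2) ^ N') :=
    hFIL K (2 * R) r' u N' (Real.exp W') (by omega) hr'0 (by positivity) (by linarith)
      (Real.exp_pos _).le hW
  have hpow : (2 * Real.exp 1 * (N' : ℝ) ^ 2) ^ N' ≤ Real.exp (ε / 8 * r' ^ 4) := by
    refine (pow_le (y := r') rfl (by omega) hr'0 hN'r2).trans (Real.exp_le_exp.2 ?_)
    calc 4 * (N' : ℝ) ^ 2 / r' ≤ 4 * (16 * R ^ 4 * r' ^ 4) / r' :=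
          div_le_div_of_nonneg_right (by linarith) hr'0.le
      _ = 64 * R ^ 4 / r' * r' ^ 4 := by ring
      _ ≤ ε / 8 * r' ^ 4 := mul_le_mul_of_nonneg_right k5 hr'4.le
  have hfin : 2 * (Real.exp W' * (2 * Real.exp 1 * (N' : ℝ) ^ 2) ^ N') ≤
      Real.exp ((v + ε) * r' ^ 4) := by
    calc 2 * (Real.exp W' * (2 * Real.exp 1 * (N' : ℝ) ^ 2) ^ N')
        ≤ Real.exp (ε / 8 * r' ^ 4) * (Real.exp ((v + ε / 2) * r' ^ 4) *
          Real.exp (ε / 8 * r' ^ 4)) := by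
          refine mul_le_mul k6 ?_ (by positivity) (Real.exp_pos _).le
          exact mul_le_mul (Real.exp_le_exp.2 hWle) hpow (by positivity) (Real.exp_pos _).le
      _ = Real.exp ((v + 3 / 4 * ε) * r' ^ 4) := by
          rw [← Real.exp_add, ← Real.exp_add]
          congr 1
          ring
      _ ≤ Real.exp ((v + ε) * r' ^ 4) := by
          apply Real.exp_le_exp.2
          refine mul_le_mul_of_nonneg_right ?_ hr'4.le
          linarith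
  have hBM : ∀ M n : ℕ, BM K M r' u n (Real.exp ((v + ε) * r' ^ 4)) := by
    intro M
    refine hM1 K u M (v + ε) hK (by linarith) (by linarith) ?_
    intro n hn z hz
    have hnN : n ≤ N' := by
      have h1 : (n : ℝ) ≤ N' := by
        have h2 : α ≤ R ^ 2 := hαR.trans (pow_le_pow_left₀ (by linarith) hRR₁ 2)
        have h3 : α * r' ^ 2 ≤ R ^ 2 * r' ^ 2 := mul_le_mul_of_nonneg_right h2 (by positivity)
        linarith
      exact_mod_cast h1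
    have h1 := hG1 n N' M z (fun i => hK _ (hz i)) hn (by linarith)
    have h2 := hF n hnN z hz
    calc ‖(Gm M r' z).det‖ * ∏ i, Real.exp (-(2 * r' ^ 2 * u (z i)))
        ≤ 2 * ‖(Gm N' r' z).det‖ * ∏ i, Real.exp (-(2 * r' ^ 2 * u (z i))) :=
          mul_le_mul_of_nonneg_right h1 (Finset.prod_nonneg fun i _ => (Real.exp_pos _).le)
      _ = 2 * (‖(Gm N' r' z).det‖ * ∏ i, Real.exp (-(2 * r' ^ 2 * u (z i)))) := by ring
      _ ≤ 2 * (Real.exp W' * (2 * Real.exp 1 * (N' : ℝ) ^ 2) ^ N') :=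
          mul_le_mul_of_nonneg_left h2 (by norm_num)
      _ ≤ _ := hfin
  intro n z hz
  have ht := (hGRM.2.2.2.2.1 n r' z).2
  exact le_of_tendsto' (ht.mul_const _) fun M => hBM M n z hz

end Pool.Agent.HX
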