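import Pool.Agent.HX.Stmts

/-!
# Taylor polynomials of functions bounded by the Gaussian weight
-/

set_option autoImplicit false

namespace Pool.Agent.HX

open Filter Topology Pool.Agent.GH Pool.Agent.HA

namespace TAY

/-- `j! e^j / j^j ≤ e j` for `j = i + 1`. -/
theorem fact_le (i : ℕ) :
    ((i + 1).factorial : ℝ) * Real.exp ((i : ℝ) + 1) ≤
      Real.exp 1 * ((i : ℝ) + 1) * ((i : ℝ) + 1) ^ (i + 1) := by
  induction i with
  | zero => simp
  | succ i ih =>
    have hi : (0 : ℝ) < (i : ℝ) + 1 := by positivity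
    have hi2 : (0 : ℝ) < (i : ℝ) + 2 := by positivity
    have key : Real.exp 1 * ((i : ℝ) + 1) ^ (i + 2) ≤ ((i : ℝ) + 2) ^ (i + 2) := by
      have h1 : 1 - 1 / ((i : ℝ) + 2) ≤ Real.exp (-(1 / ((i : ℝ) + 2))) := by
        have := Real.add_one_le_exp (-(1 / ((i : ℝ) + 2)))
        linarith
      have h2 : 1 - 1 / ((i : ℝ) + 2) = ((i : ℝ) + 1) / ((i : ℝ) + 2) := by
        field_simp
        ring
      rw [h2] at h1
      have h3 := pow_le_pow_left₀ (by positivity) h1 (i + 2)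
      rw [← Real.exp_nat_mul, div_pow] at h3
      have h4 : ((i + 2 : ℕ) : ℝ) * -(1 / ((i : ℝ) + 2)) = -1 := by
        push_cast
        field_simp
      rw [h4, Real.exp_neg, div_le_iff₀ (by positivity)] at h3
      have h5 := mul_le_mul_of_nonneg_left h3 (Real.exp_pos 1).le
      rwa [← mul_assoc, mul_inv_cancel₀ (Real.exp_pos 1).ne', one_mul] at h5
    have e1 : ((i + 1 + 1).factorial : ℝ) = ((i : ℝ) + 2) * ((i + 1).factorial : ℝ) := by
      rw [Nat.factorial_succ (i + 1)]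
      push_cast
      ring
    have e2 : Real.exp (((i + 1 : ℕ) : ℝ) + 1) = Real.exp 1 * Real.exp ((i : ℝ) + 1) := by
      rw [← Real.exp_add]
      congr 1
      push_cast
      ring
    rw [e1, e2]
    calc ((i : ℝ) + 2) * ((i + 1).factorial : ℝ) * (Real.exp 1 * Real.exp ((i : ℝ) + 1))
        = ((i : ℝ) + 2) * Real.exp 1 * (((i + 1).factorial : ℝ) * Real.exp ((i : ℝ) + 1)) := by
          ring
      _ ≤ ((i : ℝ) + 2) * Real.exp 1 *
          (Real.exp 1 * ((i : ℝ) + 1) * ((i : ℝ) + 1) ^ (i + 1)) :=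
          mul_le_mul_of_nonneg_left ih (by positivity)
      _ = ((i : ℝ) + 2) * Real.exp 1 * (Real.exp 1 * ((i : ℝ) + 1) ^ (i + 2)) := by ring
      _ ≤ ((i : ℝ) + 2) * Real.exp 1 * ((i : ℝ) + 2) ^ (i + 2) :=
          mul_le_mul_of_nonneg_left key (by positivity)
      _ = Real.exp 1 * (((i + 1 : ℕ) : ℝ) + 1) * (((i + 1 : ℕ) : ℝ) + 1) ^ (i + 1 + 1) := by
          push_cast
          ring

/-- The Taylor coefficients. -/
noncomputable def cf (G : ℂ → ℂ) (k : ℕ) : ℂ := ((k.factorial : ℂ))⁻¹ * iteratedDeriv k G 0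

theorem cf_bound {G : ℂ → ℂ} {s : ℝ} (hG : Differentiable ℂ G)
    (hb : ∀ w, ‖G w‖ ≤ s * Real.exp (‖w‖ ^ 2 / 2)) {k : ℕ} {R : ℝ} (hR : 0 < R) :
    ‖cf G k‖ ≤ s * Real.exp (R ^ 2 / 2) / R ^ k := by
  have h := Complex.norm_iteratedDeriv_le_of_forall_mem_sphere_norm_le (c := 0) (R := R)
    (C := s * Real.exp (R ^ 2 / 2)) (f := G) k hR hG.diffContOnCl (by
      intro z hz
      rw [mem_sphere_zero_iff_norm] at hz
      have := hb z
      rwa [hz] at this)
  have hk : (0 : ℝ) < (k.factorial : ℝ) := by exact_mod_cast k.factorial_pos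
  unfold cf
  rw [norm_mul, norm_inv, Complex.norm_natCast]
  calc ((k.factorial : ℝ))⁻¹ * ‖iteratedDeriv k G 0‖
      ≤ ((k.factorial : ℝ))⁻¹ * (k.factorial * (s * Real.exp (R ^ 2 / 2)) / R ^ k) :=
        mul_le_mul_of_nonneg_left h (by positivity)
    _ = s * Real.exp (R ^ 2 / 2) / R ^ k := by
        field_simp

theorem cf_sq {G : ℂ → ℂ} {s : ℝ} (hG : Differentiable ℂ G) (hs : 0 ≤ s)
    (hb : ∀ w, ‖G w‖ ≤ s * Real.exp (‖w‖ ^ 2 / 2)) (i : ℕ) :
    ((i + 1).factorial : ℝ) * ‖cf G (i + 1)‖ ^ 2 ≤ s ^ 2 * Real.exp 1 * ((i : ℝ) + 1) := by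
  have hi : (0 : ℝ) < (i : ℝ) + 1 := by positivity
  have hR : 0 < Real.sqrt ((i : ℝ) + 1) := Real.sqrt_pos.2 hi
  have hR2 : Real.sqrt ((i : ℝ) + 1) ^ 2 = (i : ℝ) + 1 := Real.sq_sqrt hi.le
  have h := cf_bound hG hb (k := i + 1) hR
  rw [hR2] at h
  have h2 := pow_le_pow_left₀ (norm_nonneg _) h 2
  have h3 : (s * Real.exp (((i : ℝ) + 1) / 2) / Real.sqrt ((i : ℝ) + 1) ^ (i + 1)) ^ 2 =
      s ^ 2 * Real.exp ((i : ℝ) + 1) / ((i : ℝ) + 1) ^ (i + 1) := by
    rw [div_pow, mul_pow, ← pow_mul, mul_comm (i + 1) 2, pow_mul, hR2, ← Real.exp_nat_mul]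
    congr 3
    push_cast
    ring
  rw [h3] at h2
  have hf : (0 : ℝ) < ((i + 1).factorial : ℝ) := by exact_mod_cast (i + 1).factorial_pos
  calc ((i + 1).factorial : ℝ) * ‖cf G (i + 1)‖ ^ 2
      ≤ ((i + 1).factorial : ℝ) * (s ^ 2 * Real.exp ((i : ℝ) + 1) / ((i : ℝ) + 1) ^ (i + 1)) :=
        mul_le_mul_of_nonneg_left h2 hf.le
    _ = s ^ 2 * ((((i + 1).factorial : ℝ) * Real.exp ((i : ℝ) + 1)) /
          ((i : ℝ) + 1) ^ (i + 1)) := by ring
    _ ≤ s ^ 2 * ((Real.exp 1 * ((i : ℝ) + 1) * ((i : ℝ) + 1) ^ (i + 1)) /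
          ((i : ℝ) + 1) ^ (i + 1)) := by
        apply mul_le_mul_of_nonneg_left _ (sq_nonneg s)
        exact div_le_div_of_nonneg_right (fact_le i) (by positivity)
    _ = s ^ 2 * Real.exp 1 * ((i : ℝ) + 1) := by
        field_simp

theorem cf_zero {G : ℂ → ℂ} {s : ℝ} (hb : ∀ w, ‖G w‖ ≤ s * Real.exp (‖w‖ ^ 2 / 2)) :
    ‖cf G 0‖ ≤ s := by
  have h := hb 0
  unfold cf
  simpa using h

theorem cf_fock {G : ℂ → ℂ} {s : ℝ} (hG : Differentiable ℂ G) (hs : 0 ≤ s)
    (hb : ∀ w, ‖G w‖ ≤ s * Real.exp (‖w‖ ^ 2 / 2)) (k : ℕ) :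
    (k.factorial : ℝ) * ‖cf G k‖ ^ 2 ≤ s ^ 2 * Real.exp 1 * ((k : ℝ) + 1) := by
  cases k with
  | zero =>
    have h1 := cf_zero hb
    have h2 := pow_le_pow_left₀ (norm_nonneg _) h1 2
    have h3 : (1 : ℝ) ≤ Real.exp 1 := Real.one_le_exp (by norm_num)
    have h4 : s ^ 2 * 1 ≤ s ^ 2 * Real.exp 1 := mul_le_mul_of_nonneg_left h3 (sq_nonneg s)
    simp only [Nat.factorial_zero, Nat.cast_one, one_mul, Nat.cast_zero, zero_add, mul_one] at *
    linarith
  | succ i =>
    have h1 := cf_sq hG hs hb i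
    have h2 : 0 ≤ s ^ 2 * Real.exp 1 := by positivity
    push_cast
    nlinarith

theorem cf_tail {G : ℂ → ℂ} {s : ℝ} (hG : Differentiable ℂ G) (hs : 0 ≤ s)
    (hb : ∀ w, ‖G w‖ ≤ s * Real.exp (‖w‖ ^ 2 / 2)) (i : ℕ) :
    ‖cf G (i + 1)‖ ≤ 2 * s * (((i + 1 : ℕ) : ℝ) / Real.sqrt ((i + 1).factorial : ℝ)) := by
  have hf : (0 : ℝ) < ((i + 1).factorial : ℝ) := by exact_mod_cast (i + 1).factorial_pos
  have hi : (1 : ℝ) ≤ (i : ℝ) + 1 := by
    have : (0 : ℝ) ≤ (i : ℝ) := Nat.cast_nonneg i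
    linarith
  have h1 := cf_sq hG hs hb i
  apply le_of_pow_le_pow_left₀ (n := 2) (by norm_num) (by positivity)
  rw [mul_pow, div_pow, Real.sq_sqrt hf.le, ← mul_div_assoc, le_div_iff₀ hf]
  have h2 : Real.exp 1 ≤ 4 := by
    have := Real.exp_one_lt_d9
    linarith
  calc ‖cf G (i + 1)‖ ^ 2 * ((i + 1).factorial : ℝ)
      = ((i + 1).factorial : ℝ) * ‖cf G (i + 1)‖ ^ 2 := by ring
    _ ≤ s ^ 2 * Real.exp 1 * ((i : ℝ) + 1) := h1
    _ ≤ s ^ 2 * 4 * (((i : ℝ) + 1) * ((i : ℝ) + 1)) := by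
        apply mul_le_mul _ _ (by linarith) (by positivity)
        · exact mul_le_mul_of_nonneg_left h2 (sq_nonneg s)
        · nlinarith
    _ = (2 * s) ^ 2 * (((i + 1 : ℕ) : ℝ)) ^ 2 := by
        push_cast
        ring

theorem summ (x : ℝ) (hx : 0 ≤ x) :
    Summable fun k : ℕ => (k : ℝ) * x ^ k / Real.sqrt (k.factorial : ℝ) := by
  have h1 : Summable fun k : ℕ => (k : ℝ) ^ 2 * (1 / 4 : ℝ) ^ k :=
    summable_pow_mul_geometric_of_norm_lt_one 2 (by norm_num)
  have h2 : Summable fun k : ℕ => (4 * x ^ 2) ^ k / (k.factorial : ℝ) :=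
    Real.summable_pow_div_factorial _
  refine Summable.of_nonneg_of_le (fun k => by positivity) (fun k => ?_) (h1.add h2)
  have hf : (0 : ℝ) < (k.factorial : ℝ) := by exact_mod_cast k.factorial_pos
  have e1 : (k : ℝ) * x ^ k / Real.sqrt (k.factorial : ℝ) =
      ((k : ℝ) * (1 / 2) ^ k) * ((2 * x) ^ k / Real.sqrt (k.factorial : ℝ)) := by
    rw [mul_pow, one_div, inv_pow]
    have : (2 : ℝ) ^ k ≠ 0 := by positivity
    field_simp
  have e2 : ((k : ℝ) * (1 / 2) ^ k) ^ 2 = (k : ℝ) ^ 2 * (1 / 4 : ℝ) ^ k := by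
    rw [mul_pow, ← pow_mul, mul_comm k 2, pow_mul]
    norm_num
  have e3 : ((2 * x) ^ k / Real.sqrt (k.factorial : ℝ)) ^ 2 =
      (4 * x ^ 2) ^ k / (k.factorial : ℝ) := by
    rw [div_pow, Real.sq_sqrt hf.le, ← pow_mul, mul_comm k 2, pow_mul]
    congr 2
    ring
  rw [e1, ← e2, ← e3]
  nlinarith [sq_nonneg ((k : ℝ) * (1 / 2) ^ k - (2 * x) ^ k / Real.sqrt (k.factorial : ℝ)),
    sq_nonneg ((k : ℝ) * (1 / 2) ^ k), sq_nonneg ((2 * x) ^ k / Real.sqrt (k.factorial : ℝ))]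

end TAY

open TAY in
theorem TAY_thm : TAY_Stmt := by
  intro G s n hG hs hb
  let q : Polynomial ℂ := ∑ k ∈ Finset.range (n + 1), Polynomial.monomial k (cf G k)
  have hqc : ∀ k, q.coeff k = if k < n + 1 then cf G k else 0 := by
    intro k
    simp only [q, Polynomial.finsetSum_coeff, Polynomial.coeff_monomial]
    rw [Finset.sum_ite_eq']
    simp only [Finset.mem_range]
  refine ⟨q, ?_, ?_, ?_⟩
  · rw [Polynomial.natDegree_le_iff_coeff_eq_zero]
    intro k hk
    rw [hqc, if_neg (by omega)]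
  · unfold fock
    have h1 : ∀ k ∈ Finset.range (n + 1), (k.factorial : ℝ) * ‖q.coeff k‖ ^ 2 ≤
        s ^ 2 * Real.exp 1 * ((n : ℝ) + 1) := by
      intro k hk
      rw [Finset.mem_range] at hk
      rw [hqc, if_pos hk]
      refine (cf_fock hG hs hb k).trans ?_
      apply mul_le_mul_of_nonneg_left _ (by positivity)
      have : (k : ℝ) ≤ (n : ℝ) := by exact_mod_cast (by omega : k ≤ n)
      linarith
    refine (Finset.sum_le_sum h1).trans (le_of_eq ?_)
    rw [Finset.sum_const, Finset.card_range, nsmul_eq_mul]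
    push_cast
    ring
  · intro w
    have hT : HasSum (fun k : ℕ => cf G k * w ^ k) (G w) := by
      have h := Complex.hasSum_taylorSeries_of_entire hG 0 w
      refine h.congr_fun ?_
      intro k
      simp only [cf, sub_zero, smul_eq_mul]
      ring
    have hq : q.eval w = ∑ k ∈ Finset.range (n + 1), cf G k * w ^ k := by
      simp only [q, Polynomial.eval_finsetSum, Polynomial.eval_monomial]
    have hS : Summable fun k : ℕ => 2 * s * (if n < k then (k : ℝ) * ‖w‖ ^ k /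
        Real.sqrt (k.factorial : ℝ) else 0) := by
      apply Summable.mul_left
      refine Summable.of_nonneg_of_le (fun k => ?_) (fun k => ?_) (summ ‖w‖ (norm_nonneg w))
      · split_ifs
        · positivity
        · exact le_rfl
      · split_ifs
        · exact le_rfl
        · positivity
    have hD : HasSum (fun k : ℕ => if n < k then cf G k * w ^ k else 0) (G w - q.eval w) := by
      have h1 : HasSum (fun k : ℕ => if n < k then 0 else cf G k * w ^ k) (q.eval w) := by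
        rw [hq]
        have h2 : HasSum (fun k : ℕ => if n < k then (0 : ℂ) else cf G k * w ^ k)
            (∑ k ∈ Finset.range (n + 1), (if n < k then (0 : ℂ) else cf G k * w ^ k)) := by
          apply hasSum_sum_of_ne_finset_zero
          intro k hk
          rw [Finset.mem_range] at hk
          exact if_pos (by omega)
        have h3 : ∑ k ∈ Finset.range (n + 1), (if n < k then (0 : ℂ) else cf G k * w ^ k) =
            ∑ k ∈ Finset.range (n + 1), cf G k * w ^ k := by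
          apply Finset.sum_congr rfl
          intro k hk
          rw [Finset.mem_range] at hk
          rw [if_neg (by omega)]
        rwa [h3] at h2
      refine (hT.sub h1).congr_fun ?_
      intro k
      by_cases hk : n < k
      · simp only [if_pos hk, sub_zero]
      · simp only [if_neg hk, sub_self]
    have hle : ∀ k : ℕ, ‖(if n < k then cf G k * w ^ k else 0)‖ ≤
        2 * s * (if n < k then (k : ℝ) * ‖w‖ ^ k / Real.sqrt (k.factorial : ℝ) else 0) := by
      intro k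
      by_cases hk : n < k
      · rw [if_pos hk, if_pos hk]
        obtain ⟨i, rfl⟩ : ∃ i, k = i + 1 := ⟨k - 1, by omega⟩
        rw [norm_mul, norm_pow]
        calc ‖cf G (i + 1)‖ * ‖w‖ ^ (i + 1)
            ≤ 2 * s * (((i + 1 : ℕ) : ℝ) / Real.sqrt ((i + 1).factorial : ℝ)) *
              ‖w‖ ^ (i + 1) :=
              mul_le_mul_of_nonneg_right (cf_tail hG hs hb i) (by positivity)
          _ = 2 * s * (((i + 1 : ℕ) : ℝ) * ‖w‖ ^ (i + 1) /
              Real.sqrt ((i + 1).factorial : ℝ)) := by ring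
      · rw [if_neg hk, if_neg hk, norm_zero, mul_zero]
    rw [← hD.tsum_eq, ← tsum_mul_left]
    exact tsum_of_norm_bounded hS.hasSum hle

end Pool.Agent.HX
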