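import Pool.Agent.HX.Stmts

/-!
A good exponent gives lower bounds for the hole probability.
-/

namespace Pool.Agent.HX

open MeasureTheory ProbabilityTheory Filter Topology Pool.Agent.GH Pool.Agent.HA

universe u

namespace UPC

/-- The exponent of the final estimate. -/
theorem final_exp {c ε ε₁ v A r : ℝ} {n : ℕ} (hA : 1 ≤ A) (hr : 1 ≤ r) (hε : 0 < ε)
    (hv : v ≤ c + ε / 2) (hn : (n : ℝ) ≤ A * r ^ 2)
    (h3 : 2 * (2 + 8 * A + 16 * A * Real.sqrt (2 * A)) / ε ≤ r) :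
    Real.exp (-((c + ε) * r ^ 4)) ≤ 1 / 2 * Real.exp (-1) *
      ((1 / (49 * ((n : ℝ) + 1) ^ 4)) ^ (n + 1) / Real.exp (v * r ^ 4)) := by
  set N : ℝ := (n : ℝ) + 1 with hN
  have hN1 : 1 ≤ N := by
    have : (0 : ℝ) ≤ n := Nat.cast_nonneg n
    linarith
  have hr2 : 1 ≤ r ^ 2 := one_le_pow₀ hr
  have hr0 : 0 ≤ r := by linarith
  have hN2 : N ≤ 2 * A * r ^ 2 := by
    have : 1 ≤ A * r ^ 2 := by nlinarith
    linarith
  have hsN : Real.sqrt N ≤ Real.sqrt (2 * A) * r := by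
    have h1 : Real.sqrt N ≤ Real.sqrt (2 * A * r ^ 2) := Real.sqrt_le_sqrt hN2
    rwa [Real.sqrt_mul (by positivity), Real.sqrt_sq hr0] at h1
  have hsN0 := Real.sqrt_nonneg N
  have hsA0 := Real.sqrt_nonneg (2 * A)
  have hlogN : Real.log N ≤ 2 * Real.sqrt N := by
    have h1 : 0 < Real.sqrt N := Real.sqrt_pos.2 (by linarith)
    have h2 := Real.log_le_sub_one_of_pos h1
    have h3 : Real.log N = 2 * Real.log (Real.sqrt N) := by
      rw [Real.log_sqrt (by linarith)]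
      ring
    rw [h3]
    linarith
  have h49 : (49 : ℝ) ≤ Real.exp 4 := by
    have h1 : (2.7182818283 : ℝ) < Real.exp 1 := Real.exp_one_gt_d9
    have h2 : Real.exp 4 = Real.exp 1 ^ 4 := by
      rw [← Real.exp_nat_mul]
      norm_num
    rw [h2]
    have h3 : (2.7 : ℝ) ^ 4 ≤ Real.exp 1 ^ 4 := pow_le_pow_left₀ (by norm_num) (by linarith) 4
    have h4 : (49 : ℝ) ≤ 2.7 ^ 4 := by norm_num
    linarith
  have hbase : 49 * N ^ 4 ≤ Real.exp (4 + 8 * Real.sqrt N) := by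
    have h1 : N ^ 4 = Real.exp (4 * Real.log N) := by
      have h2 : Real.exp (4 * Real.log N) = Real.exp (Real.log N) ^ 4 := by
        rw [← Real.exp_nat_mul]
        norm_num
      rw [h2, Real.exp_log (by linarith)]
    have h2 : N ^ 4 ≤ Real.exp (8 * Real.sqrt N) := by
      rw [h1]
      exact Real.exp_le_exp.2 (by linarith)
    rw [Real.exp_add]
    exact mul_le_mul h49 h2 (by positivity) (Real.exp_pos _).le
  have hinv : Real.exp (-(4 + 8 * Real.sqrt N)) ≤ 1 / (49 * N ^ 4) := by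
    rw [Real.exp_neg, ← one_div]
    exact one_div_le_one_div_of_le (by positivity) hbase
  have hpow : Real.exp (-(N * (4 + 8 * Real.sqrt N))) ≤ (1 / (49 * N ^ 4)) ^ (n + 1) := by
    have h1 := pow_le_pow_left₀ (Real.exp_pos _).le hinv (n + 1)
    rw [← Real.exp_nat_mul] at h1
    have e : -(N * (4 + 8 * Real.sqrt N)) = ((n + 1 : ℕ) : ℝ) * -(4 + 8 * Real.sqrt N) := by
      rw [hN]
      push_cast
      ring
    rw [e]
    exact h1
  have hhalf : Real.exp (-1) ≤ 1 / 2 := by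
    rw [Real.exp_neg, ← one_div]
    apply one_div_le_one_div_of_le (by norm_num)
    have := Real.add_one_le_exp (1 : ℝ)
    linarith
  have hkey : 2 + N * (4 + 8 * Real.sqrt N) + v * r ^ 4 ≤ (c + ε) * r ^ 4 := by
    have a1 : (2 : ℝ) ≤ 2 * r ^ 3 := by
      have : 1 ≤ r ^ 3 := one_le_pow₀ hr
      linarith
    have a2 : N * 4 ≤ 8 * A * r ^ 3 := by
      have h1 : r ^ 2 ≤ r ^ 3 := pow_le_pow_right₀ hr (by norm_num)
      have h2 : 2 * A * r ^ 2 ≤ 2 * A * r ^ 3 := mul_le_mul_of_nonneg_left h1 (by linarith)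
      linarith
    have a3 : N * (8 * Real.sqrt N) ≤ 16 * A * Real.sqrt (2 * A) * r ^ 3 := by
      have h1 : N * Real.sqrt N ≤ (2 * A * r ^ 2) * (Real.sqrt (2 * A) * r) :=
        mul_le_mul hN2 hsN hsN0 (by positivity)
      calc N * (8 * Real.sqrt N) = 8 * (N * Real.sqrt N) := by ring
        _ ≤ 8 * ((2 * A * r ^ 2) * (Real.sqrt (2 * A) * r)) := by linarith
        _ = _ := by ring
    have a4 : (2 + 8 * A + 16 * A * Real.sqrt (2 * A)) ≤ ε / 2 * r := by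
      rw [div_le_iff₀ hε] at h3
      linarith
    have a5 : (2 + 8 * A + 16 * A * Real.sqrt (2 * A)) * r ^ 3 ≤ ε / 2 * r * r ^ 3 :=
      mul_le_mul_of_nonneg_right a4 (by positivity)
    have a6 : v * r ^ 4 ≤ (c + ε / 2) * r ^ 4 := mul_le_mul_of_nonneg_right hv (by positivity)
    nlinarith
  calc Real.exp (-((c + ε) * r ^ 4))
      ≤ Real.exp (-(2 + N * (4 + 8 * Real.sqrt N) + v * r ^ 4)) :=
        Real.exp_le_exp.2 (by linarith)
    _ = Real.exp (-1) * Real.exp (-1) *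
        (Real.exp (-(N * (4 + 8 * Real.sqrt N))) * Real.exp (-(v * r ^ 4))) := by
        rw [← Real.exp_add, ← Real.exp_add, ← Real.exp_add]
        congr 1
        ring
    _ ≤ 1 / 2 * Real.exp (-1) * ((1 / (49 * N ^ 4)) ^ (n + 1) * Real.exp (-(v * r ^ 4))) := by
        apply mul_le_mul
        · exact mul_le_mul_of_nonneg_right hhalf (Real.exp_pos _).le
        · exact mul_le_mul_of_nonneg_right hpow (Real.exp_pos _).le
        · positivity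
        · positivity
    _ = _ := by
        rw [Real.exp_neg (v * r ^ 4), div_eq_mul_inv ((1 / (49 * N ^ 4)) ^ (n + 1))]

/-- The Fock norm is small. -/
theorem fock_small {ε₁ A r s : ℝ} {n : ℕ} (hA : 1 ≤ A) (hr : 1 ≤ r) (hε : 0 < ε₁)
    (hn : (n : ℝ) ≤ A * r ^ 2) (hs : s = Real.exp (-(ε₁ * r ^ 2)))
    (h2 : 144 * A ^ 2 / ε₁ ^ 3 ≤ r) :
    s ^ 2 * Real.exp 1 * ((n : ℝ) + 1) ^ 2 ≤ 1 / 16 := by
  have hr2 : 1 ≤ r ^ 2 := one_le_pow₀ hr
  have hN2 : (n : ℝ) + 1 ≤ 2 * A * r ^ 2 := by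
    have : 1 ≤ A * r ^ 2 := by nlinarith
    linarith
  have hn0 : (0 : ℝ) ≤ n := Nat.cast_nonneg n
  have e1 : s ^ 2 = Real.exp (-(2 * ε₁ * r ^ 2)) := by
    rw [hs, ← Real.exp_nat_mul]
    congr 1
    push_cast
    ring
  have e2 : (2 * ε₁ * r ^ 2) ^ 3 / 6 ≤ Real.exp (2 * ε₁ * r ^ 2) := by
    have := Real.pow_div_factorial_le_exp (2 * ε₁ * r ^ 2) (by positivity) 3
    simpa [Nat.factorial] using this
  have e3 : s ^ 2 ≤ 6 / (2 * ε₁ * r ^ 2) ^ 3 := by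
    rw [e1, Real.exp_neg, ← one_div, one_div_le (Real.exp_pos _) (by positivity), one_div_div]
    exact e2
  have e4 : Real.exp 1 ≤ 3 := by
    have := Real.exp_one_lt_d9
    linarith
  have e5 : ((n : ℝ) + 1) ^ 2 ≤ (2 * A * r ^ 2) ^ 2 := pow_le_pow_left₀ (by positivity) hN2 2
  have h3 : 144 * A ^ 2 ≤ ε₁ ^ 3 * r ^ 2 := by
    rw [div_le_iff₀ (by positivity)] at h2
    have : r ≤ r ^ 2 := by nlinarith
    calc 144 * A ^ 2 ≤ r * ε₁ ^ 3 := h2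
      _ ≤ r ^ 2 * ε₁ ^ 3 := mul_le_mul_of_nonneg_right this (by positivity)
      _ = _ := by ring
  calc s ^ 2 * Real.exp 1 * ((n : ℝ) + 1) ^ 2
      ≤ 6 / (2 * ε₁ * r ^ 2) ^ 3 * 3 * (2 * A * r ^ 2) ^ 2 := by gcongr
    _ = 9 * A ^ 2 / (ε₁ ^ 3 * r ^ 2) := by
        have hr0 : r ≠ 0 := by positivity
        field_simp
        ring
    _ ≤ 1 / 16 := by
        rw [div_le_iff₀ (by positivity)]
        linarith

/-- The weighted bound for the small tuples. -/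
theorem bm_small (hGRM : GRM_Stmt) {K : Set ℂ} {m : ℕ} (hm : 1 ≤ m) {g : ℂ → ℂ}
    (hg : ∀ z ∈ K, g z ≠ 0) {c r ε₁ α v : ℝ} (hε : 0 < ε₁) (hr : 0 < r)
    (hv : v = c + 4 * ε₁ * α)
    (hgood : ∀ (n : ℕ) (z : Fin n → ℂ), (∀ i, z i ∈ K) →
      ‖(Kf r z).det‖ * ∏ i, ‖g (z i)‖ ^ (-(2 * r ^ 2 / (m : ℝ))) ≤ Real.exp (c * r ^ 4))
    (M n : ℕ) (hn : (n : ℝ) ≤ α * r ^ 2) :
    BM K M r (fun z => Real.log ‖g z‖ / m - 2 * ε₁) n (Real.exp (v * r ^ 4)) := by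
  intro z hz
  have hm0 : (0 : ℝ) < m := by
    have : 0 < m := hm
    exact_mod_cast this
  have h1 : ‖(Gm M r z).det‖ ≤ ‖(Kf r z).det‖ := (hGRM.2.2.2.2.1 n r z).1 M
  have h2 : ∏ i, Real.exp (-(2 * r ^ 2 * (Real.log ‖g (z i)‖ / m - 2 * ε₁)))
      = (∏ i, ‖g (z i)‖ ^ (-(2 * r ^ 2 / (m : ℝ)))) * Real.exp (4 * ε₁ * r ^ 2 * n) := by
    have h3 : Real.exp (4 * ε₁ * r ^ 2 * n) = ∏ _i : Fin n, Real.exp (4 * ε₁ * r ^ 2) := by
      rw [Finset.prod_const, Finset.card_univ, Fintype.card_fin, ← Real.exp_nat_mul]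
      congr 1
      ring
    rw [h3, ← Finset.prod_mul_distrib]
    refine Finset.prod_congr rfl fun i _ => ?_
    rw [Real.rpow_def_of_pos (norm_pos_iff.2 (hg _ (hz i))), ← Real.exp_add]
    congr 1
    field_simp
    ring
  have h4 := hgood n z hz
  calc ‖(Gm M r z).det‖ * ∏ i, Real.exp (-(2 * r ^ 2 * (Real.log ‖g (z i)‖ / m - 2 * ε₁)))
      ≤ ‖(Kf r z).det‖ * ((∏ i, ‖g (z i)‖ ^ (-(2 * r ^ 2 / (m : ℝ)))) *
          Real.exp (4 * ε₁ * r ^ 2 * n)) := by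
        rw [h2]
        apply mul_le_mul_of_nonneg_right h1
        have : 0 ≤ ∏ i, ‖g (z i)‖ ^ (-(2 * r ^ 2 / (m : ℝ))) :=
          Finset.prod_nonneg fun i _ => Real.rpow_nonneg (norm_nonneg _) _
        positivity
    _ = (‖(Kf r z).det‖ * ∏ i, ‖g (z i)‖ ^ (-(2 * r ^ 2 / (m : ℝ)))) *
          Real.exp (4 * ε₁ * r ^ 2 * n) := by ring
    _ ≤ Real.exp (c * r ^ 4) * Real.exp (4 * ε₁ * r ^ 2 * n) :=
        mul_le_mul_of_nonneg_right h4 (Real.exp_pos _).le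
    _ ≤ Real.exp (v * r ^ 4) := by
        rw [← Real.exp_add]
        apply Real.exp_le_exp.2
        have h5 : 4 * ε₁ * r ^ 2 * n ≤ 4 * ε₁ * r ^ 2 * (α * r ^ 2) :=
          mul_le_mul_of_nonneg_left hn (by positivity)
        rw [hv]
        nlinarith

/-- The approximation of a power of `g` by a polynomial. -/
theorem approx (hTAY : TAY_Stmt) {K : Set ℂ} {m : ℕ} (hm : 1 ≤ m) {g : ℂ → ℂ} (hH : Hol K m g)
    {R₀ r ε₁ Ψ W : ℝ} {n : ℕ} (hε : 0 < ε₁) (hε4 : ε₁ ≤ 1 / 4) (hr : 1 ≤ r)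
    (hΨ0 : 0 ≤ Ψ) (hΨ : ∀ z ∈ K, |Real.log ‖g z‖ / m| ≤ Ψ) (hR : ∀ z ∈ K, ‖z‖ ≤ R₀)
    (hW : W = Ψ + 4) (h1 : (m * Ψ + 1) / ε₁ ≤ r)
    (htail : ∀ t : ℝ, 0 ≤ t → t ≤ R₀ →
      (∑' k : ℕ, (if n < k then (k : ℝ) * (r * t) ^ k / Real.sqrt (k.factorial : ℝ) else 0)) ≤
        Real.exp (-(W * r ^ 2))) :
    ∃ q : Polynomial ℂ, q.natDegree ≤ n ∧
      fock n q ≤ Real.exp (-(ε₁ * r ^ 2)) ^ 2 * Real.exp 1 * ((n : ℝ) + 1) ^ 2 ∧
      (∀ x ∈ K, Real.exp (r ^ 2 * (Real.log ‖g x‖ / m - 2 * ε₁)) ≤ ‖q.eval ((r : ℂ) * x)‖) ∧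
      ∀ x ∈ K, (∑' k : ℕ, (if n < k then (k : ℝ) * (r * ‖x‖) ^ k /
        Real.sqrt (k.factorial : ℝ) else 0)) < 1 / 2 * ‖q.eval ((r : ℂ) * x)‖ := by
  obtain ⟨hgd, hg0, hgb⟩ := hH
  have hm0 : (0 : ℝ) < m := by
    have : 0 < m := hm
    exact_mod_cast this
  have hr0 : 0 < r := by linarith
  have hr2 : 1 ≤ r ^ 2 := one_le_pow₀ hr
  set k : ℕ := ⌊r ^ 2 / m⌋₊ with hk
  have hk1 : (k : ℝ) * m ≤ r ^ 2 := by
    have h2 : (k : ℝ) ≤ r ^ 2 / m := Nat.floor_le (by positivity)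
    rwa [le_div_iff₀ hm0] at h2
  have hk2 : r ^ 2 - m ≤ (k : ℝ) * m := by
    have h2 : r ^ 2 / m < (k : ℝ) + 1 := Nat.lt_floor_add_one _
    rw [div_lt_iff₀ hm0] at h2
    linarith
  set s : ℝ := Real.exp (-(ε₁ * r ^ 2)) with hs
  have hs0 : 0 < s := Real.exp_pos _
  have hs1 : s ≤ 1 := by
    rw [hs, Real.exp_le_one_iff]
    have : 0 ≤ ε₁ * r ^ 2 := by positivity
    linarith
  have hGb : ∀ w : ℂ, ‖(s : ℂ) * g (w / r) ^ k‖ ≤ s * Real.exp (‖w‖ ^ 2 / 2) := by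
    intro w
    rw [norm_mul, Complex.norm_real, Real.norm_eq_abs, abs_of_pos hs0, norm_pow]
    apply mul_le_mul_of_nonneg_left _ hs0.le
    have h2 : ‖g (w / r)‖ ^ k ≤ Real.exp (m * ‖w / r‖ ^ 2 / 2) ^ k :=
      pow_le_pow_left₀ (norm_nonneg _) (hgb _) k
    refine h2.trans ?_
    rw [← Real.exp_nat_mul]
    apply Real.exp_le_exp.2
    rw [norm_div, Complex.norm_real, Real.norm_eq_abs, abs_of_pos hr0, div_pow]
    have h3 : (k : ℝ) * (m * (‖w‖ ^ 2 / r ^ 2) / 2) = (k * m / r ^ 2) * (‖w‖ ^ 2 / 2) := by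
      ring
    rw [h3]
    have h4 : (k : ℝ) * m / r ^ 2 ≤ 1 := by
      rw [div_le_one (by positivity)]
      exact hk1
    have h5 : 0 ≤ ‖w‖ ^ 2 / 2 := by positivity
    nlinarith
  have hGd : Differentiable ℂ fun w : ℂ => (s : ℂ) * g (w / r) ^ k := by
    have h2 : Differentiable ℂ fun w : ℂ => g (w / r) :=
      hgd.comp (differentiable_id.div_const _)
    exact (differentiable_const _).mul (h2.pow k)
  obtain ⟨q, hq1, hq2, hq3⟩ := hTAY _ s n hGd hs0.le hGb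
  have hmain : ∀ x ∈ K, 2 * Real.exp (r ^ 2 * (Real.log ‖g x‖ / m - 2 * ε₁)) ≤
      ‖(s : ℂ) * g ((r : ℂ) * x / r) ^ k‖ := by
    intro x hx
    have hrx : (r : ℂ) * x / r = x := by
      have : (r : ℂ) ≠ 0 := by exact_mod_cast hr0.ne'
      field_simp
    rw [hrx, norm_mul, Complex.norm_real, Real.norm_eq_abs, abs_of_pos hs0, norm_pow]
    have hgx : 0 < ‖g x‖ := norm_pos_iff.2 (hg0 x hx)
    have h2 : ‖g x‖ ^ k = Real.exp (k * Real.log ‖g x‖) := by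
      rw [Real.exp_nat_mul, Real.exp_log hgx]
    have h3 : (2 : ℝ) ≤ Real.exp 1 := by
      have := Real.add_one_le_exp (1 : ℝ)
      linarith
    rw [h2, hs, ← Real.exp_add]
    have h4 : 2 * Real.exp (r ^ 2 * (Real.log ‖g x‖ / m - 2 * ε₁)) ≤
        Real.exp 1 * Real.exp (r ^ 2 * (Real.log ‖g x‖ / m - 2 * ε₁)) :=
      mul_le_mul_of_nonneg_right h3 (Real.exp_pos _).le
    refine h4.trans ?_
    rw [← Real.exp_add]
    apply Real.exp_le_exp.2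
    obtain ⟨y, hy⟩ : ∃ y, y = Real.log ‖g x‖ / m := ⟨_, rfl⟩
    have hy2 : Real.log ‖g x‖ = m * y := by rw [hy]; field_simp
    have hyb : |y| ≤ Ψ := by rw [hy]; exact hΨ x hx
    rw [← hy, hy2]
    have h5 : -(m * Ψ) ≤ (k * m - r ^ 2) * y := by
      have h6 : |(k * m - r ^ 2) * y| ≤ m * Ψ := by
        rw [abs_mul]
        apply mul_le_mul _ hyb (abs_nonneg _) hm0.le
        rw [abs_le]
        constructor <;> linarith
      exact (abs_le.1 h6).1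
    have h7 : m * Ψ + 1 ≤ ε₁ * r ^ 2 := by
      rw [div_le_iff₀ hε] at h1
      have : r ≤ r ^ 2 := by nlinarith
      calc m * Ψ + 1 ≤ r * ε₁ := h1
        _ ≤ r ^ 2 * ε₁ := mul_le_mul_of_nonneg_right this hε.le
        _ = _ := by ring
    nlinarith
  have htl : ∀ x ∈ K, 8 * Real.exp (-(W * r ^ 2)) ≤ ‖(s : ℂ) * g ((r : ℂ) * x / r) ^ k‖ := by
    intro x hx
    refine le_trans ?_ (hmain x hx)
    have hyb : -Ψ ≤ Real.log ‖g x‖ / m := (abs_le.1 (hΨ x hx)).1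
    have h2 : (4 : ℝ) ≤ Real.exp (7 / 2 * r ^ 2) := by
      have := Real.add_one_le_exp (7 / 2 * r ^ 2)
      linarith
    have h3 : 4 * Real.exp (-(W * r ^ 2)) ≤
        Real.exp (r ^ 2 * (Real.log ‖g x‖ / m - 2 * ε₁)) := by
      calc 4 * Real.exp (-(W * r ^ 2)) ≤ Real.exp (7 / 2 * r ^ 2) * Real.exp (-(W * r ^ 2)) :=
            mul_le_mul_of_nonneg_right h2 (Real.exp_pos _).le
        _ = Real.exp (7 / 2 * r ^ 2 + -(W * r ^ 2)) := (Real.exp_add _ _).symm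
        _ ≤ _ := by
            apply Real.exp_le_exp.2
            rw [hW]
            have h4 : -Ψ - 1 / 2 ≤ Real.log ‖g x‖ / m - 2 * ε₁ := by linarith
            have h5 : r ^ 2 * (-Ψ - 1 / 2) ≤ r ^ 2 * (Real.log ‖g x‖ / m - 2 * ε₁) :=
              mul_le_mul_of_nonneg_left h4 (by positivity)
            nlinarith
    linarith
  have hdiff : ∀ x ∈ K, ‖(s : ℂ) * g ((r : ℂ) * x / r) ^ k - q.eval ((r : ℂ) * x)‖ ≤
      2 * Real.exp (-(W * r ^ 2)) := by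
    intro x hx
    refine (hq3 _).trans ?_
    have h2 : ‖(r : ℂ) * x‖ = r * ‖x‖ := by
      rw [norm_mul, Complex.norm_real, Real.norm_eq_abs, abs_of_pos hr0]
    rw [h2]
    have h3 := htail ‖x‖ (norm_nonneg _) (hR x hx)
    calc 2 * s * (∑' k : ℕ, (if n < k then (k : ℝ) * (r * ‖x‖) ^ k /
          Real.sqrt (k.factorial : ℝ) else 0)) ≤ 2 * s * Real.exp (-(W * r ^ 2)) :=
          mul_le_mul_of_nonneg_left h3 (by positivity)
      _ ≤ 2 * 1 * Real.exp (-(W * r ^ 2)) := by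
          apply mul_le_mul_of_nonneg_right _ (Real.exp_pos _).le
          linarith
      _ = _ := by ring
  have hq : ∀ x ∈ K, 3 / 4 * ‖(s : ℂ) * g ((r : ℂ) * x / r) ^ k‖ ≤ ‖q.eval ((r : ℂ) * x)‖ := by
    intro x hx
    have h2 := hdiff x hx
    have h3 := htl x hx
    have h4 : ‖(s : ℂ) * g ((r : ℂ) * x / r) ^ k‖ ≤
        ‖(s : ℂ) * g ((r : ℂ) * x / r) ^ k - q.eval ((r : ℂ) * x)‖ + ‖q.eval ((r : ℂ) * x)‖ := by
      have := norm_add_le ((s : ℂ) * g ((r : ℂ) * x / r) ^ k - q.eval ((r : ℂ) * x))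
        (q.eval ((r : ℂ) * x))
      rwa [sub_add_cancel] at this
    linarith
  refine ⟨q, hq1, hq2, fun x hx => ?_, fun x hx => ?_⟩
  · have h2 := hq x hx
    have h3 := hmain x hx
    have h4 := Real.exp_pos (r ^ 2 * (Real.log ‖g x‖ / m - 2 * ε₁))
    linarith
  · have h2 := hq x hx
    have h3 := htl x hx
    have h4 := htail ‖x‖ (norm_nonneg _) (hR x hx)
    have h5 := Real.exp_pos (-(W * r ^ 2))
    linarith

end UPC

theorem UPC_thm (hTAI : Pool.Agent.GH.TAILE_Stmt) (hGRM : GRM_Stmt) (hMAS : MAS_Stmt)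
    (hDRP : DRP_Stmt) (hTAY : TAY_Stmt) (hHOF : HOF_Stmt.{u}) : UPC_Stmt.{u} := by
  intro Ω _ P ξ hξ K c hK hGood ε hε
  obtain ⟨m, hm, g, hH, hev⟩ := hGood
  have hm0 : (0 : ℝ) < m := by
    have : 0 < m := hm
    exact_mod_cast this
  -- the exponent is nonnegative
  have hc : 0 ≤ c := by
    obtain ⟨r, hr1, hr2⟩ := (hev.and (eventually_ge_atTop (1 : ℝ))).exists
    have h := hr1 0 (fun i => i.elim0) (fun i => i.elim0)
    simp at h
    have h2 : 0 < r ^ 4 := by positivity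
    by_contra hlt
    push Not at hlt
    have := mul_neg_of_neg_of_pos hlt h2
    linarith
  obtain ⟨R₀, hR₀1, hR⟩ : ∃ R₀ : ℝ, 1 ≤ R₀ ∧ ∀ z ∈ K, ‖z‖ ≤ R₀ := by
    obtain ⟨R, hR⟩ := hK.isBounded.exists_norm_le
    exact ⟨max 1 R, le_max_left _ _, fun z hz => (hR z hz).trans (le_max_right _ _)⟩
  have hcont : ContinuousOn (fun z => Real.log ‖g z‖ / m) K := by
    apply ContinuousOn.div_const
    apply ContinuousOn.log
    · exact (hH.1.continuous.norm).continuousOn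
    · intro z hz
      exact norm_ne_zero_iff.2 (hH.2.1 z hz)
  obtain ⟨Ψ, hΨ0, hΨ⟩ : ∃ Ψ : ℝ, 0 ≤ Ψ ∧ ∀ z ∈ K, |Real.log ‖g z‖ / m| ≤ Ψ := by
    obtain ⟨C, hC⟩ := hK.exists_bound_of_continuousOn hcont
    refine ⟨max 0 C, le_max_left _ _, fun z hz => ?_⟩
    have := hC z hz
    rw [Real.norm_eq_abs] at this
    exact this.trans (le_max_right _ _)
  obtain ⟨α, hα, hmas⟩ := hMAS R₀ (c + 1) hR₀1 (by linarith)
  obtain ⟨ε₁, hε₁⟩ : ∃ ε₁ : ℝ, ε₁ = min 1 (ε / 2) / (4 * α + 4) := ⟨_, rfl⟩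
  have hmin0 : 0 < min 1 (ε / 2) := lt_min one_pos (by linarith)
  have hε₁0 : 0 < ε₁ := by rw [hε₁]; positivity
  have hε₁m : ε₁ * (4 * α + 4) = min 1 (ε / 2) := by
    rw [hε₁]
    field_simp
  have hε₁1 : ε₁ * (4 * α + 4) ≤ 1 := by rw [hε₁m]; exact min_le_left _ _
  have hε₁2 : ε₁ * (4 * α + 4) ≤ ε / 2 := by rw [hε₁m]; exact min_le_right _ _
  have hε₁a : 0 < ε₁ * α := by positivity
  have hε₁4 : ε₁ ≤ 1 / 4 := by nlinarith
  obtain ⟨v, hv⟩ : ∃ v : ℝ, v = c + 4 * ε₁ * α := ⟨_, rfl⟩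
  have hv0 : 0 ≤ v := by rw [hv]; nlinarith
  have hv1 : v ≤ c + 1 := by rw [hv]; nlinarith
  have hv2 : v ≤ c + ε / 2 := by rw [hv]; nlinarith
  obtain ⟨A, hA1, hA⟩ := hTAI R₀ (Ψ + 4) (by linarith) (by linarith)
  have hA' := hA A le_rfl
  filter_upwards [hev, hmas, hA', eventually_ge_atTop (1 : ℝ),
    eventually_ge_atTop ((m * Ψ + 1) / ε₁), eventually_ge_atTop (144 * A ^ 2 / ε₁ ^ 3),
    eventually_ge_atTop (2 * (2 + 8 * A + 16 * A * Real.sqrt (2 * A)) / ε)] with r hgood hmas'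
      htail hr1 hr2 hr3 hr4
  have hr0 : 0 < r := by linarith
  obtain ⟨n, hn⟩ : ∃ n : ℕ, n = ⌊A * r ^ 2⌋₊ := ⟨_, rfl⟩
  have hnA : (n : ℝ) ≤ A * r ^ 2 := by
    rw [hn]
    exact Nat.floor_le (by positivity)
  have hn1 : 1 ≤ n := by
    rw [hn]
    apply Nat.le_floor
    have : 1 ≤ r ^ 2 := one_le_pow₀ hr1
    push_cast
    nlinarith
  have hT : Real.sqrt A ^ 2 = A := Real.sq_sqrt (by linarith)
  have hBM : ∀ n' : ℕ, BM K (n + 1) r (fun z => Real.log ‖g z‖ / m - 2 * ε₁) n'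
      (Real.exp (v * r ^ 4)) :=
    hmas' K (fun z => Real.log ‖g z‖ / m - 2 * ε₁) (n + 1) v hR hv0 hv1
      fun n' hn' => UPC.bm_small hGRM hm hH.2.1 hε₁0 hr0 hv hgood (n + 1) n' hn'
  have hBY : BY K (Real.sqrt A) r (fun z => Real.log ‖g z‖ / m - 2 * ε₁) (n + 1)
      (Real.exp (v * r ^ 4)) :=
    hDRP K (Real.sqrt A) r _ (n + 1) _ fun n' _ => hBM n'
  obtain ⟨q, hq1, hq2, hq3, hq4⟩ := UPC.approx hTAY hm hH (n := n) hε₁0 hε₁4 hr1 hΨ0 hΨ hR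
    (W := Ψ + 4) rfl hr2 (fun t ht0 ht1 => htail n t hn ht0 ht1)
  have hf : fock n q ≤ 1 / 16 :=
    hq2.trans (UPC.fock_small hA1 hr1 hε₁0 hnA rfl hr3)
  have hfin := hHOF P ξ hξ K n r (Real.sqrt A) (Real.exp (v * r ^ 4))
    (fun z => Real.log ‖g z‖ / m - 2 * ε₁) q hK hn1 hr0 (Real.sqrt_pos.2 (by linarith))
    (by rw [hT]; exact hnA) (hcont.sub continuousOn_const) hq1 hf (Real.exp_pos _) hBY hq3 hq4
  exact (UPC.final_exp (ε₁ := ε₁) hA1 hr1 hε hv2 hnA hr4).trans hfin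

end Pool.Agent.HX
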