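import Pool.Agent.HX.MAI
import Pool.Agent.HX.FEK
import Pool.Agent.HX.LFA
import Pool.Agent.HX.INT
import Pool.Agent.HX.PSD
import Pool.Agent.HX.GRM
import Pool.Agent.HX.GBD
import Pool.Agent.HX.MAS
import Pool.Agent.HX.FIL
import Pool.Agent.HX.DRP
import Pool.Agent.HX.SCA
import Pool.Agent.HX.HOF
import Pool.Agent.HX.TAY
import Pool.Agent.HX.UPC
import Pool.Agent.HX.AND
import Pool.Agent.HX.DDP
import Pool.Agent.HX.MMX
import Pool.Agent.HX.NEG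
import Pool.Agent.HX.LWA
import Pool.Agent.HX.LOW
import Pool.Agent.HX.PRW
import Pool.Agent.HX.ADM
import Pool.Agent.HX.INR
import Pool.Agent.HX.CPD
import Pool.Agent.HA.GRO
import Pool.Agent.HA.TLP
import Pool.Agent.HA.HIN
import Pool.Agent.HA.RJC

/-!
The modules put together.
-/

namespace Pool.Agent.HX

open MeasureTheory ProbabilityTheory Filter Topology Pool.Agent.GH Pool.Agent.HA

universe u

theorem a_LFA : LFA_Stmt := LFA_thm FACT_thm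
theorem a_GRM : GRM_Stmt := GRM_thm PSD_thm
theorem a_GBD : GBD_Stmt := GBD_thm INT_thm a_GRM
theorem a_MAS : MAS_Stmt := MAS_thm FEK_thm a_LFA a_GRM a_GBD
theorem a_FIL : FIL_Stmt := FIL_thm CAU_thm a_GRM
theorem a_DRP : DRP_Stmt := DRP_thm a_GRM
theorem a_SCA : SCA_Stmt := SCA_thm FEK_thm a_LFA a_GRM a_GBD a_MAS a_FIL
theorem a_HOF : HOF_Stmt.{u} := HOF_thm GDENS_thm INDT_thm CAU_thm RJC_thm
theorem a_UPC : UPC_Stmt.{u} := UPC_thm TAILE_thm a_GRM a_MAS a_DRP TAY_thm a_HOF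
theorem a_DDP : DDP_Stmt := DDP_thm PSD_thm AND_thm
theorem a_MMX : MMX_Stmt := MMX_thm a_DDP
theorem a_NEG : NEG_Stmt.{u} := NEG_thm GSB_thm RJC_thm
theorem a_LWA : LWA_Stmt.{u} := LWA_thm (TLP_thm GSB_thm) HIN_thm AND_thm a_NEG
theorem a_LOW : LOW_Stmt.{u} := LOW_thm GRO_thm a_GRM a_MMX a_LWA
theorem a_ADM : ADM_Stmt.{u} := ADM_thm a_SCA a_LOW PRW_thm
theorem a_INR : INR_Stmt := INR_thm ROU_thm a_LFA a_GRM
theorem a_CPD : CPD_Stmt := CPD_thm (CAPA_thm ROU_thm)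

end Pool.Agent.HX
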