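import Pool.Agent.HX.Stmts
import Pool.Agent.GH.Final
import Pool.Agent.HA.EXI
import Pool.Agent.HA.GSB

/-!
# MAI: the exponent of every compact set, from the statements of the modules
-/

namespace Pool.Agent.HX

open MeasureTheory ProbabilityTheory Filter Topology Pool.Agent.GH Pool.Agent.HA

universe u

namespace MAI

/-- Good exponents are nonnegative. -/
theorem good_nonneg {K : Set ℂ} {c : ℝ} (h : Good K c) : 0 ≤ c := by
  obtain ⟨m, _, g, _, hev⟩ := h
  obtain ⟨r, hr, hr1⟩ := (hev.and (eventually_ge_atTop (1 : ℝ))).exists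
  have h0 := hr 0 (fun i => i.elim0) (fun i => i.elim0)
  simp only [Matrix.det_isEmpty, norm_one, Finset.univ_eq_empty, Finset.prod_empty,
    mul_one] at h0
  have h1 : 0 ≤ c * r ^ 4 := by
    rw [← Real.exp_zero] at h0
    exact Real.exp_le_exp.1 h0
  have h2 : 0 < r ^ 4 := by positivity
  exact nonneg_of_mul_nonneg_left h1 h2

theorem bdd (K : Set ℂ) : BddBelow {c : ℝ | Good K c} := ⟨0, fun _ hc => good_nonneg hc⟩

theorem jex_le {K : Set ℂ} {c : ℝ} (h : Good K c) : Jex K ≤ c := csInf_le (bdd K) h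

/-- Some lower bound for the hole probability. -/
theorem exists_Q {Ω : Type u} [MeasurableSpace Ω] (P : Measure Ω) (ξ : ℕ → Ω → ℂ)
    (hξ : IsGauss P ξ) (K : Set ℂ) (hK : IsCompact K) :
    ∃ Q : ℝ, ∀ᶠ r : ℝ in atTop, Real.exp (-(Q * r ^ 4)) ≤ holeP P ξ K r := by
  rcases K.eq_empty_or_nonempty with rfl | hne
  · refine ⟨0, Eventually.of_forall fun r => ?_⟩
    have := hξ.prob
    simp [holeP]
  · exact ⟨_, Final.hole_lb P ξ hξ K hK hne 1 one_pos⟩

theorem log_le {p E r : ℝ} (h : Real.exp (-(E * r ^ 4)) ≤ p) (hr : 0 < r) :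
    -Real.log p / r ^ 4 ≤ E := by
  have h1 := Real.log_le_log (Real.exp_pos _) h
  rw [Real.log_exp] at h1
  rw [div_le_iff₀ (by positivity)]
  linarith

/-- The exponent exists. -/
theorem lim (hUPC : UPC_Stmt.{u}) (hADM : ADM_Stmt.{u}) {Ω : Type u} [MeasurableSpace Ω]
    (P : Measure Ω) (ξ : ℕ → Ω → ℂ) (hξ : IsGauss P ξ) (K : Set ℂ) (hK : IsCompact K) :
    {c : ℝ | Good K c}.Nonempty ∧
    Tendsto (fun r : ℝ => -Real.log (holeP P ξ K r) / r ^ 4) atTop (𝓝 (Jex K)) := by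
  obtain ⟨Q, hQ⟩ := exists_Q P ξ hξ K hK
  have hne : {c : ℝ | Good K c}.Nonempty := by
    obtain ⟨r, hr⟩ := (hADM P ξ hξ K Q hK hQ 1 one_pos).exists
    exact ⟨_, hr⟩
  refine ⟨hne, ?_⟩
  rw [Metric.tendsto_nhds]
  intro ε hε
  obtain ⟨c, hc, hcl⟩ := exists_lt_of_csInf_lt hne
    (show sInf {c : ℝ | Good K c} < Jex K + ε / 2 from by unfold Jex; linarith)
  filter_upwards [hADM P ξ hξ K Q hK hQ (ε / 2) (by positivity),
    hUPC P ξ hξ K c hK hc (ε / 4) (by positivity), eventually_gt_atTop (0 : ℝ)] with r h1 h2 h3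
  have h4 := jex_le h1
  have h5 := log_le h2 h3
  rw [Real.dist_eq, abs_lt]
  constructor <;> linarith

/-- Comparison with the capacity. -/
theorem jex_le_cap (hUPC : UPC_Stmt.{0}) (hADM : ADM_Stmt.{0}) (K : Set ℂ) (hK : IsCompact K)
    (hne : K.Nonempty) : Jex K ≤ Real.exp 2 / 4 * cap K ^ 4 := by
  obtain ⟨Ω, mΩ, P, ξ, hξ⟩ := EXI_thm GSB_thm
  have hl := (lim hUPC hADM P ξ hξ K hK).2
  refine le_of_forall_pos_le_add fun ε hε => ?_
  refine le_of_tendsto hl ?_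
  filter_upwards [Final.hole_lb P ξ hξ K hK hne ε hε, eventually_gt_atTop (0 : ℝ)] with r h1 h2
  exact log_le h1 h2

theorem jex_lt_cap (hUPC : UPC_Stmt.{0}) (hADM : ADM_Stmt.{0}) (K : Set ℂ) (hK : IsCompact K)
    (hc : IsConnected K) (hi : (interior K).Nonempty)
    (hd : ¬ ∃ (z : ℂ) (ρ : ℝ), K = Metric.closedBall z ρ) :
    Jex K < Real.exp 2 / 4 * cap K ^ 4 := by
  obtain ⟨Ω, mΩ, P, ξ, hξ⟩ := EXI_thm GSB_thm
  have hl := (lim hUPC hADM P ξ hξ K hK).2
  obtain ⟨δ, hδ, hev⟩ := Final.hole_strict P ξ hξ K hK hc hi hd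
  have : Jex K ≤ Real.exp 2 / 4 * cap K ^ 4 - δ := by
    refine le_of_tendsto hl ?_
    filter_upwards [hev, eventually_gt_atTop (0 : ℝ)] with r h1 h2
    exact log_le h1 h2
  linarith

theorem inr_le (hUPC : UPC_Stmt.{0}) (hADM : ADM_Stmt.{0}) (hINR : INR_Stmt) (K : Set ℂ)
    (hK : IsCompact K) (a : ℂ) (ρ : ℝ) (hρ : 0 < ρ) (h : Metric.closedBall a ρ ⊆ K) :
    Real.exp 2 / 4 * ρ ^ 4 ≤ Jex K := by
  obtain ⟨Ω, mΩ, P, ξ, hξ⟩ := EXI_thm GSB_thm
  exact le_csInf (lim hUPC hADM P ξ hξ K hK).1 fun c hc => hINR K c hc a ρ hρ h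

/-- The capacity formula holds exactly for the closed disks. -/
theorem iff_disk (hUPC : UPC_Stmt.{0}) (hADM : ADM_Stmt.{0}) (hINR : INR_Stmt) (hCPD : CPD_Stmt)
    (K : Set ℂ) (hK : IsCompact K) (hc : IsConnected K) (hi : (interior K).Nonempty) :
    Jex K = Real.exp 2 / 4 * cap K ^ 4 ↔ ∃ (z : ℂ) (ρ : ℝ), K = Metric.closedBall z ρ := by
  constructor
  · intro h
    by_contra hd
    exact absurd h (jex_lt_cap hUPC hADM K hK hc hi hd).ne
  · rintro ⟨z, ρ, rfl⟩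
    have hρ : 0 < ρ := by
      by_contra h0
      push Not at h0
      rcases h0.lt_or_eq with h1 | h1
      · rw [Metric.closedBall_eq_empty.2 h1, interior_empty] at hi
        exact Set.not_nonempty_empty hi
      · rw [h1, Metric.closedBall_zero, interior_singleton] at hi
        exact Set.not_nonempty_empty hi
    refine le_antisymm (jex_le_cap hUPC hADM _ hK hc.nonempty) ?_
    rw [hCPD z ρ hρ]
    exact inr_le hUPC hADM hINR _ hK z ρ hρ le_rfl

end MAI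

end Pool.Agent.HX
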