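import Pool.Agent.HX.Stmts
import Pool.Agent.GH.GDENS

/-!
# NEG: expectation of a product of functions of the values of a Taylor polynomial at `N` points
-/

namespace Pool.Agent.HX

open MeasureTheory ProbabilityTheory Filter Topology Pool.Agent.GH Pool.Agent.HA

universe u

namespace NEG

open scoped ENNReal

/-- The Gaussian measure is at most `π^-k` times Lebesgue measure. -/
theorem lintegral_pi_stdC_le (k : ℕ) [IsProbabilityMeasure stdC] (F : (Fin k → ℂ) → ℝ≥0∞)
    (hF : Measurable F) :
    ∫⁻ x, F x ∂(Measure.pi fun _ : Fin k => stdC) ≤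
      ENNReal.ofReal (1 / Real.pi) ^ k * ∫⁻ x, F x := by
  have hg : Measurable fun x : Fin k → ℂ => ∏ i, GDENS.g (x i) :=
    Finset.measurable_fun_prod _ fun i _ => GDENS.measurable_g.comp (measurable_pi_apply i)
  rw [GDENS.pi_stdC, lintegral_withDensity_eq_lintegral_mul _ hg hF, ← lintegral_const_mul _ hF]
  refine lintegral_mono fun x => ?_
  rw [Pi.mul_apply]
  refine mul_le_mul_left ?_ _
  calc ∏ i, GDENS.g (x i) ≤ ∏ _i : Fin k, ENNReal.ofReal (1 / Real.pi) := by
        refine Finset.prod_le_prod' fun i _ => ?_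
        unfold GDENS.g
        apply ENNReal.ofReal_le_ofReal
        apply div_le_div_of_nonneg_right _ Real.pi_pos.le
        rw [Real.exp_le_one_iff]
        have := sq_nonneg ‖x i‖
        linarith
    _ = ENNReal.ofReal (1 / Real.pi) ^ k := by
        rw [Finset.prod_const, Finset.card_univ, Fintype.card_fin]

/-- The bound for given values of the other coefficients. -/
theorem bound (h3 : RJC_Stmt) [IsProbabilityMeasure stdC] (k : ℕ)
    (M : Matrix (Fin k) (Fin k) ℂ) (hM : M.det ≠ 0) (h : Fin k → ℂ → ℝ≥0∞)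
    (hm : ∀ j, Measurable (h j)) (c : Fin k → ℂ) :
    ∫⁻ x, ∏ j, h j ((M.mulVec x + c) j) ∂(Measure.pi fun _ : Fin k => stdC) ≤
      ENNReal.ofReal (1 / ‖M.det‖ ^ 2) *
        ∏ j, (ENNReal.ofReal (1 / Real.pi) * ∫⁻ v, h j v) := by
  have hF : Measurable fun w : Fin k → ℂ => ∏ j, h j (w j) :=
    Finset.measurable_fun_prod _ fun i _ => (hm i).comp (measurable_pi_apply i)
  have haff : Measurable fun x : Fin k → ℂ => M.mulVec x + c := by
    have : Continuous fun x : Fin k → ℂ => M.mulVec x + c := by
      have h1 : Continuous fun x : Fin k → ℂ => M.mulVec x :=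
        (Matrix.mulVecLin M).continuous_of_finiteDimensional
      exact h1.add continuous_const
    exact this.measurable
  have h4 := lintegral_pi_stdC_le k (fun x => ∏ j, h j ((M.mulVec x + c) j)) (hF.comp haff)
  refine h4.trans (le_of_eq ?_)
  have h5 := h3 k M hM (fun w => ∏ j, h j (w j)) hF c
  rw [h5, GDENS.lintegral_pi_prod _ hm, Finset.prod_mul_distrib, Finset.prod_const,
    Finset.card_univ, Fintype.card_fin]
  ring

end NEG

open NEG in
theorem NEG_thm (hGSB : Pool.Agent.HA.GSB_Stmt) (hRJC : Pool.Agent.HA.RJC_Stmt) :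
    NEG_Stmt.{u} := by
  classical
  intro Ω _ P ξ hG k N z h hkN hm hdet
  have hst : IsProbabilityMeasure stdC := hGSB.1
  have hprob := hG.prob
  -- the two families
  set S : Finset ℕ := Finset.range k with hS
  set T : Finset ℕ := Finset.range N \ S with hT
  have hSN : S ⊆ Finset.range N := by
    intro n hn
    rw [hS, Finset.mem_range] at hn
    rw [Finset.mem_range]
    omega
  have hdisj : Disjoint S T := Finset.disjoint_sdiff
  have hindST := hG.indep.indepFun_finset S T hdisj hG.meas
  have hmemS : ∀ i : Fin k, (i : ℕ) ∈ S := by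
    intro i
    rw [hS, Finset.mem_range]
    exact i.2
  set pr : (S → ℂ) → (Fin k → ℂ) := fun x i => x ⟨(i : ℕ), hmemS i⟩ with hpr
  have hprm : Measurable pr := measurable_pi_lambda _ fun i => measurable_pi_apply _
  set X : Ω → (Fin k → ℂ) := fun ω i => ξ (i : ℕ) ω with hX
  set Y : Ω → (T → ℂ) := fun ω n => ξ n ω with hY
  have hXm : Measurable X := measurable_pi_lambda _ fun i => hG.meas _
  have hYm : Measurable Y := measurable_pi_lambda _ fun n => hG.meas _
  have hXY : IndepFun X Y P := hindST.comp hprm measurable_id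
  -- the law of the first family
  have hlaw : P.map X = Measure.pi fun _ : Fin k => stdC := by
    have hinj : Function.Injective fun i : Fin k => (i : ℕ) := fun a b hab => Fin.ext hab
    have hind : iIndepFun (fun i : Fin k => ξ (i : ℕ)) P := hG.indep.precomp hinj
    have h4 := (iIndepFun_iff_map_fun_eq_pi_map
      (fun i : Fin k => (hG.meas (i : ℕ)).aemeasurable)).mp hind
    rw [h4]
    congr 1
    funext i
    exact hG.law _
  -- the integrand
  set M := VM 0 k z with hMdef
  set cc : (T → ℂ) → (Fin k → ℂ) := fun y j =>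
    ∑ n : T, y n * z j ^ (n : ℕ) / (Real.sqrt ((n : ℕ).factorial : ℝ) : ℂ) with hcc
  set G : (Fin k → ℂ) × (T → ℂ) → ENNReal := fun p =>
    ∏ j, h j ((M.mulVec p.1 + cc p.2) j) with hGdef
  have hccm : Measurable cc := by
    refine measurable_pi_lambda _ fun j => ?_
    refine Finset.measurable_fun_sum _ fun n _ => ?_
    exact ((measurable_pi_apply n).mul_const _).div_const _
  have hmulm : Measurable fun x : Fin k → ℂ => M.mulVec x :=
    ((Matrix.mulVecLin M).continuous_of_finiteDimensional).measurable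
  have hGm : Measurable G := by
    refine Finset.measurable_fun_prod _ fun j _ => (hm j).comp ?_
    exact (measurable_pi_apply j).comp
      ((hmulm.comp measurable_fst).add (hccm.comp measurable_snd))
  have hkey : ∀ ω, ∏ j, h j (serN (co ξ ω) N (z j)) = G (X ω, Y ω) := by
    intro ω
    rw [hGdef]
    refine Finset.prod_congr rfl fun j _ => ?_
    congr 1
    rw [serN, ← Finset.sum_sdiff hSN, add_comm, Pi.add_apply]
    congr 1
    · rw [hS, Finset.sum_range]
      change _ = ∑ i, M j i * X ω i
      refine Finset.sum_congr rfl fun i _ => ?_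
      rw [hMdef, VM, Matrix.of_apply, hX, co]
      simp only [Nat.zero_add]
      ring
    · rw [hcc]
      exact (Finset.sum_coe_sort T
        (fun n : ℕ => co ξ ω n * z j ^ n / (Real.sqrt (n.factorial : ℝ) : ℂ))).symm
  calc ∫⁻ ω, ∏ j, h j (serN (co ξ ω) N (z j)) ∂P = ∫⁻ ω, G (X ω, Y ω) ∂P :=
        lintegral_congr hkey
    _ = ∫⁻ p, G p ∂(P.map fun ω => (X ω, Y ω)) := (lintegral_map hGm (hXm.prodMk hYm)).symm
    _ = ∫⁻ p, G p ∂((P.map X).prod (P.map Y)) := by
        rw [(indepFun_iff_map_prod_eq_prod_map_map hXm.aemeasurable hYm.aemeasurable).mp hXY]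
    _ = ∫⁻ y, ∫⁻ x, G (x, y) ∂(P.map X) ∂(P.map Y) := by
        have : IsProbabilityMeasure (P.map X) :=
          Measure.isProbabilityMeasure_map hXm.aemeasurable
        have : IsProbabilityMeasure (P.map Y) :=
          Measure.isProbabilityMeasure_map hYm.aemeasurable
        exact lintegral_prod_symm _ hGm.aemeasurable
    _ ≤ ∫⁻ _y, ENNReal.ofReal (1 / ‖M.det‖ ^ 2) *
          ∏ j, (ENNReal.ofReal (1 / Real.pi) * ∫⁻ v, h j v) ∂(P.map Y) := by
        refine lintegral_mono fun y => ?_
        rw [hlaw]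
        exact bound hRJC k M hdet h hm (cc y)
    _ = ENNReal.ofReal (1 / ‖M.det‖ ^ 2) *
          ∏ j, (ENNReal.ofReal (1 / Real.pi) * ∫⁻ v, h j v) := by
        have : IsProbabilityMeasure (P.map Y) :=
          Measure.isProbabilityMeasure_map hYm.aemeasurable
        rw [lintegral_const, measure_univ, mul_one]

end Pool.Agent.HX
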